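import Pool.Agent.Lib.MP_4ddf81_pr.Stm2

/-!
# MP_4ddf81_pr, stage 2, piece AbSub
-/

namespace NilCut

theorem p_AbSub : S_AbSub := by
  intro G _ _ L H hLH
  set π : Abelianization L →* Abelianization H :=
    Abelianization.map (Subgroup.inclusion hLH) with hπ
  have h1 : Nat.card π.range * π.range.index = Nat.card (Abelianization H) :=
    π.range.card_mul_index
  have h2 : Nat.card π.range ≤ Nat.card (Abelianization L) :=
    Nat.card_le_card_of_surjective π.rangeRestrict π.rangeRestrict_surjective
  have h3 : π.range.index ≤ L.relIndex H := by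
    have e : π.range = (Subgroup.inclusion hLH).range.map Abelianization.of := by
      ext w
      constructor
      · rintro ⟨v, rfl⟩
        obtain ⟨x, rfl⟩ : ∃ x, Abelianization.of x = v := QuotientGroup.mk'_surjective _ v
        exact ⟨_, ⟨x, rfl⟩, (Abelianization.map_of _ x).symm⟩
      · rintro ⟨_, ⟨x, rfl⟩, rfl⟩
        exact ⟨Abelianization.of x, Abelianization.map_of _ x⟩
    have h4 : π.range.index ∣ (Subgroup.inclusion hLH).range.index := by
      rw [e]
      exact Subgroup.index_map_dvd _ (QuotientGroup.mk'_surjective _)
    have h5 : (Subgroup.inclusion hLH).range.index = L.relIndex H := by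
      rw [Subgroup.inclusion_range]
      rfl
    rw [h5] at h4
    exact Nat.le_of_dvd (Nat.pos_of_ne_zero Subgroup.index_ne_zero_of_finite) h4
  rw [← h1]
  exact Nat.mul_le_mul h2 h3

end NilCut
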