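import Pool.Agent.Lib.MP_4ddf81_pr.Stm2
import Pool.Agent.Lib.MP_4ddf81_pr.P.T1
import Pool.Agent.Lib.MP_4ddf81_pr.P.T2

/-!
# MP_4ddf81_pr, stage 2, piece Anti: the distance decreases with time
-/

namespace NilCut

namespace Anti

variable {G : Type} [Group G]

open Finset

open Classical in
theorem stepLaw_zero {k : ℕ} (Z : Fin k → G) (g : G) :
    stepLaw Z 0 g = if g = 1 then 1 else 0 := by
  unfold stepLaw
  rw [T1.card_eq, pow_zero, div_one]
  have h1 : ∀ w : Fin 0 → Fin k, wprod Z w = 1 := by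
    intro w
    simp [wprod]
  rw [Finset.sum_congr rfl (fun w _ => by rw [h1 w])]
  by_cases hg : g = 1
  · rw [if_pos hg]
    subst hg
    simp
  · rw [if_neg hg, if_neg (fun h => hg h.symm)]
    simp

theorem stepLaw_add [Fintype G] {k : ℕ} (Z : Fin k → G) (a b : ℕ) (g : G) :
    ∑ h : G, stepLaw Z a h * stepLaw Z b (h⁻¹ * g) = stepLaw Z (a + b) g := by
  classical
  induction b generalizing g with
  | zero =>
    rw [add_zero]
    have h1 : ∀ h : G, stepLaw Z a h * stepLaw Z 0 (h⁻¹ * g) =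
        if h = g then stepLaw Z a h else 0 := by
      intro h
      rw [stepLaw_zero]
      by_cases hg : h = g
      · rw [if_pos hg, if_pos (by rw [hg, inv_mul_cancel]), mul_one]
      · rw [if_neg hg, if_neg (fun h' => hg (inv_mul_eq_one.1 h')), mul_zero]
    rw [Finset.sum_congr rfl (fun h _ => h1 h), Finset.sum_ite_eq' Finset.univ g]
    simp
  | succ b ih =>
    rw [← add_assoc, T1.stepLaw_succ]
    have h1 : ∀ h : G, stepLaw Z a h * stepLaw Z (b + 1) (h⁻¹ * g) =
        (1 / (k : ℝ)) * ∑ i : Fin k, stepLaw Z a h * stepLaw Z b (h⁻¹ * (g * (Z i)⁻¹)) := by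
      intro h
      rw [T1.stepLaw_succ, Finset.mul_sum, Finset.mul_sum, Finset.mul_sum]
      refine Finset.sum_congr rfl fun i _ => ?_
      rw [mul_assoc h⁻¹ g]
      ring
    rw [Finset.sum_congr rfl (fun h _ => h1 h), ← Finset.mul_sum, Finset.sum_comm]
    congr 1
    exact Finset.sum_congr rfl fun i _ => ih _

theorem pois_add (r t : ℝ) (n : ℕ) :
    pois (r + t) n = ∑ p ∈ antidiagonal n, pois r p.1 * pois t p.2 := by
  unfold pois
  have h1 : (r + t) ^ n / (n.factorial : ℝ) = ∑ p ∈ antidiagonal n,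
      (r ^ p.1 / (p.1.factorial : ℝ)) * (t ^ p.2 / (p.2.factorial : ℝ)) := by
    rw [(Commute.all r t).add_pow', Finset.sum_div]
    refine Finset.sum_congr rfl fun p hp => ?_
    have hp' := Finset.HasAntidiagonal.mem_antidiagonal.1 hp
    have hn : (n.factorial : ℝ) ≠ 0 := by exact_mod_cast n.factorial_ne_zero
    have hp1 : (p.1.factorial : ℝ) ≠ 0 := by exact_mod_cast p.1.factorial_ne_zero
    have hp2 : (p.2.factorial : ℝ) ≠ 0 := by exact_mod_cast p.2.factorial_ne_zero
    rw [nsmul_eq_mul, ← hp', Nat.cast_add_choose]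
    rw [← hp'] at hn
    field_simp
  rw [mul_div_assoc, h1, Finset.mul_sum]
  refine Finset.sum_congr rfl fun p _ => ?_
  rw [neg_add, Real.exp_add]
  ring

theorem law_nonneg [Fintype G] {k : ℕ} (hk : 0 < k) (Z : Fin k → G) {t : ℝ} (ht : 0 ≤ t)
    (g : G) : 0 ≤ law Z t g :=
  (T2.law_hasSum hk Z ht g).nonneg
    (fun n => mul_nonneg (T2.pois_nonneg ht n) (T2.stepLaw_nonneg Z n g))

theorem law_sum [Fintype G] {k : ℕ} (hk : 0 < k) (Z : Fin k → G) {t : ℝ} (ht : 0 ≤ t) :
    ∑ g : G, law Z t g = 1 := by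
  have h1 : HasSum (fun n => ∑ g : G, pois t n * stepLaw Z n g) (∑ g : G, law Z t g) :=
    hasSum_sum fun g _ => T2.law_hasSum hk Z ht g
  have h2 : (fun n => ∑ g : G, pois t n * stepLaw Z n g) = pois t := by
    funext n
    rw [← Finset.mul_sum, T2.stepLaw_sum hk, mul_one]
  rw [h2] at h1
  exact h1.unique (T2.pois_hasSum t)

theorem law_add [Fintype G] {k : ℕ} (hk : 0 < k) (Z : Fin k → G) {r t : ℝ} (hr : 0 ≤ r)
    (ht : 0 ≤ t) (g : G) : law Z (r + t) g = ∑ h : G, law Z r h * law Z t (h⁻¹ * g) := by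
  have h1 : ∀ h : G, HasSum (fun n => ∑ p ∈ antidiagonal n,
      (pois r p.1 * stepLaw Z p.1 h) * (pois t p.2 * stepLaw Z p.2 (h⁻¹ * g)))
      (law Z r h * law Z t (h⁻¹ * g)) := by
    intro h
    have s1 := T2.law_hasSum hk Z hr h
    have s2 := T2.law_hasSum hk Z ht (h⁻¹ * g)
    have n1 : Summable (fun n => ‖pois r n * stepLaw Z n h‖) := s1.summable.norm
    have n2 : Summable (fun n => ‖pois t n * stepLaw Z n (h⁻¹ * g)‖) := s2.summable.norm
    have e := tsum_mul_tsum_eq_tsum_sum_antidiagonal_of_summable_norm n1 n2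
    rw [s1.tsum_eq, s2.tsum_eq] at e
    rw [e]
    exact (summable_norm_sum_mul_antidiagonal_of_summable_norm n1 n2).of_norm.hasSum
  have h2 : HasSum (fun n => ∑ h : G, ∑ p ∈ antidiagonal n,
      (pois r p.1 * stepLaw Z p.1 h) * (pois t p.2 * stepLaw Z p.2 (h⁻¹ * g)))
      (∑ h : G, law Z r h * law Z t (h⁻¹ * g)) := hasSum_sum fun h _ => h1 h
  have h3 : (fun n => ∑ h : G, ∑ p ∈ antidiagonal n,
      (pois r p.1 * stepLaw Z p.1 h) * (pois t p.2 * stepLaw Z p.2 (h⁻¹ * g))) =
      fun n => pois (r + t) n * stepLaw Z n g := by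
    funext n
    rw [Finset.sum_comm, pois_add, Finset.sum_mul]
    refine Finset.sum_congr rfl fun p hp => ?_
    have hp' := Finset.HasAntidiagonal.mem_antidiagonal.1 hp
    rw [← hp', ← stepLaw_add Z p.1 p.2 g, Finset.mul_sum]
    refine Finset.sum_congr rfl fun h _ => ?_
    ring
  rw [h3] at h2
  exact (T2.law_hasSum hk Z (add_nonneg hr ht) g).unique h2

theorem dTV_add_le [Fintype G] {k : ℕ} (hk : 0 < k) (Z : Fin k → G) {r t : ℝ} (hr : 0 ≤ r)
    (ht : 0 ≤ t) : dTV Z (r + t) ≤ dTV Z t := by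
  unfold dTV
  apply mul_le_mul_of_nonneg_left _ (by norm_num)
  set c : ℝ := 1 / (Nat.card G : ℝ) with hc
  have h1 : ∀ g : G, |law Z (r + t) g - c| ≤ ∑ h : G, law Z r h * |law Z t (h⁻¹ * g) - c| := by
    intro g
    have e : law Z (r + t) g - c = ∑ h : G, law Z r h * (law Z t (h⁻¹ * g) - c) := by
      rw [law_add hk Z hr ht]
      have e2 : c = ∑ h : G, law Z r h * c := by
        rw [← Finset.sum_mul, law_sum hk Z hr, one_mul]
      conv_lhs => rw [e2]
      rw [← Finset.sum_sub_distrib]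
      refine Finset.sum_congr rfl fun h _ => ?_
      ring
    rw [e]
    refine (Finset.abs_sum_le_sum_abs _ _).trans (le_of_eq ?_)
    refine Finset.sum_congr rfl fun h _ => ?_
    rw [abs_mul, abs_of_nonneg (law_nonneg hk Z hr h)]
  calc ∑ g : G, |law Z (r + t) g - c| ≤ ∑ g : G, ∑ h : G, law Z r h * |law Z t (h⁻¹ * g) - c| :=
        Finset.sum_le_sum fun g _ => h1 g
    _ = ∑ h : G, law Z r h * ∑ g : G, |law Z t (h⁻¹ * g) - c| := by
        rw [Finset.sum_comm]
        refine Finset.sum_congr rfl fun h _ => ?_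
        rw [Finset.mul_sum]
    _ = ∑ h : G, law Z r h * ∑ g : G, |law Z t g - c| := by
        refine Finset.sum_congr rfl fun h _ => ?_
        congr 1
        exact Equiv.sum_comp (Equiv.mulLeft h⁻¹) (fun g => |law Z t g - c|)
    _ = ∑ g : G, |law Z t g - c| := by
        rw [← Finset.sum_mul, law_sum hk Z hr, one_mul]

end Anti

/-- Piece Anti. -/
theorem p_Anti : S_Anti := by
  intro G _ _ k Z t t' hk ht htt'
  refine ⟨?_, ?_, ?_⟩
  · have h := Anti.dTV_add_le hk Z (r := t' - t) (by linarith) ht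
    rwa [sub_add_cancel] at h
  · unfold dTV
    exact mul_nonneg (by norm_num) (Finset.sum_nonneg fun _ _ => abs_nonneg _)
  · unfold dTV
    have hG : (0 : ℝ) < (Nat.card G : ℝ) := by exact_mod_cast Nat.card_pos
    have h1 : ∑ g : G, |law Z t g - 1 / (Nat.card G : ℝ)| ≤
        ∑ g : G, (law Z t g + 1 / (Nat.card G : ℝ)) := by
      refine Finset.sum_le_sum fun g _ => ?_
      have h2 := Anti.law_nonneg hk Z ht g
      have h3 : (0 : ℝ) ≤ 1 / (Nat.card G : ℝ) := by positivity
      rw [abs_le]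
      constructor <;> linarith
    have h4 : ∑ g : G, (law Z t g + 1 / (Nat.card G : ℝ)) = 2 := by
      rw [Finset.sum_add_distrib, Anti.law_sum hk Z ht, Finset.sum_const, Finset.card_univ,
        nsmul_eq_mul, ← Nat.card_eq_fintype_card, mul_one_div_cancel hG.ne']
      norm_num
    linarith

end NilCut
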