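import Pool.Agent.Lib.MP_4ddf81_pr.Stm2

/-!
# MP_4ddf81_pr, stage 2 : piece B1
-/

namespace NilCut

theorem B1.bW_mem {G : Type} [Group G] (K₁ : Subgroup G) (hK : K₁.Normal) {k n : ℕ}
    (Z : Fin k → G) (w : Fin n → Fin k) (i : Fin k) {u : G} (hu : u ∈ K₁) :
    bW Z w i u ∈ K₁ := by
  unfold bW
  apply Subgroup.list_prod_mem
  intro x hx
  rw [List.mem_ofFn] at hx
  obtain ⟨j, rfl⟩ := hx
  split_ifs
  · exact hK.conj_mem u hu _
  · exact K₁.one_mem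

theorem B1.kill {G : Type} [Group G] (K₁ H : Subgroup G) (hK : K₁.Normal) (hKH : K₁ ≤ H)
    (S : Set G) (hS : S ⊆ K₁) (lam : H →* ℂˣ) (y : G)
    (h0 : ∀ b ∈ S, ∀ h : H, (h : G) = y⁻¹ * b * y → lam h = 1) :
    ∀ b ∈ Subgroup.closure S, ∀ h : H, (h : G) = y⁻¹ * b * y → lam h = 1 := by
  have hle : Subgroup.closure S ≤ K₁ := (Subgroup.closure_le _).2 hS
  have hmem : ∀ b ∈ Subgroup.closure S, y⁻¹ * b * y ∈ H := fun b hb =>
    hKH (by simpa using hK.conj_mem b (hle hb) y⁻¹)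
  intro b hb
  induction hb using Subgroup.closure_induction with
  | mem x hx => exact h0 x hx
  | one =>
    intro h hh
    have : h = 1 := Subtype.ext (by rw [hh]; simp)
    rw [this, map_one]
  | mul x z hx hz ihx ihz =>
    intro h hh
    have h1 : h = (⟨y⁻¹ * x * y, hmem x hx⟩ : H) * ⟨y⁻¹ * z * y, hmem z hz⟩ :=
      Subtype.ext (by rw [hh, Subgroup.coe_mul]; group)
    rw [h1, map_mul, ihx _ rfl, ihz _ rfl, one_mul]
  | inv x hx ihx =>
    intro h hh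
    have h1 : h = (⟨y⁻¹ * x * y, hmem x hx⟩ : H)⁻¹ :=
      Subtype.ext (by rw [hh, Subgroup.coe_inv]; group)
    rw [h1, map_inv, ihx _ rfl, inv_one]

theorem B1.sum_inst {α : Type} (f : α → ℂ) (i1 i2 : Fintype α) :
    @Finset.sum α ℂ _ (@Finset.univ α i1) f = @Finset.sum α ℂ _ (@Finset.univ α i2) f := by
  rw [Subsingleton.elim i1 i2]

theorem p_B1 (ha : S_B1a) (hb : S_B1b) (hc : S_B1c) : S_B1 := by
  classical
  intro G _ _ K H hKn _ instK D R k n n' τ Z w w' F hHD hτ hTerm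
  have hK₁n : (H.normalCore ⊓ K : Subgroup G).Normal := inferInstance
  have hK₁H : H.normalCore ⊓ K ≤ H := inf_le_left.trans (Subgroup.normalCore_le H)
  obtain ⟨K₁, hK₁⟩ : ∃ K₁ : Subgroup G, K₁ = H.normalCore ⊓ K := ⟨_, rfl⟩
  obtain ⟨Bd, hBd⟩ : ∃ Bd : ℝ, Bd = (K.index : ℝ) * ((D : ℝ) * τ) *
      (((D.factorial : ℝ) ^ ((2 * R + 1) ^ K.index)) *
        ((MS K (Sset R (fun i => (Z i : G ⧸ K)) w w')).index : ℝ)) := ⟨_, rfl⟩
  have hcount : ∀ y : G, ((F.filter (fun lam : H →* ℂˣ => ∀ (i : Fin k),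
      ∀ u ∈ H.normalCore ⊓ K, ∀ h : H,
        (h : G) = y⁻¹ * (bW Z w i u * (bW Z w' i u)⁻¹) * y → lam h = 1)).card : ℝ) ≤ Bd := by
    intro y
    have hSsub : {b : G | ∃ (i : Fin k), ∃ u ∈ H.normalCore ⊓ K,
        b = bW Z w i u * (bW Z w' i u)⁻¹} ⊆ (H.normalCore ⊓ K : Subgroup G) := by
      rintro b ⟨i, u, hu, rfl⟩
      exact (H.normalCore ⊓ K).mul_mem (B1.bW_mem _ hK₁n Z w i hu)
        ((H.normalCore ⊓ K).inv_mem (B1.bW_mem _ hK₁n Z w' i hu))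
    have h1 := hb G K H (Subgroup.closure {b : G | ∃ (i : Fin k), ∃ u ∈ H.normalCore ⊓ K,
        b = bW Z w i u * (bW Z w' i u)⁻¹}) D τ y
      (F.filter (fun lam : H →* ℂˣ => ∀ (i : Fin k), ∀ u ∈ H.normalCore ⊓ K, ∀ h : H,
        (h : G) = y⁻¹ * (bW Z w i u * (bW Z w' i u)⁻¹) * y → lam h = 1)) hHD hτ hTerm
      ((Subgroup.closure_le _).2 hSsub) (by
        intro lam hlam
        refine B1.kill _ H hK₁n hK₁H _ hSsub lam y ?_
        rintro b ⟨i, u, hu, rfl⟩ h hh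
        exact (Finset.mem_filter.1 hlam).2 i u hu h hh)
    refine h1.trans ?_
    rw [hBd]
    refine mul_le_mul_of_nonneg_left ?_ (by positivity)
    exact_mod_cast hc G K H D R k n n' Z w w' hHD
  have hHpos : (0 : ℝ) < (Nat.card H : ℝ) := by
    exact_mod_cast Nat.card_pos
  have hindex : (Nat.card G : ℝ) = (Nat.card H : ℝ) * (H.index : ℝ) := by
    exact_mod_cast (Subgroup.card_mul_index H).symm
  have hBd0 : 0 ≤ Bd := by
    rw [hBd]
    positivity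
  -- the double count
  have hdc : ∑ lam ∈ F, (Nat.card {y : G // ∀ (i : Fin k), ∀ u ∈ H.normalCore ⊓ K, ∀ h : H,
      (h : G) = y⁻¹ * (bW Z w i u * (bW Z w' i u)⁻¹) * y → lam h = 1} : ℝ) ≤
      (Nat.card G : ℝ) * Bd := by
    have h1 : ∀ lam : H →* ℂˣ, (Nat.card {y : G // ∀ (i : Fin k), ∀ u ∈ H.normalCore ⊓ K,
        ∀ h : H, (h : G) = y⁻¹ * (bW Z w i u * (bW Z w' i u)⁻¹) * y → lam h = 1} : ℝ) =
        ∑ y : G, if (∀ (i : Fin k), ∀ u ∈ H.normalCore ⊓ K,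
        ∀ h : H, (h : G) = y⁻¹ * (bW Z w i u * (bW Z w' i u)⁻¹) * y → lam h = 1) then
          (1 : ℝ) else 0 := by
      intro lam
      rw [Finset.sum_boole, Nat.card_eq_fintype_card, Fintype.card_subtype]
    rw [Finset.sum_congr rfl fun lam _ => h1 lam, Finset.sum_comm]
    have h2 : ∀ y : G, (∑ lam ∈ F, if (∀ (i : Fin k), ∀ u ∈ H.normalCore ⊓ K,
        ∀ h : H, (h : G) = y⁻¹ * (bW Z w i u * (bW Z w' i u)⁻¹) * y → lam h = 1) then
          (1 : ℝ) else 0) ≤ Bd := by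
      intro y
      rw [Finset.sum_boole]
      exact hcount y
    refine (Finset.sum_le_sum fun y _ => h2 y).trans ?_
    rw [Finset.sum_const, Finset.card_univ, nsmul_eq_mul, Nat.card_eq_fintype_card]
  have hstep : ∀ lam ∈ F, ‖∑ u : Fin k → (H.normalCore ⊓ K : Subgroup G),
      indL H lam (wprod (fun i => (u i : G) * Z i) w *
        (wprod (fun i => (u i : G) * Z i) w')⁻¹)‖ ≤
      (Nat.card (H.normalCore ⊓ K : Subgroup G) : ℝ) ^ k * ((1 / (Nat.card H : ℝ)) *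
      (Nat.card {y : G // ∀ (i : Fin k), ∀ u ∈ H.normalCore ⊓ K, ∀ h : H,
        (h : G) = y⁻¹ * (bW Z w i u * (bW Z w' i u)⁻¹) * y → lam h = 1} : ℝ)) := by
    intro lam _
    have h1 := ha G H (H.normalCore ⊓ K) lam k n n' Z w w' hK₁n hK₁H
    refine le_trans (le_of_eq ?_) h1
    exact congrArg norm (B1.sum_inst _ _ _)
  refine (Finset.sum_le_sum hstep).trans ?_
  rw [← Finset.mul_sum, ← Finset.mul_sum]
  refine mul_le_mul_of_nonneg_left ?_ (by positivity)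
  refine (mul_le_mul_of_nonneg_left hdc (by positivity)).trans ?_
  have h3 : 1 / (Nat.card H : ℝ) * ((Nat.card G : ℝ) * Bd) = (H.index : ℝ) * Bd := by
    rw [hindex]
    field_simp
  rw [h3]
  have h4 : (H.index : ℝ) ≤ (D : ℝ) := by exact_mod_cast hHD
  refine (mul_le_mul_of_nonneg_right h4 hBd0).trans (le_of_eq ?_)
  rw [hBd]
  ring

end NilCut
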