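import Pool.Agent.Lib.MP_4ddf81_pr.Stm2

namespace NilCut

namespace B1a

open Finset

variable {G : Type} [Group G]

section walk

variable {k n : ℕ} (Z : Fin k → G) (w : Fin n → Fin k)

/-- prefix products -/
def gp (j : ℕ) : G := ((List.ofFn fun l => Z (w l)).take j).prod

lemma gp_zero : gp Z w 0 = 1 := by simp [gp]

lemma gp_n : gp Z w n = wprod Z w := by
  unfold gp wprod
  rw [List.take_of_length_le]
  simp

lemma gp_succ (j : ℕ) (h : j < n) : gp Z w (j + 1) = gp Z w j * Z (w ⟨j, h⟩) := by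
  unfold gp
  rw [List.prod_take_succ _ _ (by simpa using h)]
  congr 1
  simp

variable (K₁ : Subgroup G) [K₁.Normal] (u : Fin k → K₁)

/-- the ordered product of the conjugates -/
noncomputable def kap : K₁ :=
  (List.ofFn fun j : Fin n => MulAut.conjNormal (gp Z w j) (u (w j))).prod

lemma wprod_aux (j : ℕ) (hj : j ≤ n) : gp (fun i => (u i : G) * Z i) w j =
    (((List.ofFn fun j : Fin n => MulAut.conjNormal (gp Z w j) (u (w j))).take j).prod : K₁) *
      gp Z w j := by
  induction j with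
  | zero => simp [gp]
  | succ j ih =>
    rw [gp_succ _ w j hj, ih (by omega), gp_succ Z w j hj,
      List.prod_take_succ _ _ (by simpa using hj)]
    simp only [List.getElem_ofFn, Subgroup.coe_mul, MulAut.conjNormal_apply]
    group

lemma wprod_eq : wprod (fun i => (u i : G) * Z i) w = (kap Z w K₁ u : G) * wprod Z w := by
  rw [← gp_n, wprod_aux Z w K₁ u n le_rfl, gp_n, List.take_of_length_le (by simp)]
  rfl

lemma bW_eq (i : Fin k) (x : K₁) :
    (kap Z w K₁ (Pi.mulSingle i x) : G) = bW Z w i (x : G) := by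
  unfold kap bW
  have : ((List.ofFn fun j : Fin n => MulAut.conjNormal (gp Z w j)
      ((Pi.mulSingle i x : Fin k → K₁) (w j))).prod : G) = K₁.subtype ((List.ofFn fun j : Fin n =>
      MulAut.conjNormal (gp Z w j) ((Pi.mulSingle i x : Fin k → K₁) (w j))).prod) := rfl
  rw [this, map_list_prod, List.map_ofFn]
  congr 2
  funext j
  simp only [Function.comp_apply, Subgroup.coe_subtype, MulAut.conjNormal_apply]
  by_cases h : w j = i
  · rw [if_pos h, h, Pi.mulSingle_eq_same]
    rfl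
  · rw [if_neg h, Pi.mulSingle_eq_of_ne h]
    simp

end walk

section char

variable {H K₁ : Subgroup G} [K₁.Normal] (hle : K₁ ≤ H) (lam : H →* ℂˣ) (y : G)

/-- the conjugate character -/
noncomputable def Ly : K₁ →* ℂˣ :=
  lam.comp ((Subgroup.inclusion hle).comp (MulAut.conjNormal y⁻¹).toMonoidHom)

lemma Ly_apply (x : K₁) (h : H) (e : (h : G) = y⁻¹ * x * y) : Ly hle lam y x = lam h := by
  unfold Ly
  simp only [MonoidHom.comp_apply]
  congr 1
  apply Subtype.ext
  rw [e]
  simp [Subgroup.inclusion]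

variable {k n n' : ℕ} (Z : Fin k → G) (w : Fin n → Fin k) (w' : Fin n' → Fin k)

/-- the character of the function group for one word -/
noncomputable def Ph : (Fin k → K₁) →* ℂˣ :=
  ∏ j : Fin n, ((Ly hle lam y).comp (MulAut.conjNormal (gp Z w j)).toMonoidHom).comp
    (Pi.evalMonoidHom _ (w j))

lemma Ph_apply (u : Fin k → K₁) : Ph hle lam y Z w u = Ly hle lam y (kap Z w K₁ u) := by
  unfold Ph kap
  rw [MonoidHom.finsetProd_apply, map_list_prod, List.map_ofFn, List.prod_ofFn]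
  rfl

end char

lemma norm_unit [Finite G] (lam : G →* ℂˣ) (g : G) : ‖((lam g : ℂˣ) : ℂ)‖ = 1 := by
  have : Nat.card G ≠ 0 := Nat.card_pos.ne'
  refine Complex.norm_eq_one_of_pow_eq_one (n := Nat.card G) ?_ this
  rw [← Units.val_pow_eq_pow_val, ← map_pow, pow_card_eq_one']
  simp

section final

variable [Fintype G] {H K₁ : Subgroup G} [K₁.Normal] (hle : K₁ ≤ H) (lam : H →* ℂˣ)
variable {k n n' : ℕ} (Z : Fin k → G) (w : Fin n → Fin k) (w' : Fin n' → Fin k)

open Classical in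
/-- the coefficient -/
noncomputable def cf (y g : G) : ℂ :=
  if h : y⁻¹ * g * y ∈ H then ((lam ⟨y⁻¹ * g * y, h⟩ : ℂˣ) : ℂ) else 0

lemma cf_norm (y g : G) : ‖cf lam y g‖ ≤ 1 := by
  unfold cf
  split_ifs with h
  · rw [norm_unit]
  · simp

include hle in
omit [Fintype G] in
lemma mem_conj (y : G) (x : K₁) : y⁻¹ * (x : G) * y ∈ H := by
  apply hle
  have := Subgroup.Normal.conj_mem (H := K₁) inferInstance (x : G) x.2 y⁻¹
  simpa using this

omit [Fintype G] in
lemma cf_mul (y g : G) (a b : K₁) : cf lam y ((a : G) * g * (b : G)⁻¹) =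
    cf lam y g * ((Ly hle lam y a * (Ly hle lam y b)⁻¹ : ℂˣ) : ℂ) := by
  have ha := mem_conj hle y a
  have hb := mem_conj hle y b
  have e : y⁻¹ * ((a : G) * g * (b : G)⁻¹) * y =
      (y⁻¹ * a * y) * (y⁻¹ * g * y) * (y⁻¹ * b * y)⁻¹ := by group
  by_cases h : y⁻¹ * g * y ∈ H
  · have h' : y⁻¹ * ((a : G) * g * (b : G)⁻¹) * y ∈ H := by
      rw [e]; exact mul_mem (mul_mem ha h) (inv_mem hb)
    unfold cf
    rw [dif_pos h, dif_pos h', ← Units.val_mul]
    congr 1
    have e2 : (⟨y⁻¹ * ((a : G) * g * (b : G)⁻¹) * y, h'⟩ : H) =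
        ⟨y⁻¹ * a * y, ha⟩ * ⟨y⁻¹ * g * y, h⟩ * ⟨y⁻¹ * b * y, hb⟩⁻¹ := Subtype.ext e
    rw [e2, map_mul, map_mul, map_inv, Ly_apply hle lam y a ⟨_, ha⟩ rfl,
      Ly_apply hle lam y b ⟨_, hb⟩ rfl]
    rw [mul_comm (lam ⟨y⁻¹ * a * y, ha⟩), mul_assoc]
  · have h' : ¬ y⁻¹ * ((a : G) * g * (b : G)⁻¹) * y ∈ H := by
      intro h'
      apply h
      have := mul_mem (mul_mem (inv_mem ha) h') hb
      convert this using 1
      group
    unfold cf
    rw [dif_neg h, dif_neg h', zero_mul]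

lemma indL_eq (g : G) : indL H lam g = (1 / (Nat.card H : ℂ)) * ∑ y : G, cf lam y g := rfl

/-- the character of the function group -/
noncomputable def Ps (y : G) : (Fin k → K₁) →* ℂˣ :=
  Ph hle lam y Z w * (Ph hle lam y Z w')⁻¹

lemma term_eq (y : G) (u : Fin k → K₁) :
    cf lam y (wprod (fun i => (u i : G) * Z i) w *
      (wprod (fun i => (u i : G) * Z i) w')⁻¹) =
    cf lam y (wprod Z w * (wprod Z w')⁻¹) * ((Ps hle lam Z w w' y u : ℂˣ) : ℂ) := by
  rw [wprod_eq, wprod_eq]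
  have : (kap Z w K₁ u : G) * wprod Z w * ((kap Z w' K₁ u : G) * wprod Z w')⁻¹ =
      (kap Z w K₁ u : G) * (wprod Z w * (wprod Z w')⁻¹) * (kap Z w' K₁ u : G)⁻¹ := by group
  rw [this, cf_mul hle]
  unfold Ps
  rw [MonoidHom.mul_apply, MonoidHom.inv_apply, Ph_apply, Ph_apply]

open Classical in
lemma sum_Ps (y : G) : ∑ u : Fin k → K₁, ((Ps hle lam Z w w' y u : ℂˣ) : ℂ) =
    if Ps hle lam Z w w' y = 1 then (Nat.card K₁ : ℂ) ^ k else 0 := by
  split_ifs with h
  · rw [h]
    simp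
  · have := sum_hom_units_eq_zero ((Units.coeHom ℂ).comp (Ps hle lam Z w w' y)) (by
      intro h2
      apply h
      ext u
      exact DFunLike.congr_fun h2 u)
    exact this

end final

end B1a

open B1a in
theorem p_B1a : S_B1a := by
  classical
  intro G _ _ H K₁ lam k n n' Z w w' hN hle
  have e : ∑ u : Fin k → K₁, indL H lam (wprod (fun i => (u i : G) * Z i) w *
      (wprod (fun i => (u i : G) * Z i) w')⁻¹) =
      (1 / (Nat.card H : ℂ)) * ∑ y : G, cf lam y (wprod Z w * (wprod Z w')⁻¹) *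
        (if Ps hle lam Z w w' y = 1 then (Nat.card K₁ : ℂ) ^ k else 0) := by
    simp only [indL_eq, term_eq hle]
    rw [← Finset.mul_sum, Finset.sum_comm]
    congr 1
    refine Finset.sum_congr rfl fun y _ => ?_
    rw [← Finset.mul_sum, sum_Ps]
  rw [e, norm_mul]
  have h1 : ‖(1 / (Nat.card H : ℂ))‖ = 1 / (Nat.card H : ℝ) := by
    rw [norm_div, norm_one, Complex.norm_natCast]
  rw [h1]
  have h2 : ‖∑ y : G, cf lam y (wprod Z w * (wprod Z w')⁻¹) *
        (if Ps hle lam Z w w' y = 1 then (Nat.card K₁ : ℂ) ^ k else 0)‖ ≤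
      (Nat.card K₁ : ℝ) ^ k * (Nat.card {y : G // ∀ (i : Fin k), ∀ u ∈ K₁, ∀ h : H,
        (h : G) = y⁻¹ * (bW Z w i u * (bW Z w' i u)⁻¹) * y → lam h = 1} : ℝ) := by
    calc _ ≤ ∑ y : G, ‖cf lam y (wprod Z w * (wprod Z w')⁻¹) *
        (if Ps hle lam Z w w' y = 1 then (Nat.card K₁ : ℂ) ^ k else 0)‖ := norm_sum_le _ _
      _ ≤ ∑ y : G, if (∀ (i : Fin k), ∀ u ∈ K₁, ∀ h : H,
          (h : G) = y⁻¹ * (bW Z w i u * (bW Z w' i u)⁻¹) * y → lam h = 1) then
          (Nat.card K₁ : ℝ) ^ k else 0 := by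
        refine Finset.sum_le_sum fun y _ => ?_
        rw [norm_mul]
        by_cases hP : Ps hle lam Z w w' y = 1
        · rw [if_pos hP, if_pos]
          · rw [norm_pow, Complex.norm_natCast]
            exact mul_le_of_le_one_left (by positivity) (cf_norm _ _ _)
          · intro i u hu h hh
            have h3 : Ps hle lam Z w w' y (Pi.mulSingle i ⟨u, hu⟩) = 1 := by rw [hP]; rfl
            unfold Ps at h3
            rw [MonoidHom.mul_apply, MonoidHom.inv_apply, Ph_apply, Ph_apply, ← map_inv,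
              ← map_mul] at h3
            have h5 := Ly_apply hle lam y (kap Z w K₁ (Pi.mulSingle i ⟨u, hu⟩) *
              (kap Z w' K₁ (Pi.mulSingle i ⟨u, hu⟩))⁻¹) h (by
                rw [hh, Subgroup.coe_mul, InvMemClass.coe_inv, bW_eq, bW_eq])
            rw [← h5]
            exact h3
        · rw [if_neg hP, norm_zero, mul_zero]
          split_ifs
          · positivity
          · exact le_refl _
      _ = _ := by
        rw [← Finset.sum_filter, Finset.sum_const, nsmul_eq_mul, mul_comm]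
        congr 2
        rw [Nat.card_eq_fintype_card, Fintype.card_subtype]
  calc _ ≤ (1 / (Nat.card H : ℝ)) * ((Nat.card K₁ : ℝ) ^ k *
      (Nat.card {y : G // ∀ (i : Fin k), ∀ u ∈ K₁, ∀ h : H,
        (h : G) = y⁻¹ * (bW Z w i u * (bW Z w' i u)⁻¹) * y → lam h = 1} : ℝ)) :=
        mul_le_mul_of_nonneg_left h2 (by positivity)
    _ = _ := by ring

end NilCut
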