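import Pool.Agent.Lib.MP_4ddf81_pr.Stm2

/-!
# MP_4ddf81_pr, stage 2, piece B1b
-/

namespace NilCut

namespace B1b

lemma index_le_ker {M N : Type} [Group M] [Group N] [Finite M] [Finite N] (π : M →* N)
    (b : Subgroup M) : b.index ≤ Nat.card π.ker * (b.map π).index := by
  have h1 : Nat.card b * b.index = Nat.card M := b.card_mul_index
  have h2 : Nat.card π.ker * Nat.card π.range = Nat.card M := by
    rw [← Subgroup.index_ker]
    exact π.ker.card_mul_index
  have h3 : Nat.card (b.map π) ≤ Nat.card b :=
    Nat.le_of_dvd Nat.card_pos (Subgroup.card_map_dvd b π)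
  have h4 : Nat.card π.range ≤ Nat.card N :=
    Nat.le_of_dvd Nat.card_pos π.range.card_subgroup_dvd_card
  have h5 : Nat.card (b.map π) * (b.map π).index = Nat.card N := (b.map π).card_mul_index
  have h6 : 0 < Nat.card (b.map π) := Nat.card_pos
  refine Nat.le_of_mul_le_mul_left ?_ h6
  calc Nat.card (b.map π) * b.index ≤ Nat.card b * b.index := Nat.mul_le_mul_right _ h3
    _ = Nat.card π.ker * Nat.card π.range := by rw [h1, h2]
    _ ≤ Nat.card π.ker * Nat.card N := Nat.mul_le_mul_left _ h4
    _ = Nat.card (b.map π) * (Nat.card π.ker * (b.map π).index) := by rw [← h5]; ring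

lemma ker_card {M N : Type} [Group M] [Group N] [Finite M] [Finite N] (π : M →* N) :
    Nat.card π.ker * Nat.card N = Nat.card M * π.range.index := by
  have h2 : Nat.card π.ker * Nat.card π.range = Nat.card M := by
    rw [← Subgroup.index_ker]
    exact π.ker.card_mul_index
  have h5 : Nat.card π.range * π.range.index = Nat.card N := π.range.card_mul_index
  rw [← h2, ← h5]
  ring

section

variable {G : Type} [Group G] (K H B : Subgroup G) [K.Normal] (y : G)

/-- the conjugate -/
def cj : Subgroup G := B.map (MulAut.conj y⁻¹).toMonoidHom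

lemma mem_cj (x : G) : x ∈ cj B y ↔ ∃ b ∈ B, x = y⁻¹ * b * y := by
  unfold cj
  rw [Subgroup.mem_map]
  constructor
  · rintro ⟨b, hb, rfl⟩
    exact ⟨b, hb, by simp⟩
  · rintro ⟨b, hb, rfl⟩
    exact ⟨b, hb, by simp⟩

lemma cj_le (hB : B ≤ H.normalCore ⊓ K) : cj B y ≤ H ⊓ K := by
  intro x hx
  obtain ⟨b, hb, rfl⟩ := (mem_cj B y x).1 hx
  have hb' := hB hb
  refine Subgroup.mem_inf.2 ⟨?_, ?_⟩
  · apply H.normalCore_le
    have := H.normalCore_normal.conj_mem b (Subgroup.mem_inf.1 hb').1 y⁻¹
    simpa using this
  · have := (inferInstance : K.Normal).conj_mem b (Subgroup.mem_inf.1 hb').2 y⁻¹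
    simpa using this

/-- the subgroup which is killed by the characters -/
def AA : Subgroup H := (cj B y).subgroupOf H ⊔ commutator H

/-- the image in the Abelianisation -/
def bb : Subgroup (Abelianization (H ⊓ K : Subgroup G)) :=
  ((cj B y).subgroupOf (H ⊓ K)).map Abelianization.of

lemma step2 [Finite G] : (AA H B y).index ≤ K.index * (bb K H B y).index := by
  set inH : (H ⊓ K : Subgroup G) →* H := Subgroup.inclusion inf_le_left with hin
  have hinj : Function.Injective inH := Subgroup.inclusion_injective _
  set A2 : Subgroup H := ((bb K H B y).comap Abelianization.of).map inH with hA2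
  have h1 : A2 ≤ AA H B y := by
    rintro _ ⟨x, hx, rfl⟩
    obtain ⟨z, hz, hzx⟩ := hx
    have hk : z⁻¹ * x ∈ commutator (H ⊓ K : Subgroup G) := by
      rw [← Abelianization.ker_of, MonoidHom.mem_ker, map_mul, map_inv, hzx, inv_mul_cancel]
    have hk2 : inH (z⁻¹ * x) ∈ commutator H := by
      have := Abelianization.commutator_subset_ker
        ((Abelianization.of : H →* Abelianization H).comp inH) hk
      rw [← Abelianization.ker_of, MonoidHom.mem_ker]
      exact this
    have e : inH x = inH z * inH (z⁻¹ * x) := by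
      rw [← map_mul, mul_inv_cancel_left]
    rw [e]
    refine Subgroup.mul_mem_sup ?_ hk2
    exact hz
  have h2 : A2.index = (bb K H B y).index * inH.range.index := by
    rw [hA2, Subgroup.index_map_of_injective _ hinj, Subgroup.index_comap_of_surjective]
    exact QuotientGroup.mk'_surjective _
  have h3 : inH.range.index ≤ K.index := by
    have : inH.range.index = (H ⊓ K).relIndex H := by
      rw [hin, Subgroup.inclusion_range]
      rfl
    rw [this, Subgroup.inf_relIndex_left]
    exact Nat.le_of_dvd (Nat.pos_of_ne_zero Subgroup.index_ne_zero_of_finite)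
      (Subgroup.relIndex_dvd_index_of_normal K H)
  have h4 : (AA H B y).index ≤ A2.index :=
    Nat.le_of_dvd (Nat.pos_of_ne_zero Subgroup.index_ne_zero_of_finite)
      (Subgroup.index_dvd_of_le h1)
  calc (AA H B y).index ≤ A2.index := h4
    _ = (bb K H B y).index * inH.range.index := h2
    _ ≤ (bb K H B y).index * K.index := Nat.mul_le_mul_left _ h3
    _ = K.index * (bb K H B y).index := Nat.mul_comm _ _

/-- the map of the Abelianisations -/
noncomputable def pp : Abelianization (H ⊓ K : Subgroup G) →* Abelianization K :=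
  Abelianization.map (Subgroup.inclusion inf_le_right)

lemma map_bb (hB : B ≤ H.normalCore ⊓ K) :
    ((bb K H B y).map (pp K H)).index = ((B.subgroupOf K).map Abelianization.of).index := by
  have e1 : (bb K H B y).map (pp K H) =
      ((B.subgroupOf K).map Abelianization.of).map
        ((MulAut.conjNormal y⁻¹ : MulAut K).abelianizationCongr :
          Abelianization K →* Abelianization K) := by
    unfold bb
    ext w
    constructor
    · rintro ⟨_, ⟨x, hx, rfl⟩, rfl⟩
      obtain ⟨b, hb, hxb⟩ := (mem_cj B y x).1 hx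
      refine ⟨Abelianization.of ⟨b, (Subgroup.mem_inf.1 (hB hb)).2⟩, ⟨_, hb, rfl⟩, ?_⟩
      show (MulAut.conjNormal y⁻¹ : MulAut K).abelianizationCongr (Abelianization.of _) =
        pp K H (Abelianization.of x)
      rw [abelianizationCongr_of]
      unfold pp
      rw [Abelianization.map_of]
      congr 1
      apply Subtype.ext
      rw [MulAut.conjNormal_apply]
      show y⁻¹ * b * y⁻¹⁻¹ = (x : G)
      rw [hxb, inv_inv]
    · rintro ⟨_, ⟨x, hx, rfl⟩, rfl⟩
      have hx' : (x : G) ∈ B := hx
      have hc : y⁻¹ * (x : G) * y ∈ cj B y := (mem_cj B y _).2 ⟨x, hx', rfl⟩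
      refine ⟨Abelianization.of ⟨y⁻¹ * (x : G) * y, cj_le K H B y hB hc⟩, ⟨_, hc, rfl⟩, ?_⟩
      show pp K H (Abelianization.of _) =
        (MulAut.conjNormal y⁻¹ : MulAut K).abelianizationCongr (Abelianization.of _)
      rw [abelianizationCongr_of]
      unfold pp
      rw [Abelianization.map_of]
      congr 1
      apply Subtype.ext
      rw [MulAut.conjNormal_apply]
      show y⁻¹ * (x : G) * y = y⁻¹ * (x : G) * y⁻¹⁻¹
      rw [inv_inv]
  rw [e1, Subgroup.index_map_equiv]

omit [K.Normal] in
lemma range_pp [Finite G] : (pp K H).range.index ≤ H.index := by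
  have e : (pp K H).range = (Subgroup.inclusion (inf_le_right : H ⊓ K ≤ K)).range.map
      Abelianization.of := by
    ext w
    constructor
    · rintro ⟨v, rfl⟩
      obtain ⟨x, rfl⟩ : ∃ x, Abelianization.of x = v := QuotientGroup.mk'_surjective _ v
      exact ⟨_, ⟨x, rfl⟩, (Abelianization.map_of _ x).symm⟩
    · rintro ⟨_, ⟨x, rfl⟩, rfl⟩
      exact ⟨Abelianization.of x, Abelianization.map_of _ x⟩
  have h1 : (pp K H).range.index ∣ (Subgroup.inclusion (inf_le_right : H ⊓ K ≤ K)).range.index := by
    rw [e]
    exact Subgroup.index_map_dvd _ (QuotientGroup.mk'_surjective _)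
  have h2 : (Subgroup.inclusion (inf_le_right : H ⊓ K ≤ K)).range.index = H.relIndex K := by
    rw [Subgroup.inclusion_range]
    exact Subgroup.inf_relIndex_right H K
  rw [h2] at h1
  have h3 : H.relIndex K ≤ H.index := by
    rw [← Subgroup.relIndex_top_right H]
    exact Subgroup.relIndex_le_of_le_right le_top Subgroup.index_ne_zero_of_finite
  exact (Nat.le_of_dvd (Nat.pos_of_ne_zero Subgroup.index_ne_zero_of_finite) h1).trans h3

end

end B1b

open B1b in
theorem p_B1b (hD : S_Dual2) : S_B1b := by
  intro G _ _ K H B _ D τ y F hHD hτ hT hB hF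
  -- step 1
  have s1 : F.card ≤ (AA H B y).index := by
    obtain ⟨-, hc⟩ := hD H (AA H B y) le_sup_right
    rw [← hc]
    have hfin : Finite {l : H →* ℂˣ // ∀ a ∈ AA H B y, l a = 1} := by
      apply Nat.finite_of_card_ne_zero
      rw [hc]
      exact Subgroup.index_ne_zero_of_finite
    have hk : ∀ lam ∈ F, ∀ a ∈ AA H B y, lam a = 1 := by
      intro lam hlam a ha
      have : AA H B y ≤ lam.ker := by
        unfold AA
        refine sup_le ?_ (Abelianization.commutator_subset_ker lam)
        intro h hh
        obtain ⟨b, hb, e⟩ := (mem_cj B y (h : G)).1 hh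
        exact hF lam hlam b hb h e
      exact this ha
    let f : F → {l : H →* ℂˣ // ∀ a ∈ AA H B y, l a = 1} := fun l => ⟨l.1, hk l.1 l.2⟩
    have hf : Function.Injective f := by
      intro a b hab
      have := congrArg Subtype.val hab
      exact Subtype.ext this
    have := Nat.card_le_card_of_injective f hf
    simpa using this
  have s2 := step2 K H B y
  have s3 := index_le_ker (pp K H) (bb K H B y)
  rw [map_bb K H B y hB] at s3
  -- the kernel
  have s4 : (Nat.card (pp K H).ker : ℝ) ≤ (D : ℝ) * τ := by
    have h1 := ker_card (pp K H)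
    have h2 : (pp K H).range.index ≤ D := (range_pp K H).trans hHD
    have h3 : (Nat.card (Abelianization (H ⊓ K : Subgroup G)) : ℝ) ≤
        τ * (Nat.card (Abelianization K) : ℝ) := by
      apply hT (H ⊓ K) inf_le_right
      rw [Subgroup.inf_relIndex_right]
      have h3 : H.relIndex K ≤ H.index := by
        rw [← Subgroup.relIndex_top_right H]
        exact Subgroup.relIndex_le_of_le_right le_top Subgroup.index_ne_zero_of_finite
      exact h3.trans hHD
    have h4 : (0 : ℝ) < (Nat.card (Abelianization K) : ℝ) := by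
      have : 0 < Nat.card (Abelianization K) := Nat.card_pos
      exact_mod_cast this
    refine le_of_mul_le_mul_right ?_ h4
    calc (Nat.card (pp K H).ker : ℝ) * (Nat.card (Abelianization K) : ℝ)
        = (Nat.card (Abelianization (H ⊓ K : Subgroup G)) : ℝ) *
            ((pp K H).range.index : ℝ) := by exact_mod_cast h1
      _ ≤ (τ * (Nat.card (Abelianization K) : ℝ)) * (D : ℝ) := by
          have : ((pp K H).range.index : ℝ) ≤ (D : ℝ) := by exact_mod_cast h2
          gcongr
      _ = (D : ℝ) * τ * (Nat.card (Abelianization K) : ℝ) := by ring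
  set I : ℕ := ((B.subgroupOf K).map Abelianization.of).index with hI
  have t1 : (F.card : ℝ) ≤ ((AA H B y).index : ℝ) := by exact_mod_cast s1
  have t2 : ((AA H B y).index : ℝ) ≤ (K.index : ℝ) * ((bb K H B y).index : ℝ) := by
    exact_mod_cast s2
  have t3 : ((bb K H B y).index : ℝ) ≤ (Nat.card (pp K H).ker : ℝ) * (I : ℝ) := by
    exact_mod_cast s3
  calc (F.card : ℝ) ≤ (K.index : ℝ) * ((bb K H B y).index : ℝ) := t1.trans t2
    _ ≤ (K.index : ℝ) * ((Nat.card (pp K H).ker : ℝ) * (I : ℝ)) := by gcongr
    _ ≤ (K.index : ℝ) * (((D : ℝ) * τ) * (I : ℝ)) := by gcongr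
    _ = (K.index : ℝ) * ((D : ℝ) * τ) * (I : ℝ) := by ring

end NilCut
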