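import Pool.Agent.Lib.MP_4ddf81_pr.Stm2

/-! The subgroup generated by the ratios of the words. -/

namespace NilCut

namespace B1c

/-- relative index of suprema, two subgroups -/
theorem sup_dvd {A : Type*} [CommGroup A] (X' X Y' Y : Subgroup A) (hX : X' ≤ X) (hY : Y' ≤ Y) :
    (X' ⊔ Y').relIndex (X ⊔ Y) ∣ X'.relIndex X * Y'.relIndex Y := by
  rw [← Subgroup.relIndex_mul_relIndex (X' ⊔ Y') (X ⊔ Y') (X ⊔ Y) (sup_le_sup_right hX _)
    (sup_le_sup_left hY _)]
  apply mul_dvd_mul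
  · have e : X ⊔ Y' = X ⊔ (X' ⊔ Y') := by
      rw [← sup_assoc, sup_eq_left.2 hX]
    rw [e, Subgroup.relIndex_sup_right]
    exact Subgroup.relIndex_dvd_of_le_left _ le_sup_left
  · have e : X ⊔ Y = Y ⊔ (X ⊔ Y') := by
      rw [sup_comm Y, sup_assoc, sup_eq_right.2 hY]
    rw [e, Subgroup.relIndex_sup_right]
    exact Subgroup.relIndex_dvd_of_le_left _ le_sup_right

/-- relative index of suprema, finite families -/
theorem iSup_dvd {A : Type*} [CommGroup A] {β : Type*} (X' X : β → Subgroup A)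
    (hX : ∀ i, X' i ≤ X i) (c : ℕ) (hc : ∀ i, (X' i).relIndex (X i) ∣ c) (s : Finset β) :
    (⨆ i ∈ s, X' i).relIndex (⨆ i ∈ s, X i) ∣ c ^ s.card := by
  classical
  induction s using Finset.induction_on with
  | empty => simp
  | insert a s ha ih =>
    rw [Finset.iSup_insert, Finset.iSup_insert, Finset.card_insert_of_notMem ha, pow_succ']
    exact (sup_dvd _ _ _ _ (hX a) (iSup₂_mono fun i _ => hX i)).trans (mul_dvd_mul (hc a) ih)

/-- the index of an image in the range -/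
theorem map_dvd {B A : Type*} [Group B] [Group A] (f : B →* A) (L : Subgroup B) :
    (L.map f).relIndex f.range ∣ L.index := by
  rw [MonoidHom.range_eq_map, Subgroup.relIndex_map_map]
  rw [top_sup_eq, Subgroup.relIndex_top_right]
  exact Subgroup.index_dvd_of_le le_sup_left

open Classical in
theorem mem_S {Q : Type} [Group Q] {k n n' : ℕ} {R : ℕ} {z : Fin k → Q}
    {w : Fin n → Fin k} {w' : Fin n' → Fin k} {δ : Q → ℤ} (hδ : δ ∈ Sset R z w w') :
    (∃ i : Fin k, (fun a : Q => (cnt z w i a : ℤ) - (cnt z w' i a : ℤ)) = δ) ∧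
      ∀ a, |δ a| ≤ (R : ℤ) := by
  unfold Sset at hδ
  rw [Finset.mem_filter, Finset.mem_image] at hδ
  obtain ⟨⟨i, -, hi⟩, h⟩ := hδ
  exact ⟨⟨i, hi⟩, h⟩

theorem card_S {Q : Type} [Group Q] [Fintype Q] {k n n' : ℕ} (R : ℕ) (z : Fin k → Q)
    (w : Fin n → Fin k) (w' : Fin n' → Fin k) :
    (Sset R z w w').card ≤ (2 * R + 1) ^ Nat.card Q := by
  classical
  have h1 : Sset R z w w' ⊆ Fintype.piFinset fun _ : Q => Finset.Icc (-(R : ℤ)) (R : ℤ) := by
    intro δ hδ
    rw [Fintype.mem_piFinset]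
    intro a
    rw [Finset.mem_Icc]
    exact abs_le.1 ((mem_S hδ).2 a)
  refine (Finset.card_le_card h1).trans (le_of_eq ?_)
  rw [Fintype.card_piFinset, Finset.prod_const, Finset.card_univ, Int.card_Icc,
    Nat.card_eq_fintype_card]
  congr 1
  omega

end B1c

theorem p_B1c (hP : S_Phi2) (hC : S_Core) : S_B1c := by
  classical
  intro G _ _ K H _ _ D R k n n' Z w w' hHD
  set z : Fin k → G ⧸ K := fun i => (Z i : G ⧸ K) with hz
  set S := Sset R z w w' with hS
  set b := ((Subgroup.closure {b : G | ∃ (i : Fin k), ∃ u ∈ H.normalCore ⊓ K,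
      b = bW Z w i u * (bW Z w' i u)⁻¹}).subgroupOf K).map Abelianization.of with hb
  set K₁ : Subgroup K := (H.normalCore ⊓ K).subgroupOf K with hK₁
  have : Finite (Abelianization K) := inferInstance
  -- the index of `K₁`
  have hidx : K₁.index ≤ D.factorial := by
    have e : K₁.index = H.normalCore.relIndex K := Subgroup.inf_relIndex_right H.normalCore K
    rw [e]
    have h1 : H.normalCore.relIndex K ∣ H.normalCore.index :=
      Subgroup.relIndex_dvd_index_of_normal _ _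
    have h2 : H.normalCore.index ≠ 0 := Subgroup.index_ne_zero_of_finite
    exact (Nat.le_of_dvd (Nat.pos_of_ne_zero h2) h1).trans
      ((hC G H).trans (Nat.factorial_le hHD))
  -- the images
  have hsub : (⨆ δ ∈ S, K₁.map (phiH K δ)) ≤ b := by
    refine iSup₂_le fun δ hδ => ?_
    rintro _ ⟨u, hu, rfl⟩
    obtain ⟨⟨i, hi⟩, -⟩ := B1c.mem_S hδ
    obtain ⟨h, heq⟩ := hP G K k n n' Z w w' i u
    rw [← hi, ← heq]
    refine Subgroup.mem_map_of_mem _ ?_
    rw [Subgroup.mem_subgroupOf]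
    refine Subgroup.subset_closure ⟨i, u, ?_, rfl⟩
    exact hu
  have h1 : b.index ≤ (⨆ δ ∈ S, K₁.map (phiH K δ)).index :=
    Nat.le_of_dvd (Nat.pos_of_ne_zero Subgroup.index_ne_zero_of_finite)
      (Subgroup.index_dvd_of_le hsub)
  have hle : (⨆ δ ∈ S, K₁.map (phiH K δ)) ≤ MS K S := by
    rw [MS]
    exact iSup₂_mono fun δ _ => Subgroup.map_le_range _ _
  have h2 := Subgroup.relIndex_mul_index hle
  have h3 : (⨆ δ ∈ S, K₁.map (phiH K δ)).relIndex (MS K S) ∣ K₁.index ^ S.card := by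
    rw [MS]
    exact B1c.iSup_dvd _ _ (fun δ => Subgroup.map_le_range _ _) _
      (fun δ => B1c.map_dvd (phiH K δ) K₁) S
  have h4 : 0 < K₁.index := Nat.pos_of_ne_zero Subgroup.index_ne_zero_of_finite
  have h5 : (⨆ δ ∈ S, K₁.map (phiH K δ)).relIndex (MS K S) ≤ D.factorial ^ ((2 * R + 1) ^ K.index) := by
    calc (⨆ δ ∈ S, K₁.map (phiH K δ)).relIndex (MS K S) ≤ K₁.index ^ S.card :=
        Nat.le_of_dvd (pow_pos h4 _) h3
      _ ≤ D.factorial ^ S.card := Nat.pow_le_pow_left hidx _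
      _ ≤ D.factorial ^ ((2 * R + 1) ^ K.index) :=
        Nat.pow_le_pow_right D.factorial_pos (B1c.card_S R z w w')
  calc b.index ≤ _ := h1
    _ = _ := h2.symm
    _ ≤ _ := Nat.mul_le_mul_right _ h5

end NilCut
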