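import Pool.Agent.Lib.MP_4ddf81_pr.Stm2

/-!
# MP_4ddf81_pr, stage 2 : piece Case1
-/

namespace NilCut

open Filter Topology

namespace Case1

variable {G : Type} [Group G]

theorem index_eq (H : Subgroup G) (lam : H →* ℂˣ) :
    (lam.ker.map H.subtype).index = Nat.card lam.range * H.index := by
  have hle : lam.ker.map H.subtype ≤ H := Subgroup.map_subtype_le _
  rw [← Subgroup.relIndex_mul_index hle]
  congr 1
  rw [Subgroup.relIndex, ← Subgroup.index_ker]
  congr 1
  exact Subgroup.comap_map_eq_self_of_injective H.subtype_injective _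

theorem inv_of_cov {H : Subgroup G} {lam : H →* ℂˣ} {v : G → ℂ} (hv : Cov H lam v) (g : G)
    {h : G} (hh : h ∈ lam.ker.map H.subtype) : v (g * h) = v g := by
  obtain ⟨y, hy, rfl⟩ := Subgroup.mem_map.1 hh
  have := hv g y
  rw [MonoidHom.mem_ker] at hy
  rw [hy] at this
  simpa using this

theorem exists_re_nonpos [Fintype G] {H : Subgroup G} (lam : H →* ℂˣ) (hlam : lam ≠ 1) :
    ∃ h : H, ((lam h : ℂˣ) : ℂ).re ≤ 0 := by
  classical
  haveI : Fintype H := Fintype.ofFinite _
  by_contra hcon
  push Not at hcon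
  have hne : (Units.coeHom ℂ).comp lam ≠ 1 := by
    intro h
    apply hlam
    ext x
    have := DFunLike.congr_fun h x
    simpa using this
  have h0 : ∑ h : H, ((Units.coeHom ℂ).comp lam) h = 0 := sum_hom_units_eq_zero ((Units.coeHom ℂ).comp lam) hne
  have h1 : (∑ h : H, ((Units.coeHom ℂ).comp lam) h).re = 0 := by rw [h0]; simp
  rw [Complex.re_sum] at h1
  have h2 : 0 < ∑ h : H, (((Units.coeHom ℂ).comp lam) h).re :=
    Finset.sum_pos (fun h _ => hcon h) ⟨1, Finset.mem_univ _⟩
  linarith

end Case1

theorem p_Case1 : S_Case1 := by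
  intro G _ _ H lam k D r₀ Z β v u vm I hlam hD hr hDr hβ hv _hu hvm hle hex hI hcl
  classical
  set H₀ : Subgroup G := lam.ker.map H.subtype with hH₀
  have hidx : H₀.index = Nat.card lam.range * H.index := Case1.index_eq H lam
  have hstep : ∀ i ∈ I, ∀ j ∈ I, ∀ g, ‖v (((Z i)⁻¹ * Z j) * g) - v g‖ ≤ 2 * β * vm := by
    intro i hi j hj g
    have h1 := hI i hi (Z j * g)
    have h2 := hI j hj (Z j * g)
    have e2 : (Z j)⁻¹ * (Z j * g) = g := by group
    rw [e2] at h2
    rw [← mul_assoc] at h1
    calc ‖v (((Z i)⁻¹ * Z j) * g) - v g‖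
        = ‖(v (((Z i)⁻¹ * Z j) * g) - u (Z j * g)) - (v g - u (Z j * g))‖ := by
          congr 1; ring
      _ ≤ ‖v (((Z i)⁻¹ * Z j) * g) - u (Z j * g)‖ + ‖v g - u (Z j * g)‖ := norm_sub_le _ _
      _ ≤ 2 * β * vm := by linarith
  have hinv : ∀ g g' : G, (g : G ⧸ H₀) = (g' : G ⧸ H₀) → v g = v g' := by
    intro g g' h
    have h' := QuotientGroup.eq.1 h
    have := Case1.inv_of_cov hv g h'
    rw [← this]
    congr 1
    group
  haveI : Fintype (G ⧸ H₀) := Fintype.ofFinite _
  set N := H₀.index with hNdef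
  have hcardQ : Fintype.card (G ⧸ H₀) = N := by
    rw [← Nat.card_eq_fintype_card]; rfl
  set ε := 2 * β * vm with hε
  have hε0 : 0 ≤ ε := by positivity
  have hkey : ∀ g g' : G, ‖v g' - v g‖ ≤ (N : ℝ) * ε := by
    intro g
    set A : ℕ → Finset (G ⧸ H₀) := fun m =>
      Finset.univ.filter (fun q => ‖v (Quotient.out q) - v g‖ ≤ (m : ℝ) * ε) with hA
    have hmem : ∀ m (x : G), (x : G ⧸ H₀) ∈ A m ↔ ‖v x - v g‖ ≤ (m : ℝ) * ε := by
      intro m x
      have : v (Quotient.out (x : G ⧸ H₀)) = v x := hinv _ _ (by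
        exact Quotient.out_eq' _)
      simp only [hA, Finset.mem_filter, Finset.mem_univ, true_and]
      rw [this]
    have hmono : ∀ m, A m ⊆ A (m + 1) := by
      intro m q
      induction q using QuotientGroup.induction_on with
      | H x =>
        rw [hmem, hmem]
        intro h
        push_cast
        nlinarith
    have hstepA : ∀ m, ∀ i ∈ I, ∀ j ∈ I, ∀ x : G, (x : G ⧸ H₀) ∈ A m →
        ((((Z i)⁻¹ * Z j) * x : G) : G ⧸ H₀) ∈ A (m + 1) := by
      intro m i hi j hj x hx
      rw [hmem] at hx ⊢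
      have h1 := hstep i hi j hj x
      calc ‖v (((Z i)⁻¹ * Z j) * x) - v g‖
          = ‖(v (((Z i)⁻¹ * Z j) * x) - v x) + (v x - v g)‖ := by congr 1; ring
        _ ≤ ‖v (((Z i)⁻¹ * Z j) * x) - v x‖ + ‖v x - v g‖ := norm_add_le _ _
        _ ≤ ((m + 1 : ℕ) : ℝ) * ε := by push_cast; linarith
    have hgrow : ∀ m, m + 1 ≤ (A m).card ∨ A m = Finset.univ := by
      intro m
      induction m with
      | zero =>
        left
        have : (g : G ⧸ H₀) ∈ A 0 := by rw [hmem]; simp
        exact Finset.card_pos.2 ⟨_, this⟩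
      | succ m ih =>
        rcases ih with ih | ih
        · by_cases heq : A (m + 1) = A m
          · right
            have hst : ∀ y ∈ Subgroup.closure {g | ∃ i ∈ I, ∃ j ∈ I, g = (Z i)⁻¹ * Z j},
                ∀ x : G, ((y * x : G) : G ⧸ H₀) ∈ A m ↔ (x : G ⧸ H₀) ∈ A m := by
              intro y hy
              induction hy using Subgroup.closure_induction with
              | mem y hy =>
                obtain ⟨i, hi, j, hj, rfl⟩ := hy
                intro x
                constructor
                · intro h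
                  have h2 := hstepA m j hj i hi _ h
                  rw [heq] at h2
                  have e : (Z j)⁻¹ * Z i * ((Z i)⁻¹ * Z j * x) = x := by group
                  rwa [e] at h2
                · intro h
                  have h2 := hstepA m i hi j hj _ h
                  rwa [heq] at h2
              | one => intro x; rw [one_mul]
              | mul a b _ _ ha hb =>
                intro x
                rw [mul_assoc, ha, hb]
              | inv a _ ha =>
                intro x
                rw [← ha (a⁻¹ * x)]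
                rw [mul_inv_cancel_left]
            have hmain : A m = Finset.univ := by
              rw [Finset.eq_univ_iff_forall]
              intro q
              induction q using QuotientGroup.induction_on with
              | H x =>
                have hy : x * g⁻¹ ∈ Subgroup.closure {g | ∃ i ∈ I, ∃ j ∈ I, g = (Z i)⁻¹ * Z j} := by
                  rw [hcl]; exact Subgroup.mem_top _
                have h3 := (hst _ hy g).2 (by rw [hmem]; simp only [sub_self, norm_zero]; positivity)
                rwa [inv_mul_cancel_right] at h3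
            rw [heq]; exact hmain
          · left
            have hss : A m ⊂ A (m + 1) :=
              Finset.ssubset_iff_subset_ne.2 ⟨hmono m, fun h => heq h.symm⟩
            have := Finset.card_lt_card hss
            omega
        · right
          rw [Finset.eq_univ_iff_forall]
          intro q
          apply hmono m
          rw [ih]; exact Finset.mem_univ _
    have hN : A N = Finset.univ := by
      rcases hgrow N with h | h
      · exfalso
        have h2 : (A N).card ≤ Fintype.card (G ⧸ H₀) := Finset.card_le_univ _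
        rw [hcardQ] at h2
        omega
      · exact h
    intro g'
    rw [← hmem N g', hN]
    exact Finset.mem_univ _
  have hNle : (N : ℝ) ≤ (D : ℝ) * (r₀ : ℝ) := by
    have : N ≤ r₀ * D := by rw [hidx]; exact Nat.mul_le_mul hr hD
    calc (N : ℝ) ≤ ((r₀ * D : ℕ) : ℝ) := by exact_mod_cast this
      _ = (D : ℝ) * (r₀ : ℝ) := by push_cast; ring
  obtain ⟨g, hg⟩ := hex
  obtain ⟨h, hh⟩ := Case1.exists_re_nonpos lam hlam
  have hk := hkey g (g * h)
  rw [hv g h] at hk
  have hfac : (((lam h)⁻¹ : ℂˣ) : ℂ) * v g - v g = ((((lam h)⁻¹ : ℂˣ) : ℂ) - 1) * v g := by ring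
  rw [hfac, norm_mul, hg] at hk
  have hge : (1 : ℝ) ≤ ‖(((lam h)⁻¹ : ℂˣ) : ℂ) - 1‖ := by
    have h1 : ((((lam h)⁻¹ : ℂˣ) : ℂ)).re ≤ 0 := by
      rw [Units.val_inv_eq_inv_val, Complex.inv_re]
      exact div_nonpos_of_nonpos_of_nonneg hh (Complex.normSq_nonneg _)
    have h2 : |((((lam h)⁻¹ : ℂˣ) : ℂ) - 1).re| ≤ ‖(((lam h)⁻¹ : ℂˣ) : ℂ) - 1‖ :=
      Complex.abs_re_le_norm _
    rw [Complex.sub_re, Complex.one_re] at h2
    have h3 : 1 ≤ |((((lam h)⁻¹ : ℂˣ) : ℂ)).re - 1| := by
      rw [abs_of_nonpos (by linarith)]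
      linarith
    linarith
  have h5 : vm ≤ (N : ℝ) * ε := by
    calc vm = 1 * vm := by ring
      _ ≤ ‖(((lam h)⁻¹ : ℂˣ) : ℂ) - 1‖ * vm := mul_le_mul_of_nonneg_right hge hvm.le
      _ ≤ _ := hk
  have h6 : (N : ℝ) * ε ≤ ((D : ℝ) * (r₀ : ℝ) * (2 * β)) * vm := by
    rw [hε]
    calc (N : ℝ) * (2 * β * vm) ≤ ((D : ℝ) * (r₀ : ℝ)) * (2 * β * vm) :=
          mul_le_mul_of_nonneg_right hNle (by positivity)
      _ = _ := by ring
  have h7 : ((D : ℝ) * (r₀ : ℝ) * (2 * β)) * vm < 1 * vm := mul_lt_mul_of_pos_right hDr hvm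
  linarith

end NilCut
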