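import Pool.Agent.Lib.MP_4ddf81_pr.Stm2

/-!
# MP_4ddf81_pr, stage 2 : piece Case2 (almost invariant vectors and the phases), helper44
-/

namespace NilCut

namespace Case2

lemma norm_lam {G : Type} [Group G] [Fintype G] (H : Subgroup G) (lam : H →* ℂˣ) (h : H) :
    ‖((lam h : ℂˣ) : ℂ)‖ = 1 := by
  have h1 : h ^ Nat.card H = 1 := pow_card_eq_one'
  have h2 : ((lam h : ℂˣ) : ℂ) ^ Nat.card H = 1 := by
    rw [← Units.val_pow_eq_pow_val, ← map_pow, h1, map_one, Units.val_one]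
  exact Complex.norm_eq_one_of_pow_eq_one h2 Nat.card_pos.ne'

lemma norm_ph {G : Type} [Group G] [Fintype G] (H : Subgroup G) (lam : H →* ℂˣ) (g : G) :
    ‖((ph H lam g : ℂˣ) : ℂ)‖ = 1 := norm_lam H lam _

lemma norm_ph_inv {G : Type} [Group G] [Fintype G] (H : Subgroup G) (lam : H →* ℂˣ) (g : G) :
    ‖(((ph H lam g)⁻¹ : ℂˣ) : ℂ)‖ = 1 := by
  rw [Units.val_inv_eq_inv_val, norm_inv, norm_ph, inv_one]

lemma cov_out {G : Type} [Group G] [Fintype G] (H : Subgroup G) (lam : H →* ℂˣ) (v : G → ℂ)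
    (hv : Cov H lam v) (g : G) :
    v g = (((ph H lam g)⁻¹ : ℂˣ) : ℂ) * v (Quotient.out (g : G ⧸ H)) := by
  have hmem : (Quotient.out (g : G ⧸ H))⁻¹ * g ∈ H := by
    rw [← QuotientGroup.eq]
    exact Quotient.out_eq' _
  have h1 := hv (Quotient.out (g : G ⧸ H)) ⟨_, hmem⟩
  have h2 : Quotient.out (g : G ⧸ H) * ((Quotient.out (g : G ⧸ H))⁻¹ * g) = g := by group
  simp only [h2] at h1
  exact h1

lemma cov_norm {G : Type} [Group G] [Fintype G] (H : Subgroup G) (lam : H →* ℂˣ) (v : G → ℂ)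
    (hv : Cov H lam v) (g : G) : ‖v g‖ = ‖v (Quotient.out (g : G ⧸ H))‖ := by
  rw [cov_out H lam v hv g, norm_mul, norm_ph_inv, one_mul]

end Case2

open Case2 in
theorem p_Case2 : S_Case2 := by
  intro G _ _ H lam k Z β v u vm I hβ0 hβ hI hv hu hvm hvle hvex hclose
  classical
  obtain ⟨g₁, hg₁⟩ := hvex
  obtain ⟨i₀, hi₀⟩ := hI
  obtain ⟨q, hq⟩ : ∃ q : G ⧸ H, q = ((Z i₀ * g₁ : G) : G ⧸ H) := ⟨_, rfl⟩
  -- the value of u
  have hub : 3 / 4 * vm ≤ ‖u (Quotient.out q)‖ := by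
    have h1 := hclose i₀ hi₀ (Z i₀ * g₁)
    rw [inv_mul_cancel_left] at h1
    have h2 : ‖u (Z i₀ * g₁)‖ = ‖u (Quotient.out q)‖ := by rw [cov_norm H lam u hu, hq]
    rw [← h2]
    have h3 : ‖v g₁‖ ≤ ‖v g₁ - u (Z i₀ * g₁)‖ + ‖u (Z i₀ * g₁)‖ := by
      have := norm_add_le (v g₁ - u (Z i₀ * g₁)) (u (Z i₀ * g₁))
      rwa [sub_add_cancel] at this
    nlinarith
  let x : Fin k → G ⧸ H := fun i => (((Z i)⁻¹ * Quotient.out q : G) : G ⧸ H)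
  let φ : Fin k → ℂˣ := fun i => ph H lam ((Z i)⁻¹ * Quotient.out q)
  have hφn : ∀ i, ‖((φ i : ℂˣ) : ℂ)‖ = 1 := fun i => norm_ph H lam _
  have hvx : ∀ i ∈ I, vm / 2 ≤ ‖v (Quotient.out (x i))‖ := by
    intro i hi
    have h1 := hclose i hi (Quotient.out q)
    have h2 : ‖v ((Z i)⁻¹ * Quotient.out q)‖ = ‖v (Quotient.out (x i))‖ :=
      cov_norm H lam v hv _
    rw [← h2]
    have h3 : ‖u (Quotient.out q)‖ ≤ ‖v ((Z i)⁻¹ * Quotient.out q) - u (Quotient.out q)‖ +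
        ‖v ((Z i)⁻¹ * Quotient.out q)‖ := by
      have := norm_sub_le (v ((Z i)⁻¹ * Quotient.out q))
        (v ((Z i)⁻¹ * Quotient.out q) - u (Quotient.out q))
      rw [sub_sub_cancel] at this
      linarith
    nlinarith
  have hkey : ∀ i ∈ I, ∀ i' ∈ I, x i = x i' → ‖((φ i : ℂˣ) : ℂ) - ((φ i' : ℂˣ) : ℂ)‖ ≤ 8 * β := by
    intro i hi i' hi' hx
    have h1 := hclose i hi (Quotient.out q)
    have h2 := hclose i' hi' (Quotient.out q)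
    have e1 : v ((Z i)⁻¹ * Quotient.out q) = (((φ i)⁻¹ : ℂˣ) : ℂ) * v (Quotient.out (x i)) :=
      cov_out H lam v hv _
    have e2 : v ((Z i')⁻¹ * Quotient.out q) = (((φ i')⁻¹ : ℂˣ) : ℂ) * v (Quotient.out (x i)) := by
      rw [hx]
      exact cov_out H lam v hv _
    rw [e1] at h1
    rw [e2] at h2
    have h3 : ‖((((φ i)⁻¹ : ℂˣ) : ℂ) - (((φ i')⁻¹ : ℂˣ) : ℂ)) * v (Quotient.out (x i))‖ ≤
        2 * (β * vm) := by
      have e3 : ((((φ i)⁻¹ : ℂˣ) : ℂ) - (((φ i')⁻¹ : ℂˣ) : ℂ)) * v (Quotient.out (x i)) =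
          ((((φ i)⁻¹ : ℂˣ) : ℂ) * v (Quotient.out (x i)) - u (Quotient.out q)) -
          ((((φ i')⁻¹ : ℂˣ) : ℂ) * v (Quotient.out (x i)) - u (Quotient.out q)) := by ring
      rw [e3]
      refine (norm_sub_le _ _).trans ?_
      linarith
    rw [norm_mul] at h3
    have h4 := hvx i hi
    have h5 : ‖(((φ i)⁻¹ : ℂˣ) : ℂ) - (((φ i')⁻¹ : ℂˣ) : ℂ)‖ ≤ 8 * β := by
      by_contra hlt
      push Not at hlt
      have h6 : (8 * β) * (vm / 2) < 2 * (β * vm) := by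
        have h7 : (8 * β) * (vm / 2) <
            ‖(((φ i)⁻¹ : ℂˣ) : ℂ) - (((φ i')⁻¹ : ℂˣ) : ℂ)‖ * (vm / 2) :=
          mul_lt_mul_of_pos_right hlt (by linarith)
        have h8 : ‖(((φ i)⁻¹ : ℂˣ) : ℂ) - (((φ i')⁻¹ : ℂˣ) : ℂ)‖ * (vm / 2) ≤
            ‖(((φ i)⁻¹ : ℂˣ) : ℂ) - (((φ i')⁻¹ : ℂˣ) : ℂ)‖ * ‖v (Quotient.out (x i))‖ :=
          mul_le_mul_of_nonneg_left h4 (norm_nonneg _)
        linarith
      nlinarith [mul_nonneg hβ0 hvm.le]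
    have n1 := hφn i
    have n2 := hφn i'
    have z1 : ((φ i : ℂˣ) : ℂ) ≠ 0 := Units.ne_zero _
    have z2 : ((φ i' : ℂˣ) : ℂ) ≠ 0 := Units.ne_zero _
    have e4 : ((φ i : ℂˣ) : ℂ) - ((φ i' : ℂˣ) : ℂ) =
        -(((φ i : ℂˣ) : ℂ) * ((φ i' : ℂˣ) : ℂ) *
          ((((φ i)⁻¹ : ℂˣ) : ℂ) - (((φ i')⁻¹ : ℂˣ) : ℂ))) := by
      rw [Units.val_inv_eq_inv_val, Units.val_inv_eq_inv_val]
      field_simp
      ring
    rw [e4, norm_neg, norm_mul, norm_mul, n1, n2, one_mul, one_mul]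
    exact h5
  refine ⟨q, fun y => if h : ∃ i ∈ I, x i = y then φ h.choose else 1, ?_, ?_⟩
  · intro y
    show (if h : ∃ i ∈ I, x i = y then φ h.choose else 1) ∈ lam.range
    by_cases h : ∃ i ∈ I, x i = y
    · rw [dif_pos h]
      exact ⟨_, rfl⟩
    · rw [dif_neg h]
      exact one_mem _
  · intro i hi
    have h : ∃ i' ∈ I, x i' = x i := ⟨i, hi, rfl⟩
    have h1 : (if h : ∃ i' ∈ I, x i' = (((Z i)⁻¹ * Quotient.out q : G) : G ⧸ H)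
        then φ h.choose else 1) = φ h.choose := dif_pos h
    show ‖((φ i : ℂˣ) : ℂ) - _‖ ≤ 8 * β
    simp only [h1]
    exact hkey i hi _ h.choose_spec.1 h.choose_spec.2.symm

end NilCut
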