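import Pool.Agent.Lib.MP_4ddf81_pr.Stm2

/-!
# MP_4ddf81_pr, stage 2, piece CaseP : the number of the families with close phases
-/

namespace NilCut

namespace CaseP

/-- the number of the elements of a finite type with a property, as a real number -/
theorem card_real {A : Type} [Fintype A] (P : A → Prop) [DecidablePred P] :
    (Nat.card {a : A // P a} : ℝ) = ((Finset.univ.filter P).card : ℝ) := by
  rw [Nat.card_eq_fintype_card, Fintype.card_subtype]

theorem norm_one {G : Type} [Group G] [Finite G] {H : Subgroup G} (lam : H →* ℂˣ) {ξ : ℂˣ}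
    (hξ : ξ ∈ lam.range) : ‖(ξ : ℂ)‖ = 1 := by
  obtain ⟨h, rfl⟩ := hξ
  refine Complex.norm_eq_one_of_pow_eq_one (n := orderOf h) ?_ (orderOf_pos h).ne'
  rw [← Units.val_pow_eq_pow_val, ← map_pow, pow_orderOf_eq_one, map_one, Units.val_one]

theorem card_range {G : Type} [Group G] [Finite G] {H : Subgroup G} (lam : H →* ℂˣ) (x : ℝ)
    (θ : lam.range) : Nat.card {ξ : lam.range // ‖((ξ : ℂˣ) : ℂ) - ((θ : ℂˣ) : ℂ)‖ ≤ x} =
    Nat.card {ξ : lam.range // ‖((ξ : ℂˣ) : ℂ) - 1‖ ≤ x} := by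
  refine Nat.card_congr ((Equiv.mulLeft θ⁻¹).subtypeEquiv fun ξ => ?_)
  have h1 : ‖((θ : ℂˣ) : ℂ)‖ = 1 := norm_one lam θ.2
  have h2 : ((ξ : ℂˣ) : ℂ) - ((θ : ℂˣ) : ℂ) =
      ((θ : ℂˣ) : ℂ) * ((((Equiv.mulLeft θ⁻¹) ξ : lam.range) : ℂˣ) - 1 : ℂ) := by
    have h3 : (((Equiv.mulLeft θ⁻¹) ξ : lam.range) : ℂˣ) = (θ : ℂˣ)⁻¹ * (ξ : ℂˣ) := rfl
    rw [h3, Units.val_mul, mul_sub, mul_one, ← mul_assoc, Units.mul_inv, one_mul]
  rw [h2, norm_mul, h1, one_mul]

theorem card_fib {A B : Type} [Finite A] [Finite B] (p : A → B) (n : ℕ)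
    (h : ∀ b, Nat.card {a // p a = b} ≤ n) (P : B → Prop) :
    Nat.card {a // P (p a)} ≤ n * Nat.card {b // P b} := by
  classical
  have := Fintype.ofFinite A
  have := Fintype.ofFinite B
  rw [Nat.card_eq_fintype_card, Nat.card_eq_fintype_card, Fintype.card_subtype,
    Fintype.card_subtype]
  refine Finset.card_le_mul_card_image_of_maps_to (f := p) (fun a ha => ?_) n fun b _ => ?_
  · simpa using ha
  · have h1 := h b
    rw [Nat.card_eq_fintype_card, Fintype.card_subtype] at h1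
    refine le_trans (Finset.card_le_card fun a ha => ?_) h1
    simp only [Finset.mem_filter, Finset.mem_univ, true_and] at ha ⊢
    exact ha.2

theorem card_H {G : Type} [Group G] [Finite G] {H : Subgroup G} (lam : H →* ℂˣ) (x f : ℝ)
    (hf : (Nat.card {ξ : lam.range // ‖((ξ : ℂˣ) : ℂ) - 1‖ ≤ x} : ℝ) ≤
      f * (Nat.card lam.range : ℝ)) (θ : ℂˣ) (hθ : θ ∈ lam.range) :
    (Nat.card {h : H // ‖((lam h : ℂˣ) : ℂ) - (θ : ℂ)‖ ≤ x} : ℝ) ≤ f * (Nat.card H : ℝ) := by
  have hfin : Finite lam.range := Set.finite_range lam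
  have h1 := card_fib (lam.rangeRestrict) (Nat.card lam.ker) (fun ξ => ?_)
    (fun ξ => ‖((ξ : ℂˣ) : ℂ) - (((⟨θ, hθ⟩ : lam.range) : ℂˣ) : ℂ)‖ ≤ x)
  · rw [card_range lam x ⟨θ, hθ⟩] at h1
    have h2 : (Nat.card {h : H // ‖((lam h : ℂˣ) : ℂ) - (θ : ℂ)‖ ≤ x} : ℝ) ≤
        (Nat.card lam.ker : ℝ) * (Nat.card {ξ : lam.range // ‖((ξ : ℂˣ) : ℂ) - 1‖ ≤ x} : ℝ) := by
      exact_mod_cast h1
    have h3 : (Nat.card lam.ker : ℝ) * (Nat.card lam.range : ℝ) = (Nat.card H : ℝ) := by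
      rw [← Subgroup.index_ker]
      exact_mod_cast lam.ker.card_mul_index
    calc (Nat.card {h : H // ‖((lam h : ℂˣ) : ℂ) - (θ : ℂ)‖ ≤ x} : ℝ)
        ≤ (Nat.card lam.ker : ℝ) * (f * (Nat.card lam.range : ℝ)) :=
          h2.trans (mul_le_mul_of_nonneg_left hf (Nat.cast_nonneg _))
      _ = f * (Nat.card H : ℝ) := by rw [← h3]; ring
  · obtain ⟨h0, hh0⟩ := lam.rangeRestrict_surjective ξ
    refine Nat.card_le_card_of_injective (fun h : {h // lam.rangeRestrict h = ξ} =>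
      (⟨h0⁻¹ * h.1, ?_⟩ : lam.ker)) ?_
    · have h2 : lam.rangeRestrict h.1 = lam.rangeRestrict h0 := h.2.trans hh0.symm
      have h3 : lam h.1 = lam h0 := congrArg Subtype.val h2
      rw [MonoidHom.mem_ker, map_mul, map_inv, h3, inv_mul_cancel]
    · intro a b hab
      have := congrArg Subtype.val hab
      exact Subtype.ext (mul_left_cancel this)

open Classical in
theorem card_G {G : Type} [Group G] [Fintype G] (H : Subgroup G) (lam : H →* ℂˣ) (x f : ℝ)
    (hf : (Nat.card {ξ : lam.range // ‖((ξ : ℂˣ) : ℂ) - 1‖ ≤ x} : ℝ) ≤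
      f * (Nat.card lam.range : ℝ)) (θ : G ⧸ H → ℂˣ) (hθ : ∀ X, θ X ∈ lam.range) :
    ((Finset.univ.filter fun g : G =>
      ‖((ph H lam g : ℂˣ) : ℂ) - ((θ (g : G ⧸ H) : ℂˣ) : ℂ)‖ ≤ x).card : ℝ) ≤
      f * (Nat.card G : ℝ) := by
  have : Fintype (G ⧸ H) := Fintype.ofFinite _
  rw [Finset.card_eq_sum_card_fiberwise (f := fun g : G => (g : G ⧸ H)) (t := Finset.univ)
    (fun g _ => by simp)]
  push_cast
  have h1 : ∀ X : G ⧸ H, ((((Finset.univ.filter fun g : G =>
      ‖((ph H lam g : ℂˣ) : ℂ) - ((θ (g : G ⧸ H) : ℂˣ) : ℂ)‖ ≤ x)).filter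
        fun g : G => (g : G ⧸ H) = X).card : ℝ) ≤ f * (Nat.card H : ℝ) := by
    intro X
    refine le_trans ?_ (card_H lam x f hf (θ X) (hθ X))
    have h2 : ((Finset.univ.filter fun g : G =>
      ‖((ph H lam g : ℂˣ) : ℂ) - ((θ (g : G ⧸ H) : ℂˣ) : ℂ)‖ ≤ x).filter
        fun g : G => (g : G ⧸ H) = X).card ≤
        Nat.card {h : H // ‖((lam h : ℂˣ) : ℂ) - (θ X : ℂ)‖ ≤ x} := by
      rw [← Fintype.card_coe, ← Nat.card_eq_fintype_card]
      refine Nat.card_le_card_of_injective (fun g =>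
        ⟨⟨(Quotient.out ((g.1 : G) : G ⧸ H))⁻¹ * g.1, by
          rw [← QuotientGroup.eq]
          exact Quotient.out_eq' _⟩, ?_⟩) ?_
      · have hg := g.2
        rw [Finset.mem_filter, Finset.mem_filter] at hg
        have h3 := hg.1.2
        rw [hg.2] at h3
        exact h3
      · intro a b hab
        have h3 : (Quotient.out ((a.1 : G) : G ⧸ H))⁻¹ * a.1 =
            (Quotient.out ((b.1 : G) : G ⧸ H))⁻¹ * b.1 :=
          congrArg (fun h => ((h.1 : H) : G)) hab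
        have ha := (Finset.mem_filter.1 a.2).2
        have hb := (Finset.mem_filter.1 b.2).2
        rw [ha, hb] at h3
        exact Subtype.ext (mul_left_cancel h3)
    exact_mod_cast h2
  calc _ ≤ ∑ _X : G ⧸ H, f * (Nat.card H : ℝ) := Finset.sum_le_sum fun X _ => h1 X
    _ = f * (Nat.card G : ℝ) := by
      rw [Finset.sum_const, Finset.card_univ, nsmul_eq_mul, ← Nat.card_eq_fintype_card,
        ← Subgroup.index_eq_card H]
      have h2 : (Nat.card G : ℝ) = (Nat.card H : ℝ) * (H.index : ℝ) := by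
        exact_mod_cast H.card_mul_index.symm
      rw [h2]
      ring

open Classical in
/-- the number of the families, fixed set of indices -/
theorem card_fam {G : Type} [Group G] [Fintype G] (k : ℕ) (f γ : ℝ) (hf0 : 0 < f) (hf1 : f ≤ 1)
    (A : Finset G) (hA : (A.card : ℝ) ≤ f * (Nat.card G : ℝ)) (I : Finset (Fin k))
    (hI : (1 - γ) * (k : ℝ) ≤ (I.card : ℝ)) :
    ((Fintype.piFinset fun i : Fin k => if i ∈ I then A else Finset.univ).card : ℝ) ≤
      f ^ ((1 - γ) * (k : ℝ)) * (Nat.card G : ℝ) ^ k := by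
  rw [Fintype.card_piFinset]
  push_cast
  have hG : 0 ≤ (Nat.card G : ℝ) := Nat.cast_nonneg _
  have h1 : ∏ i : Fin k, (((if i ∈ I then A else Finset.univ : Finset G).card : ℝ)) ≤
      ∏ i : Fin k, ((if i ∈ I then f else 1) * (Nat.card G : ℝ)) := by
    refine Finset.prod_le_prod (fun i _ => Nat.cast_nonneg _) fun i _ => ?_
    split_ifs with h
    · exact hA
    · rw [Finset.card_univ, one_mul, Nat.card_eq_fintype_card]
  refine h1.trans ?_
  rw [Finset.prod_mul_distrib, Finset.prod_const, Finset.card_univ, Fintype.card_fin]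
  refine mul_le_mul_of_nonneg_right ?_ (pow_nonneg hG _)
  rw [Finset.prod_ite, Finset.prod_const, Finset.prod_const, one_pow, mul_one]
  have h2 : (Finset.univ.filter fun i : Fin k => i ∈ I) = I := by
    ext i
    simp
  rw [h2, ← Real.rpow_natCast]
  exact Real.rpow_le_rpow_of_exponent_ge hf0 hf1 hI

end CaseP

/-- The number of the families with close phases. -/
theorem p_CaseP : S_CaseP := by
  classical
  intro G _ _ H lam k D x f γ hD hx hf0 hf1 hγ0 hγ1 hf
  have hfin : Finite lam.range := Set.finite_range lam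
  have : Fintype lam.range := Fintype.ofFinite _
  have : Fintype (G ⧸ H) := Fintype.ofFinite _
  have hG1 : (1 : ℝ) ≤ (Nat.card G : ℝ) := by
    have : 0 < Nat.card G := Nat.card_pos
    exact_mod_cast this
  let Ind := Finset (Fin k) × (G ⧸ H) × (G ⧸ H → lam.range)
  let AA : Ind → Finset G := fun t => Finset.univ.filter fun z : G =>
    ‖((ph H lam (z⁻¹ * Quotient.out t.2.1) : ℂˣ) : ℂ) -
      (((t.2.2 ((z⁻¹ * Quotient.out t.2.1 : G) : G ⧸ H) : lam.range) : ℂˣ) : ℂ)‖ ≤ x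
  have hAA : ∀ t, ((AA t).card : ℝ) ≤ f * (Nat.card G : ℝ) := by
    intro t
    refine le_trans (le_of_eq ?_) (CaseP.card_G H lam x f hf
      (fun X => ((t.2.2 X : lam.range) : ℂˣ)) fun X => (t.2.2 X).2)
    have h1 : (AA t).card = (Finset.univ.filter fun g : G =>
      ‖((ph H lam g : ℂˣ) : ℂ) - (((t.2.2 (g : G ⧸ H) : lam.range) : ℂˣ) : ℂ)‖ ≤ x).card := by
      refine Finset.card_bij' (fun z _ => z⁻¹ * Quotient.out t.2.1)
        (fun g _ => Quotient.out t.2.1 * g⁻¹) ?_ ?_ ?_ ?_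
      · intro z hz
        simp only [AA, Finset.mem_filter, Finset.mem_univ, true_and] at hz ⊢
        exact hz
      · intro g hg
        simp only [AA, Finset.mem_filter, Finset.mem_univ, true_and] at hg ⊢
        have e : (Quotient.out t.2.1 * g⁻¹)⁻¹ * Quotient.out t.2.1 = g := by group
        rw [e]
        exact hg
      · intro z _
        group
      · intro g _
        group
    exact_mod_cast h1
  rw [CaseP.card_real]
  have hsub : (Finset.univ.filter fun Z : Fin k → G => ∃ I : Finset (Fin k),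
      (1 - γ) * (k : ℝ) ≤ (I.card : ℝ) ∧
      ∃ (q : G ⧸ H) (θ : G ⧸ H → ℂˣ), (∀ x, θ x ∈ lam.range) ∧ ∀ i ∈ I,
        ‖((ph H lam ((Z i)⁻¹ * Quotient.out q) : ℂˣ) : ℂ) -
          ((θ (((Z i)⁻¹ * Quotient.out q : G) : G ⧸ H) : ℂˣ) : ℂ)‖ ≤ x) ⊆
      ((Finset.univ : Finset Ind).filter fun t => (1 - γ) * (k : ℝ) ≤ (t.1.card : ℝ)).biUnion
        fun t => Fintype.piFinset fun i : Fin k => if i ∈ t.1 then AA t else Finset.univ := by
    intro Z hZ
    rw [Finset.mem_filter] at hZ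
    obtain ⟨_, I, hI, q, θ, hθ, hZ⟩ := hZ
    rw [Finset.mem_biUnion]
    refine ⟨(I, q, fun X => ⟨θ X, hθ X⟩), Finset.mem_filter.2 ⟨Finset.mem_univ _, hI⟩, ?_⟩
    rw [Fintype.mem_piFinset]
    intro i
    split_ifs with hi
    · exact Finset.mem_filter.2 ⟨Finset.mem_univ _, hZ i hi⟩
    · exact Finset.mem_univ _
  have h2 : ((Finset.univ.filter fun Z : Fin k → G => ∃ I : Finset (Fin k),
      (1 - γ) * (k : ℝ) ≤ (I.card : ℝ) ∧
      ∃ (q : G ⧸ H) (θ : G ⧸ H → ℂˣ), (∀ x, θ x ∈ lam.range) ∧ ∀ i ∈ I,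
        ‖((ph H lam ((Z i)⁻¹ * Quotient.out q) : ℂˣ) : ℂ) -
          ((θ (((Z i)⁻¹ * Quotient.out q : G) : G ⧸ H) : ℂˣ) : ℂ)‖ ≤ x).card : ℝ) ≤
      ∑ t ∈ (Finset.univ : Finset Ind).filter fun t => (1 - γ) * (k : ℝ) ≤ (t.1.card : ℝ),
        ((Fintype.piFinset fun i : Fin k => if i ∈ t.1 then AA t else Finset.univ).card : ℝ) := by
    exact_mod_cast (Finset.card_le_card hsub).trans Finset.card_biUnion_le
  refine h2.trans ?_
  have h3 : ∑ t ∈ (Finset.univ : Finset Ind).filter fun t => (1 - γ) * (k : ℝ) ≤ (t.1.card : ℝ),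
        ((Fintype.piFinset fun i : Fin k => if i ∈ t.1 then AA t else Finset.univ).card : ℝ) ≤
      ∑ _t ∈ (Finset.univ : Finset Ind).filter fun t => (1 - γ) * (k : ℝ) ≤ (t.1.card : ℝ),
        f ^ ((1 - γ) * (k : ℝ)) * (Nat.card G : ℝ) ^ k :=
    Finset.sum_le_sum fun t ht =>
      CaseP.card_fam k f γ hf0 hf1 (AA t) (hAA t) t.1 (Finset.mem_filter.1 ht).2
  refine h3.trans ?_
  rw [Finset.sum_const, nsmul_eq_mul]
  have hpos : 0 ≤ f ^ ((1 - γ) * (k : ℝ)) * (Nat.card G : ℝ) ^ k := by positivity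
  have h4 : ((((Finset.univ : Finset Ind).filter fun t =>
      (1 - γ) * (k : ℝ) ≤ (t.1.card : ℝ)).card : ℕ) : ℝ) ≤
      (D : ℝ) * (Nat.card G : ℝ) ^ D * 2 ^ k := by
    have h5 : ((((Finset.univ : Finset Ind).filter fun t =>
        (1 - γ) * (k : ℝ) ≤ (t.1.card : ℝ)).card : ℕ) : ℝ) ≤ (Fintype.card Ind : ℝ) := by
      exact_mod_cast Finset.card_filter_le _ _
    refine h5.trans ?_
    have h6 : Fintype.card Ind = 2 ^ k * (H.index * (Nat.card lam.range) ^ H.index) := by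
      have e1 : Fintype.card Ind = Fintype.card (Finset (Fin k)) * (Fintype.card (G ⧸ H) *
          Fintype.card (G ⧸ H → lam.range)) := by
        simp only [Ind, Fintype.card_prod]
      rw [e1, Fintype.card_finset, Fintype.card_fin, Fintype.card_fun, Subgroup.index_eq_card,
        Nat.card_eq_fintype_card, Nat.card_eq_fintype_card]
    rw [h6]
    push_cast
    have h7 : (Nat.card lam.range : ℝ) ≤ (Nat.card G : ℝ) := by
      have e1 : Nat.card lam.range ≤ Nat.card H :=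
        Nat.card_le_card_of_surjective _ lam.rangeRestrict_surjective
      have e2 : Nat.card H ≤ Nat.card G := Nat.card_le_card_of_injective _ H.subtype_injective
      exact_mod_cast e1.trans e2
    have h8 : (Nat.card lam.range : ℝ) ^ H.index ≤ (Nat.card G : ℝ) ^ D :=
      (pow_le_pow_left₀ (Nat.cast_nonneg _) h7 _).trans (pow_le_pow_right₀ hG1 hD)
    have h9 : (H.index : ℝ) ≤ (D : ℝ) := by exact_mod_cast hD
    have h10 : (H.index : ℝ) * (Nat.card lam.range : ℝ) ^ H.index ≤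
        (D : ℝ) * (Nat.card G : ℝ) ^ D :=
      mul_le_mul h9 h8 (by positivity) (by positivity)
    calc (2 : ℝ) ^ k * ((H.index : ℝ) * (Nat.card lam.range : ℝ) ^ H.index)
        ≤ 2 ^ k * ((D : ℝ) * (Nat.card G : ℝ) ^ D) :=
          mul_le_mul_of_nonneg_left h10 (by positivity)
      _ = (D : ℝ) * (Nat.card G : ℝ) ^ D * 2 ^ k := by ring
  calc _ ≤ ((D : ℝ) * (Nat.card G : ℝ) ^ D * 2 ^ k) *
        (f ^ ((1 - γ) * (k : ℝ)) * (Nat.card G : ℝ) ^ k) := mul_le_mul_of_nonneg_right h4 hpos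
    _ = _ := by ring

end NilCut
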