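import Pool.Agent.Lib.MP_4ddf81_pr.Stm2

/-!
# MP_4ddf81_pr, stage 2 : the weights of the classes
-/

namespace NilCut

theorem p_Cls (hP : S_Pw) : S_Cls := by
  classical
  intro Q _ _ S s L hs
  obtain ⟨hpos, hsum, -, -⟩ := hP Q s L 0 hs
  have h1 : ∀ x ∈ XL Q L, pw s x ≤ clsS S s L x := by
    intro x hx
    unfold clsS
    refine Finset.single_le_sum (f := fun y => pw s y) (fun y _ => (hpos y).le) ?_
    refine Finset.mem_filter.2 ⟨hx, ?_⟩
    have : (fun a => (x a : ℤ) - (x a : ℤ)) = (0 : Q → ℤ) := by
      funext a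
      simp
    rw [this]
    exact (rS S).zero_mem
  have h2 : ∀ x : Q → ℕ, clsS S s L x ≤ 1 := by
    intro x
    unfold clsS
    refine le_trans ?_ hsum
    exact Finset.sum_le_sum_of_subset_of_nonneg (Finset.filter_subset _ _)
      fun y _ _ => (hpos y).le
  refine ⟨h1, h2, ?_, ?_⟩
  · intro x y hxy
    unfold clsS
    refine Finset.sum_congr ?_ fun _ _ => rfl
    refine Finset.filter_congr fun w _ => ?_
    constructor
    · intro h
      have h3 := (rS S).sub_mem h hxy
      have : (fun a => (w a : ℤ) - (x a : ℤ)) - (fun a => (y a : ℤ) - (x a : ℤ)) =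
          (fun a => (w a : ℤ) - (y a : ℤ)) := by
        funext a
        simp
      rw [this] at h3
      exact h3
    · intro h
      have h3 := (rS S).add_mem h hxy
      have : (fun a => (w a : ℤ) - (y a : ℤ)) + (fun a => (y a : ℤ) - (x a : ℤ)) =
          (fun a => (w a : ℤ) - (x a : ℤ)) := by
        funext a
        simp
      rw [this] at h3
      exact h3
  · unfold HS
    refine Finset.sum_nonneg fun x hx => mul_nonneg (hpos x).le ?_
    have h3 : 0 < clsS S s L x := lt_of_lt_of_le (hpos x) (h1 x hx)
    have := Real.log_nonpos h3.le (h2 x)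
    linarith only [this]

end NilCut
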