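import Pool.Agent.Lib.MP_4ddf81_pr.Stm2

/-!
# MP_4ddf81_pr, stage 2, piece Cnt
-/

namespace NilCut

theorem p_Cnt : S_Cnt := by
  classical
  intro Q _ _ k n z w
  refine ⟨fun i a => ?_, fun a => ?_, ?_⟩
  · unfold cnt
    exact (Finset.card_le_univ _).trans (by simp)
  · unfold cnt occ
    rw [Finset.card_eq_sum_card_fiberwise (f := w) (t := Finset.univ)
      (fun j _ => Finset.mem_coe.2 (Finset.mem_univ _))]
    refine Finset.sum_congr rfl fun i _ => ?_
    congr 1
    ext j
    simp [and_comm]
  · unfold occ
    have h := Finset.card_eq_sum_card_fiberwise (f := fun j : Fin n => st z w j)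
      (s := Finset.univ) (t := Finset.univ) (fun j _ => Finset.mem_coe.2 (Finset.mem_univ _))
    rw [Finset.card_univ, Fintype.card_fin] at h
    exact h.symm

end NilCut
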