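import Pool.Agent.Lib.MP_4ddf81_pr.Stm2

/-!
# MP_4ddf81_pr, stage 2, piece Core
-/

namespace NilCut

open Subgroup in
theorem p_Core : S_Core := by
  intro G _ _ H
  have h : H.normalCore.index ∣ H.index.factorial := by
    rw [normalCore_eq_ker, index_ker, index_eq_card, ← Nat.card_perm]
    exact card_subgroup_dvd_card (MulAction.toPermHom G (G ⧸ H)).range
  exact Nat.le_of_dvd (Nat.factorial_pos _) h

end NilCut
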