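import Pool.Agent.Lib.MP_4ddf81_pr.Stm2

/-!
# MP_4ddf81_pr, stage 2 : a small family of subgroups for the characters of small degree
-/

namespace NilCut

namespace Cover

open Classical in
/-- The family for one degree. -/
private theorem one (hP : S_Pop2) (hG : S_Greedy) (hS : S_Sq) (G : Type) [Group G] [Fintype G]
    (hN : Group.IsNilpotent G) (P : Planch G) (D D' : ℕ) (h1 : 1 ≤ D') (h2 : D' ≤ D) :
    ∃ T : Finset (Subgroup G), (∀ H ∈ T, H.index ≤ D) ∧
      (T.card : ℝ) ≤ Real.exp (12 * (1 + Real.sqrt (Real.log (Nat.card G))) *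
        Real.log D ^ 2) * (Real.log (Nat.card G) + 1) + 1 ∧
      ∀ i, P.d i = D' → ∃ H ∈ T, ∃ lam : H →* ℂˣ, ∀ g, (P.ρ i g).trace = indL H lam g := by
  have hc1 : (1 : ℝ) ≤ Nat.card G := by exact_mod_cast Nat.card_pos
  have hL0 : 0 ≤ Real.log (Nat.card G) := Real.log_nonneg hc1
  set L : ℝ := Real.log (Nat.card G) with hL
  have hE1 : 1 ≤ Real.exp (12 * (1 + Real.sqrt L) * Real.log D ^ 2) :=
    Real.one_le_exp (by positivity)
  have hD'1 : (1 : ℝ) ≤ (D' : ℝ) := by exact_mod_cast h1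
  have hDD : (D' : ℝ) ≤ (D : ℝ) := by exact_mod_cast h2
  have hlog0 : 0 ≤ Real.log (D' : ℝ) := Real.log_nonneg hD'1
  have hlog : Real.log (D' : ℝ) ≤ Real.log (D : ℝ) :=
    Real.log_le_log (by linarith) hDD
  have hEE : Real.exp (12 * (1 + Real.sqrt L) * Real.log D' ^ 2) ≤
      Real.exp (12 * (1 + Real.sqrt L) * Real.log D ^ 2) := by
    apply Real.exp_le_exp.mpr
    apply mul_le_mul_of_nonneg_left _ (by positivity)
    exact pow_le_pow_left₀ hlog0 hlog 2
  set E : ℝ := Real.exp (12 * (1 + Real.sqrt L) * Real.log D ^ 2) with hE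
  let X : Finset (G → ℂ) :=
    (Finset.univ.filter fun i => P.d i = D').image (fun i g => (P.ρ i g).trace)
  have hX : ∀ χ ∈ X, IsIrrChar G D' χ := by
    intro χ hχ
    obtain ⟨i, hi, rfl⟩ := Finset.mem_image.mp hχ
    have hi' : P.d i = D' := (Finset.mem_filter.mp hi).2
    subst hi'
    exact ⟨P.ρ i, P.irr i, fun g => rfl⟩
  have hXc : (X.card : ℝ) ≤ Nat.card G := by
    refine le_trans ?_ (hS G P).2
    have : X.card ≤ Nat.card P.ι := by
      refine le_trans Finset.card_image_le ?_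
      refine le_trans (Finset.card_filter_le _ _) ?_
      simp [Nat.card_eq_fintype_card]
    exact_mod_cast this
  have hlogX : Real.log (X.card : ℝ) ≤ L := by
    rcases Nat.eq_zero_or_pos X.card with h0 | h0
    · rw [h0]; simpa using hL0
    · exact Real.log_le_log (by exact_mod_cast h0) hXc
  obtain ⟨T, hT, hT2⟩ := hG (G → ℂ) (Subgroup G) X
    (fun χ H => H.index = D' ∧ ∃ lam : H →* ℂˣ, ∀ g, χ g = indL H lam g) E hE1 (by
      intro F hF hF0
      obtain ⟨H, F₁, hH, hF₁, hl, hc⟩ := hP G hN D' h1 F hF0 (fun χ hχ => hX χ (hF hχ))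
      refine ⟨H, F₁, hF₁, fun x hx => ⟨hH, hl x hx⟩, hc.trans ?_⟩
      exact mul_le_mul_of_nonneg_right hEE (by positivity))
  refine ⟨T.filter (fun H => H.index = D'), ?_, ?_, ?_⟩
  · intro H hH
    rw [(Finset.mem_filter.mp hH).2]
    exact h2
  · have h3 : ((T.filter (fun H => H.index = D')).card : ℝ) ≤ (T.card : ℝ) := by
      exact_mod_cast Finset.card_filter_le _ _
    have h4 : E * (Real.log (X.card : ℝ) + 1) ≤ E * (L + 1) :=
      mul_le_mul_of_nonneg_left (by linarith) (by linarith)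
    linarith
  · intro i hi
    have hiX : (fun g => (P.ρ i g).trace) ∈ X :=
      Finset.mem_image.mpr ⟨i, Finset.mem_filter.mpr ⟨Finset.mem_univ _, hi⟩, rfl⟩
    obtain ⟨H, hHT, hHi, lam, hlam⟩ := hT2 _ hiX
    exact ⟨H, Finset.mem_filter.mpr ⟨hHT, hHi⟩, lam, hlam⟩

end Cover

open Classical in
theorem p_Cover (hP : S_Pop2) (hG : S_Greedy) (hS : S_Sq) : S_Cover := by
  intro G _ _ hN P D hD
  have key : ∀ D' : ℕ, ∃ T : Finset (Subgroup G), (1 ≤ D' → D' ≤ D →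
      ((∀ H ∈ T, H.index ≤ D) ∧
      (T.card : ℝ) ≤ Real.exp (12 * (1 + Real.sqrt (Real.log (Nat.card G))) *
        Real.log D ^ 2) * (Real.log (Nat.card G) + 1) + 1 ∧
      ∀ i, P.d i = D' → ∃ H ∈ T, ∃ lam : H →* ℂˣ, ∀ g,
        (P.ρ i g).trace = indL H lam g)) := by
    intro D'
    by_cases h : 1 ≤ D' ∧ D' ≤ D
    · obtain ⟨T, hT⟩ := Cover.one hP hG hS G hN P D D' h.1 h.2
      exact ⟨T, fun _ _ => hT⟩
    · exact ⟨∅, fun h1 h2 => absurd ⟨h1, h2⟩ h⟩
  choose T hT using key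
  refine ⟨(Finset.Icc 1 D).biUnion T, ?_, ?_, ?_⟩
  · intro H hH
    obtain ⟨D', hD', hH'⟩ := Finset.mem_biUnion.mp hH
    obtain ⟨h1, h2⟩ := Finset.mem_Icc.mp hD'
    exact (hT D' h1 h2).1 H hH'
  · have h1 : (((Finset.Icc 1 D).biUnion T).card : ℝ) ≤
        ∑ D' ∈ Finset.Icc 1 D, ((T D').card : ℝ) := by
      exact_mod_cast Finset.card_biUnion_le
    refine h1.trans ?_
    refine (Finset.sum_le_card_nsmul _ _ (Real.exp (12 * (1 + Real.sqrt (Real.log
      (Nat.card G))) * Real.log D ^ 2) * (Real.log (Nat.card G) + 1) + 1)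
      (fun D' hD' => ?_)).trans ?_
    · obtain ⟨h1, h2⟩ := Finset.mem_Icc.mp hD'
      exact (hT D' h1 h2).2.1
    · rw [nsmul_eq_mul, Nat.card_Icc, Nat.add_sub_cancel]
  · intro i hi
    obtain ⟨H, hH, h⟩ := (hT (P.d i) (P.pos i) hi).2.2 i rfl
    exact ⟨H, Finset.mem_biUnion.mpr ⟨P.d i, Finset.mem_Icc.mpr ⟨P.pos i, hi⟩, hH⟩, h⟩

end NilCut
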