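import Pool.Agent.Lib.MP_4ddf81_pr.Stm2

/-!
# MP_4ddf81_pr, stage 2 : the dichotomy
-/

namespace NilCut

open Filter Topology

/-- The dichotomy. -/
theorem p_Dich (hT : S_Term) (hU : S_UBasy) (hL : S_LBasy) : S_Dich := by
  classical
  intro C₀ δ s₀ s₁ ε ηt hC hδ hs0 hs01 hε hηt
  obtain ⟨D, c₂, η₂, hD, hc₂, hη₂, hUB⟩ := hU C₀ δ s₀ s₁ ε ηt hC hδ hs0 hs01 hε hηt
  obtain ⟨Jm, k₁, hTerm⟩ := hT D c₂ C₀ hD hc₂ hC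
  obtain ⟨R, k₂, hUB'⟩ := hUB Jm
  obtain ⟨k₃, hLB⟩ := hL s₀ s₁ η₂ ηt Jm R hs0 hs01 hη₂ hηt
  refine ⟨max k₁ (max k₂ k₃), ?_⟩
  intro k hk G _ _ hnil hG hgen s hs hs'
  have hk1 : k₁ ≤ k := le_trans (le_max_left _ _) hk
  have hk2 : k₂ ≤ k := le_trans (le_trans (le_max_left _ _) (le_max_right _ _)) hk
  have hk3 : k₃ ≤ k := le_trans (le_trans (le_max_right _ _) (le_max_right _ _)) hk
  obtain ⟨K, hKn, hKi, hKt⟩ := hTerm k hk1 G hG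
  haveI := hKn
  letI : Fintype (G ⧸ K) := Fintype.ofFinite _
  by_cases h : ∀ S ⊆ BR (G ⧸ K) R, ((MS K S).index : ℝ) ≤
      Real.exp ((k : ℝ) * (HS S s ⌈(s₁ + 1) * (k : ℝ)⌉₊ + η₂))
  · exact Or.inr (hUB' k hk2 G hnil hG hgen K hKi hKt s hs hs' h)
  · push Not at h
    obtain ⟨S, hS, hS'⟩ := h
    exact Or.inl (hLB k hk3 G K hKi s hs hs' S hS hS')

end NilCut
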