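import Pool.Agent.Lib.MP_4ddf81_pr.Stm2

/-!
# MP_4ddf81_pr, stage 2 : piece Euler
-/

namespace NilCut

namespace Euler

open Classical in
/-- The counts of a word with the starting state `a₀`. -/
noncomputable def gc {Q : Type} [Group Q] {k n : ℕ} (a₀ : Q) (z : Fin k → Q) (w : Fin n → Fin k)
    (i : Fin k) (a : Q) : ℕ :=
  (Finset.univ.filter fun j : Fin n => w j = i ∧ a₀ * st z w j = a).card

theorem gc_one {Q : Type} [Group Q] {k n : ℕ} (z : Fin k → Q) (w : Fin n → Fin k) :
    gc 1 z w = cnt z w := by
  classical
  funext i a
  unfold gc cnt
  congr 1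
  refine Finset.filter_congr fun j _ => ?_
  rw [one_mul]

theorem st_zero {Q : Type} [Group Q] {k n : ℕ} (z : Fin k → Q) (w : Fin n → Fin k) :
    st z w 0 = 1 := by
  simp [st]

theorem st_succ {Q : Type} [Group Q] {k n : ℕ} (z : Fin k → Q) (i : Fin k) (w : Fin n → Fin k)
    (j : ℕ) : st z (Fin.cons i w : Fin (n + 1) → Fin k) (j + 1) = z i * st z w j := by
  unfold st
  rw [List.ofFn_succ, List.take_succ_cons, List.prod_cons]
  simp only [Fin.cons_zero, Fin.cons_succ]

open Classical in
theorem gc_cons {Q : Type} [Group Q] {k n : ℕ} (a₀ : Q) (z : Fin k → Q) (i : Fin k)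
    (w : Fin n → Fin k) (i' : Fin k) (a : Q) :
    gc a₀ z (Fin.cons i w : Fin (n + 1) → Fin k) i' a =
      (if (i, a₀) = (i', a) then 1 else 0) + gc (a₀ * z i) z w i' a := by
  unfold gc
  rw [Finset.card_filter, Finset.card_filter, Fin.sum_univ_succ]
  congr 1
  · simp only [Fin.cons_zero, Fin.val_zero, st_zero, mul_one, Prod.mk.injEq]
  · refine Finset.sum_congr rfl fun j _ => ?_
    simp only [Fin.cons_succ, Fin.val_succ, st_succ, mul_assoc]

open Classical in
theorem prod_fact {α : Type} [Fintype α] (f : α → ℕ) (a₀ : α) (h : 1 ≤ f a₀) :
    ∏ a, (f a).factorial = f a₀ * ∏ a, (f a - if a₀ = a then 1 else 0).factorial := by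
  have h1 : ∏ a, (f a).factorial =
      ∏ a, ((if a₀ = a then f a else 1) * (f a - if a₀ = a then 1 else 0).factorial) := by
    refine Finset.prod_congr rfl fun a _ => ?_
    by_cases ha : a₀ = a
    · subst ha
      rw [if_pos rfl, if_pos rfl, Nat.mul_factorial_pred (by omega)]
    · rw [if_neg ha, if_neg ha, one_mul, Nat.sub_zero]
  rw [h1, Finset.prod_mul_distrib, Finset.prod_ite_eq]
  simp

open Classical in
theorem main {Q : Type} [Group Q] [Fintype Q] {k : ℕ} (z : Fin k → Q) (n : ℕ) :
    ∀ (a₀ : Q) (N : Fin k → Q → ℕ),
    (∑ w : Fin n → Fin k, if gc a₀ z w = N then 1 else 0) * ∏ i, ∏ a, (N i a).factorial ≤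
      ∏ a : Q, (∑ i, N i a).factorial := by
  induction n with
  | zero =>
    intro a₀ N
    have hu : (Finset.univ : Finset (Fin 0 → Fin k)) = {Fin.elim0} := by
      ext w
      simp only [Finset.mem_univ, Finset.mem_singleton, true_iff]
      exact Subsingleton.elim _ _
    rw [hu, Finset.sum_singleton]
    by_cases h : gc a₀ z (Fin.elim0 : Fin 0 → Fin k) = N
    · have h0 : ∀ i a, N i a = 0 := by
        intro i a
        rw [← h]
        simp [gc]
      rw [if_pos h]
      simp [h0]
    · rw [if_neg h, zero_mul]
      exact Nat.zero_le _
  | succ n ih =>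
    intro a₀ N
    have e1 : (∑ w : Fin (n + 1) → Fin k, if gc a₀ z w = N then 1 else 0) =
        ∑ i : Fin k, ∑ w : Fin n → Fin k,
          if gc a₀ z (Fin.cons i w : Fin (n + 1) → Fin k) = N then 1 else 0 := by
      rw [← Fintype.sum_prod_type' (fun (i : Fin k) (w : Fin n → Fin k) =>
        if gc a₀ z (Fin.cons i w : Fin (n + 1) → Fin k) = N then 1 else 0)]
      exact (Fintype.sum_equiv (Fin.consEquiv (fun _ => Fin k)) _ _ (fun p => rfl)).symm
    rw [e1, Finset.sum_mul]
    by_cases hn : ∑ i, N i a₀ = 0
    · have h0 : ∀ i, N i a₀ = 0 := fun i =>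
        Nat.eq_zero_of_le_zero (hn ▸ Finset.single_le_sum (f := fun i => N i a₀)
          (fun _ _ => Nat.zero_le _) (Finset.mem_univ i))
      have h1 : ∑ i : Fin k, (∑ w : Fin n → Fin k,
          if gc a₀ z (Fin.cons i w : Fin (n + 1) → Fin k) = N then 1 else 0) *
            ∏ i, ∏ a, (N i a).factorial = 0 := by
        refine Finset.sum_eq_zero fun i _ => ?_
        rw [Finset.sum_eq_zero, zero_mul]
        intro w _
        rw [if_neg]
        intro h
        have h2 := congrFun (congrFun h i) a₀
        rw [gc_cons, if_pos rfl, h0 i] at h2
        omega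
      rw [h1]
      exact Nat.zero_le _
    · have hpos : 1 ≤ ∑ i, N i a₀ := by omega
      have key : ∀ i : Fin k, (∑ w : Fin n → Fin k,
          if gc a₀ z (Fin.cons i w : Fin (n + 1) → Fin k) = N then 1 else 0) *
            ∏ i, ∏ a, (N i a).factorial ≤
          N i a₀ * ∏ a, ((∑ i, N i a) - if a₀ = a then 1 else 0).factorial := by
        intro i
        by_cases hi : N i a₀ = 0
        · rw [Finset.sum_eq_zero, zero_mul]
          · exact Nat.zero_le _
          intro w _
          rw [if_neg]
          intro h
          have h2 := congrFun (congrFun h i) a₀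
          rw [gc_cons, if_pos rfl, hi] at h2
          omega
        · set N' : Fin k → Q → ℕ := fun i' a => N i' a - if (i, a₀) = (i', a) then 1 else 0
            with hN'
          have h1 : ∀ w : Fin n → Fin k,
              (gc a₀ z (Fin.cons i w : Fin (n + 1) → Fin k) = N ↔ gc (a₀ * z i) z w = N') := by
            intro w
            constructor
            · intro h
              funext i' a
              have h2 := congrFun (congrFun h i') a
              rw [gc_cons] at h2
              rw [hN']
              simp only
              omega
            · intro h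
              funext i' a
              have h2 := congrFun (congrFun h i') a
              rw [hN'] at h2
              simp only at h2
              rw [gc_cons, h2]
              by_cases h3 : (i, a₀) = (i', a)
              · obtain ⟨rfl, rfl⟩ := Prod.mk.inj h3
                rw [if_pos rfl]
                omega
              · rw [if_neg h3]
                omega
          have h2 : (∑ w : Fin n → Fin k,
              if gc a₀ z (Fin.cons i w : Fin (n + 1) → Fin k) = N then 1 else 0) =
              ∑ w : Fin n → Fin k, if gc (a₀ * z i) z w = N' then 1 else 0 :=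
            Finset.sum_congr rfl fun w _ => by simp only [h1 w]
          have h3 : ∏ i, ∏ a, (N i a).factorial = N i a₀ * ∏ i, ∏ a, (N' i a).factorial := by
            have h4 := prod_fact (fun p : Fin k × Q => N p.1 p.2) (i, a₀) (by
              show 1 ≤ N i a₀
              omega)
            rw [Fintype.prod_prod_type, Fintype.prod_prod_type] at h4
            refine h4.trans (congrArg (N i a₀ * ·) (Finset.prod_congr rfl fun x _ =>
              Finset.prod_congr rfl fun y _ => ?_))
            rw [hN']
            simp only
            by_cases h5 : (i, a₀) = (x, y)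
            · rw [if_pos h5, if_pos h5]
            · rw [if_neg h5, if_neg h5]
          have h5 : ∀ a, (∑ i', N' i' a) = (∑ i', N i' a) - if a₀ = a then 1 else 0 := by
            intro a
            by_cases ha : a₀ = a
            · subst ha
              have h6 : ∑ i', N i' a₀ = ∑ i', (N' i' a₀ + if i = i' then 1 else 0) := by
                refine Finset.sum_congr rfl fun i' _ => ?_
                rw [hN']
                simp only [Prod.mk.injEq, and_true]
                by_cases h7 : i = i'
                · subst h7
                  rw [if_pos rfl]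
                  omega
                · rw [if_neg h7]
                  omega
              rw [h6, Finset.sum_add_distrib, Finset.sum_ite_eq, if_pos (Finset.mem_univ _),
                if_pos rfl]
              omega
            · rw [if_neg ha, Nat.sub_zero]
              refine Finset.sum_congr rfl fun i' _ => ?_
              rw [hN']
              simp only [Prod.mk.injEq, ha, and_false, if_false, Nat.sub_zero]
          rw [h2, h3]
          have h6 := ih (a₀ * z i) N'
          simp only [h5] at h6
          calc (∑ w : Fin n → Fin k, if gc (a₀ * z i) z w = N' then 1 else 0) *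
                (N i a₀ * ∏ i, ∏ a, (N' i a).factorial)
              = N i a₀ * ((∑ w : Fin n → Fin k, if gc (a₀ * z i) z w = N' then 1 else 0) *
                ∏ i, ∏ a, (N' i a).factorial) := by ring
            _ ≤ _ := Nat.mul_le_mul_left _ h6
      refine (Finset.sum_le_sum fun i _ => key i).trans ?_
      rw [← Finset.sum_mul, ← prod_fact (fun a => ∑ i, N i a) a₀ hpos]

end Euler

theorem p_Euler : S_Euler := by
  classical
  intro Q _ _ k n z N
  have h := Euler.main z n 1 N
  simp only [Euler.gc_one] at h
  have h1 : Nat.card {w : Fin n → Fin k // cnt z w = N} =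
      ∑ w : Fin n → Fin k, if cnt z w = N then 1 else 0 := by
    rw [Nat.card_eq_fintype_card, Fintype.card_subtype, Finset.card_filter]
  rw [h1]
  exact h

end NilCut
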