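import Pool.Agent.Lib.MP_4ddf81_pr.Stm2
import Pool.Agent.Lib.MP_4ddf81_pr.P.T1

/-! An upper bound of the order `k` for the mixing time. -/

namespace NilCut

namespace Fast

variable {G : Type} [Group G] [Fintype G]

omit [Fintype G] in
/-- The law of the empty word. -/
theorem wlaw_zero [DecidableEq G] {k : ℕ} (Z : Fin k → G) (g : G) :
    wlaw Z (Set.univ : Set (Fin 0 → Fin k)) g = if g = 1 then 1 else 0 := by
  classical
  unfold wlaw
  have h : ∀ w : Fin 0 → Fin k, wprod Z w = 1 := by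
    intro w
    unfold wprod
    simp
  rw [pow_zero, div_one]
  by_cases e : g = 1
  · rw [if_pos e, Nat.card_eq_fintype_card, Fintype.card_subtype]
    have : (Finset.univ.filter fun w : Fin 0 → Fin k => w ∈ Set.univ ∧ wprod Z w = g)
        = Finset.univ := by
      refine Finset.filter_true_of_mem fun w _ => ⟨Set.mem_univ _, ?_⟩
      rw [h w, e]
    rw [this]
    simp
  · rw [if_neg e, Nat.card_eq_fintype_card, Fintype.card_subtype]
    have : (Finset.univ.filter fun w : Fin 0 → Fin k => w ∈ Set.univ ∧ wprod Z w = g)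
        = ∅ := by
      refine Finset.filter_false_of_mem fun w _ hw => e ?_
      rw [← hw.2, h w]
    rw [this]
    simp

theorem QF_one {k : ℕ} (Z : Fin k → G) (χ : G → ℂ) :
    QF χ (wlaw Z (Set.univ : Set (Fin 0 → Fin k))) = (χ 1).re := by
  classical
  unfold QF
  congr 1
  rw [Finset.sum_eq_single (1 : G)]
  · rw [Finset.sum_eq_single (1 : G)]
    · rw [wlaw_zero, if_pos rfl]
      simp
    · intro b _ hb
      rw [wlaw_zero Z b, if_neg hb]
      simp
    · intro h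
      exact absurd (Finset.mem_univ _) h
  · intro a _ ha
    refine Finset.sum_eq_zero fun b _ => ?_
    rw [wlaw_zero Z a, if_neg ha]
    simp
  · intro h
    exact absurd (Finset.mem_univ _) h

open Classical in
theorem A_bound (hS : S_Sq) (P : Planch G) (k D : ℕ) :
    ∑ Z : Fin k → G, ∑ i, (if P.d i ≤ D then
      (P.d i : ℝ) * QF (fun g => (P.ρ i g).trace)
        (wlaw Z (Set.univ : Set (Fin 0 → Fin k))) else 0) ≤
    (Nat.card G : ℝ) ^ k * (Nat.card G : ℝ) := by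
  have h1 : ∀ Z : Fin k → G, ∑ i, (if P.d i ≤ D then
      (P.d i : ℝ) * QF (fun g => (P.ρ i g).trace)
        (wlaw Z (Set.univ : Set (Fin 0 → Fin k))) else 0) ≤ (Nat.card G : ℝ) := by
    intro Z
    rw [← (hS G P).1]
    refine Finset.sum_le_sum fun i _ => ?_
    split_ifs
    · rw [QF_one, map_one, Matrix.trace_one, Fintype.card_fin, Complex.natCast_re, sq]
    · positivity
  calc _ ≤ ∑ Z : Fin k → G, (Nat.card G : ℝ) := Finset.sum_le_sum fun Z _ => h1 Z
    _ = _ := by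
      rw [Finset.sum_const, Finset.card_univ, nsmul_eq_mul, Fintype.card_fun, Fintype.card_fin,
        Nat.card_eq_fintype_card]
      push_cast
      ring

/-- The proportion of the words with many repetitions. -/
theorem few (h5 : S_W5) (k n r : ℕ) (hk : 0 < k) (hr : n ≤ 2 * (r + 1)) :
    1 - (Nat.card (fewRep k n r) : ℝ) / (k : ℝ) ^ n ≤ 2 * (n : ℝ) / (k : ℝ) := by
  classical
  have h := h5 k n r hk
  have hk' : (0 : ℝ) < (k : ℝ) := by exact_mod_cast hk
  have hkn : (0 : ℝ) < (k : ℝ) ^ n := by positivity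
  have hsum : (Nat.card (fewRep k n r) : ℝ) +
      (Nat.card {w : Fin n → Fin k // r < n - (uq w).card} : ℝ) = (k : ℝ) ^ n := by
    have e1 : Nat.card (fewRep k n r) =
        (Finset.univ.filter fun w : Fin n → Fin k => n ≤ (uq w).card + r).card := by
      have : Nat.card (fewRep k n r) = Nat.card {w : Fin n → Fin k // n ≤ (uq w).card + r} := rfl
      rw [this, Nat.card_eq_fintype_card, Fintype.card_subtype]
    have e2 : Nat.card {w : Fin n → Fin k // r < n - (uq w).card} =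
        (Finset.univ.filter fun w : Fin n → Fin k => ¬ n ≤ (uq w).card + r).card := by
      rw [Nat.card_eq_fintype_card, Fintype.card_subtype]
      congr 1
      refine Finset.filter_congr fun w _ => ?_
      omega
    have e3 := Finset.card_filter_add_card_filter_not (s := (Finset.univ : Finset (Fin n → Fin k)))
      (fun w => n ≤ (uq w).card + r)
    rw [Finset.card_univ, Fintype.card_fun, Fintype.card_fin, Fintype.card_fin] at e3
    rw [e1, e2]
    exact_mod_cast e3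
  set a : ℝ := (Nat.card (fewRep k n r) : ℝ)
  set b : ℝ := (Nat.card {w : Fin n → Fin k // r < n - (uq w).card} : ℝ) with hb
  have hb0 : 0 ≤ b := Nat.cast_nonneg _
  have e4 : 1 - a / (k : ℝ) ^ n = b / (k : ℝ) ^ n := by
    field_simp
    linarith
  rw [e4, div_le_div_iff₀ hkn hk']
  have hr' : (n : ℝ) ≤ 2 * ((r : ℝ) + 1) := by exact_mod_cast hr
  have hr0 : (0 : ℝ) < (r : ℝ) + 1 := by positivity
  have h6 : b * ((r : ℝ) + 1) * k ≤ (k : ℝ) ^ n * (n : ℝ) ^ 2 := by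
    have := mul_le_mul_of_nonneg_right h hk'.le
    calc b * ((r : ℝ) + 1) * k ≤ (k : ℝ) ^ n * ((n : ℝ) ^ 2 / (k : ℝ)) * k := this
      _ = _ := by field_simp
  have h7 : (k : ℝ) ^ n * (n : ℝ) ^ 2 ≤ (2 * (n : ℝ) * (k : ℝ) ^ n) * ((r : ℝ) + 1) := by
    have hn0 : (0 : ℝ) ≤ n := Nat.cast_nonneg _
    have : (n : ℝ) ^ 2 ≤ 2 * (n : ℝ) * ((r : ℝ) + 1) := by nlinarith
    calc (k : ℝ) ^ n * (n : ℝ) ^ 2 ≤ (k : ℝ) ^ n * (2 * (n : ℝ) * ((r : ℝ) + 1)) :=
          mul_le_mul_of_nonneg_left this hkn.le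
      _ = _ := by ring
  have h8 : (b * k) * ((r : ℝ) + 1) ≤ (2 * (n : ℝ) * (k : ℝ) ^ n) * ((r : ℝ) + 1) := by
    calc (b * k) * ((r : ℝ) + 1) = b * ((r : ℝ) + 1) * k := by ring
      _ ≤ _ := h6.trans h7
  exact le_of_mul_le_mul_right h8 hr0

/-- The exponential factor of the characters of large degree. -/
theorem b_bound (C₀ : ℝ) (hC : 0 < C₀) (D : ℕ) (hD : Real.exp (256 * (C₀ + 1)) ≤ (D : ℝ))
    (k : ℕ) (hk : 128 ≤ k) (N : ℝ) (hN : 0 < N) (hlog : Real.log N ≤ C₀ * (k : ℝ)) :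
    N * (1 / (D : ℝ)) ^ (k / 64 - k / 64 / 2) ≤ Real.exp (-(k : ℝ)) := by
  have hD0 : (0 : ℝ) < (D : ℝ) := (Real.exp_pos _).trans_le hD
  have hlD : 256 * (C₀ + 1) ≤ Real.log D := by
    rw [Real.le_log_iff_exp_le hD0]; exact hD
  set m : ℕ := k / 64 - k / 64 / 2 with hm
  have hmk : (k : ℝ) ≤ 256 * (m : ℝ) := by
    have : k ≤ 256 * m := by omega
    exact_mod_cast this
  have e1 : N = Real.exp (Real.log N) := (Real.exp_log hN).symm
  have e2 : (1 / (D : ℝ)) ^ m = Real.exp (-(m : ℝ) * Real.log D) := by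
    rw [neg_mul, Real.exp_neg, mul_comm, Real.exp_mul, Real.exp_log hD0, Real.rpow_natCast,
      one_div, inv_pow]
  rw [e2, e1, ← Real.exp_add, Real.exp_le_exp]
  have hm0 : (0 : ℝ) ≤ m := Nat.cast_nonneg _
  have h3 : (m : ℝ) * (256 * (C₀ + 1)) ≤ (m : ℝ) * Real.log D :=
    mul_le_mul_of_nonneg_left hlD hm0
  nlinarith

end Fast

theorem p_Fast (hW : S_Wed) (hMo : S_Mono) (hU : S_UBk) (hH : S_High) (hD : S_SDb)
    (h5 : S_W5) (hG : S_Gap) (hS : S_Sq) : S_Fast := by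
  classical
  intro C₀ δ hC₀ hδ
  obtain ⟨D, hDD⟩ := exists_nat_ge (Real.exp (256 * (C₀ + 1)))
  have hD0 : (0 : ℝ) < (D : ℝ) := (Real.exp_pos _).trans_le hDD
  have hD1 : 1 ≤ D := by
    have : 0 < D := by exact_mod_cast hD0
    omega
  obtain ⟨c, hc0, hc1, k₁, hgap⟩ := hG C₀ δ (1 / 64) D hC₀ hδ (by norm_num) hD1
  refine ⟨2 * (C₀ + 1) / c + 2, by positivity, k₁ + 2 * D + 1000, fun k hk G _ _ hnil hlog hgen => ?_⟩
  obtain ⟨P⟩ := hW G
  obtain ⟨M⟩ := hMo G hnil P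
  have hk0 : 0 < k := by omega
  have hk' : (0 : ℝ) < (k : ℝ) := by exact_mod_cast hk0
  have hN : (0 : ℝ) < (Nat.card G : ℝ) := by exact_mod_cast Nat.card_pos
  have hn64 : ((k / 64 : ℕ) : ℝ) ≤ (k : ℝ) / 64 := Nat.cast_div_le
  set n₀ : ℕ := ⌈2 * (C₀ + 1) / c * (k : ℝ)⌉₊ with hn₀
  set n₁ : ℕ := k / 64 with hn₁
  set b : ℝ := (Nat.card G : ℝ) * (1 / (D : ℝ)) ^ (n₁ - n₁ / 2) with hb
  have hb0 : 0 ≤ b := by positivity
  have hbe : b ≤ Real.exp (-(k : ℝ)) :=
    Fast.b_bound C₀ hC₀ D hDD k (by omega) _ hN hlog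
  have hHigh := hH G P M k n₁ (n₁ / 2) D b (by omega) hD1 hb0 (by
    intro m hm1 hm2
    refine (hD G P D m hD1).trans ?_
    have hkn : (1 : ℝ) + (m : ℝ) / (D : ℝ) ≤ (1 / (D : ℝ)) * ((k : ℝ) - (n₁ : ℝ)) := by
      have h1 : (D : ℝ) + m + n₁ ≤ k := by
        have : D + m + n₁ ≤ k := by omega
        exact_mod_cast this
      rw [div_mul_eq_mul_div, one_mul, le_div_iff₀ hD0]
      field_simp
      linarith
    have h2 : (1 / (D : ℝ)) ^ m ≤ (1 / (D : ℝ)) ^ (n₁ - n₁ / 2) := by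
      refine pow_le_pow_of_le_one (by positivity) ?_ (by omega)
      rw [div_le_one hD0]
      exact_mod_cast hD1
    have hkn0 : (0 : ℝ) ≤ (k : ℝ) - (n₁ : ℝ) := by linarith
    calc (Nat.card G : ℝ) * (1 + (m : ℝ) / (D : ℝ)) ^ m
        ≤ (Nat.card G : ℝ) * ((1 / (D : ℝ)) * ((k : ℝ) - (n₁ : ℝ))) ^ m := by gcongr
      _ = (Nat.card G : ℝ) * (1 / (D : ℝ)) ^ m * ((k : ℝ) - (n₁ : ℝ)) ^ m := by
          rw [mul_pow, mul_assoc]
      _ ≤ b * ((k : ℝ) - (n₁ : ℝ)) ^ m := by rw [hb]; gcongr)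
  have hmain := hU G P M k n₀ 0 n₁ (n₁ / 2) D c (1 / 64) (Nat.card G : ℝ) b 0 (1 / 32)
    (fun _ => Set.univ) hk0 hc0.le hc1.le hD1 hN.le hb0
    (hgap k (by omega) G hnil hlog hgen P M) (Fast.A_bound hS P k D) hHigh (by
      rw [mul_zero]
      refine le_of_eq (Finset.sum_eq_zero fun Z _ => ?_)
      have : Nat.card (Set.univ : Set (Fin 0 → Fin k)) = 1 := by
        rw [Nat.card_univ, Nat.card_eq_fintype_card]
        simp
      rw [this]
      simp) (by
      refine (Fast.few h5 k n₁ (n₁ / 2) hk0 (by omega)).trans ?_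
      rw [div_le_iff₀ hk']
      linarith)
  -- the error terms
  have he : Real.exp (-(k : ℝ)) ≤ 1 / 1000 := by
    have hk3 : (1000 : ℝ) ≤ (k : ℝ) := by
      have : 1000 ≤ k := by omega
      exact_mod_cast this
    rw [Real.exp_neg, ← one_div]
    refine one_div_le_one_div_of_le (by norm_num) ?_
    have := Real.add_one_le_exp (k : ℝ)
    linarith
  have h1c : (1 - c) ^ n₀ * (Nat.card G : ℝ) ≤ Real.exp (-(k : ℝ)) := by
    have h1 : 1 - c ≤ Real.exp (-c) := by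
      have := Real.add_one_le_exp (-c)
      linarith
    have h2 : (1 - c) ^ n₀ ≤ Real.exp (-c * n₀) := by
      calc (1 - c) ^ n₀ ≤ (Real.exp (-c)) ^ n₀ := pow_le_pow_left₀ (by linarith) h1 _
        _ = _ := by rw [← Real.exp_nat_mul]; congr 1; ring
    have h3 : (Nat.card G : ℝ) ≤ Real.exp (C₀ * k) := by
      rw [← Real.log_le_iff_le_exp hN]; exact hlog
    have h4 : 2 * (C₀ + 1) * (k : ℝ) ≤ c * n₀ := by
      have h5 : 2 * (C₀ + 1) / c * (k : ℝ) ≤ n₀ := Nat.le_ceil _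
      calc 2 * (C₀ + 1) * (k : ℝ) = c * (2 * (C₀ + 1) / c * (k : ℝ)) := by field_simp
        _ ≤ _ := mul_le_mul_of_nonneg_left h5 hc0.le
    calc (1 - c) ^ n₀ * (Nat.card G : ℝ) ≤ Real.exp (-c * n₀) * Real.exp (C₀ * k) := by
          gcongr
      _ = Real.exp (-c * n₀ + C₀ * k) := by rw [Real.exp_add]
      _ ≤ _ := by
        rw [Real.exp_le_exp]
        nlinarith
  have hsqrt : Real.sqrt ((1 - c) ^ n₀ * (Nat.card G : ℝ) + b) ≤ 1 / 20 := by
    rw [Real.sqrt_le_left (by norm_num)]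
    calc (1 - c) ^ n₀ * (Nat.card G : ℝ) + b ≤ 1 / 1000 + 1 / 1000 := by linarith
      _ ≤ _ := by norm_num
  have htime : n₀ + 0 + n₁ ≤ ⌈(2 * (C₀ + 1) / c + 2) * (k : ℝ)⌉₊ := by
    have h1 : ((n₀ + 0 + n₁ : ℕ) : ℝ) ≤ (2 * (C₀ + 1) / c + 2) * (k : ℝ) := by
      have h2 : (n₀ : ℝ) ≤ 2 * (C₀ + 1) / c * (k : ℝ) + 1 :=
        (Nat.ceil_lt_add_one (by positivity)).le
      have hk3 : (1000 : ℝ) ≤ (k : ℝ) := by
        have : 1000 ≤ k := by omega
        exact_mod_cast this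
      push_cast
      nlinarith
    exact_mod_cast h1.trans (Nat.le_ceil _)
  calc ∑ Z : Fin k → G, tvStep Z ⌈(2 * (C₀ + 1) / c + 2) * (k : ℝ)⌉₊
      ≤ ∑ Z : Fin k → G, tvStep Z (n₀ + 0 + n₁) :=
        Finset.sum_le_sum fun Z _ => p_T1 G k Z hk0 htime
    _ ≤ _ := hmain
    _ ≤ (Nat.card G : ℝ) ^ k * (1 / 4) := by
        refine mul_le_mul_of_nonneg_left ?_ (by positivity)
        linarith
    _ = _ := by ring

end NilCut
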