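import Pool.Agent.Lib.MP_4ddf81_pr.Stm2

/-! # MP_4ddf81_pr, stage 2, piece Gap (helper70): the spectral gap for all the characters of
bounded degree. -/

namespace NilCut

namespace GapMain

/-- the linear characters of the nontrivial representations are nontrivial -/
theorem lam_ne (hM : S_Mean) (G : Type) [Group G] [Fintype G] (P : Planch G) (M : Mono P)
    (i : P.ι) (hnt : P.nt i) : M.lam i ≠ 1 := by
  classical
  intro hlam
  have h0 := hM G (P.d i) (P.ρ i) (P.irr i) hnt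
  have h1 : ∑ g : G, (P.ρ i g).trace = 0 := by
    rw [← Matrix.trace_sum, h0, Matrix.trace_zero]
  have h2 : ∀ g : G, (P.ρ i g).trace = ((1 / (Nat.card (M.H i) : ℝ) *
      ∑ y : G, (if y⁻¹ * g * y ∈ M.H i then 1 else 0) : ℝ) : ℂ) := by
    intro g
    rw [M.tr, indL, hlam]
    push_cast
    congr 1
    refine Finset.sum_congr rfl fun y _ => ?_
    split_ifs <;> simp
  have h3 : ((∑ g : G, (1 / (Nat.card (M.H i) : ℝ) *
      ∑ y : G, (if y⁻¹ * g * y ∈ M.H i then (1 : ℝ) else 0)) : ℝ) : ℂ) = 0 := by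
    rw [← h1, Complex.ofReal_sum]
    exact Finset.sum_congr rfl fun g _ => (h2 g).symm
  have h4 : (∑ g : G, (1 / (Nat.card (M.H i) : ℝ) *
      ∑ y : G, (if y⁻¹ * g * y ∈ M.H i then (1 : ℝ) else 0)) : ℝ) = 0 := by
    exact_mod_cast h3
  have hpos : (0 : ℝ) < Nat.card (M.H i) := by exact_mod_cast Nat.card_pos
  have h5 : ∀ g : G, 0 ≤ 1 / (Nat.card (M.H i) : ℝ) *
      ∑ y : G, (if y⁻¹ * g * y ∈ M.H i then (1 : ℝ) else 0) := by
    intro g
    refine mul_nonneg (by positivity) (Finset.sum_nonneg fun y _ => ?_)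
    split_ifs <;> norm_num
  have h6 := (Finset.sum_eq_zero_iff_of_nonneg fun g _ => h5 g).1 h4 1 (Finset.mem_univ 1)
  have h7 : ∑ y : G, (if y⁻¹ * 1 * y ∈ M.H i then (1 : ℝ) else 0) = (Fintype.card G : ℝ) := by
    have : ∀ y : G, (if y⁻¹ * 1 * y ∈ M.H i then (1 : ℝ) else 0) = 1 := by
      intro y
      rw [if_pos]
      rw [mul_one, inv_mul_cancel]
      exact (M.H i).one_mem
    simp only [this]
    simp
  rw [h7] at h6
  have h8 : (0 : ℝ) < Fintype.card G := by exact_mod_cast Fintype.card_pos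
  have : 0 < 1 / (Nat.card (M.H i) : ℝ) * (Fintype.card G : ℝ) := by positivity
  linarith

/-- the first exceptional set -/
def B1 {G : Type} [Group G] {k : ℕ} (γ : ℝ) (Z : Fin k → G) : Prop :=
  ∃ I : Finset (Fin k), (1 - γ) * (k : ℝ) ≤ (I.card : ℝ) ∧
    Subgroup.closure {g | ∃ i ∈ I, ∃ j ∈ I, g = (Z i)⁻¹ * Z j} ≠ ⊤

/-- the second exceptional set -/
def B2 {G : Type} [Group G] [Fintype G] (H : Subgroup G) (lam : H →* ℂˣ) {k : ℕ} (γ x : ℝ)
    (Z : Fin k → G) : Prop :=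
  ∃ I : Finset (Fin k), (1 - γ) * (k : ℝ) ≤ (I.card : ℝ) ∧
    ∃ (q : G ⧸ H) (θ : G ⧸ H → ℂˣ), (∀ x, θ x ∈ lam.range) ∧ ∀ i ∈ I,
      ‖((ph H lam ((Z i)⁻¹ * Quotient.out q) : ℂˣ) : ℂ) -
        ((θ (((Z i)⁻¹ * Quotient.out q : G) : G ⧸ H) : ℂˣ) : ℂ)‖ ≤ x

theorem cases (hPt : S_GapPt) (h1 : S_Case1) (h2 : S_Case2) (hR : S_Root)
    (G : Type) [Group G] [Fintype G] (H : Subgroup G) (lam : H →* ℂˣ) (k D r₀ : ℕ)
    (Z : Fin k → G) (γ f₀ : ℝ) (hk : 0 < k) (hγ : 0 < γ) (hγ1 : γ ≤ 1 / 2) (hD : H.index ≤ D)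
    (hlam : lam ≠ 1) (hr : 4 ≤ f₀ * r₀) (hf : 0 < f₀)
    (hβ : √(γ * D) ≤ 1 / 4) (hβf : 8 * √(γ * D) ≤ f₀)
    (hβr : (D : ℝ) * (r₀ : ℝ) * (2 * √(γ * D)) < 1) (hgap : ¬ Gap Z H lam (γ ^ 2)) :
    B1 γ Z ∨ ((Nat.card {ξ : lam.range // ‖((ξ : ℂˣ) : ℂ) - 1‖ ≤ 8 * √(γ * D)} : ℝ) ≤
      f₀ * (Nat.card lam.range : ℝ) ∧ B2 H lam γ (8 * √(γ * D)) Z) := by
  obtain ⟨v, u, vm, I, hv, hu, hvm, hv1, hv2, hI, hI2⟩ :=
    hPt G H lam k D Z γ hk hγ (by linarith) hD hgap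
  have hk' : (0 : ℝ) < k := by exact_mod_cast hk
  by_cases hc : Nat.card lam.range ≤ r₀
  · left
    refine ⟨I, hI, fun htop => ?_⟩
    exact h1 G H lam k D r₀ Z (√(γ * D)) v u vm I hlam hD hc hβr (Real.sqrt_nonneg _) hv hu hvm
      hv1 hv2 hI2 htop
  · right
    push Not at hc
    have hIne : I.Nonempty := by
      rw [← Finset.card_pos]
      have : (0 : ℝ) < I.card := lt_of_lt_of_le (mul_pos (by linarith) hk') hI
      exact_mod_cast this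
    obtain ⟨q, θ, hθ, hθ2⟩ := h2 G H lam k Z (√(γ * D)) v u vm I (Real.sqrt_nonneg _) hβ hIne hv
      hu hvm hv1 hv2 hI2
    refine ⟨?_, I, hI, q, θ, hθ, hθ2⟩
    have : Finite lam.range := Finite.of_surjective _ lam.rangeRestrict_surjective
    refine (hR lam.range (8 * √(γ * D)) (by positivity)).trans ?_
    have hr' : (r₀ : ℝ) ≤ (Nat.card lam.range : ℝ) := by exact_mod_cast hc.le
    have h3 : 4 ≤ f₀ * (Nat.card lam.range : ℝ) :=
      hr.trans (mul_le_mul_of_nonneg_left hr' hf.le)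
    have h4 : 8 * √(γ * D) * (Nat.card lam.range : ℝ) ≤ f₀ * (Nat.card lam.range : ℝ) :=
      mul_le_mul_of_nonneg_right hβf (Nat.cast_nonneg _)
    linarith

/-- the constants -/
theorem consts (C₀ γ₀ : ℝ) (D : ℕ) (hC : 0 < C₀) (hD : 1 ≤ D) (hγ₀ : 0 < γ₀) :
    ∃ (f₀ γ : ℝ) (r₀ : ℕ), f₀ = Real.exp (-(2 * ((D + 1) * C₀ + 2))) ∧ 0 < γ ∧ γ ≤ 1 / 2 ∧
      γ ≤ γ₀ ∧ 4 ≤ f₀ * r₀ ∧ √(γ * D) ≤ 1 / 4 ∧ 8 * √(γ * D) ≤ f₀ ∧
      (D : ℝ) * (r₀ : ℝ) * (2 * √(γ * D)) < 1 := by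
  set f₀ := Real.exp (-(2 * ((D + 1) * C₀ + 2))) with hf₀
  have hf : 0 < f₀ := Real.exp_pos _
  have hD' : (1 : ℝ) ≤ D := by exact_mod_cast hD
  set r₀ := ⌈4 / f₀⌉₊ with hr₀
  have hr1 : 4 / f₀ ≤ r₀ := Nat.le_ceil _
  have hr2 : (0 : ℝ) < r₀ := lt_of_lt_of_le (by positivity) hr1
  set β := min (1 / 4) (min (f₀ / 8) (1 / (4 * D * r₀))) with hβ
  have hβ0 : 0 < β := by positivity
  have hβ1 : β ≤ 1 / 4 := min_le_left _ _
  have hβ2 : β ≤ f₀ / 8 := (min_le_right _ _).trans (min_le_left _ _)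
  have hβ3 : β ≤ 1 / (4 * D * r₀) := (min_le_right _ _).trans (min_le_right _ _)
  set γ := min (1 / 2) (min γ₀ (β ^ 2 / D)) with hγ
  have hγ0 : 0 < γ := by positivity
  have hγ1 : γ ≤ 1 / 2 := min_le_left _ _
  have hγ2 : γ ≤ γ₀ := (min_le_right _ _).trans (min_le_left _ _)
  have hγ3 : γ ≤ β ^ 2 / D := (min_le_right _ _).trans (min_le_right _ _)
  have hs : √(γ * D) ≤ β := by
    rw [Real.sqrt_le_left hβ0.le]
    rwa [le_div_iff₀ (by linarith)] at hγ3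
  refine ⟨f₀, γ, r₀, rfl, hγ0, hγ1, hγ2, ?_, hs.trans hβ1, by linarith, ?_⟩
  · rw [div_le_iff₀ hf] at hr1
    linarith
  · have h1 : (D : ℝ) * r₀ * (2 * √(γ * D)) ≤ D * r₀ * (2 * (1 / (4 * D * r₀))) := by
      apply mul_le_mul_of_nonneg_left _ (by positivity)
      linarith
    have h2 : (D : ℝ) * r₀ * (2 * (1 / (4 * D * r₀))) = 1 / 2 := by
      field_simp
      norm_num
    linarith

/-- the final estimate -/
theorem numer (C₀ η γ g : ℝ) (D k : ℕ) (hC : 0 < C₀) (hη : 0 < η) (hγ1 : γ ≤ 1 / 2)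
    (hg : 1 ≤ g) (hgk : Real.log g ≤ C₀ * k) (hk : Real.log (2 * D / η) ≤ k) (hD : 1 ≤ D) :
    g * ((D : ℝ) * g ^ D * 2 ^ k *
      (Real.exp (-(2 * ((D + 1) * C₀ + 2)))) ^ ((1 - γ) * (k : ℝ)) * g ^ k) ≤
      η / 2 * g ^ k := by
  have hD' : (1 : ℝ) ≤ D := by exact_mod_cast hD
  have hg0 : 0 < g := by linarith
  have hE : 0 < (D + 1) * C₀ + 2 := by positivity
  have hk0 : (0 : ℝ) ≤ k := Nat.cast_nonneg k
  have h1 : g ^ (D + 1) ≤ Real.exp ((D + 1) * (C₀ * k)) := by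
    have e : g ^ (D + 1) = Real.exp ((D + 1) * Real.log g) := by
      have := Real.exp_log (pow_pos hg0 (D + 1))
      rw [Real.log_pow] at this
      push_cast at this
      exact this.symm
    rw [e]
    exact Real.exp_le_exp.2 (mul_le_mul_of_nonneg_left hgk (by positivity))
  have h2 : (2 : ℝ) ^ k ≤ Real.exp k := by
    have : (2 : ℝ) ≤ Real.exp 1 := by
      have := Real.add_one_le_exp (1 : ℝ)
      linarith
    calc (2 : ℝ) ^ k ≤ (Real.exp 1) ^ k := pow_le_pow_left₀ (by norm_num) this k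
      _ = Real.exp k := by rw [← Real.exp_nat_mul]; ring_nf
  have h3 : (Real.exp (-(2 * ((D + 1) * C₀ + 2)))) ^ ((1 - γ) * (k : ℝ)) ≤
      Real.exp (-(((D + 1) * C₀ + 2) * k)) := by
    rw [← Real.exp_mul]
    apply Real.exp_le_exp.2
    have : ((D : ℝ) + 1) * C₀ * k + 2 * k ≤ 2 * (((D + 1) * C₀ + 2)) * ((1 - γ) * k) := by
      have e1 : (1 / 2 : ℝ) * k ≤ (1 - γ) * k := mul_le_mul_of_nonneg_right (by linarith) hk0
      have e2 := mul_le_mul_of_nonneg_left e1 (by positivity : 0 ≤ 2 * (((D : ℝ) + 1) * C₀ + 2))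
      linarith
    linarith
  have h4 : (D : ℝ) * Real.exp (-(k : ℝ)) ≤ η / 2 := by
    have e1 : Real.exp (-(k : ℝ)) ≤ Real.exp (-Real.log (2 * D / η)) :=
      Real.exp_le_exp.2 (by linarith)
    rw [Real.exp_neg (Real.log _), Real.exp_log (by positivity)] at e1
    calc (D : ℝ) * Real.exp (-(k : ℝ)) ≤ D * (2 * D / η)⁻¹ :=
          mul_le_mul_of_nonneg_left e1 (by positivity)
      _ = η / 2 := by field_simp
  have h5 : g * ((D : ℝ) * g ^ D * 2 ^ k *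
      (Real.exp (-(2 * ((D + 1) * C₀ + 2)))) ^ ((1 - γ) * (k : ℝ))) ≤ η / 2 := by
    calc g * ((D : ℝ) * g ^ D * 2 ^ k *
          (Real.exp (-(2 * ((D + 1) * C₀ + 2)))) ^ ((1 - γ) * (k : ℝ)))
        = D * (g ^ (D + 1) * 2 ^ k *
          (Real.exp (-(2 * ((D + 1) * C₀ + 2)))) ^ ((1 - γ) * (k : ℝ))) := by ring
      _ ≤ D * (Real.exp ((D + 1) * (C₀ * k)) * Real.exp k *
          Real.exp (-(((D + 1) * C₀ + 2) * k))) := by
          gcongr
      _ = D * Real.exp (-(k : ℝ)) := by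
          rw [← Real.exp_add, ← Real.exp_add]
          congr 2
          ring
      _ ≤ η / 2 := h4
  calc g * ((D : ℝ) * g ^ D * 2 ^ k *
      (Real.exp (-(2 * ((D + 1) * C₀ + 2)))) ^ ((1 - γ) * (k : ℝ)) * g ^ k)
      = g * ((D : ℝ) * g ^ D * 2 ^ k *
      (Real.exp (-(2 * ((D + 1) * C₀ + 2)))) ^ ((1 - γ) * (k : ℝ))) * g ^ k := by ring
    _ ≤ η / 2 * g ^ k := mul_le_mul_of_nonneg_right h5 (by positivity)

/-- union bound -/
theorem union_card {α ι : Type} [Fintype α] [Fintype ι] (bad b1 : α → Prop) (J : ι → Prop)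
    (b2 : ι → α → Prop) (h : ∀ a, bad a → b1 a ∨ ∃ i, J i ∧ b2 i a) (A B : ℝ) (hB : 0 ≤ B)
    (hA : (Nat.card {a // b1 a} : ℝ) ≤ A) (hb : ∀ i, J i → (Nat.card {a // b2 i a} : ℝ) ≤ B) :
    (Nat.card {a // bad a} : ℝ) ≤ A + Nat.card ι * B := by
  classical
  have hcard : ∀ p : α → Prop, (Nat.card {a // p a} : ℝ) = ((Finset.univ.filter p).card : ℝ) := by
    intro p
    rw [Nat.card_eq_fintype_card, Fintype.card_subtype]
  rw [hcard] at hA ⊢
  have h1 : Finset.univ.filter bad ⊆ Finset.univ.filter b1 ∪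
      (Finset.univ.filter J).biUnion fun i => Finset.univ.filter (b2 i) := by
    intro a ha
    rw [Finset.mem_filter] at ha
    rcases h a ha.2 with h2 | ⟨i, hi, h2⟩
    · exact Finset.mem_union_left _ (Finset.mem_filter.2 ⟨Finset.mem_univ _, h2⟩)
    · refine Finset.mem_union_right _ (Finset.mem_biUnion.2 ⟨i, ?_, ?_⟩)
      · exact Finset.mem_filter.2 ⟨Finset.mem_univ _, hi⟩
      · exact Finset.mem_filter.2 ⟨Finset.mem_univ _, h2⟩
  have h2 : ((Finset.univ.filter bad).card : ℝ) ≤ ((Finset.univ.filter b1).card : ℝ) +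
      ∑ i ∈ Finset.univ.filter J, ((Finset.univ.filter (b2 i)).card : ℝ) := by
    have := (Finset.card_le_card h1).trans ((Finset.card_union_le _ _).trans
      (Nat.add_le_add_left Finset.card_biUnion_le _))
    exact_mod_cast this
  have h3 : ∑ i ∈ Finset.univ.filter J, ((Finset.univ.filter (b2 i)).card : ℝ) ≤
      Nat.card ι * B := by
    calc ∑ i ∈ Finset.univ.filter J, ((Finset.univ.filter (b2 i)).card : ℝ)
        ≤ ∑ i ∈ Finset.univ.filter J, B := by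
          refine Finset.sum_le_sum fun i hi => ?_
          rw [← hcard]
          exact hb i (Finset.mem_filter.1 hi).2
      _ = ((Finset.univ.filter J).card : ℝ) * B := by rw [Finset.sum_const, nsmul_eq_mul]
      _ ≤ Nat.card ι * B := by
          apply mul_le_mul_of_nonneg_right _ hB
          rw [Nat.card_eq_fintype_card]
          exact_mod_cast Finset.card_le_univ _
  linarith

end GapMain

open GapMain in
theorem p_Gap (hG : S_GenP) (hPt : S_GapPt) (h1 : S_Case1) (h2 : S_Case2) (hR : S_Root)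
    (hP : S_CaseP) (hM : S_Mean) (hS : S_Sq) : S_Gap := by
  intro C₀ δ η D hC hδ hη hD
  obtain ⟨γ₀, hγ₀, hG'⟩ := hG δ hδ
  obtain ⟨f₀, γ, r₀, hf₀, hγ0, hγ1, hγ2, hr, hβ, hβf, hβr⟩ := consts C₀ γ₀ D hC hD hγ₀
  obtain ⟨k₁, hk₁⟩ := hG' γ hγ0 hγ2 C₀ (η / 2) hC (by linarith)
  have hf0 : 0 < f₀ := by rw [hf₀]; exact Real.exp_pos _
  have hf1 : f₀ ≤ 1 := by
    rw [hf₀]
    apply Real.exp_le_one_iff.2
    have : 0 < ((D : ℝ) + 1) * C₀ + 2 := by positivity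
    linarith
  refine ⟨γ ^ 2, by positivity, by nlinarith, max (max k₁ 1) ⌈Real.log (2 * D / η)⌉₊, ?_⟩
  intro k hk G _ _ hnil hlog hgen P M
  have hka : k₁ ≤ k := (le_max_left _ _).trans ((le_max_left _ _).trans hk)
  have hkb : 1 ≤ k := (le_max_right _ _).trans ((le_max_left _ _).trans hk)
  have hkc : Real.log (2 * D / η) ≤ k := by
    refine (Nat.le_ceil _).trans ?_
    exact_mod_cast (le_max_right _ _).trans hk
  have hB1 := hk₁ k hka G hnil hlog hgen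
  have hg1 : (1 : ℝ) ≤ Nat.card G := by exact_mod_cast Nat.card_pos
  set B : ℝ := (D : ℝ) * (Nat.card G : ℝ) ^ D * 2 ^ k * f₀ ^ ((1 - γ) * (k : ℝ)) *
      (Nat.card G : ℝ) ^ k with hB
  have hB0 : 0 ≤ B := by positivity
  have hu := union_card
    (fun Z : Fin k → G => ∃ i, P.nt i ∧ P.d i ≤ D ∧ ¬ Gap Z (M.H i) (M.lam i) (γ ^ 2))
    (fun Z : Fin k → G => B1 γ Z)
    (fun i : P.ι => (M.H i).index ≤ D ∧
      (Nat.card {ξ : (M.lam i).range // ‖((ξ : ℂˣ) : ℂ) - 1‖ ≤ 8 * √(γ * D)} : ℝ) ≤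
        f₀ * (Nat.card (M.lam i).range : ℝ))
    (fun i Z => B2 (M.H i) (M.lam i) γ (8 * √(γ * D)) Z)
    (fun Z ⟨i, hnt, hdi, hgap⟩ => by
      have hidx : (M.H i).index ≤ D := by rw [M.idx]; exact hdi
      rcases cases hPt h1 h2 hR G (M.H i) (M.lam i) k D r₀ Z γ f₀ hkb hγ0 hγ1 hidx
        (lam_ne hM G P M i hnt) hr hf0 hβ hβf hβr hgap with h3 | ⟨h3, h4⟩
      · exact Or.inl h3
      · exact Or.inr ⟨i, ⟨hidx, h3⟩, h4⟩)
    (η / 2 * (Nat.card G : ℝ) ^ k) B hB0 hB1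
    (fun i ⟨hi1, hi2⟩ =>
      hP G (M.H i) (M.lam i) k D (8 * √(γ * D)) f₀ γ hi1 (by positivity) hf0 hf1 hγ0
        (by linarith) hi2)
  refine hu.trans ?_
  have h5 : (Nat.card P.ι : ℝ) * B ≤ (Nat.card G : ℝ) * B :=
    mul_le_mul_of_nonneg_right (hS G P).2 hB0
  have h6 : (Nat.card G : ℝ) * B ≤ η / 2 * (Nat.card G : ℝ) ^ k := by
    rw [hB, hf₀]
    exact numer C₀ η γ (Nat.card G) D k hC hη hγ1 hg1 hlog hkc hD
  linarith

end NilCut
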