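import Pool.Agent.Lib.MP_4ddf81_pr.Stm2

namespace NilCut

open Classical in
private theorem Greedy.step (α β : Type) (X : Finset α) (r : α → β → Prop) (E : ℝ) (hE : 1 ≤ E)
    (h : ∀ F ⊆ X, F.Nonempty → ∃ (b : β) (F₁ : Finset α), F₁ ⊆ F ∧ (∀ x ∈ F₁, r x b) ∧
      (F.card : ℝ) ≤ E * (F₁.card : ℝ)) (m : ℕ) :
    ∃ T : Finset β, T.card ≤ m ∧
      ((X.filter (fun x => ¬ ∃ b ∈ T, r x b)).card : ℝ) ≤ (X.card : ℝ) * (1 - 1 / E) ^ m := by
  have hE0 : 0 < E := by linarith
  have hq : 0 ≤ 1 - 1 / E := by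
    have : 1 / E ≤ 1 := by rw [div_le_one hE0]; exact hE
    linarith
  induction m with
  | zero =>
    refine ⟨∅, le_rfl, ?_⟩
    rw [pow_zero, mul_one]
    exact_mod_cast Finset.card_filter_le _ _
  | succ m ih =>
    obtain ⟨T, hT, hU⟩ := ih
    set U := X.filter (fun x => ¬ ∃ b ∈ T, r x b) with hUdef
    rcases U.eq_empty_or_nonempty with hemp | hne
    · refine ⟨T, by omega, ?_⟩
      rw [← hUdef, hemp, Finset.card_empty, Nat.cast_zero]
      positivity
    · obtain ⟨b, F₁, hF₁, hr, hcard⟩ := h U (Finset.filter_subset _ _) hne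
      refine ⟨insert b T, (Finset.card_insert_le _ _).trans (by omega), ?_⟩
      have hsub : X.filter (fun x => ¬ ∃ b' ∈ insert b T, r x b') ⊆ U \ F₁ := by
        intro x hx
        rw [Finset.mem_filter] at hx
        obtain ⟨hxX, hx2⟩ := hx
        rw [Finset.mem_sdiff, hUdef, Finset.mem_filter]
        refine ⟨⟨hxX, fun ⟨b', hb', hrb⟩ => hx2 ⟨b', Finset.mem_insert_of_mem hb', hrb⟩⟩,
          fun hxF => hx2 ⟨b, Finset.mem_insert_self _ _, hr x hxF⟩⟩
      have h1 : ((X.filter (fun x => ¬ ∃ b' ∈ insert b T, r x b')).card : ℝ) ≤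
          (U.card : ℝ) - F₁.card := by
        have h2 := Finset.card_le_card hsub
        rw [Finset.card_sdiff_of_subset hF₁] at h2
        have h3 := Finset.card_le_card hF₁
        rw [← Nat.cast_sub h3]
        exact_mod_cast h2
      have h4 : (U.card : ℝ) * (1 / E) ≤ F₁.card := by
        rw [mul_one_div, div_le_iff₀ hE0, mul_comm]
        exact hcard
      calc ((X.filter (fun x => ¬ ∃ b' ∈ insert b T, r x b')).card : ℝ)
          ≤ (U.card : ℝ) - F₁.card := h1
        _ ≤ (U.card : ℝ) * (1 - 1 / E) := by linarith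
        _ ≤ ((X.card : ℝ) * (1 - 1 / E) ^ m) * (1 - 1 / E) := mul_le_mul_of_nonneg_right hU hq
        _ = (X.card : ℝ) * (1 - 1 / E) ^ (m + 1) := by ring

theorem p_Greedy : S_Greedy := by
  intro α β X r E hE h
  classical
  have hE0 : 0 < E := by linarith
  rcases X.eq_empty_or_nonempty with hemp | hne
  · refine ⟨∅, ?_, ?_⟩
    · rw [hemp, Finset.card_empty, Finset.card_empty, Nat.cast_zero, Real.log_zero]
      linarith
    · intro x hx
      rw [hemp] at hx
      exact absurd hx (Finset.notMem_empty x)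
  · have hX : (1 : ℝ) ≤ X.card := by
      exact_mod_cast Finset.card_pos.2 hne
    have hlog : 0 ≤ Real.log (X.card : ℝ) := Real.log_nonneg hX
    have hy : 0 ≤ E * Real.log (X.card : ℝ) := mul_nonneg hE0.le hlog
    set m := ⌊E * Real.log (X.card : ℝ)⌋₊ + 1 with hm
    obtain ⟨T, hT, hU⟩ := Greedy.step α β X r E hE h m
    have hm1 : (m : ℝ) ≤ E * Real.log (X.card : ℝ) + 1 := by
      rw [hm, Nat.cast_add, Nat.cast_one]
      have := Nat.floor_le hy
      linarith
    have hm2 : E * Real.log (X.card : ℝ) < m := by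
      rw [hm, Nat.cast_add, Nat.cast_one]
      exact Nat.lt_floor_add_one _
    refine ⟨T, ?_, ?_⟩
    · have hT' : (T.card : ℝ) ≤ m := by exact_mod_cast hT
      nlinarith
    · have hq : 0 ≤ 1 - 1 / E := by
        have : 1 / E ≤ 1 := by rw [div_le_one hE0]; exact hE
        linarith
      have h1 : (1 - 1 / E) ^ m ≤ Real.exp (-(1 / E)) ^ m := by
        apply pow_le_pow_left₀ hq
        have := Real.add_one_le_exp (-(1 / E))
        linarith
      have h2 : Real.exp (-(1 / E)) ^ m < 1 / (X.card : ℝ) := by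
        rw [← Real.exp_nat_mul]
        have h3 : (1 : ℝ) / (X.card : ℝ) = Real.exp (-Real.log (X.card : ℝ)) := by
          rw [Real.exp_neg, Real.exp_log (by linarith), one_div]
        rw [h3]
        apply Real.exp_lt_exp.2
        have h4 : Real.log (X.card : ℝ) < m * (1 / E) := by
          rw [mul_one_div, lt_div_iff₀ hE0, mul_comm]
          exact hm2
        linarith
      have h5 : ((X.filter (fun x => ¬ ∃ b ∈ T, r x b)).card : ℝ) < 1 := by
        calc ((X.filter (fun x => ¬ ∃ b ∈ T, r x b)).card : ℝ)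
            ≤ (X.card : ℝ) * (1 - 1 / E) ^ m := hU
          _ ≤ (X.card : ℝ) * Real.exp (-(1 / E)) ^ m :=
              mul_le_mul_of_nonneg_left h1 (by linarith)
          _ < (X.card : ℝ) * (1 / (X.card : ℝ)) := mul_lt_mul_of_pos_left h2 (by linarith)
          _ = 1 := by field_simp
      have h6 : (X.filter (fun x => ¬ ∃ b ∈ T, r x b)).card = 0 := by
        have : (X.filter (fun x => ¬ ∃ b ∈ T, r x b)).card < 1 := by exact_mod_cast h5
        omega
      intro x hx
      by_contra hcon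
      have h7 : x ∈ X.filter (fun x => ¬ ∃ b ∈ T, r x b) := Finset.mem_filter.2 ⟨hx, hcon⟩
      rw [Finset.card_eq_zero] at h6
      rw [h6] at h7
      exact absurd h7 (Finset.notMem_empty x)

end NilCut
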