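import Pool.Agent.Lib.MP_4ddf81_pr.Stm2
import Pool.Agent.Lib.MP_4ddf81_pr.P.W4

/-!
# MP_4ddf81_pr, stage 2 : the characters of large degree for the words with few repetitions
-/

namespace NilCut

namespace High

open Finset

variable {k n : ℕ}

open Classical in
/-- The class of a word. -/
noncomputable def cls (w : Fin n → Fin k) : Finset (Fin n → Fin k) :=
  Finset.univ.filter fun w' => sameSk w w'

theorem mem_cls {w w' : Fin n → Fin k} : w' ∈ cls w ↔ sameSk w w' := by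
  simp [cls]

theorem self_mem (w : Fin n → Fin k) : w ∈ cls w := mem_cls.2 (W4.same_refl w)

theorem cls_eq {w w' : Fin n → Fin k} (h : sameSk w w') : cls w = cls w' := by
  ext v
  rw [mem_cls, mem_cls]
  exact ⟨fun h1 => W4.same_trans (W4.same_symm h) h1, fun h1 => W4.same_trans h h1⟩

theorem card_pos (w : Fin n → Fin k) : 0 < ((cls w).card : ℝ) := by
  exact_mod_cast Finset.card_pos.2 ⟨w, self_mem w⟩

open Classical in
/-- The words of a set. -/
noncomputable def fs (A : Set (Fin n → Fin k)) : Finset (Fin n → Fin k) :=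
  Finset.univ.filter fun w => w ∈ A

theorem mem_fs {A : Set (Fin n → Fin k)} {w : Fin n → Fin k} : w ∈ fs A ↔ w ∈ A := by
  simp [fs]

variable {G : Type} [Group G] [Fintype G]

omit [Fintype G] in
open Classical in
theorem wlaw_eq (Z : Fin k → G) (A : Set (Fin n → Fin k)) (g : G) :
    wlaw Z A g = 1 / (k : ℝ) ^ n * ∑ w ∈ fs A, if wprod Z w = g then (1 : ℝ) else 0 := by
  unfold wlaw
  rw [Nat.card_eq_fintype_card, Fintype.card_subtype, Finset.sum_boole, fs,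
    Finset.filter_filter]
  ring

theorem fs_cls (w : Fin n → Fin k) : fs (↑(cls w) : Set (Fin n → Fin k)) = cls w := by
  ext v
  rw [mem_fs, Finset.mem_coe]

open Classical in
theorem QF_words (χ : G → ℂ) (Z : Fin k → G) (C : Finset (Fin n → Fin k)) (c : ℝ) :
    QF χ (fun g => c * ∑ w ∈ C, if wprod Z w = g then (1 : ℝ) else 0) =
      c ^ 2 * (∑ w ∈ C, ∑ w' ∈ C, χ ((wprod Z w')⁻¹ * wprod Z w)).re := by
  have key : ∀ F : G → ℂ, ∑ a : G, (∑ w ∈ C, if wprod Z w = a then (1 : ℂ) else 0) * F a =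
      ∑ w ∈ C, F (wprod Z w) := by
    intro F
    simp only [Finset.sum_mul]
    rw [Finset.sum_comm]
    refine Finset.sum_congr rfl fun w _ => ?_
    simp only [ite_mul, one_mul, zero_mul]
    rw [Finset.sum_ite_eq]
    simp
  have hc : ∀ g : G, ((c * ∑ w ∈ C, if wprod Z w = g then (1 : ℝ) else 0 : ℝ) : ℂ) =
      (c : ℂ) * ∑ w ∈ C, if wprod Z w = g then (1 : ℂ) else 0 := by
    intro g
    push_cast
    congr 1
    refine Finset.sum_congr rfl fun w _ => ?_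
    split_ifs <;> simp
  unfold QF
  have h1 : ∑ a : G, ∑ b : G,
      ((c * ∑ w ∈ C, if wprod Z w = a then (1 : ℝ) else 0 : ℝ) : ℂ) *
      ((c * ∑ w ∈ C, if wprod Z w = b then (1 : ℝ) else 0 : ℝ) : ℂ) * χ (b⁻¹ * a) =
      ((c ^ 2 : ℝ) : ℂ) * ∑ w ∈ C, ∑ w' ∈ C, χ ((wprod Z w')⁻¹ * wprod Z w) := by
    calc _ = ∑ a : G, ∑ b : G, ((c ^ 2 : ℝ) : ℂ) *
          ((∑ w ∈ C, if wprod Z w = a then (1 : ℂ) else 0) *
            ((∑ w' ∈ C, if wprod Z w' = b then (1 : ℂ) else 0) * χ (b⁻¹ * a))) := by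
          refine Finset.sum_congr rfl fun a _ => Finset.sum_congr rfl fun b _ => ?_
          rw [hc, hc]
          push_cast
          ring
      _ = ((c ^ 2 : ℝ) : ℂ) * ∑ a : G, (∑ w ∈ C, if wprod Z w = a then (1 : ℂ) else 0) *
            ∑ b : G, (∑ w' ∈ C, if wprod Z w' = b then (1 : ℂ) else 0) * χ (b⁻¹ * a) := by
          rw [Finset.mul_sum]
          refine Finset.sum_congr rfl fun a _ => ?_
          rw [← Finset.mul_sum, ← Finset.mul_sum]
      _ = ((c ^ 2 : ℝ) : ℂ) * ∑ a : G, (∑ w ∈ C, if wprod Z w = a then (1 : ℂ) else 0) *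
            ∑ w' ∈ C, χ ((wprod Z w')⁻¹ * a) := by
          congr 1
          refine Finset.sum_congr rfl fun a _ => ?_
          rw [key (fun b => χ (b⁻¹ * a))]
      _ = _ := by
          rw [key (fun a => ∑ w' ∈ C, χ ((wprod Z w')⁻¹ * a))]
  rw [h1, Complex.re_ofReal_mul]

omit [Fintype G] in
theorem tr_swap {d : ℕ} (ρ : G →* Matrix (Fin d) (Fin d) ℂ) (a b : G) :
    (ρ (b⁻¹ * a)).trace = (ρ (a * b⁻¹)).trace := by
  rw [map_mul, map_mul, Matrix.trace_mul_comm]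

open Classical in
/-- Sum over one class for a fixed first word. -/
theorem inner (h1 : S_W1D) (h2 : S_W2D) {d : ℕ} (ρ : G →* Matrix (Fin d) (Fin d) ℂ)
    (hd : 1 < d) (hρ : IsIrr ρ) (w : Fin n → Fin k) :
    ∑ w' ∈ cls w, ‖∑ Z : Fin k → G, (ρ (wprod Z w * (wprod Z w')⁻¹)).trace‖ ≤
      (Nat.card G : ℝ) ^ k *
        ((d : ℝ) * ∏ j ∈ Finset.range (uq w).card, (1 + ((j : ℝ) + 1) / (d : ℝ))) := by
  have hnt : ∃ g, (ρ g).trace ≠ 1 := by
    refine ⟨1, ?_⟩
    rw [map_one, Matrix.trace_one, Fintype.card_fin]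
    exact_mod_cast hd.ne'
  rw [← Finset.sum_filter_add_sum_filter_not (cls w)
    (fun w' => ∃ i, uniq w i ∧ ∀ j, w' j ≠ w i)]
  have hz : ∑ w' ∈ (cls w).filter (fun w' => ∃ i, uniq w i ∧ ∀ j, w' j ≠ w i),
      ‖∑ Z : Fin k → G, (ρ (wprod Z w * (wprod Z w')⁻¹)).trace‖ = 0 := by
    refine Finset.sum_eq_zero fun w' hw' => ?_
    obtain ⟨_, i, hi, hj⟩ := Finset.mem_filter.1 hw'
    rw [(h2 G d ρ hρ hnt k n n w w' i hi hj).1, norm_zero]
  rw [hz, zero_add]
  have hex : ∀ w' ∈ (cls w).filter (fun w' => ¬ ∃ i, uniq w i ∧ ∀ j, w' j ≠ w i),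
      ∃ σ : Equiv.Perm (Fin n), (∀ i, i ∉ uq w → σ i = i) ∧ w' = w ∘ σ := by
    intro w' hw'
    obtain ⟨h3, h4⟩ := Finset.mem_filter.1 hw'
    push Not at h4
    exact W4.exists_perm (mem_cls.1 h3) h4
  choose! s hs1 hs2 using hex
  refine le_trans ?_ (h1 G d ρ (by omega) hρ k n w)
  calc ∑ w' ∈ (cls w).filter (fun w' => ¬ ∃ i, uniq w i ∧ ∀ j, w' j ≠ w i),
        ‖∑ Z : Fin k → G, (ρ (wprod Z w * (wprod Z w')⁻¹)).trace‖
      = ∑ w' ∈ (cls w).filter (fun w' => ¬ ∃ i, uniq w i ∧ ∀ j, w' j ≠ w i),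
        ‖∑ Z : Fin k → G, (ρ (wprod Z w * (wprod Z (w ∘ s w'))⁻¹)).trace‖ :=
        Finset.sum_congr rfl fun w' hw' => by rw [← hs2 w' hw']
    _ = ∑ σ ∈ ((cls w).filter (fun w' => ¬ ∃ i, uniq w i ∧ ∀ j, w' j ≠ w i)).image s,
        ‖∑ Z : Fin k → G, (ρ (wprod Z w * (wprod Z (w ∘ σ))⁻¹)).trace‖ := by
        rw [Finset.sum_image]
        intro a ha b hb hab
        rw [hs2 a ha, hs2 b hb, hab]
    _ ≤ _ := by
        refine Finset.sum_le_sum_of_subset_of_nonneg ?_ ?_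
        · intro σ hσ
          obtain ⟨w', hw', rfl⟩ := Finset.mem_image.1 hσ
          exact Finset.mem_filter.2 ⟨Finset.mem_univ _, hs1 w' hw'⟩
        · intro σ _ _
          exact norm_nonneg _

/-- One class, one representation. -/
theorem class_bound (h1 : S_W1D) (h2 : S_W2D) {d : ℕ} (ρ : G →* Matrix (Fin d) (Fin d) ℂ)
    (hd : 1 < d) (hρ : IsIrr ρ) (w : Fin n → Fin k) (c : ℝ) :
    ∑ Z : Fin k → G, QF (fun g => (ρ g).trace)
      (fun g => c * wlaw Z (↑(cls w) : Set (Fin n → Fin k)) g) ≤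
      (c / (k : ℝ) ^ n) ^ 2 * ((cls w).card * ((Nat.card G : ℝ) ^ k *
        ((d : ℝ) * ∏ j ∈ Finset.range (uq w).card, (1 + ((j : ℝ) + 1) / (d : ℝ))))) := by
  classical
  have h3 : ∀ Z : Fin k → G, QF (fun g => (ρ g).trace)
      (fun g => c * wlaw Z (↑(cls w) : Set (Fin n → Fin k)) g) =
      (c / (k : ℝ) ^ n) ^ 2 * (∑ v ∈ cls w, ∑ v' ∈ cls w,
        (ρ (wprod Z v * (wprod Z v')⁻¹)).trace).re := by
    intro Z
    have h4 : (fun g => c * wlaw Z (↑(cls w) : Set (Fin n → Fin k)) g) =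
        fun g => (c / (k : ℝ) ^ n) * ∑ v ∈ cls w, if wprod Z v = g then (1 : ℝ) else 0 := by
      funext g
      rw [wlaw_eq, fs_cls]
      ring
    rw [h4, QF_words]
    simp only [tr_swap]
  simp only [h3]
  rw [← Finset.mul_sum]
  refine mul_le_mul_of_nonneg_left ?_ (sq_nonneg _)
  rw [← Complex.re_sum]
  have h5 : ∑ Z : Fin k → G, ∑ v ∈ cls w, ∑ v' ∈ cls w,
      (ρ (wprod Z v * (wprod Z v')⁻¹)).trace = ∑ v ∈ cls w, ∑ v' ∈ cls w,
      ∑ Z : Fin k → G, (ρ (wprod Z v * (wprod Z v')⁻¹)).trace := by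
    rw [Finset.sum_comm]
    refine Finset.sum_congr rfl fun v _ => ?_
    rw [Finset.sum_comm]
  rw [h5]
  refine (Complex.re_le_norm _).trans ((norm_sum_le _ _).trans ?_)
  have h6 : ∀ v ∈ cls w, ‖∑ v' ∈ cls w, ∑ Z : Fin k → G,
      (ρ (wprod Z v * (wprod Z v')⁻¹)).trace‖ ≤ (Nat.card G : ℝ) ^ k *
        ((d : ℝ) * ∏ j ∈ Finset.range (uq w).card, (1 + ((j : ℝ) + 1) / (d : ℝ))) := by
    intro v hv
    have hs := mem_cls.1 hv
    refine (norm_sum_le _ _).trans ?_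
    rw [cls_eq hs, W4.uq_eq hs]
    exact inner h1 h2 ρ hd hρ v
  refine (Finset.sum_le_sum h6).trans ?_
  rw [Finset.sum_const, nsmul_eq_mul]

theorem mem_few {r : ℕ} {w w' : Fin n → Fin k} (h : sameSk w w') :
    w ∈ fewRep k n r ↔ w' ∈ fewRep k n r := by
  unfold fewRep
  rw [Set.mem_ofPred_eq, Set.mem_ofPred_eq, W4.uq_eq h]

omit [Fintype G] in
/-- Decomposition of the law into the classes. -/
theorem wlaw_few (Z : Fin k → G) (r : ℕ) (g : G) :
    wlaw Z (fewRep k n r) g = ∑ w ∈ fs (fewRep k n r),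
      1 / ((cls w).card : ℝ) * wlaw Z (↑(cls w) : Set (Fin n → Fin k)) g := by
  classical
  have h1 : ∀ w : Fin n → Fin k, 1 / ((cls w).card : ℝ) *
      wlaw Z (↑(cls w) : Set (Fin n → Fin k)) g =
      1 / (k : ℝ) ^ n * ∑ v ∈ cls w, 1 / ((cls w).card : ℝ) *
        (if wprod Z v = g then (1 : ℝ) else 0) := by
    intro w
    rw [wlaw_eq, fs_cls, ← Finset.mul_sum]
    ring
  simp only [h1]
  rw [wlaw_eq, ← Finset.mul_sum]
  congr 1
  rw [Finset.sum_comm' (t' := fs (fewRep k n r)) (s' := fun v => cls v)]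
  · refine Finset.sum_congr rfl fun v _ => ?_
    have h2 : ∀ w ∈ cls v, 1 / ((cls w).card : ℝ) * (if wprod Z v = g then (1 : ℝ) else 0) =
        1 / ((cls v).card : ℝ) * (if wprod Z v = g then (1 : ℝ) else 0) := by
      intro w hw
      rw [cls_eq (mem_cls.1 hw)]
    rw [Finset.sum_congr rfl h2, Finset.sum_const, nsmul_eq_mul, ← mul_assoc,
      mul_one_div_cancel (card_pos v).ne', one_mul]
  · intro w v
    rw [mem_cls, mem_cls, mem_fs, mem_fs]
    constructor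
    · rintro ⟨h2, h3⟩
      exact ⟨W4.same_symm h3, (mem_few h3).1 h2⟩
    · rintro ⟨h2, h3⟩
      exact ⟨(mem_few h2).1 h3, W4.same_symm h2⟩

end High

open High in
theorem p_High (h1 : S_W1D) (h2 : S_W2D) (h3 : S_W3) (hQ : S_QF3) (_hS : S_Schur) : S_High := by
  intro G _ _ P M k n r D b hnk hD hb hSD
  classical
  have hk0 : (0 : ℝ) < (k : ℝ) := by exact_mod_cast (Nat.zero_le n).trans_lt hnk
  have hkn : (0 : ℝ) < (k : ℝ) ^ n := pow_pos hk0 n
  set Γ : ℝ := (Nat.card G : ℝ) ^ k with hΓ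
  have hΓ0 : 0 ≤ Γ := by positivity
  set Gd := fs (fewRep k n r) with hGd
  set I := Finset.univ.filter (fun i => D < P.d i) with hI
  set mm : ℝ := (Gd.card : ℝ) / (k : ℝ) ^ n with hmm
  have hmm0 : 0 ≤ mm := by positivity
  have hmm1 : mm ≤ 1 := by
    rw [hmm, div_le_one hkn]
    have h4 : Gd.card ≤ k ^ n := by
      refine (Finset.card_le_univ _).trans ?_
      rw [Fintype.card_fun, Fintype.card_fin, Fintype.card_fin]
    exact_mod_cast h4
  -- convexity
  have hconv : ∀ (Z : Fin k → G) (i : P.ι), QF (fun g => (P.ρ i g).trace)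
      (wlaw Z (fewRep k n r)) ≤ mm * ∑ w ∈ Gd, (k : ℝ) ^ n *
        QF (fun g => (P.ρ i g).trace) (fun g => 1 / ((cls w).card : ℝ) *
          wlaw Z (↑(cls w) : Set (Fin n → Fin k)) g) := by
    intro Z i
    have e1 : (fun g => (P.ρ i g).trace) = indL (M.H i) (M.lam i) := funext (M.tr i)
    have e2 : wlaw Z (fewRep k n r) = fun g => ∑ w ∈ Gd,
        (fun w g => 1 / ((cls w).card : ℝ) * wlaw Z (↑(cls w) : Set (Fin n → Fin k)) g) w g := by
      funext g
      exact wlaw_few Z r g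
    rw [e1, e2]
    refine (hQ G (M.H i) (M.lam i) (Fin n → Fin k) Gd _ (fun _ => 1 / (k : ℝ) ^ n)
      (fun _ _ => by positivity)).trans (le_of_eq ?_)
    rw [Finset.sum_const, nsmul_eq_mul, mul_one_div]
    congr 1
    refine Finset.sum_congr rfl fun w _ => ?_
    rw [div_div_eq_mul_div, div_one, mul_comm]
  -- one class
  have hcl : ∀ w ∈ Gd, ∑ i ∈ I, (P.d i : ℝ) * ∑ Z : Fin k → G, (k : ℝ) ^ n *
      QF (fun g => (P.ρ i g).trace) (fun g => 1 / ((cls w).card : ℝ) *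
          wlaw Z (↑(cls w) : Set (Fin n → Fin k)) g) ≤ Γ * b / (k : ℝ) ^ n := by
    intro w hw
    set m := (uq w).card with hm
    set N : ℝ := ((cls w).card : ℝ) with hN
    have hN0 : 0 < N := card_pos w
    have h4 : ∀ i ∈ I, (P.d i : ℝ) * ∑ Z : Fin k → G, (k : ℝ) ^ n *
        QF (fun g => (P.ρ i g).trace) (fun g => 1 / N *
          wlaw Z (↑(cls w) : Set (Fin n → Fin k)) g) ≤
        Γ / ((k : ℝ) ^ n * N) * ((P.d i : ℝ) ^ 2 *
          ∏ j ∈ Finset.range m, (1 + ((j : ℝ) + 1) / (P.d i : ℝ))) := by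
      intro i hi
      have hdi : 1 < P.d i := lt_of_le_of_lt hD (Finset.mem_filter.1 hi).2
      rw [← Finset.mul_sum]
      have h5 := class_bound h1 h2 (P.ρ i) hdi (P.irr i) w (1 / N)
      have h6 : (P.d i : ℝ) * ((k : ℝ) ^ n * ∑ Z : Fin k → G,
          QF (fun g => (P.ρ i g).trace) (fun g => 1 / N *
          wlaw Z (↑(cls w) : Set (Fin n → Fin k)) g)) ≤
          (P.d i : ℝ) * ((k : ℝ) ^ n * ((1 / N / (k : ℝ) ^ n) ^ 2 * (N * (Γ *
            ((P.d i : ℝ) * ∏ j ∈ Finset.range m, (1 + ((j : ℝ) + 1) / (P.d i : ℝ))))))) := by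
        gcongr
      refine h6.trans (le_of_eq ?_)
      field_simp
    refine (Finset.sum_le_sum h4).trans ?_
    rw [← Finset.mul_sum]
    have h7 : P.SD D m ≤ b * N := by
      refine (hSD m ?_ ?_).trans ?_
      · have := mem_fs.1 hw
        exact this
      · rw [hm]
        refine (Finset.card_le_univ _).trans ?_
        rw [Fintype.card_fin]
      · refine mul_le_mul_of_nonneg_left ?_ hb
        have h8 := h3 k n w hnk.le
        have h9 : Nat.card {w' : Fin n → Fin k // sameSk w w'} = (cls w).card := by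
          rw [Nat.card_eq_fintype_card, Fintype.card_subtype, cls]
        rw [h9] at h8
        rw [← Nat.cast_sub hnk.le, hN, hm]
        exact_mod_cast h8
    have h10 : Γ / ((k : ℝ) ^ n * N) * P.SD D m ≤ Γ / ((k : ℝ) ^ n * N) * (b * N) :=
      mul_le_mul_of_nonneg_left h7 (by positivity)
    refine le_trans (le_of_eq ?_) (h10.trans (le_of_eq ?_))
    · rfl
    · field_simp
  -- assembly
  have hA : ∑ Z : Fin k → G, ∑ i ∈ I, (P.d i : ℝ) * QF (fun g => (P.ρ i g).trace)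
      (wlaw Z (fewRep k n r)) ≤ mm * ∑ w ∈ Gd, ∑ i ∈ I, (P.d i : ℝ) * ∑ Z : Fin k → G,
        (k : ℝ) ^ n * QF (fun g => (P.ρ i g).trace) (fun g => 1 / ((cls w).card : ℝ) *
          wlaw Z (↑(cls w) : Set (Fin n → Fin k)) g) := by
    have h4 : ∑ Z : Fin k → G, ∑ i ∈ I, (P.d i : ℝ) * QF (fun g => (P.ρ i g).trace)
        (wlaw Z (fewRep k n r)) ≤ ∑ Z : Fin k → G, ∑ i ∈ I, (P.d i : ℝ) *
        (mm * ∑ w ∈ Gd, (k : ℝ) ^ n *
        QF (fun g => (P.ρ i g).trace) (fun g => 1 / ((cls w).card : ℝ) *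
          wlaw Z (↑(cls w) : Set (Fin n → Fin k)) g)) :=
      Finset.sum_le_sum fun Z _ => Finset.sum_le_sum fun i _ =>
        mul_le_mul_of_nonneg_left (hconv Z i) (Nat.cast_nonneg _)
    refine h4.trans (le_of_eq ?_)
    simp only [Finset.mul_sum]
    rw [Finset.sum_comm]
    conv_rhs => rw [Finset.sum_comm]
    refine Finset.sum_congr rfl fun i _ => ?_
    rw [Finset.sum_comm]
    refine Finset.sum_congr rfl fun w _ => ?_
    refine Finset.sum_congr rfl fun Z _ => ?_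
    ring
  have hB : ∑ Z : Fin k → G, ∑ i, (if D < P.d i then
      (P.d i : ℝ) * QF (fun g => (P.ρ i g).trace) (wlaw Z (fewRep k n r)) else 0) =
      ∑ Z : Fin k → G, ∑ i ∈ I, (P.d i : ℝ) * QF (fun g => (P.ρ i g).trace)
      (wlaw Z (fewRep k n r)) := by
    refine Finset.sum_congr rfl fun Z _ => ?_
    rw [hI, Finset.sum_filter]
  refine le_trans (le_of_eq ?_) ((hA.trans (mul_le_mul_of_nonneg_left
    (Finset.sum_le_sum hcl) hmm0)).trans ?_)
  · convert hB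
  · rw [Finset.sum_const, nsmul_eq_mul]
    have h4 : (Gd.card : ℝ) * (Γ * b / (k : ℝ) ^ n) = mm * (Γ * b) := by
      rw [hmm]
      ring
    rw [h4]
    have h5 : mm * (mm * (Γ * b)) ≤ 1 * (1 * (Γ * b)) := by gcongr
    linarith

end NilCut
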