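import Pool.Agent.Lib.MP_4ddf81_pr.Stm2

/-!
# MP_4ddf81_pr, stage 2 : piece HomP (homomorphisms to a cyclic group of prime order), helper44
-/

namespace NilCut

theorem p_HomP : S_HomP := by
  intro G _ _ p S hp hS
  have : NeZero p := ⟨hp.ne_zero⟩
  have : Fintype (Multiplicative (ZMod p)) := inferInstanceAs (Fintype (ZMod p))
  let R : (G →* Multiplicative (ZMod p)) → (↥S → Multiplicative (ZMod p)) :=
    fun f s => f (s : G)
  have hR : Function.Injective R := by
    intro f g hfg
    apply MonoidHom.eq_of_eqOn_top
    rw [← hS]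
    apply MonoidHom.eqOn_closure
    intro s hs
    exact congrFun hfg ⟨s, hs⟩
  have hfin : Finite (G →* Multiplicative (ZMod p)) := Finite.of_injective R hR
  refine ⟨hfin, ?_⟩
  have h1 := Nat.card_le_card_of_injective R hR
  refine h1.trans (le_of_eq ?_)
  have h2 : Nat.card (Multiplicative (ZMod p)) = p := by
    rw [Nat.card_congr Multiplicative.toAdd, Nat.card_zmod]
  rw [Nat.card_fun, h2, Nat.card_eq_fintype_card, Fintype.card_coe]

end NilCut
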