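import Pool.Agent.Lib.MP_4ddf81_pr.Stm2

namespace NilCut

namespace LB1

open Finset

lemma prod_fib {α β M : Type*} [Fintype α] [Fintype β] [DecidableEq β] [CommMonoid M]
    (g : α → β) (f : β → M) :
    ∏ a, f (g a) = ∏ b, f b ^ (univ.filter (fun a => g a = b)).card := by
  rw [← Finset.prod_fiberwise (s := univ) (g := g) (f := fun a => f (g a))]
  refine Finset.prod_congr rfl fun b _ => ?_
  rw [← Finset.prod_const]
  refine Finset.prod_congr rfl fun a ha => ?_
  rw [(Finset.mem_filter.1 ha).2]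

variable {G : Type} [Group G] (K : Subgroup G) [K.Normal]

/-- conjugation by the representative -/
noncomputable def cc (g : G) : K →* Abelianization K :=
  Abelianization.of.comp (MulAut.conjNormal g).toMonoidHom

lemma cc_apply (g : G) (y : K) : cc K g y = Abelianization.of (MulAut.conjNormal g y) := rfl

omit [K.Normal] in
lemma of_conj (t x : K) : Abelianization.of (t * x * t⁻¹) = Abelianization.of x := by
  rw [map_mul, map_mul, map_inv]
  rw [mul_comm (Abelianization.of t), mul_inv_cancel_right]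

lemma cc_eq (g g' : G) (h : g * g'⁻¹ ∈ K) : cc K g = cc K g' := by
  ext y
  rw [cc_apply, cc_apply]
  have : MulAut.conjNormal g y = (⟨g * g'⁻¹, h⟩ : K) * MulAut.conjNormal g' y *
      (⟨g * g'⁻¹, h⟩ : K)⁻¹ := by
    apply Subtype.ext
    simp only [MulAut.conjNormal_apply, Subgroup.coe_mul, InvMemClass.coe_inv]
    group
  rw [this, of_conj]

lemma cc_mul (g g' : G) (y : K) : cc K (g * g') y = cc K g (MulAut.conjNormal g' y) := by
  rw [cc_apply, cc_apply]
  congr 1
  apply Subtype.ext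
  simp only [MulAut.conjNormal_apply]
  group

omit [K.Normal] in
lemma out_coe (a : G ⧸ K) : ((Quotient.out a : G) : G ⧸ K) = a := Quotient.out_eq' a

variable [Fintype (G ⧸ K)]

lemma phiH_apply (δ : G ⧸ K → ℤ) (y : K) :
    phiH K δ y = ∏ a : G ⧸ K, cc K (Quotient.out a) y ^ δ a := by
  rw [phiH, MonoidHom.finsetProd_apply]
  rfl

lemma phiH_add (δ δ' : G ⧸ K → ℤ) (y : K) : phiH K (δ + δ') y = phiH K δ y * phiH K δ' y := by
  rw [phiH_apply, phiH_apply, phiH_apply, ← Finset.prod_mul_distrib]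
  refine Finset.prod_congr rfl fun a _ => ?_
  rw [Pi.add_apply, zpow_add]

lemma phiH_zero (y : K) : phiH K 0 y = 1 := by
  rw [phiH_apply]
  refine Finset.prod_eq_one fun a _ => ?_
  rw [Pi.zero_apply, zpow_zero]

lemma phiH_neg (δ : G ⧸ K → ℤ) (y : K) : phiH K (-δ) y = (phiH K δ y)⁻¹ := by
  rw [phiH_apply, phiH_apply, ← Finset.prod_inv_distrib]
  refine Finset.prod_congr rfl fun a _ => ?_
  rw [Pi.neg_apply, zpow_neg]

lemma phiH_shift (δ x : G ⧸ K → ℤ) (q : G ⧸ K) (hx : ∀ b, x b = δ (b * q⁻¹)) (y : K) :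
    phiH K x y = phiH K δ (MulAut.conjNormal (Quotient.out q) y) := by
  rw [phiH_apply, phiH_apply]
  rw [← Equiv.prod_comp (Equiv.mulRight q)]
  refine Finset.prod_congr rfl fun a _ => ?_
  rw [Equiv.coe_mulRight, hx, mul_inv_cancel_right, ← cc_mul]
  rw [cc_eq K (Quotient.out (a * q)) (Quotient.out a * Quotient.out q)]
  rw [← QuotientGroup.eq_one_iff]
  simp only [QuotientGroup.mk_mul, QuotientGroup.mk_inv, out_coe]
  group

lemma phiH_mem (S : Finset (G ⧸ K → ℤ)) (δ : G ⧸ K → ℤ) (h : δ ∈ rS S) :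
    ∀ y : K, phiH K δ y ∈ MS K S := by
  unfold rS at h
  induction h using AddSubgroup.closure_induction with
  | mem x hx =>
    obtain ⟨δ', hδ', q, hq⟩ := hx
    intro y
    rw [phiH_shift K δ' x q hq y]
    have : (phiH K δ').range ≤ MS K S := by
      unfold MS
      exact le_iSup₂ (f := fun δ (_ : δ ∈ S) => (phiH K δ).range) δ' hδ'
    exact this ⟨_, rfl⟩
  | zero => intro y; rw [phiH_zero]; exact one_mem _
  | add x x' _ _ h1 h2 => intro y; rw [phiH_add]; exact mul_mem (h1 y) (h2 y)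
  | neg x _ h1 => intro y; rw [phiH_neg]; exact inv_mem (h1 y)


section walk

variable {k n : ℕ} (Z : Fin k → G) (w : Fin n → Fin k)

/-- prefix products -/
def gp (j : ℕ) : G := ((List.ofFn fun l => Z (w l)).take j).prod

omit K [K.Normal] [Fintype (G ⧸ K)] in
lemma gp_zero : gp Z w 0 = 1 := by simp [gp]

omit K [K.Normal] [Fintype (G ⧸ K)] in
lemma gp_n : gp Z w n = wprod Z w := by
  unfold gp wprod
  rw [List.take_of_length_le]
  simp

omit K [K.Normal] [Fintype (G ⧸ K)] in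
lemma gp_succ (j : ℕ) (h : j < n) : gp Z w (j + 1) = gp Z w j * Z (w ⟨j, h⟩) := by
  unfold gp
  rw [List.prod_take_succ _ _ (by simpa using h)]
  congr 1
  simp

omit [Fintype (G ⧸ K)] in
lemma st_eq (j : ℕ) : st (fun i => (Z i : G ⧸ K)) w j = ((gp Z w j : G) : G ⧸ K) := by
  unfold st gp
  have : ((((List.ofFn fun l => Z (w l)).take j).prod : G) : G ⧸ K) =
      QuotientGroup.mk' K ((List.ofFn fun l => Z (w l)).take j).prod := rfl
  rw [this, map_list_prod, List.map_take, List.map_ofFn]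
  rfl

omit [Fintype (G ⧸ K)] in
lemma mem_of (g h : G) (e : (g : G ⧸ K) = h) : g * h⁻¹ ∈ K := by
  rw [← QuotientGroup.eq_one_iff, QuotientGroup.mk_mul, QuotientGroup.mk_inv, e, mul_inv_cancel]

/-- the representative -/
noncomputable abbrev rr (a : G ⧸ K) : G := Quotient.out a

/-- the defect of the prefix -/
noncomputable def xx (j : ℕ) : K :=
  ⟨gp Z w j * (Quotient.out ((gp Z w j : G) : G ⧸ K))⁻¹, mem_of K _ _ (out_coe K _).symm⟩

/-- the defect of the generator -/
noncomputable def yy (i : Fin k) : K :=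
  ⟨Z i * (Quotient.out ((Z i : G) : G ⧸ K))⁻¹, mem_of K _ _ (out_coe K _).symm⟩

/-- the cocycle -/
noncomputable def kap (a q : G ⧸ K) : K :=
  ⟨Quotient.out a * Quotient.out q * (Quotient.out (a * q))⁻¹, mem_of K _ _ (by
    rw [QuotientGroup.mk_mul, out_coe, out_coe, out_coe])⟩

omit [Fintype (G ⧸ K)] in
lemma xx_succ (j : ℕ) (h : j < n) :
    Abelianization.of (xx K Z w (j + 1)) = Abelianization.of (xx K Z w j) *
      (cc K (rr K (st (fun i => (Z i : G ⧸ K)) w j)) (yy K Z (w ⟨j, h⟩)) *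
      Abelianization.of (kap K (st (fun i => (Z i : G ⧸ K)) w j) (Z (w ⟨j, h⟩) : G ⧸ K))) := by
  rw [cc_apply, ← map_mul, ← map_mul, st_eq]
  congr 1
  apply Subtype.ext
  simp only [xx, yy, kap, Subgroup.coe_mul, MulAut.conjNormal_apply, gp_succ Z w j h,
    QuotientGroup.mk_mul]
  group

omit [Fintype (G ⧸ K)] in
lemma xx_prod (j : ℕ) (h : j ≤ n) :
    Abelianization.of (xx K Z w j) = Abelianization.of (xx K Z w 0) *
      ∏ i ∈ range j, if h : i < n then
      (cc K (rr K (st (fun i => (Z i : G ⧸ K)) w i)) (yy K Z (w ⟨i, h⟩)) *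
      Abelianization.of (kap K (st (fun i => (Z i : G ⧸ K)) w i) (Z (w ⟨i, h⟩) : G ⧸ K)))
      else 1 := by
  induction j with
  | zero => simp
  | succ j ih =>
    rw [xx_succ K Z w j h, ih (by omega), Finset.prod_range_succ, dif_pos (show j < n from h)]
    rw [mul_assoc]

lemma xx_n :
    Abelianization.of (xx K Z w n) = Abelianization.of (xx K Z w 0) *
      ((∏ i : Fin k, ∏ a : G ⧸ K,
        cc K (Quotient.out a) (yy K Z i) ^ (cnt (fun i => (Z i : G ⧸ K)) w i a)) *
      ∏ a : G ⧸ K, ∏ q : G ⧸ K,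
        Abelianization.of (kap K a q) ^ (trs (fun i => (Z i : G ⧸ K)) w a q)) := by
  classical
  rw [xx_prod K Z w n le_rfl, Finset.prod_range]
  congr 1
  have : ∀ j : Fin n, (if h : (j : ℕ) < n then
      (cc K (rr K (st (fun i => (Z i : G ⧸ K)) w j)) (yy K Z (w ⟨j, h⟩)) *
      Abelianization.of (kap K (st (fun i => (Z i : G ⧸ K)) w j) (Z (w ⟨j, h⟩) : G ⧸ K)))
      else 1) = cc K (rr K (st (fun i => (Z i : G ⧸ K)) w j)) (yy K Z (w j)) *
      Abelianization.of (kap K (st (fun i => (Z i : G ⧸ K)) w j) (Z (w j) : G ⧸ K)) := by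
    intro j
    rw [dif_pos j.2]
  rw [Finset.prod_congr rfl fun j _ => this j, Finset.prod_mul_distrib]
  congr 1
  · rw [prod_fib (fun j : Fin n => (w j, st (fun i => (Z i : G ⧸ K)) w j))
      (fun p : Fin k × (G ⧸ K) => cc K (Quotient.out p.2) (yy K Z p.1)),
      Fintype.prod_prod_type]
    refine Finset.prod_congr rfl fun i _ => Finset.prod_congr rfl fun a _ => ?_
    congr 1
    unfold cnt
    simp only [Prod.mk.injEq]
    congr!
  · rw [prod_fib (fun j : Fin n => (st (fun i => (Z i : G ⧸ K)) w j, (Z (w j) : G ⧸ K)))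
      (fun p : (G ⧸ K) × (G ⧸ K) => Abelianization.of (kap K p.1 p.2)),
      Fintype.prod_prod_type]
    refine Finset.prod_congr rfl fun i _ => Finset.prod_congr rfl fun a _ => ?_
    congr 1
    unfold trs
    simp only [Prod.mk.injEq]

end walk

end LB1

open LB1 in
theorem p_LB1 : S_LB1 := by
  intro G _ K _ _ k n Z S w w' h1 h2 h3
  have h3' : ((gp Z w n : G) : G ⧸ K) = ((gp Z w' n : G) : G ⧸ K) := by
    rw [← st_eq, ← st_eq, h3]
  have hm : wprod Z w * (wprod Z w')⁻¹ ∈ K := by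
    rw [← gp_n, ← gp_n]
    exact mem_of K _ _ h3'
  refine ⟨hm, ?_⟩
  have e : (⟨wprod Z w * (wprod Z w')⁻¹, hm⟩ : K) = xx K Z w n * (xx K Z w' n)⁻¹ := by
    apply Subtype.ext
    simp only [xx, Subgroup.coe_mul, InvMemClass.coe_inv, gp_n]
    rw [gp_n, gp_n] at h3'
    rw [h3']
    group
  rw [e, map_mul, map_inv, xx_n, xx_n]
  have h0 : xx K Z w 0 = xx K Z w' 0 := by
    apply Subtype.ext
    simp only [xx, gp_zero]
  rw [h0]
  have h4 : (∏ a : G ⧸ K, ∏ q : G ⧸ K,
        Abelianization.of (kap K a q) ^ (trs (fun i => (Z i : G ⧸ K)) w a q)) =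
      ∏ a : G ⧸ K, ∏ q : G ⧸ K,
        Abelianization.of (kap K a q) ^ (trs (fun i => (Z i : G ⧸ K)) w' a q) := by
    refine Finset.prod_congr rfl fun i _ => Finset.prod_congr rfl fun a _ => ?_
    rw [h2]
  rw [h4]
  have h5 : ∀ A B C D : Abelianization K, A * (B * C) * (A * (D * C))⁻¹ = B * D⁻¹ := by
    intro A B C D
    rw [mul_inv, mul_inv]
    calc A * (B * C) * (A⁻¹ * (D⁻¹ * C⁻¹)) = (A * A⁻¹) * (C * C⁻¹) * (B * D⁻¹) := by
          simp only [mul_assoc, mul_left_comm, mul_comm]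
      _ = B * D⁻¹ := by rw [mul_inv_cancel, mul_inv_cancel, one_mul, one_mul]
  rw [h5, ← Finset.prod_inv_distrib, ← Finset.prod_mul_distrib]
  refine Subgroup.prod_mem _ fun i _ => ?_
  have := phiH_mem K S _ (h1 i) (yy K Z i)
  rw [phiH_apply] at this
  convert this using 1
  rw [← Finset.prod_inv_distrib, ← Finset.prod_mul_distrib]
  refine Finset.prod_congr rfl fun a _ => ?_
  rw [zpow_sub, zpow_natCast, zpow_natCast]

end NilCut
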