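import Pool.Agent.Lib.MP_4ddf81_pr.Stm2

/-!
# MP_4ddf81_pr, stage 2, piece LB2 (helper85)
-/

namespace NilCut

namespace LB2

section

variable {Q : Type} [Group Q]

/-- class of a vector -/
def cl (S : Finset (Q → ℤ)) (x : Q → ℕ) : (Q → ℤ) ⧸ rS S :=
  QuotientAddGroup.mk (fun a => (x a : ℤ))

theorem cl_eq (S : Finset (Q → ℤ)) (x y : Q → ℕ) :
    cl S x = cl S y ↔ (fun a => (y a : ℤ) - (x a : ℤ)) ∈ rS S := by
  unfold cl
  rw [QuotientAddGroup.eq]
  constructor <;> intro h <;> convert h using 1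
  · funext a; simp [sub_eq_add_neg, add_comm]
  · funext a; simp [sub_eq_add_neg, add_comm]

variable [Fintype Q]

omit [Group Q] in
theorem mem_XL (L : ℕ) (x : Q → ℕ) (h : ∀ a, x a ≤ L) : x ∈ XL Q L := by
  classical
  unfold XL
  rw [Fintype.mem_piFinset]
  intro a
  rw [Finset.mem_range]
  have := h a
  omega

open Classical in
/-- weight of a class -/
noncomputable def wt (S : Finset (Q → ℤ)) (s : ℝ) (L : ℕ) (c : (Q → ℤ) ⧸ rS S) : ℝ :=
  ∑ y ∈ (XL Q L).filter (fun y => cl S y = c), pw s y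

theorem cls_eq (S : Finset (Q → ℤ)) (s : ℝ) (L : ℕ) (x : Q → ℕ) :
    clsS S s L x = wt S s L (cl S x) := by
  classical
  unfold clsS wt
  apply Finset.sum_congr _ fun _ _ => rfl
  ext y
  simp only [Finset.mem_filter, and_congr_right_iff]
  intro _
  rw [eq_comm, cl_eq]

open Classical in
/-- the good tuples of classes -/
noncomputable def tup (S : Finset (Q → ℤ)) (s : ℝ) (L k : ℕ) (t : ℝ) :
    Finset (Fin k → (Q → ℤ) ⧸ rS S) :=
  (Fintype.piFinset fun _ => (XL Q L).image (cl S)).filter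
    (fun c => Real.exp (-t) ≤ ∏ i, wt S s L (c i))

theorem tup_card (hP : S_Pw) (S : Finset (Q → ℤ)) (s : ℝ) (hs : 0 < s) (L k : ℕ) (t : ℝ) :
    ((tup S s L k t).card : ℝ) ≤ Real.exp t := by
  classical
  obtain ⟨hpos, hsum, -, -⟩ := hP Q s L 0 hs
  have hw : ∀ c, 0 ≤ wt S s L c := fun c => Finset.sum_nonneg fun y _ => (hpos y).le
  have h1 : ∑ c ∈ (XL Q L).image (cl S), wt S s L c = ∑ x ∈ XL Q L, pw s x := by
    unfold wt
    exact Finset.sum_fiberwise_of_maps_to (fun x hx => Finset.mem_image_of_mem _ hx) _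
  have h2 : ∑ c ∈ Fintype.piFinset (fun _ : Fin k => (XL Q L).image (cl S)),
      ∏ i, wt S s L (c i) ≤ 1 := by
    rw [← Finset.prod_univ_sum (fun _ : Fin k => (XL Q L).image (cl S))
      (fun _ c => wt S s L c)]
    rw [Finset.prod_const, h1]
    exact pow_le_one₀ (Finset.sum_nonneg fun y _ => (hpos y).le) hsum
  have h3 : ((tup S s L k t).card : ℝ) * Real.exp (-t) ≤ 1 := by
    calc ((tup S s L k t).card : ℝ) * Real.exp (-t) = ∑ _c ∈ tup S s L k t, Real.exp (-t) := by
          rw [Finset.sum_const, nsmul_eq_mul]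
      _ ≤ ∑ c ∈ tup S s L k t, ∏ i, wt S s L (c i) :=
          Finset.sum_le_sum fun c hc => (Finset.mem_filter.1 hc).2
      _ ≤ ∑ c ∈ Fintype.piFinset (fun _ : Fin k => (XL Q L).image (cl S)),
            ∏ i, wt S s L (c i) :=
          Finset.sum_le_sum_of_subset_of_nonneg (Finset.filter_subset _ _)
            fun c _ _ => Finset.prod_nonneg fun i _ => hw _
      _ ≤ 1 := h2
  rw [Real.exp_neg] at h3
  have := Real.exp_pos t
  rw [← div_eq_mul_inv, div_le_one this] at h3
  exact h3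

theorem mem_tup (hP : S_Pw) (hC : S_Cls) (S : Finset (Q → ℤ)) (s : ℝ) (hs : 0 < s) (L k : ℕ)
    (t : ℝ) (N : Fin k → Q → ℕ) (hN : ∀ i, N i ∈ XL Q L)
    (h : ∑ i, -Real.log (clsS S s L (N i)) ≤ t) : (fun i => cl S (N i)) ∈ tup S s L k t := by
  classical
  obtain ⟨hpos, -, -, -⟩ := hP Q s L 0 hs
  obtain ⟨hle, -, -, -⟩ := hC Q S s L hs
  unfold tup
  rw [Finset.mem_filter]
  refine ⟨Fintype.mem_piFinset.2 fun i => Finset.mem_image_of_mem _ (hN i), ?_⟩
  have hc : ∀ i, 0 < clsS S s L (N i) := fun i => (hpos _).trans_le (hle _ (hN i))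
  have e : ∏ i, wt S s L (cl S (N i)) = Real.exp (∑ i, Real.log (clsS S s L (N i))) := by
    rw [Real.exp_sum]
    apply Finset.prod_congr rfl
    intro i _
    rw [Real.exp_log (hc i), cls_eq]
  rw [e]
  apply Real.exp_le_exp.2
  rw [Finset.sum_neg_distrib] at h
  linarith

end

section grp

variable {G : Type} [Group G] [Fintype G]

/-- the elements of `K` whose class in the Abelianisation lies in `MS K S` -/
noncomputable def KS (K : Subgroup G) [K.Normal] [Fintype (G ⧸ K)] (S : Finset (G ⧸ K → ℤ)) :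
    Subgroup G :=
  ((MS K S).comap Abelianization.of).map K.subtype

omit [Fintype G] in
theorem KS_card (K : Subgroup G) [K.Normal] [Fintype (G ⧸ K)] (S : Finset (G ⧸ K → ℤ)) :
    Nat.card (KS K S) * K.index * (MS K S).index = Nat.card G := by
  have h1 : Nat.card (KS K S) = Nat.card ((MS K S).comap Abelianization.of) := by
    unfold KS
    exact Nat.card_congr (((MS K S).comap Abelianization.of).equivMapOfInjective K.subtype
      K.subtype_injective).symm.toEquiv
  have h2 : ((MS K S).comap Abelianization.of).index = (MS K S).index := by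
    apply Subgroup.index_comap_of_surjective
    exact QuotientGroup.mk_surjective
  have h3 := Subgroup.card_mul_index ((MS K S).comap (Abelianization.of : K →* Abelianization K))
  have h4 := Subgroup.card_mul_index K
  rw [h1, ← h2]
  calc _ = Nat.card ((MS K S).comap (Abelianization.of : K →* Abelianization K)) *
        ((MS K S).comap (Abelianization.of : K →* Abelianization K)).index * K.index := by ring
    _ = _ := by rw [h3, h4]

end grp

end LB2

open LB2 in
theorem p_LB2 (h1 : S_LB1) (hC : S_Cls) (hN : S_Cnt) (hP : S_Pw) : S_LB2 := by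
  classical
  intro G _ _ K _ _ k n L Z S s h hs hnL
  set z : Fin k → G ⧸ K := fun i => (Z i : G ⧸ K) with hz
  -- the set
  let A : Set G := {g | ∃ w : Fin n → Fin k, wprod Z w = g ∧
    ∑ i, -Real.log (clsS S s L (cnt z w i)) ≤ (k : ℝ) * h}
  have hA : ∀ g : A, ∃ w : Fin n → Fin k, wprod Z w = g ∧
    ∑ i, -Real.log (clsS S s L (cnt z w i)) ≤ (k : ℝ) * h := fun g => g.2
  choose w hw1 hw2 using hA
  have hcnt : ∀ (g : A) (i : Fin k), cnt z (w g) i ∈ XL (G ⧸ K) L := by
    intro g i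
    apply mem_XL
    intro a
    have := (hN (G ⧸ K) k n z (w g)).1 i a
    omega
  have htrs : ∀ (g : A) (a q : G ⧸ K), trs z (w g) a q < n + 1 := by
    intro g a q
    have : trs z (w g) a q ≤ n := by
      unfold trs
      exact (Finset.card_le_univ _).trans (by simp)
    omega
  let D : A → (G ⧸ K) × (G ⧸ K → G ⧸ K → Fin (n + 1)) × (tup S s L k ((k : ℝ) * h)) :=
    fun g => (st z (w g) n, fun a q => ⟨trs z (w g) a q, htrs g a q⟩,
      ⟨fun i => cl S (cnt z (w g) i), mem_tup hP hC S s hs L k _ _ (hcnt g) (hw2 g)⟩)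
  have hD : ∀ g g' : A, D g = D g' → (g : G) * (g' : G)⁻¹ ∈ KS K S := by
    intro g g' he
    have e1 : st z (w g) n = st z (w g') n := congrArg (fun x => x.1) he
    have e2 : ∀ a q, trs z (w g) a q = trs z (w g') a q := fun a q =>
      congrArg (fun x => ((x.2.1 a q : Fin (n + 1)) : ℕ)) he
    have e3 : ∀ i, cl S (cnt z (w g) i) = cl S (cnt z (w g') i) := fun i =>
      congrArg (fun x => (x.2.2 : Fin k → (G ⧸ K → ℤ) ⧸ rS S) i) he
    have e4 : ∀ i, (fun a => (cnt z (w g) i a : ℤ) - (cnt z (w g') i a : ℤ)) ∈ rS S := fun i => by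
      rw [← cl_eq]; exact (e3 i).symm
    obtain ⟨hk, hm⟩ := h1 G K k n Z S (w g) (w g') e4 e2 e1
    have hmem : wprod Z (w g) * (wprod Z (w g'))⁻¹ ∈ KS K S := ⟨⟨_, hk⟩, hm, rfl⟩
    rwa [hw1, hw1] at hmem
  -- representatives
  let rep : (G ⧸ K) × (G ⧸ K → G ⧸ K → Fin (n + 1)) × (tup S s L k ((k : ℝ) * h)) → G :=
    fun d => if hd : ∃ g : A, D g = d then (hd.choose : G) else 1
  have hrep : ∀ g : A, ∃ g' : A, D g' = D g ∧ rep (D g) = g' := by
    intro g
    have hd : ∃ g' : A, D g' = D g := ⟨g, rfl⟩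
    refine ⟨hd.choose, hd.choose_spec, ?_⟩
    simp only [rep]
    rw [dif_pos hd]
  let F : A → ((G ⧸ K) × (G ⧸ K → G ⧸ K → Fin (n + 1)) × (tup S s L k ((k : ℝ) * h))) × KS K S :=
    fun g => (D g, ⟨(g : G) * (rep (D g))⁻¹, by
      obtain ⟨g', e, e'⟩ := hrep g
      rw [e']
      exact hD g g' e.symm⟩)
  have hF : Function.Injective F := by
    intro g g' he
    have e1 : D g = D g' := congrArg (fun x => x.1) he
    have e2 : (g : G) * (rep (D g))⁻¹ = (g' : G) * (rep (D g'))⁻¹ :=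
      congrArg (fun x => (x.2 : G)) he
    rw [e1] at e2
    exact Subtype.ext (mul_right_cancel e2)
  have hcard := Nat.card_le_card_of_injective F hF
  have hJ : Nat.card (G ⧸ K) = K.index := rfl
  have hJ' : Fintype.card (G ⧸ K) = K.index := by rw [← Nat.card_eq_fintype_card, hJ]
  have hcd : Nat.card (((G ⧸ K) × (G ⧸ K → G ⧸ K → Fin (n + 1)) ×
      (tup S s L k ((k : ℝ) * h))) × KS K S) =
      (K.index * (((n + 1) ^ (K.index ^ 2)) * (tup S s L k ((k : ℝ) * h)).card)) *
        Nat.card (KS K S) := by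
    rw [Nat.card_prod, Nat.card_prod, Nat.card_prod, hJ]
    congr 3
    · rw [Nat.card_eq_fintype_card, Fintype.card_fun, Fintype.card_fun, Fintype.card_fin, hJ',
        ← pow_mul, sq]
    · rw [Nat.card_eq_fintype_card, Fintype.card_coe]
  rw [hcd] at hcard
  have hcardR : (Nat.card A : ℝ) ≤ (K.index * ((((n : ℝ) + 1) ^ (K.index ^ 2)) *
      (tup S s L k ((k : ℝ) * h)).card)) * Nat.card (KS K S) := by exact_mod_cast hcard
  have hKS : (Nat.card (KS K S) : ℝ) * K.index * (MS K S).index = Nat.card G := by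
    exact_mod_cast KS_card K S
  have ht := tup_card hP S s hs L k ((k : ℝ) * h)
  change (Nat.card A : ℝ) * ((MS K S).index : ℝ) ≤ _
  calc (Nat.card A : ℝ) * ((MS K S).index : ℝ)
      ≤ ((K.index * ((((n : ℝ) + 1) ^ (K.index ^ 2)) *
        Real.exp ((k : ℝ) * h))) * Nat.card (KS K S)) * ((MS K S).index : ℝ) := by
        refine mul_le_mul_of_nonneg_right (hcardR.trans ?_) (by positivity)
        gcongr
    _ = (Nat.card (KS K S) : ℝ) * K.index * (MS K S).index * ((n : ℝ) + 1) ^ (K.index ^ 2) *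
        Real.exp ((k : ℝ) * h) := by ring
    _ = (Nat.card G : ℝ) * ((n : ℝ) + 1) ^ (K.index ^ 2) * Real.exp ((k : ℝ) * h) := by rw [hKS]

end NilCut
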