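import Pool.Agent.Lib.MP_4ddf81_pr.P2.UBasy

/-!
# MP_4ddf81_pr, stage 2 : the lower bound (choice of the parameters)
-/

namespace NilCut

open Filter Topology

namespace LBasy

/-- Words with a large information content, all the families of cosets. -/
theorem bad (hO : S_Occ) (hT : S_TransS) (hL : S_LDL) (hP : S_Pw) (hC : S_Cls)
    (Q : Type) [Group Q] [Fintype Q] (k n L : ℕ) (S : Finset (Q → ℤ)) (s ε η : ℝ)
    (hk : 0 < k) (hs : 0 < s) (hε : 0 < ε) (hεk : 3 < ε * (k : ℝ)) (hn : n ≤ L) (hη : 0 < η)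
    (hη8 : η ≤ 8) :
    (Nat.card {p : (Fin k → Q) × (Fin n → Fin k) //
      ¬ (∑ i, -Real.log (clsS S s L (cnt p.1 p.2 i)) ≤ (k : ℝ) * (HS S s L + η))} : ℝ) ≤
      (Fintype.card Q : ℝ) ^ k * (k : ℝ) ^ n *
      (9 * (Fintype.card Q : ℝ) * (n : ℝ) / (ε * (k : ℝ)) ^ 2 +
        9 * (n : ℝ) ^ 2 / (ε ^ 2 * (k : ℝ) ^ 3) +
        Wf (Fintype.card Q) s ε k n * Real.exp (-((k : ℝ) * η ^ 2 /
          (64 * (2 ^ (Fintype.card Q) * Real.exp (2 * s)))))) := by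
  classical
  set J : ℕ := Fintype.card Q with hJ
  have hk0 : (0 : ℝ) < (k : ℝ) := by exact_mod_cast hk
  set A : Set (Fin k → Q → ℕ) := {N | (k : ℝ) * (∑ x ∈ XL Q L, pw s x *
    (-Real.log (clsS S s L x)) + η) ≤ ∑ i, -Real.log (clsS S s L (N i))} with hA
  -- the two parts
  have hsplit : (Nat.card {p : (Fin k → Q) × (Fin n → Fin k) //
      ¬ (∑ i, -Real.log (clsS S s L (cnt p.1 p.2 i)) ≤ (k : ℝ) * (HS S s L + η))} : ℝ) ≤
      (Nat.card {p : (Fin k → Q) × (Fin n → Fin k) //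
        ∃ b, (n : ℝ) / (J : ℝ) + ε * (k : ℝ) < (occ p.1 p.2 b : ℝ)} : ℝ) +
      (Nat.card {p : (Fin k → Q) × (Fin n → Fin k) //
        (∀ b, (occ p.1 p.2 b : ℝ) ≤ (n : ℝ) / (J : ℝ) + ε * (k : ℝ)) ∧
          cnt p.1 p.2 ∈ A} : ℝ) := by
    have h1 : Nat.card {p : (Fin k → Q) × (Fin n → Fin k) //
        ¬ (∑ i, -Real.log (clsS S s L (cnt p.1 p.2 i)) ≤ (k : ℝ) * (HS S s L + η))} ≤
        Nat.card {p : (Fin k → Q) × (Fin n → Fin k) //
          (∃ b, (n : ℝ) / (J : ℝ) + ε * (k : ℝ) < (occ p.1 p.2 b : ℝ)) ∨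
          ((∀ b, (occ p.1 p.2 b : ℝ) ≤ (n : ℝ) / (J : ℝ) + ε * (k : ℝ)) ∧
            cnt p.1 p.2 ∈ A)} := by
      apply Nat.card_le_card_of_injective
        (fun p => (⟨p.1, by
          by_cases h2 : ∃ b, (n : ℝ) / (J : ℝ) + ε * (k : ℝ) < (occ p.1.1 p.1.2 b : ℝ)
          · exact Or.inl h2
          · refine Or.inr ⟨?_, ?_⟩
            · push Not at h2
              exact h2
            · have h7 := (not_le.1 p.2).le
              exact h7⟩ :
          {p : (Fin k → Q) × (Fin n → Fin k) //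
          (∃ b, (n : ℝ) / (J : ℝ) + ε * (k : ℝ) < (occ p.1 p.2 b : ℝ)) ∨
          ((∀ b, (occ p.1 p.2 b : ℝ) ≤ (n : ℝ) / (J : ℝ) + ε * (k : ℝ)) ∧
            cnt p.1 p.2 ∈ A)}))
      intro p q hpq
      exact Subtype.ext (congrArg (fun x => x.1) hpq)
    have h3 : Nat.card {p : (Fin k → Q) × (Fin n → Fin k) //
          (∃ b, (n : ℝ) / (J : ℝ) + ε * (k : ℝ) < (occ p.1 p.2 b : ℝ)) ∨
          ((∀ b, (occ p.1 p.2 b : ℝ) ≤ (n : ℝ) / (J : ℝ) + ε * (k : ℝ)) ∧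
            cnt p.1 p.2 ∈ A)} ≤
        Nat.card {p : (Fin k → Q) × (Fin n → Fin k) //
          ∃ b, (n : ℝ) / (J : ℝ) + ε * (k : ℝ) < (occ p.1 p.2 b : ℝ)} +
        Nat.card {p : (Fin k → Q) × (Fin n → Fin k) //
          (∀ b, (occ p.1 p.2 b : ℝ) ≤ (n : ℝ) / (J : ℝ) + ε * (k : ℝ)) ∧
            cnt p.1 p.2 ∈ A} := by
      rw [Nat.card_eq_fintype_card, Nat.card_eq_fintype_card, Nat.card_eq_fintype_card]
      exact Fintype.card_subtype_or _ _
    exact_mod_cast le_trans h1 h3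
  have hO' := hO Q k n ε hε hεk
  rw [← hJ] at hO'
  -- the second part
  obtain ⟨hp1, hp2, hp3, _⟩ := hP Q s L 0 hs
  obtain ⟨hc1, hc2, _, _⟩ := hC Q S s L hs
  have hC1 : (1 : ℝ) ≤ 2 ^ J * Real.exp (2 * s) := by
    have h2 : (1 : ℝ) ≤ 2 ^ J := one_le_pow₀ (by norm_num)
    have h3 : (1 : ℝ) ≤ Real.exp (2 * s) := Real.one_le_exp (by positivity)
    nlinarith
  have hLDL := hL (Q → ℕ) (XL Q L) (pw s) (clsS S s L) (2 ^ J * Real.exp (2 * s)) η k
    (fun x _ => hp1 x) hp2 (fun x hx => ⟨hc1 x hx, hc2 x⟩) (by linarith) hp3 hη (by linarith)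
  have hWf0 : 0 ≤ Wf J s ε k n := by
    unfold Wf
    positivity
  have h2 : (Nat.card {p : (Fin k → Q) × (Fin n → Fin k) //
        (∀ b, (occ p.1 p.2 b : ℝ) ≤ (n : ℝ) / (J : ℝ) + ε * (k : ℝ)) ∧
          cnt p.1 p.2 ∈ A} : ℝ) ≤ (J : ℝ) ^ k * ((k : ℝ) ^ n * (Wf J s ε k n *
            Real.exp (-((k : ℝ) * η ^ 2 / (64 * (2 ^ J * Real.exp (2 * s))))))) := by
    rw [UBasy.card_pairs (A := Fin k → Q) (B := Fin n → Fin k) (fun z w =>
      (∀ b, (occ z w b : ℝ) ≤ (n : ℝ) / (J : ℝ) + ε * (k : ℝ)) ∧ cnt z w ∈ A)]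
    have h5 : ∀ z : Fin k → Q, (Nat.card {w : Fin n → Fin k //
        (∀ b, (occ z w b : ℝ) ≤ (n : ℝ) / (J : ℝ) + ε * (k : ℝ)) ∧ cnt z w ∈ A} : ℝ) ≤
        (k : ℝ) ^ n * (Wf J s ε k n *
            Real.exp (-((k : ℝ) * η ^ 2 / (64 * (2 ^ J * Real.exp (2 * s)))))) := by
      intro z
      refine le_trans (hT Q k n L s ε z A hk hs hε.le hn) ?_
      rw [← hJ]
      refine mul_le_mul_of_nonneg_left (mul_le_mul_of_nonneg_left ?_ hWf0) (by positivity)
      exact hLDL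
    refine le_trans (Finset.sum_le_sum fun z _ => h5 z) ?_
    rw [Finset.sum_const, nsmul_eq_mul]
    apply le_of_eq
    congr 1
    rw [Finset.card_univ, Fintype.card_fun, Fintype.card_fin, ← hJ]
    push_cast
    rfl
  calc _ ≤ _ := hsplit
    _ ≤ (J : ℝ) ^ k * (k : ℝ) ^ n *
      (9 * (J : ℝ) * (n : ℝ) / (ε * (k : ℝ)) ^ 2 +
        9 * (n : ℝ) ^ 2 / (ε ^ 2 * (k : ℝ) ^ 3)) + (J : ℝ) ^ k * ((k : ℝ) ^ n * (Wf J s ε k n *
            Real.exp (-((k : ℝ) * η ^ 2 / (64 * (2 ^ J * Real.exp (2 * s))))))) := by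
        exact add_le_add hO' h2
    _ = _ := by ring

/-- The set of the elements reached by words of bounded information content. -/
def AZ {G : Type} [Group G] (K : Subgroup G) [K.Normal] [Fintype (G ⧸ K)] {k : ℕ} (L : ℕ)
    (Z : Fin k → G) (S : Finset (G ⧸ K → ℤ)) (s h : ℝ) (n : ℕ) : Set G :=
  {g : G | ∃ w : Fin n → Fin k, wprod Z w = g ∧
    ∑ i, -Real.log (clsS S s L (cnt (fun i => (Z i : G ⧸ K)) w i)) ≤ (k : ℝ) * h}

open Classical in
/-- The mass of this set. -/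
theorem mass {G : Type} [Group G] [Fintype G] (K : Subgroup G) [K.Normal] [Fintype (G ⧸ K)]
    {k : ℕ} (L : ℕ) (Z : Fin k → G) (S : Finset (G ⧸ K → ℤ)) (s h : ℝ) (n : ℕ) (hk : 0 < k) :
    1 - (Nat.card {w : Fin n → Fin k //
      ¬ (∑ i, -Real.log (clsS S s L (cnt (fun i => (Z i : G ⧸ K)) w i)) ≤ (k : ℝ) * h)} : ℝ) /
        (k : ℝ) ^ n ≤
      ∑ g : G, (if g ∈ AZ K L Z S s h n then stepLaw Z n g else 0) := by
  have hk0 : (0 : ℝ) < (k : ℝ) := by exact_mod_cast hk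
  have hkn : (0 : ℝ) < (k : ℝ) ^ n := by positivity
  have e1 := UBasy.compl_words (n := n) hk {w : Fin n → Fin k |
    ∑ i, -Real.log (clsS S s L (cnt (fun i => (Z i : G ⧸ K)) w i)) ≤ (k : ℝ) * h}
  have e2 : 1 - (Nat.card {w : Fin n → Fin k //
      ¬ (∑ i, -Real.log (clsS S s L (cnt (fun i => (Z i : G ⧸ K)) w i)) ≤ (k : ℝ) * h)} : ℝ) /
        (k : ℝ) ^ n = (Nat.card {w : Fin n → Fin k |
    ∑ i, -Real.log (clsS S s L (cnt (fun i => (Z i : G ⧸ K)) w i)) ≤ (k : ℝ) * h} : ℝ) /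
      (k : ℝ) ^ n := by
    have e3 : {w : Fin n → Fin k // w ∉ {w : Fin n → Fin k |
      ∑ i, -Real.log (clsS S s L (cnt (fun i => (Z i : G ⧸ K)) w i)) ≤ (k : ℝ) * h}} =
      {w : Fin n → Fin k //
      ¬ (∑ i, -Real.log (clsS S s L (cnt (fun i => (Z i : G ⧸ K)) w i)) ≤ (k : ℝ) * h)} := rfl
    rw [e3] at e1
    linarith
  rw [e2]
  have e4 : (Nat.card {w : Fin n → Fin k |
    ∑ i, -Real.log (clsS S s L (cnt (fun i => (Z i : G ⧸ K)) w i)) ≤ (k : ℝ) * h} : ℝ) ≤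
      ∑ g : G, (if g ∈ AZ K L Z S s h n then
        (Nat.card {w : Fin n → Fin k // wprod Z w = g} : ℝ) else 0) := by
    have e5 : ∑ g : G, (if g ∈ AZ K L Z S s h n then
        (Nat.card {w : Fin n → Fin k // wprod Z w = g} : ℝ) else 0) =
        ∑ w : Fin n → Fin k, (if wprod Z w ∈ AZ K L Z S s h n then (1 : ℝ) else 0) := by
      have e6 : ∀ g : G, (if g ∈ AZ K L Z S s h n then
        (Nat.card {w : Fin n → Fin k // wprod Z w = g} : ℝ) else 0) =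
        ∑ w ∈ Finset.univ.filter (fun w : Fin n → Fin k => wprod Z w = g),
          (if wprod Z w ∈ AZ K L Z S s h n then (1 : ℝ) else 0) := by
        intro g
        rw [Nat.card_eq_fintype_card, Fintype.card_subtype]
        split_ifs with hg
        · rw [Finset.sum_congr rfl (g := fun _ => (1 : ℝ))]
          · simp
          · intro w hw
            rw [(Finset.mem_filter.1 hw).2, if_pos hg]
        · symm
          apply Finset.sum_eq_zero
          intro w hw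
          rw [(Finset.mem_filter.1 hw).2, if_neg hg]
      rw [Finset.sum_congr rfl fun g _ => e6 g]
      exact Finset.sum_fiberwise _ _ _
    rw [e5]
    rw [← Finset.sum_filter, Finset.sum_const, nsmul_eq_mul, mul_one]
    have e7 : Nat.card {w : Fin n → Fin k |
        ∑ i, -Real.log (clsS S s L (cnt (fun i => (Z i : G ⧸ K)) w i)) ≤ (k : ℝ) * h} ≤
        (Finset.univ.filter (fun w : Fin n → Fin k => wprod Z w ∈ AZ K L Z S s h n)).card := by
      rw [← Fintype.card_subtype, ← Nat.card_eq_fintype_card]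
      apply Nat.card_le_card_of_injective
        (fun w => (⟨w.1, ⟨w.1, rfl, w.2⟩⟩ : {w : Fin n → Fin k // wprod Z w ∈ AZ K L Z S s h n}))
      intro p q hpq
      exact Subtype.ext (congrArg (fun x => x.1) hpq)
    exact_mod_cast e7
  calc _ ≤ (∑ g : G, (if g ∈ AZ K L Z S s h n then
        (Nat.card {w : Fin n → Fin k // wprod Z w = g} : ℝ) else 0)) / (k : ℝ) ^ n :=
        div_le_div_of_nonneg_right e4 hkn.le
    _ = _ := by
        rw [Finset.sum_div]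
        apply Finset.sum_congr rfl
        intro g _
        unfold stepLaw
        split_ifs <;> simp

/-- Polynomial against exponential. -/
theorem ev_poly (A c b : ℝ) (m : ℕ) (hA : 0 ≤ A) (hc : 0 < c) (hb : 0 < b) :
    ∀ᶠ k : ℕ in atTop, (A * (k : ℝ) + 1) ^ m * Real.exp (-(c * (k : ℝ))) ≤ b := by
  filter_upwards [UBasy.ev_lin A (c / (2 * ((m : ℝ) + 1))) (by positivity),
    UBasy.ev_exp 1 (c / 2) b (by positivity) hb] with k h1 h2
  have hk0 : (0 : ℝ) ≤ (k : ℝ) := Nat.cast_nonneg k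
  have h3 : (A * (k : ℝ) + 1) ^ m ≤ Real.exp (c / 2 * (k : ℝ)) := by
    calc (A * (k : ℝ) + 1) ^ m ≤ (Real.exp (c / (2 * ((m : ℝ) + 1)) * (k : ℝ))) ^ m :=
          pow_le_pow_left₀ (by positivity) h1 m
      _ = Real.exp ((m : ℝ) * (c / (2 * ((m : ℝ) + 1)) * (k : ℝ))) := by
          rw [← Real.exp_nat_mul]
      _ ≤ Real.exp (c / 2 * (k : ℝ)) := by
          apply Real.exp_le_exp.2
          have h4 : (m : ℝ) * (c / (2 * ((m : ℝ) + 1)) * (k : ℝ)) =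
              ((m : ℝ) / ((m : ℝ) + 1)) * (c / 2 * (k : ℝ)) := by
            field_simp
          rw [h4]
          have h5 : (m : ℝ) / ((m : ℝ) + 1) ≤ 1 := by
            rw [div_le_one (by positivity)]
            linarith
          have h6 : 0 ≤ c / 2 * (k : ℝ) := by positivity
          nlinarith
  calc (A * (k : ℝ) + 1) ^ m * Real.exp (-(c * (k : ℝ))) ≤
      Real.exp (c / 2 * (k : ℝ)) * Real.exp (-(c * (k : ℝ))) :=
        mul_le_mul_of_nonneg_right h3 (Real.exp_pos _).le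
    _ = 1 * Real.exp (-(c / 2 * (k : ℝ))) := by
        rw [← Real.exp_add, one_mul]
        congr 1
        ring
    _ ≤ b := h2

/-- Numerical part. -/
theorem lb_num (k n J Jm : ℕ) (s s₁ ε η C₁ cw W ηt : ℝ) (hk : 0 < k) (hJ : J ≤ Jm)
    (hε : 0 < ε) (hs : 0 < s) (hs1 : s ≤ s₁) (hn : (n : ℝ) ≤ (s₁ + 1) * (k : ℝ))
    (hC1 : C₁ = 2 ^ Jm * Real.exp (2 * s₁))
    (hcw1 : 2 * cw ≤ η ^ 2 / (64 * C₁)) (hW : W ≤ Real.exp (cw * (k : ℝ)))
    (e1 : 9 * (Jm : ℝ) * (s₁ + 1) / ε ^ 2 ≤ ηt * (k : ℝ))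
    (e2 : 9 * (s₁ + 1) ^ 2 / ε ^ 2 ≤ ηt * (k : ℝ))
    (e3 : 1 * Real.exp (-(cw * (k : ℝ))) ≤ ηt) :
    9 * (J : ℝ) * (n : ℝ) / (ε * (k : ℝ)) ^ 2 + 9 * (n : ℝ) ^ 2 / (ε ^ 2 * (k : ℝ) ^ 3) +
        W * Real.exp (-((k : ℝ) * η ^ 2 / (64 * (2 ^ J * Real.exp (2 * s))))) ≤ 3 * ηt := by
  have hk0 : (0 : ℝ) < (k : ℝ) := by exact_mod_cast hk
  have hJ' : (J : ℝ) ≤ (Jm : ℝ) := by exact_mod_cast hJ
  have hs1' : 0 < s₁ := lt_of_lt_of_le hs hs1
  have hn0 : (0 : ℝ) ≤ (n : ℝ) := Nat.cast_nonneg n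
  have hJ0 : (0 : ℝ) ≤ (J : ℝ) := Nat.cast_nonneg J
  have t1 : 9 * (J : ℝ) * (n : ℝ) / (ε * (k : ℝ)) ^ 2 ≤ ηt := by
    rw [div_le_iff₀ (by positivity)]
    rw [div_le_iff₀ (by positivity)] at e1
    calc 9 * (J : ℝ) * (n : ℝ) ≤ 9 * (Jm : ℝ) * ((s₁ + 1) * (k : ℝ)) := by gcongr
      _ = (9 * (Jm : ℝ) * (s₁ + 1)) * (k : ℝ) := by ring
      _ ≤ (ηt * (k : ℝ) * ε ^ 2) * (k : ℝ) := mul_le_mul_of_nonneg_right e1 hk0.le
      _ = ηt * (ε * (k : ℝ)) ^ 2 := by ring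
  have t2 : 9 * (n : ℝ) ^ 2 / (ε ^ 2 * (k : ℝ) ^ 3) ≤ ηt := by
    rw [div_le_iff₀ (by positivity)]
    rw [div_le_iff₀ (by positivity)] at e2
    calc 9 * (n : ℝ) ^ 2 ≤ 9 * ((s₁ + 1) * (k : ℝ)) ^ 2 := by gcongr
      _ = (9 * (s₁ + 1) ^ 2) * (k : ℝ) ^ 2 := by ring
      _ ≤ (ηt * (k : ℝ) * ε ^ 2) * (k : ℝ) ^ 2 := mul_le_mul_of_nonneg_right e2 (by positivity)
      _ = ηt * (ε ^ 2 * (k : ℝ) ^ 3) := by ring
  have hC1pos : 0 < C₁ := by rw [hC1]; positivity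
  have hC1J : 2 ^ J * Real.exp (2 * s) ≤ C₁ := by
    rw [hC1]
    have : (2 : ℝ) ^ J ≤ 2 ^ Jm := pow_le_pow_right₀ (by norm_num) hJ
    have h2 : Real.exp (2 * s) ≤ Real.exp (2 * s₁) := Real.exp_le_exp.2 (by linarith)
    gcongr
  have hCJpos : 0 < 2 ^ J * Real.exp (2 * s) := by positivity
  have t3 : Real.exp (-((k : ℝ) * η ^ 2 / (64 * (2 ^ J * Real.exp (2 * s))))) ≤
      Real.exp (-(2 * cw * (k : ℝ))) := by
    apply Real.exp_le_exp.2
    apply neg_le_neg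
    have h4 : η ^ 2 / (64 * C₁) ≤ η ^ 2 / (64 * (2 ^ J * Real.exp (2 * s))) := by
      gcongr
    calc 2 * cw * (k : ℝ) ≤ η ^ 2 / (64 * (2 ^ J * Real.exp (2 * s))) * (k : ℝ) :=
          mul_le_mul_of_nonneg_right (le_trans hcw1 h4) hk0.le
      _ = _ := by ring
  have t6 : W * Real.exp (-((k : ℝ) * η ^ 2 / (64 * (2 ^ J * Real.exp (2 * s))))) ≤
      Real.exp (cw * (k : ℝ)) * Real.exp (-(2 * cw * (k : ℝ))) := by
    gcongr
  have t7 : Real.exp (cw * (k : ℝ)) * Real.exp (-(2 * cw * (k : ℝ))) =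
      1 * Real.exp (-(cw * (k : ℝ))) := by
    rw [← Real.exp_add, one_mul]
    congr 1
    ring
  linarith

end LBasy

open LBasy in
/-- The lower bound. -/
theorem p_LBasy (hWf : S_WfB) (hPu : S_Push) (hO : S_Occ) (hT : S_TransS) (hL : S_LDL)
    (hP : S_Pw) (hC : S_Cls) (h2 : S_LB2) (hLB : S_LBtv) (hP1 : S_P1) (hP2 : S_P2) :
    S_LBasy := by
  classical
  intro s₀ s₁ η₂ ηt Jm R hs0 hs01 hη₂ hηt
  have hs1 : 0 < s₁ := lt_of_lt_of_le hs0 hs01
  set η : ℝ := min (η₂ / 2) 1 with hη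
  have hη0 : 0 < η := lt_min (by positivity) one_pos
  have hηa : η ≤ η₂ / 2 := min_le_left _ _
  have hηb : η ≤ 1 := min_le_right _ _
  set C₁ : ℝ := 2 ^ Jm * Real.exp (2 * s₁) with hC₁
  have hC₁0 : 0 < C₁ := by positivity
  set cw : ℝ := η ^ 2 / (128 * C₁) with hcw
  have hcw0 : 0 < cw := by positivity
  have hcw1 : 2 * cw ≤ η ^ 2 / (64 * C₁) := by
    rw [hcw]
    apply le_of_eq
    field_simp
    norm_num
  obtain ⟨ε', hε'0, hε'1, kW, hWfB⟩ := hWf Jm s₀ s₁ cw hs0 hs01 hcw0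
  set δ' : ℝ := min (ε' / s₁) 1 with hδ'
  have hδ'0 : 0 < δ' := lt_min (by positivity) one_pos
  have hδ'1 : δ' ≤ 1 := min_le_right _ _
  have hδ's : δ' * s₁ ≤ ε' := by
    have h3 : δ' ≤ ε' / s₁ := min_le_left _ _
    rwa [le_div_iff₀ hs1] at h3
  refine eventually_atTop.1 ?_
  filter_upwards [eventually_ge_atTop kW, eventually_gt_atTop 0,
    UBasy.ev_ge (9 * (Jm : ℝ) * (s₁ + 1) / ε' ^ 2) (ηt / 16) (by positivity),
    UBasy.ev_ge (9 * (s₁ + 1) ^ 2 / ε' ^ 2) (ηt / 16) (by positivity),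
    UBasy.ev_exp 1 cw (ηt / 16) hcw0 (by positivity),
    UBasy.ev_ge 4 ε' hε'0,
    UBasy.ev_exp 1 (δ' ^ 2 * s₀ / 4) (ηt / 16) (by positivity) (by positivity),
    UBasy.ev_exp 1 (δ' ^ 2 * s₀ / 8) (ηt / 16) (by positivity) (by positivity),
    ev_poly (s₁ + 1) (η₂ / 2) (ηt / 16) (Jm ^ 2 + 1) (by positivity) (by positivity)
      (by positivity)] with k hkW hkpos ek1 ek2 ek3 ek4 ek5 ek6 ek7
  intro G _ _ K _ _ hJ s hss hss' S hSR hidx
  have hk0 : (0 : ℝ) < (k : ℝ) := by exact_mod_cast hkpos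
  have hs : 0 < s := lt_of_lt_of_le hs0 hss
  have hJ1 : 1 ≤ K.index := Nat.one_le_iff_ne_zero.2 Subgroup.index_ne_zero_of_finite
  have hJc : Fintype.card (G ⧸ K) = K.index := by
    rw [Subgroup.index_eq_card, Nat.card_eq_fintype_card]
  set L : ℕ := ⌈(s₁ + 1) * (k : ℝ)⌉₊ with hLdef
  set t : ℝ := s * (k : ℝ) with ht
  have ht0 : 0 ≤ t := by positivity
  set a : ℕ := ⌈(s - ε') * (k : ℝ)⌉₊ with ha
  set b : ℕ := ⌊(s + ε') * (k : ℝ)⌋₊ with hb
  have hble : (b : ℝ) ≤ (s + ε') * (k : ℝ) := Nat.floor_le (by positivity)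
  set W : Finset ℕ := (Finset.range (b + 1)).filter (fun n => a ≤ n) with hWdef
  have hWn : ∀ n ∈ W, |(n : ℝ) - s * (k : ℝ)| ≤ ε' * (k : ℝ) := by
    intro n hn
    rw [hWdef, Finset.mem_filter, Finset.mem_range] at hn
    have h3 : (n : ℝ) ≤ (b : ℝ) := by exact_mod_cast (by omega : n ≤ b)
    have h4 : (s - ε') * (k : ℝ) ≤ (n : ℝ) :=
      le_trans (Nat.le_ceil _) (by exact_mod_cast hn.2)
    rw [abs_le]
    constructor <;> nlinarith
  have hWn1 : ∀ n ∈ W, (n : ℝ) ≤ (s₁ + 1) * (k : ℝ) := by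
    intro n hn
    have h3 := (abs_le.1 (hWn n hn)).2
    nlinarith
  have hWL : ∀ n ∈ W, n ≤ L := by
    intro n hn
    have h3 : (n : ℝ) ≤ (L : ℝ) := le_trans (hWn1 n hn) (Nat.le_ceil _)
    exact_mod_cast h3
  set h : ℝ := HS S s L + η with hh
  set ρ : ℝ := ((s₁ + 1) * (k : ℝ) + 1) ^ (Jm ^ 2) * Real.exp (-(η₂ / 2 * (k : ℝ))) with hρ
  have hGpos : (0 : ℝ) < (Nat.card G : ℝ) := by exact_mod_cast Nat.card_pos
  have hpt : ∀ n : ℕ, 0 ≤ pois t n := by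
    intro n
    unfold pois
    positivity
  -- sizes
  have hsize : ∀ Z : Fin k → G, ∀ n ∈ W,
      (Nat.card (AZ K L Z S s h n) : ℝ) ≤ (Nat.card G : ℝ) * ρ := by
    intro Z n hn
    have h3 := h2 G K k n L Z S s h hs (hWL n hn)
    have hidx0 : 0 < ((MS K S).index : ℝ) := lt_trans (Real.exp_pos _) hidx
    have h4 : (Nat.card (AZ K L Z S s h n) : ℝ) * ((MS K S).index : ℝ) ≤
        (Nat.card G : ℝ) * ((n : ℝ) + 1) ^ (K.index ^ 2) * Real.exp ((k : ℝ) * h) := h3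
    have h5 : ((n : ℝ) + 1) ^ (K.index ^ 2) ≤ ((s₁ + 1) * (k : ℝ) + 1) ^ (Jm ^ 2) := by
      have h6 : (n : ℝ) + 1 ≤ (s₁ + 1) * (k : ℝ) + 1 := by linarith [hWn1 n hn]
      have h7 : (1 : ℝ) ≤ (s₁ + 1) * (k : ℝ) + 1 := by
        have : 0 ≤ (s₁ + 1) * (k : ℝ) := by positivity
        linarith
      calc ((n : ℝ) + 1) ^ (K.index ^ 2) ≤ ((s₁ + 1) * (k : ℝ) + 1) ^ (K.index ^ 2) :=
            pow_le_pow_left₀ (by positivity) h6 _
        _ ≤ ((s₁ + 1) * (k : ℝ) + 1) ^ (Jm ^ 2) :=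
            pow_le_pow_right₀ h7 (Nat.pow_le_pow_left hJ 2)
    have h8 : Real.exp ((k : ℝ) * h) ≤
        Real.exp (-(η₂ / 2 * (k : ℝ))) * ((MS K S).index : ℝ) := by
      calc Real.exp ((k : ℝ) * h) ≤ Real.exp (-(η₂ / 2 * (k : ℝ))) *
            Real.exp ((k : ℝ) * (HS S s L + η₂)) := by
              rw [← Real.exp_add]
              apply Real.exp_le_exp.2
              rw [hh]
              nlinarith
        _ ≤ _ := mul_le_mul_of_nonneg_left hidx.le (Real.exp_pos _).le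
    have h9 : (Nat.card (AZ K L Z S s h n) : ℝ) * ((MS K S).index : ℝ) ≤
        ((Nat.card G : ℝ) * ρ) * ((MS K S).index : ℝ) := by
      calc _ ≤ _ := h4
        _ ≤ (Nat.card G : ℝ) * ((s₁ + 1) * (k : ℝ) + 1) ^ (Jm ^ 2) *
            (Real.exp (-(η₂ / 2 * (k : ℝ))) * ((MS K S).index : ℝ)) := by
            apply mul_le_mul _ h8 (Real.exp_pos _).le (by positivity)
            exact mul_le_mul_of_nonneg_left h5 hGpos.le
        _ = _ := by
            rw [hρ]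
            ring
    exact le_of_mul_le_mul_right h9 hidx0
  have hcardW : (W.card : ℝ) ≤ (s₁ + 1) * (k : ℝ) + 1 := by
    have h3 : W.card ≤ b + 1 := by
      rw [hWdef]
      exact le_trans (Finset.card_filter_le _ _) (by simp)
    have h4 : (W.card : ℝ) ≤ (b : ℝ) + 1 := by exact_mod_cast h3
    nlinarith
  have hρ0 : 0 ≤ ρ := by positivity
  have hρW : (W.card : ℝ) * ρ ≤ ηt / 16 := by
    calc (W.card : ℝ) * ρ ≤ ((s₁ + 1) * (k : ℝ) + 1) * ρ :=
          mul_le_mul_of_nonneg_right hcardW hρ0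
      _ = ((s₁ + 1) * (k : ℝ) + 1) ^ (Jm ^ 2 + 1) * Real.exp (-(η₂ / 2 * (k : ℝ))) := by
          rw [hρ, pow_succ]
          ring
      _ ≤ ηt / 16 := ek7
  have hsum2 : ∀ Z : Fin k → G, (∑ n ∈ W, (Nat.card (AZ K L Z S s h n) : ℝ)) /
      (Nat.card G : ℝ) ≤ ηt / 16 := by
    intro Z
    rw [div_le_iff₀ hGpos]
    calc _ ≤ ∑ n ∈ W, (Nat.card G : ℝ) * ρ := Finset.sum_le_sum fun n hn => hsize Z n hn
      _ = ((W.card : ℝ) * ρ) * (Nat.card G : ℝ) := by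
          rw [Finset.sum_const, nsmul_eq_mul]
          ring
      _ ≤ _ := mul_le_mul_of_nonneg_right hρW hGpos.le
  -- the bad words
  set bd : (Fin k → G) → ℕ → ℝ := fun Z n => (Nat.card {w : Fin n → Fin k //
      ¬ (∑ i, -Real.log (clsS S s L (cnt (fun i => (Z i : G ⧸ K)) w i)) ≤ (k : ℝ) * h)} : ℝ) /
        (k : ℝ) ^ n with hbd
  have hGK : (Nat.card G : ℝ) = (Nat.card K : ℝ) * (K.index : ℝ) := by
    rw [← Subgroup.card_mul_index K]
    push_cast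
    ring
  have hbad : ∀ n ∈ W, ∑ Z : Fin k → G, bd Z n ≤ (Nat.card G : ℝ) ^ k * (3 * (ηt / 16)) := by
    intro n hn
    have hkn : (0 : ℝ) < (k : ℝ) ^ n := by positivity
    have h3 := bad hO hT hL hP hC (G ⧸ K) k n L S s ε' η hkpos hs hε'0 (by linarith)
      (hWL n hn) hη0 (by linarith)
    rw [hJc] at h3
    have h4 := hPu G K k (Fin n → Fin k) (fun z w =>
      ¬ (∑ i, -Real.log (clsS S s L (cnt z w i)) ≤ (k : ℝ) * (HS S s L + η)))
    have h5 := UBasy.card_pairs (A := Fin k → G) (B := Fin n → Fin k) (fun Z w =>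
      ¬ (∑ i, -Real.log (clsS S s L (cnt (fun i => (Z i : G ⧸ K)) w i)) ≤
        (k : ℝ) * (HS S s L + η)))
    have h6 := lb_num k n K.index Jm s s₁ ε' η C₁ cw (Wf K.index s ε' k n) (ηt / 16) hkpos hJ
      hε'0 hs hss' (hWn1 n hn) hC₁ hcw1 (hWfB k hkW K.index hJ1 hJ s hss hss' n (hWn n hn))
      ek1 ek2 ek3
    calc ∑ Z : Fin k → G, bd Z n
        = (∑ Z : Fin k → G, (Nat.card {w : Fin n → Fin k //
      ¬ (∑ i, -Real.log (clsS S s L (cnt (fun i => (Z i : G ⧸ K)) w i)) ≤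
        (k : ℝ) * (HS S s L + η))} : ℝ)) / (k : ℝ) ^ n := by
          rw [Finset.sum_div]
      _ = (Nat.card K : ℝ) ^ k * (Nat.card {p : (Fin k → G ⧸ K) × (Fin n → Fin k) //
          ¬ (∑ i, -Real.log (clsS S s L (cnt p.1 p.2 i)) ≤ (k : ℝ) * (HS S s L + η))} : ℝ) /
            (k : ℝ) ^ n := by
          rw [← h5, h4]
          push_cast
          rfl
      _ ≤ _ := by
          rw [div_le_iff₀ hkn]
          refine le_trans (mul_le_mul_of_nonneg_left h3 (by positivity)) ?_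
          calc _ = (Nat.card G : ℝ) ^ k * (9 * (K.index : ℝ) * (n : ℝ) / (ε' * (k : ℝ)) ^ 2 +
                9 * (n : ℝ) ^ 2 / (ε' ^ 2 * (k : ℝ) ^ 3) +
                Wf K.index s ε' k n * Real.exp (-((k : ℝ) * η ^ 2 /
                (64 * (2 ^ K.index * Real.exp (2 * s)))))) * (k : ℝ) ^ n := by
                rw [hGK, mul_pow]
                ring
            _ ≤ _ := by
                apply mul_le_mul_of_nonneg_right _ hkn.le
                exact mul_le_mul_of_nonneg_left h6 (by positivity)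
  -- Poisson weights of the window
  have hexp5 : Real.exp (-(δ' ^ 2 * t / 4)) ≤ ηt / 16 := by
    refine le_trans (Real.exp_le_exp.2 ?_) (by simpa using ek5)
    apply neg_le_neg
    rw [ht]
    have : δ' ^ 2 * s₀ / 4 ≤ δ' ^ 2 * s / 4 := by
      have : 0 ≤ δ' ^ 2 := by positivity
      nlinarith
    calc δ' ^ 2 * s₀ / 4 * (k : ℝ) ≤ δ' ^ 2 * s / 4 * (k : ℝ) :=
          mul_le_mul_of_nonneg_right this hk0.le
      _ = _ := by ring
  have hexp6 : Real.exp (-(δ' ^ 2 * t / 8)) ≤ ηt / 16 := by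
    refine le_trans (Real.exp_le_exp.2 ?_) (by simpa using ek6)
    apply neg_le_neg
    rw [ht]
    have : δ' ^ 2 * s₀ / 8 ≤ δ' ^ 2 * s / 8 := by
      have : 0 ≤ δ' ^ 2 := by positivity
      nlinarith
    calc δ' ^ 2 * s₀ / 8 * (k : ℝ) ≤ δ' ^ 2 * s / 8 * (k : ℝ) :=
          mul_le_mul_of_nonneg_right this hk0.le
      _ = _ := by ring
  have hδs : δ' * s ≤ ε' := le_trans (mul_le_mul_of_nonneg_left hss' hδ'0.le) hδ's
  have hpa : ∑ n ∈ Finset.range a, pois t n ≤ ηt / 16 := by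
    refine le_trans (hP1 t δ' a ht0 hδ'0.le hδ'1 ?_) hexp5
    by_cases hneg : 0 ≤ (s - ε') * (k : ℝ)
    · have h3 := Nat.ceil_lt_add_one hneg
      rw [← ha] at h3
      rw [ht]
      nlinarith
    · have h3 : a = 0 := by
        rw [ha]
        exact Nat.ceil_eq_zero.2 (not_le.1 hneg).le
      rw [h3]
      have : 0 ≤ (1 - δ') * t := mul_nonneg (by linarith) ht0
      push_cast
      linarith
  have hpb : 1 - ηt / 16 ≤ ∑ n ∈ Finset.range (b + 1), pois t n := by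
    have h3 := hP2 t δ' b ht0 hδ'0.le hδ'1 (by
      have h4 := Nat.lt_floor_add_one ((s + ε') * (k : ℝ))
      rw [← hb] at h4
      rw [ht]
      nlinarith)
    linarith
  have hpW : 1 - ηt / 8 ≤ ∑ n ∈ W, pois t n := by
    have h3 : ∑ n ∈ Finset.range (b + 1), pois t n = ∑ n ∈ W, pois t n +
        ∑ n ∈ (Finset.range (b + 1)).filter (fun n => ¬ a ≤ n), pois t n := by
      rw [hWdef, Finset.sum_filter_add_sum_filter_not]
    have h4 : ∑ n ∈ (Finset.range (b + 1)).filter (fun n => ¬ a ≤ n), pois t n ≤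
        ∑ n ∈ Finset.range a, pois t n := by
      apply Finset.sum_le_sum_of_subset_of_nonneg
      · intro n hn
        rw [Finset.mem_filter] at hn
        rw [Finset.mem_range]
        omega
      · intro n _ _
        exact hpt n
    linarith
  have hpW1 : ∑ n ∈ W, pois t n ≤ 1 := by
    calc ∑ n ∈ W, pois t n ≤ ∑ n ∈ Finset.range (b + 1), pois t n :=
          Finset.sum_le_sum_of_subset_of_nonneg (Finset.filter_subset _ _)
            (fun n _ _ => hpt n)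
      _ = Real.exp (-t) * ∑ n ∈ Finset.range (b + 1), t ^ n / (n.factorial : ℝ) := by
          rw [Finset.mul_sum]
          apply Finset.sum_congr rfl
          intro n _
          unfold pois
          ring
      _ ≤ Real.exp (-t) * Real.exp t :=
          mul_le_mul_of_nonneg_left (Real.sum_le_exp_of_nonneg ht0 _) (Real.exp_pos _).le
      _ = 1 := by
          rw [← Real.exp_add]
          simp
  -- conclusion
  have hZ : ∀ Z : Fin k → G, ∑ n ∈ W, pois t n * (1 - bd Z n) - ηt / 16 ≤ dTV Z t := by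
    intro Z
    have h3 := hLB G k Z t W (fun n => AZ K L Z S s h n) hkpos ht0
    have h4 : ∑ n ∈ W, pois t n * (1 - bd Z n) ≤ ∑ n ∈ W, pois t n * ∑ g : G,
        (if g ∈ AZ K L Z S s h n then stepLaw Z n g else 0) := by
      apply Finset.sum_le_sum
      intro n _
      exact mul_le_mul_of_nonneg_left (mass K L Z S s h n hkpos) (hpt n)
    have h5 := hsum2 Z
    have h6 : ∑ n ∈ W, pois t n * ∑ g : G,
        (if g ∈ AZ K L Z S s h n then stepLaw Z n g else 0) -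
        (∑ n ∈ W, (Nat.card (AZ K L Z S s h n) : ℝ)) / (Nat.card G : ℝ) ≤ dTV Z t := by
      convert h3 using 2
    linarith
  have hcardZ : (Fintype.card (Fin k → G) : ℝ) = (Nat.card G : ℝ) ^ k := by
    rw [Fintype.card_fun, Fintype.card_fin, Nat.card_eq_fintype_card]
    push_cast
    rfl
  have hGk : (0 : ℝ) < (Nat.card G : ℝ) ^ k := by positivity
  calc (1 - ηt) * (Nat.card G : ℝ) ^ k
      ≤ (∑ n ∈ W, pois t n) * (Nat.card G : ℝ) ^ k -
          (∑ n ∈ W, pois t n) * ((Nat.card G : ℝ) ^ k * (3 * (ηt / 16))) -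
          ηt / 16 * (Nat.card G : ℝ) ^ k := by
        have h3 : (∑ n ∈ W, pois t n) * ((Nat.card G : ℝ) ^ k * (3 * (ηt / 16))) ≤
            1 * ((Nat.card G : ℝ) ^ k * (3 * (ηt / 16))) :=
          mul_le_mul_of_nonneg_right hpW1 (by positivity)
        have h4 : (1 - ηt / 8) * (Nat.card G : ℝ) ^ k ≤
            (∑ n ∈ W, pois t n) * (Nat.card G : ℝ) ^ k :=
          mul_le_mul_of_nonneg_right hpW hGk.le
        nlinarith
    _ ≤ ∑ n ∈ W, pois t n * ((Nat.card G : ℝ) ^ k - ∑ Z : Fin k → G, bd Z n) -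
          ηt / 16 * (Nat.card G : ℝ) ^ k := by
        have h3 : (∑ n ∈ W, pois t n) * (Nat.card G : ℝ) ^ k -
          (∑ n ∈ W, pois t n) * ((Nat.card G : ℝ) ^ k * (3 * (ηt / 16))) =
          ∑ n ∈ W, pois t n * ((Nat.card G : ℝ) ^ k - (Nat.card G : ℝ) ^ k *
            (3 * (ηt / 16))) := by
          rw [← Finset.sum_mul]
          ring
        rw [h3]
        apply sub_le_sub_right
        apply Finset.sum_le_sum
        intro n hn
        apply mul_le_mul_of_nonneg_left _ (hpt n)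
        linarith [hbad n hn]
    _ = ∑ Z : Fin k → G, (∑ n ∈ W, pois t n * (1 - bd Z n) - ηt / 16) := by
        rw [Finset.sum_sub_distrib, Finset.sum_const, Finset.card_univ, nsmul_eq_mul, hcardZ,
          Finset.sum_comm, mul_comm (ηt / 16)]
        congr 1
        apply Finset.sum_congr rfl
        intro n _
        rw [← Finset.mul_sum, Finset.sum_sub_distrib, Finset.sum_const, Finset.card_univ,
          nsmul_eq_mul, hcardZ, mul_one]
    _ ≤ ∑ Z : Fin k → G, dTV Z t := Finset.sum_le_sum fun Z _ => hZ Z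

end NilCut
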