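import Pool.Agent.Lib.MP_4ddf81_pr.Stm2
import Pool.Agent.Lib.MP_4ddf81_pr.P.T3

set_option autoImplicit false

namespace NilCut

open Finset in
theorem p_LBtv : S_LBtv := by
  classical
  intro G _ _ k Z t W A0 hk ht
  have hfin : ∀ n, (A0 n).Finite := fun n => Set.toFinite _
  set A : Finset G := W.biUnion (fun n => (hfin n).toFinset) with hA
  have hcard : (A.card : ℝ) ≤ ∑ n ∈ W, (Nat.card (A0 n) : ℝ) := by
    have h1 : A.card ≤ ∑ n ∈ W, ((hfin n).toFinset).card := card_biUnion_le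
    have h2 : ∀ n, Nat.card (A0 n) = ((hfin n).toFinset).card :=
      fun n => Nat.card_eq_card_finite_toFinset (hfin n)
    have h3 : ((A.card : ℕ) : ℝ) ≤ ((∑ n ∈ W, ((hfin n).toFinset).card : ℕ) : ℝ) := by
      exact_mod_cast h1
    refine h3.trans (le_of_eq ?_)
    push_cast
    exact sum_congr rfl fun n _ => by rw [h2]
  have hN : (0 : ℝ) < (Nat.card G : ℝ) := by
    have := Nat.card_pos (α := G)
    exact_mod_cast this
  have h1 : ∑ n ∈ W, pois t n * ∑ g : G, (if g ∈ A0 n then stepLaw Z n g else 0) ≤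
      ∑ g ∈ A, law Z t g := by
    rw [T3.sum_law hk Z ht A]
    have hs : Summable (fun i => pois t i * ∑ g ∈ A, stepLaw Z i g) := by
      simp only [Finset.mul_sum]
      exact summable_sum (fun g _ => T3.summable_law hk Z ht g)
    have h2 := hs.sum_le_tsum W (fun i _ =>
      mul_nonneg (T3.pois_nonneg ht i) (Finset.sum_nonneg fun g _ => T3.stepLaw_nonneg Z i g))
    refine le_trans ?_ h2
    refine Finset.sum_le_sum fun n hn => ?_
    refine mul_le_mul_of_nonneg_left ?_ (T3.pois_nonneg ht n)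
    rw [← sum_filter]
    refine sum_le_sum_of_subset_of_nonneg ?_ (fun g _ _ => T3.stepLaw_nonneg Z n g)
    intro g hg
    rw [hA, mem_biUnion]
    exact ⟨n, hn, by rw [Set.Finite.mem_toFinset]; exact (mem_filter.1 hg).2⟩
  have h3 : ∑ g : G, law Z t g = 1 := by
    rw [T3.sum_law hk Z ht univ]
    have : (fun i => pois t i * ∑ g : G, stepLaw Z i g) = pois t := by
      funext i
      rw [T3.sum_stepLaw hk Z i univ (fun _ => mem_univ _), mul_one]
    rw [this]
    exact (T3.pois_hasSum t).tsum_eq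
  have h4 : ∑ g : G, (law Z t g - 1 / (Nat.card G : ℝ)) = 0 := by
    rw [Finset.sum_sub_distrib, h3, Finset.sum_const, card_univ, nsmul_eq_mul,
      ← Nat.card_eq_fintype_card]
    field_simp
    ring
  have h5 : ∑ g ∈ A, (law Z t g - 1 / (Nat.card G : ℝ)) =
      ∑ g ∈ A, law Z t g - (A.card : ℝ) / (Nat.card G : ℝ) := by
    rw [Finset.sum_sub_distrib, Finset.sum_const, nsmul_eq_mul]
    ring
  have h6 : ∑ g ∈ A, (law Z t g - 1 / (Nat.card G : ℝ)) ≤ dTV Z t := by
    unfold dTV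
    have h7 := Finset.sum_add_sum_compl A (fun g => law Z t g - 1 / (Nat.card G : ℝ))
    have h8 := Finset.sum_add_sum_compl A (fun g => |law Z t g - 1 / (Nat.card G : ℝ)|)
    rw [h4] at h7
    rw [← h8]
    have h9 : ∑ g ∈ A, (law Z t g - 1 / (Nat.card G : ℝ)) ≤
        ∑ g ∈ A, |law Z t g - 1 / (Nat.card G : ℝ)| :=
      Finset.sum_le_sum fun g _ => le_abs_self _
    have h10 : -∑ g ∈ Aᶜ, (law Z t g - 1 / (Nat.card G : ℝ)) ≤
        ∑ g ∈ Aᶜ, |law Z t g - 1 / (Nat.card G : ℝ)| := by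
      rw [← Finset.sum_neg_distrib]
      exact Finset.sum_le_sum fun g _ => neg_le_abs _
    linarith
  have h7 : (A.card : ℝ) / (Nat.card G : ℝ) ≤
      (∑ n ∈ W, (Nat.card (A0 n) : ℝ)) / (Nat.card G : ℝ) :=
    div_le_div_of_nonneg_right hcard hN.le
  have h8 : (∑ n ∈ W, pois t n * ∑ g : G, (open Classical in if g ∈ A0 n then stepLaw Z n g else 0))
      = ∑ n ∈ W, pois t n * ∑ g : G, (if g ∈ A0 n then stepLaw Z n g else 0) := by
    refine sum_congr rfl fun n _ => ?_
    congr 1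
  rw [h8]
  linarith

end NilCut
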