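import Pool.Agent.Lib.MP_4ddf81_pr.P2.LDT2

/-!
# MP_4ddf81_pr, stage 2 : LDL (upper deviations of the information content)
-/

namespace NilCut

namespace LDLx

/-- `exp t ≤ 1 + t + t² exp t`. -/
theorem exp_le (t : ℝ) (ht : 0 ≤ t) : Real.exp t ≤ 1 + t + t ^ 2 * Real.exp t := by
  have h1 : 1 - t ≤ Real.exp (-t) := by linarith [Real.add_one_le_exp (-t)]
  have h2 : (1 - t) * Real.exp t ≤ 1 := by
    have h3 := mul_le_mul_of_nonneg_right h1 (Real.exp_pos t).le
    rwa [← Real.exp_add, neg_add_cancel, Real.exp_zero] at h3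
  have h4 := mul_le_mul_of_nonneg_left h2 (show (0 : ℝ) ≤ 1 + t by linarith)
  nlinarith

/-- `t² ≤ exp t`. -/
theorem sq_le_exp (t : ℝ) (ht : 0 ≤ t) : t ^ 2 ≤ Real.exp t := by
  have h1 := Real.quadratic_le_exp_of_nonneg (x := t / 2) (by linarith)
  have h2 : t ≤ Real.exp (t / 2) := by nlinarith [sq_nonneg (t - 2)]
  have h3 : Real.exp t = Real.exp (t / 2) ^ 2 := by
    rw [← Real.exp_nat_mul]
    congr 1
    push_cast
    ring
  rw [h3]
  exact pow_le_pow_left₀ ht h2 2

end LDLx

open LDT2 LDLx in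
theorem p_LDL : S_LDL := by
  classical
  intro α X p c C η k hp0 hp1 hc hC hsq hη hηC
  set H : ℝ := ∑ x ∈ X, p x * (-Real.log (c x)) with hH
  set θ : ℝ := η / (32 * C) with hθ
  have hθ0 : 0 < θ := by positivity
  have hθ4 : θ ≤ 1 / 4 := by
    rw [hθ, div_le_iff₀ (by positivity)]
    linarith
  have hple : ∀ x ∈ X, p x ≤ 1 := fun x hx => (hc x hx).1.trans (hc x hx).2
  have h1 := chernoff X p (fun x => θ * (-Real.log (c x))) k (θ * (k * (H + η)))
    (fun N => (k : ℝ) * (H + η) ≤ ∑ i, -Real.log (c (N i))) (fun x hx => (hp0 x hx).le)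
    (by
      intro N hN
      rw [← Finset.mul_sum]
      exact mul_le_mul_of_nonneg_left hN hθ0.le)
  refine h1.trans ?_
  have h2 : ∑ x ∈ X, p x * Real.exp (θ * (-Real.log (c x))) ≤
      Real.exp (θ * H + 16 * θ ^ 2 * C) := by
    have h3 : ∀ x ∈ X, p x * Real.exp (θ * (-Real.log (c x))) ≤
        p x + θ * (p x * (-Real.log (c x))) + 16 * θ ^ 2 * Real.sqrt (p x) := by
      intro x hx
      have hcx : 0 < c x := (hp0 x hx).trans_le (hc x hx).1
      have hY0 : 0 ≤ -Real.log (c x) := by
        have := Real.log_nonpos hcx.le (hc x hx).2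
        linarith
      have hYy : -Real.log (c x) ≤ -Real.log (p x) := by
        have := Real.log_le_log (hp0 x hx) (hc x hx).1
        linarith
      have h4 := exp_le (θ * (-Real.log (c x))) (by positivity)
      have h7 := mul_le_mul_of_nonneg_left h4 (hp0 x hx).le
      have h6 : (-Real.log (c x)) ^ 2 ≤ 16 * Real.exp ((-Real.log (p x)) / 4) := by
        have h8 := sq_le_exp ((-Real.log (p x)) / 4) (by linarith)
        have h9 : (-Real.log (c x)) ^ 2 ≤ (-Real.log (p x)) ^ 2 :=
          pow_le_pow_left₀ hY0 hYy 2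
        nlinarith
      have h5 : Real.exp (θ * (-Real.log (c x))) ≤ Real.exp ((-Real.log (p x)) / 4) := by
        refine Real.exp_le_exp.2 ?_
        have h8 : θ * (-Real.log (c x)) ≤ (1 / 4) * (-Real.log (p x)) :=
          mul_le_mul hθ4 hYy hY0 (by norm_num)
        linarith
      have h8 : p x * ((-Real.log (c x)) ^ 2 * Real.exp (θ * (-Real.log (c x)))) ≤
          16 * Real.sqrt (p x) := by
        have h9 : (-Real.log (c x)) ^ 2 * Real.exp (θ * (-Real.log (c x))) ≤
            16 * Real.exp ((-Real.log (p x)) / 4) * Real.exp ((-Real.log (p x)) / 4) :=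
          mul_le_mul h6 h5 (Real.exp_pos _).le (by positivity)
        have h10 := mul_le_mul_of_nonneg_left h9 (hp0 x hx).le
        refine h10.trans (le_of_eq ?_)
        have h11 : p x * (16 * Real.exp ((-Real.log (p x)) / 4) *
            Real.exp ((-Real.log (p x)) / 4)) = 16 * (Real.exp (-(-Real.log (p x))) *
              (Real.exp ((-Real.log (p x)) / 4) * Real.exp ((-Real.log (p x)) / 4))) := by
          rw [← eq_exp (p x) (hp0 x hx)]
          ring
        rw [h11, ← Real.exp_add, ← Real.exp_add, sqrt_exp (p x) (hp0 x hx)]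
        congr 2
        ring
      have h12 : θ ^ 2 * (p x * ((-Real.log (c x)) ^ 2 * Real.exp (θ * (-Real.log (c x))))) ≤
          θ ^ 2 * (16 * Real.sqrt (p x)) := mul_le_mul_of_nonneg_left h8 (by positivity)
      refine h7.trans ?_
      have h9 : p x * (1 + θ * (-Real.log (c x)) + (θ * (-Real.log (c x))) ^ 2 *
          Real.exp (θ * (-Real.log (c x)))) =
          p x + θ * (p x * (-Real.log (c x))) + θ ^ 2 * (p x * ((-Real.log (c x)) ^ 2 *
            Real.exp (θ * (-Real.log (c x))))) := by ring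
      rw [h9]
      linarith
    have h4 := Finset.sum_le_sum h3
    rw [Finset.sum_add_distrib, Finset.sum_add_distrib, ← Finset.mul_sum, ← Finset.mul_sum]
      at h4
    have h5 : 16 * θ ^ 2 * ∑ x ∈ X, Real.sqrt (p x) ≤ 16 * θ ^ 2 * C :=
      mul_le_mul_of_nonneg_left hsq (by positivity)
    have h6 := Real.add_one_le_exp (θ * H + 16 * θ ^ 2 * C)
    rw [← hH] at h4
    linarith
  have h3 : 0 ≤ ∑ x ∈ X, p x * Real.exp (θ * (-Real.log (c x))) :=
    Finset.sum_nonneg fun x hx => mul_nonneg (hp0 x hx).le (Real.exp_pos _).le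
  calc Real.exp (-(θ * (k * (H + η)))) *
        (∑ x ∈ X, p x * Real.exp (θ * (-Real.log (c x)))) ^ k
      ≤ Real.exp (-(θ * (k * (H + η)))) * (Real.exp (θ * H + 16 * θ ^ 2 * C)) ^ k :=
        mul_le_mul_of_nonneg_left (pow_le_pow_left₀ h3 h2 k) (Real.exp_pos _).le
    _ = Real.exp (-((k : ℝ) * η ^ 2 / (64 * C))) := by
        rw [← Real.exp_nat_mul, ← Real.exp_add]
        congr 1
        rw [hθ]
        field_simp
        ring

end NilCut
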