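import Pool.Agent.Lib.MP_4ddf81_pr.P2.LDT2

/-!
# MP_4ddf81_pr, stage 2 : LDPair (families which are equivalent to a given one)
-/

namespace NilCut

namespace LDPair

open Classical in
theorem card_eq (k : ℕ) (P : Fin k → Prop) :
    (Nat.card {i : Fin k // P i} : ℝ) = ∑ i, if P i then (1 : ℝ) else 0 := by
  rw [Finset.sum_boole, Nat.card_eq_fintype_card, Fintype.card_subtype]

/-- One factor. -/
theorem factor (c θ R' : ℝ) (hc : 0 < c) (hθ : 0 < θ) :
    c + θ ≤ Real.exp (Real.log c + max (-Real.log c - R') 0 + θ * Real.exp R') := by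
  have h1 : 1 + θ * Real.exp R' ≤ Real.exp (θ * Real.exp R') := by
    linarith [Real.add_one_le_exp (θ * Real.exp R')]
  rcases le_total (-Real.log c - R') 0 with h | h
  · rw [max_eq_right h, add_zero, Real.exp_add, Real.exp_log hc]
    have h2 : 1 ≤ Real.exp R' * c := by
      have h3 : Real.exp R' * c = Real.exp (R' + Real.log c) := by
        rw [Real.exp_add, Real.exp_log hc]
      rw [h3, ← Real.exp_zero]
      exact Real.exp_le_exp.2 (by linarith)
    have h4 : θ ≤ θ * (Real.exp R' * c) := le_mul_of_one_le_right hθ.le h2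
    calc c + θ ≤ c * (1 + θ * Real.exp R') := by linarith
      _ ≤ _ := mul_le_mul_of_nonneg_left h1 hc.le
  · rw [max_eq_left h]
    have h2 : Real.log c + (-Real.log c - R') + θ * Real.exp R' = -R' + θ * Real.exp R' := by
      ring
    rw [h2, Real.exp_add]
    have h3 : c ≤ Real.exp (-R') := by
      rw [← Real.exp_log hc]
      exact Real.exp_le_exp.2 (by linarith)
    have h4 : Real.exp (-R') * (1 + θ * Real.exp R') = Real.exp (-R') + θ := by
      have h5 : Real.exp (-R') * Real.exp R' = 1 := by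
        rw [← Real.exp_add, neg_add_cancel, Real.exp_zero]
      calc Real.exp (-R') * (1 + θ * Real.exp R') =
          Real.exp (-R') + θ * (Real.exp (-R') * Real.exp R') := by ring
        _ = _ := by rw [h5, mul_one]
    calc c + θ ≤ Real.exp (-R') * (1 + θ * Real.exp R') := by linarith
      _ ≤ _ := mul_le_mul_of_nonneg_left h1 (Real.exp_pos _).le

end LDPair

open LDPair in
theorem p_LDPair : S_LDPair := by
  classical
  intro α X p c r k y R' θ a hp0 hp1 hy hc hcpos hθ hθ1 ha hR'
  set ℓ : ℝ := Real.log (1 / θ) with hℓ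
  have hℓe : Real.exp (-ℓ) = θ := by
    rw [hℓ, one_div, Real.log_inv, neg_neg, Real.exp_log hθ]
  have hℓ0 : 0 ≤ ℓ := by
    rw [hℓ]
    exact Real.log_nonneg (by rw [le_div_iff₀ hθ]; linarith)
  set w : Fin k → α → ℝ := fun i x => if ¬ r x (y i) then (1 : ℝ) else 0 with hw
  have h1 : ∏ i : Fin k, ∑ x ∈ X, p x * Real.exp (-(ℓ * w i x)) =
      ∑ N ∈ (Fintype.piFinset fun _ : Fin k => X), ∏ i, (p (N i) * Real.exp (-(ℓ * w i (N i)))) :=
    Finset.prod_univ_sum (fun _ : Fin k => X)
      (fun (i : Fin k) (x : α) => p x * Real.exp (-(ℓ * w i x)))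
  have hstep : ∑ N ∈ (Fintype.piFinset fun _ : Fin k => X).filter (fun N =>
      (Nat.card {i : Fin k // ¬ r (N i) (y i)} : ℝ) ≤ a * (k : ℝ)), ∏ i, p (N i) ≤
      Real.exp (a * k * ℓ) * ∏ i : Fin k, ∑ x ∈ X, p x * Real.exp (-(ℓ * w i x)) := by
    rw [h1, Finset.mul_sum]
    have hnn : ∀ N ∈ (Fintype.piFinset fun _ : Fin k => X), 0 ≤ ∏ i, p (N i) := by
      intro N hN
      refine Finset.prod_nonneg fun i _ => (hp0 _ ?_).le
      exact Fintype.mem_piFinset.1 hN i
    refine le_trans (Finset.sum_le_sum (g := fun N : Fin k → α =>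
      Real.exp (a * k * ℓ) * ∏ i, (p (N i) * Real.exp (-(ℓ * w i (N i))))) ?_) ?_
    · intro N hN
      obtain ⟨hN1, hN2⟩ := Finset.mem_filter.1 hN
      rw [card_eq] at hN2
      have h2 : Real.exp (a * k * ℓ) * ∏ i, (p (N i) * Real.exp (-(ℓ * w i (N i)))) =
          (∏ i, p (N i)) * Real.exp (a * k * ℓ - ℓ * ∑ i, w i (N i)) := by
        rw [Finset.prod_mul_distrib, ← Real.exp_sum, Finset.sum_neg_distrib, ← Finset.mul_sum,
          sub_eq_add_neg, Real.exp_add]
        ring
      rw [h2]
      refine le_mul_of_one_le_right (hnn N hN1) ?_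
      rw [← Real.exp_zero]
      refine Real.exp_le_exp.2 ?_
      have hN3 : ∑ i, w i (N i) ≤ a * k := by
        refine le_trans (le_of_eq (Finset.sum_congr rfl fun i _ => ?_)) hN2
        simp only [hw]
        congr
      have h3 : ℓ * ∑ i, w i (N i) ≤ ℓ * (a * k) := mul_le_mul_of_nonneg_left hN3 hℓ0
      linarith
    · refine Finset.sum_le_sum_of_subset_of_nonneg (Finset.filter_subset _ _) ?_
      intro N hN _
      refine mul_nonneg (Real.exp_pos _).le (Finset.prod_nonneg fun i _ => ?_)
      exact mul_nonneg (hp0 _ (Fintype.mem_piFinset.1 hN i)).le (Real.exp_pos _).le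
  refine hstep.trans ?_
  have hfac : ∀ i : Fin k, ∑ x ∈ X, p x * Real.exp (-(ℓ * w i x)) ≤
      Real.exp (Real.log (c (y i)) + max (-Real.log (c (y i)) - R') 0 + θ * Real.exp R') := by
    intro i
    refine le_trans ?_ (factor (c (y i)) θ R' (hcpos i) hθ)
    have h3 : ∀ x ∈ X, p x * Real.exp (-(ℓ * w i x)) ≤
        (if r x (y i) then p x else 0) + θ * p x := by
      intro x hx
      have hpx := hp0 x hx
      rw [hw]
      by_cases h : r x (y i)
      · simp only [h, not_true_eq_false, if_false, mul_zero, neg_zero, Real.exp_zero, mul_one,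
          if_true]
        have : 0 ≤ θ * p x := by positivity
        linarith
      · simp only [h, not_false_eq_true, if_true, mul_one, if_false, hℓe]
        linarith [mul_comm (p x) θ]
    have h4 := Finset.sum_le_sum h3
    rw [Finset.sum_add_distrib, ← Finset.mul_sum, ← Finset.sum_filter, ← hc i] at h4
    have h5 : θ * ∑ x ∈ X, p x ≤ θ * 1 := mul_le_mul_of_nonneg_left hp1 hθ.le
    linarith
  have hprod : ∏ i : Fin k, ∑ x ∈ X, p x * Real.exp (-(ℓ * w i x)) ≤
      ∏ i : Fin k, Real.exp (Real.log (c (y i)) + max (-Real.log (c (y i)) - R') 0 +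
        θ * Real.exp R') := by
    refine Finset.prod_le_prod (fun i _ => ?_) (fun i _ => hfac i)
    exact Finset.sum_nonneg fun x hx => mul_nonneg (hp0 x hx).le (Real.exp_pos _).le
  refine (mul_le_mul_of_nonneg_left hprod (Real.exp_pos _).le).trans (le_of_eq ?_)
  rw [← Real.exp_sum, ← Real.exp_add]
  congr 1
  rw [Finset.sum_add_distrib, Finset.sum_add_distrib, Finset.sum_const, Finset.card_univ,
    Fintype.card_fin, nsmul_eq_mul]
  ring

end NilCut
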