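import Pool.Agent.Lib.MP_4ddf81_pr.P2.LDT2

/-!
# MP_4ddf81_pr, stage 2 : LDT3 (the tails)
-/

namespace NilCut

open LDT2 in
theorem p_LDT3 : S_LDT3 := by
  classical
  intro α X p C η R' k hp0 hp1 hC hsq
  have h1 := chernoff X p (fun x => max (-Real.log (p x) - R') 0 / 2) k (η * k / 2)
    (fun N => η * (k : ℝ) < ∑ i, max (-Real.log (p (N i)) - R') 0) (fun x hx => (hp0 x hx).le)
    (by
      intro N hN
      rw [← Finset.sum_div]
      have hN' : η * (k : ℝ) < ∑ i, max (-Real.log (p (N i)) - R') 0 := hN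
      linarith)
  refine h1.trans ?_
  have h2 : ∑ x ∈ X, p x * Real.exp (max (-Real.log (p x) - R') 0 / 2) ≤
      Real.exp (C * Real.exp (-(R' / 2))) := by
    have h3 : ∀ x ∈ X, p x * Real.exp (max (-Real.log (p x) - R') 0 / 2) ≤
        p x + Real.exp (-(R' / 2)) * Real.sqrt (p x) := by
      intro x hx
      have hpx := hp0 x hx
      have hs : 0 ≤ Real.exp (-(R' / 2)) * Real.sqrt (p x) := by positivity
      rcases le_total (-Real.log (p x) - R') 0 with h | h
      · rw [max_eq_right h]
        simp only [zero_div, Real.exp_zero, mul_one]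
        linarith
      · rw [max_eq_left h]
        have h4 : p x * Real.exp ((-Real.log (p x) - R') / 2) =
            Real.exp (-(R' / 2)) * Real.sqrt (p x) := by
          have h5 : p x * Real.exp ((-Real.log (p x) - R') / 2) =
              Real.exp (-(-Real.log (p x))) * Real.exp ((-Real.log (p x) - R') / 2) := by
            rw [← eq_exp (p x) hpx]
          rw [h5, sqrt_exp (p x) hpx, ← Real.exp_add, ← Real.exp_add]
          congr 1
          ring
        rw [h4]
        linarith
    have h4 := Finset.sum_le_sum h3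
    rw [Finset.sum_add_distrib, ← Finset.mul_sum] at h4
    have h5 : Real.exp (-(R' / 2)) * ∑ x ∈ X, Real.sqrt (p x) ≤ Real.exp (-(R' / 2)) * C :=
      mul_le_mul_of_nonneg_left hsq (Real.exp_pos _).le
    have h6 := Real.add_one_le_exp (C * Real.exp (-(R' / 2)))
    linarith [mul_comm C (Real.exp (-(R' / 2)))]
  have h3 : 0 ≤ ∑ x ∈ X, p x * Real.exp (max (-Real.log (p x) - R') 0 / 2) :=
    Finset.sum_nonneg fun x hx => mul_nonneg (hp0 x hx).le (Real.exp_pos _).le
  calc Real.exp (-(η * k / 2)) *
        (∑ x ∈ X, p x * Real.exp (max (-Real.log (p x) - R') 0 / 2)) ^ k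
      ≤ Real.exp (-(η * k / 2)) * (Real.exp (C * Real.exp (-(R' / 2)))) ^ k :=
        mul_le_mul_of_nonneg_left (pow_le_pow_left₀ h3 h2 k) (Real.exp_pos _).le
    _ = Real.exp (-((k : ℝ) * (η / 2 - C * Real.exp (-(R' / 2))))) := by
        rw [← Real.exp_nat_mul, ← Real.exp_add]
        congr 1
        ring

end NilCut
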