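import Pool.Agent.Lib.MP_4ddf81_pr.P2.LDT2

/-!
# MP_4ddf81_pr, stage 2 : LDT4 (the number of the indices in a set of small weight)
-/

namespace NilCut

namespace LDT4

open Classical in
theorem card_eq {β : Type} (k : ℕ) (f : Fin k → β) (Bd : β → Prop) :
    (Nat.card {i : Fin k // Bd (f i)} : ℝ) = ∑ i, if Bd (f i) then (1 : ℝ) else 0 := by
  rw [Finset.sum_boole, Nat.card_eq_fintype_card, Fintype.card_subtype]

end LDT4

open LDT2 LDT4 in
theorem p_LDT4 : S_LDT4 := by
  classical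
  intro α X p Bd a k hp0 hp1
  have h1 := chernoff X p (fun x => if Bd x then (1 : ℝ) else 0) k (a * k)
    (fun N => a * (k : ℝ) < (Nat.card {i : Fin k // Bd (N i)} : ℝ)) (fun x hx => (hp0 x hx).le)
    (by
      intro N hN
      have hN' : a * (k : ℝ) < (Nat.card {i : Fin k // Bd (N i)} : ℝ) := hN
      rw [card_eq] at hN'
      exact hN'.le)
  refine h1.trans ?_
  have hnn : 0 ≤ ∑ x ∈ X.filter Bd, p x :=
    Finset.sum_nonneg fun x hx => (hp0 x (Finset.mem_filter.1 hx).1).le
  have h2 : ∑ x ∈ X, p x * Real.exp (if Bd x then (1 : ℝ) else 0) ≤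
      Real.exp (2 * ∑ x ∈ X.filter Bd, p x) := by
    have h3 : ∀ x ∈ X, p x * Real.exp (if Bd x then (1 : ℝ) else 0) ≤
        p x + 2 * (if Bd x then p x else 0) := by
      intro x hx
      have hpx := hp0 x hx
      split_ifs with h
      · have h4 : Real.exp 1 ≤ 3 := by linarith [Real.exp_one_lt_d9]
        nlinarith
      · simp
    have h4 := Finset.sum_le_sum h3
    rw [Finset.sum_add_distrib, ← Finset.mul_sum, ← Finset.sum_filter] at h4
    have h6 := Real.add_one_le_exp (2 * ∑ x ∈ X.filter Bd, p x)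
    linarith
  have h3 : 0 ≤ ∑ x ∈ X, p x * Real.exp (if Bd x then (1 : ℝ) else 0) :=
    Finset.sum_nonneg fun x hx => mul_nonneg (hp0 x hx).le (Real.exp_pos _).le
  calc Real.exp (-(a * k)) * (∑ x ∈ X, p x * Real.exp (if Bd x then (1 : ℝ) else 0)) ^ k
      ≤ Real.exp (-(a * k)) * (Real.exp (2 * ∑ x ∈ X.filter Bd, p x)) ^ k :=
        mul_le_mul_of_nonneg_left (pow_le_pow_left₀ h3 h2 k) (Real.exp_pos _).le
    _ = Real.exp (-((k : ℝ) * (a - 2 * ∑ x ∈ X.filter Bd, p x))) := by
        rw [← Real.exp_nat_mul, ← Real.exp_add]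
        congr 1
        ring

end NilCut
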