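import Pool.Agent.Lib.MP_4ddf81_pr.Stm2

/-!
# MP_4ddf81_pr, stage 2 : piece LowSum (the characters of small degree, typical words), helper92
-/

namespace NilCut

namespace LowSum

open Classical in
theorem wlaw_eq {G : Type} [Group G] {k n : ℕ} (Z : Fin k → G) (A : Set (Fin n → Fin k)) (g : G) :
    wlaw Z A g = (∑ w : Fin n → Fin k, if w ∈ A ∧ wprod Z w = g then (1 : ℝ) else 0) /
      (k : ℝ) ^ n := by
  unfold wlaw
  congr 1
  rw [Nat.card_eq_fintype_card, Fintype.card_subtype, Finset.sum_boole]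

open Classical in
theorem sum_wlaw {G : Type} [Group G] [Fintype G] {k n : ℕ} (Z : Fin k → G)
    (A : Set (Fin n → Fin k)) (F : G → ℂ) :
    ∑ a : G, ((wlaw Z A a : ℝ) : ℂ) * F a =
      (1 / (k : ℂ) ^ n) * ∑ w : Fin n → Fin k, if w ∈ A then F (wprod Z w) else 0 := by
  have h1 : ∀ a : G, ((wlaw Z A a : ℝ) : ℂ) * F a =
      (1 / (k : ℂ) ^ n) * ∑ w : Fin n → Fin k,
        (if w ∈ A ∧ wprod Z w = a then (1 : ℂ) else 0) * F a := by
    intro a
    have h0 : (((∑ w : Fin n → Fin k, if w ∈ A ∧ wprod Z w = a then (1 : ℝ) else 0) : ℝ) : ℂ) =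
        ∑ w : Fin n → Fin k, if w ∈ A ∧ wprod Z w = a then (1 : ℂ) else 0 := by
      rw [Complex.ofReal_sum]
      apply Finset.sum_congr rfl
      intro w _
      split_ifs <;> simp
    rw [wlaw_eq, ← Finset.sum_mul, Complex.ofReal_div, h0]
    push_cast
    ring
  rw [Finset.sum_congr rfl fun a _ => h1 a, ← Finset.mul_sum, Finset.sum_comm]
  congr 1
  apply Finset.sum_congr rfl
  intro w _
  by_cases hw : w ∈ A
  · simp [hw]
  · simp [hw]

open Classical in
theorem QF_wlaw {G : Type} [Group G] [Fintype G] {k n : ℕ} (Z : Fin k → G)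
    (A : Set (Fin n → Fin k)) (χ : G → ℂ) :
    QF χ (wlaw Z A) = (1 / (k : ℝ) ^ (2 * n)) * (∑ w : Fin n → Fin k, ∑ w' : Fin n → Fin k,
      if w ∈ A ∧ w' ∈ A then χ ((wprod Z w')⁻¹ * wprod Z w) else 0).re := by
  unfold QF
  have h : ∑ a : G, ∑ b : G, ((wlaw Z A a : ℝ) : ℂ) * ((wlaw Z A b : ℝ) : ℂ) * χ (b⁻¹ * a) =
      ((1 / (k : ℝ) ^ (2 * n) : ℝ) : ℂ) * ∑ w : Fin n → Fin k, ∑ w' : Fin n → Fin k,
        if w ∈ A ∧ w' ∈ A then χ ((wprod Z w')⁻¹ * wprod Z w) else 0 := by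
    have h1 : ∀ a : G, ∑ b : G, ((wlaw Z A a : ℝ) : ℂ) * ((wlaw Z A b : ℝ) : ℂ) * χ (b⁻¹ * a) =
        ((wlaw Z A a : ℝ) : ℂ) * ((1 / (k : ℂ) ^ n) * ∑ w' : Fin n → Fin k,
          if w' ∈ A then χ ((wprod Z w')⁻¹ * a) else 0) := by
      intro a
      rw [← sum_wlaw Z A (fun b => χ (b⁻¹ * a)), Finset.mul_sum]
      apply Finset.sum_congr rfl
      intro b _
      ring
    rw [Finset.sum_congr rfl fun a _ => h1 a,
      sum_wlaw Z A (fun a => (1 / (k : ℂ) ^ n) * ∑ w' : Fin n → Fin k,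
          if w' ∈ A then χ ((wprod Z w')⁻¹ * a) else 0)]
    have h2 : ∀ w : Fin n → Fin k, (if w ∈ A then (1 / (k : ℂ) ^ n) * ∑ w' : Fin n → Fin k,
          (if w' ∈ A then χ ((wprod Z w')⁻¹ * wprod Z w) else 0) else 0) =
        (1 / (k : ℂ) ^ n) * ∑ w' : Fin n → Fin k,
          if w ∈ A ∧ w' ∈ A then χ ((wprod Z w')⁻¹ * wprod Z w) else 0 := by
      intro w
      by_cases hw : w ∈ A
      · simp [hw]
      · simp [hw]
    rw [Finset.sum_congr rfl fun w _ => h2 w, ← Finset.mul_sum, ← mul_assoc]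
    congr 1
    push_cast
    rw [two_mul, pow_add]
    ring
  rw [h, Complex.re_ofReal_mul]

theorem avg {G : Type} [Group G] [Fintype G] (K₁ : Subgroup G) [Fintype K₁] (k : ℕ)
    (f : (Fin k → G) → ℂ) :
    ∑ Z : Fin k → G, f Z = (1 / (Nat.card K₁ : ℂ) ^ k) *
      ∑ Z : Fin k → G, ∑ u : Fin k → K₁, f (fun i => (u i : G) * Z i) := by
  rw [Finset.sum_comm]
  have h1 : ∀ u : Fin k → K₁, ∑ Z : Fin k → G, f (fun i => (u i : G) * Z i) =
      ∑ Z : Fin k → G, f Z := by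
    intro u
    exact Fintype.sum_equiv (Equiv.mulLeft (fun i => (u i : G) : Fin k → G)) _ _ fun Z => rfl
  rw [Finset.sum_congr rfl fun u _ => h1 u, Finset.sum_const, Finset.card_univ, Fintype.card_fun,
    Fintype.card_fin, nsmul_eq_mul, Nat.card_eq_fintype_card]
  have h2 : (Fintype.card K₁ : ℂ) ≠ 0 := by
    exact_mod_cast Fintype.card_ne_zero
  push_cast
  field_simp

open Classical in
theorem one {G : Type} [Group G] [Fintype G] (K : Subgroup G) [K.Normal] (H : Subgroup G)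
    (lam : H →* ℂˣ) [Fintype (H.normalCore ⊓ K : Subgroup G)] {k n : ℕ}
    (A : (Fin k → G ⧸ K) → Set (Fin n → Fin k)) (χ : G → ℂ)
    (hχ : ∀ g, χ g = indL H lam g) (hc : ∀ a b, χ (b⁻¹ * a) = χ (a * b⁻¹)) :
    |∑ Z : Fin k → G, QF χ (wlaw Z (A fun i => (Z i : G ⧸ K)))| ≤
      (1 / (k : ℝ) ^ (2 * n)) * ((1 / (Nat.card (H.normalCore ⊓ K : Subgroup G) : ℝ) ^ k) *
        ∑ Z : Fin k → G, ∑ w : Fin n → Fin k, ∑ w' : Fin n → Fin k,
          if w ∈ A (fun i => (Z i : G ⧸ K)) ∧ w' ∈ A (fun i => (Z i : G ⧸ K)) then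
            ‖∑ u : Fin k → (H.normalCore ⊓ K : Subgroup G),
              indL H lam (wprod (fun i => (u i : G) * Z i) w *
                (wprod (fun i => (u i : G) * Z i) w')⁻¹)‖ else 0) := by
  set f : (Fin k → G) → ℂ := fun Z => ∑ w : Fin n → Fin k, ∑ w' : Fin n → Fin k,
    if w ∈ A (fun i => (Z i : G ⧸ K)) ∧ w' ∈ A (fun i => (Z i : G ⧸ K)) then
      indL H lam (wprod Z w * (wprod Z w')⁻¹) else 0 with hf
  have h1 : ∑ Z : Fin k → G, QF χ (wlaw Z (A fun i => (Z i : G ⧸ K))) =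
      (1 / (k : ℝ) ^ (2 * n)) * (∑ Z : Fin k → G, f Z).re := by
    rw [Complex.re_sum, Finset.mul_sum]
    apply Finset.sum_congr rfl
    intro Z _
    rw [QF_wlaw]
    congr 2
    simp only [hf]
    apply Finset.sum_congr rfl
    intro w _
    apply Finset.sum_congr rfl
    intro w' _
    rw [hc, hχ]
  have hk : 0 ≤ 1 / (k : ℝ) ^ (2 * n) := by positivity
  rw [h1, abs_mul, abs_of_nonneg hk]
  refine mul_le_mul_of_nonneg_left ?_ hk
  refine (Complex.abs_re_le_norm _).trans ?_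
  rw [avg (H.normalCore ⊓ K : Subgroup G) k f, norm_mul]
  have h2 : ‖(1 / (Nat.card (H.normalCore ⊓ K : Subgroup G) : ℂ) ^ k)‖ =
      1 / (Nat.card (H.normalCore ⊓ K : Subgroup G) : ℝ) ^ k := by
    rw [norm_div, norm_one, norm_pow, Complex.norm_natCast]
  rw [h2]
  refine mul_le_mul_of_nonneg_left ?_ (by positivity)
  refine (norm_sum_le _ _).trans (Finset.sum_le_sum fun Z _ => ?_)
  have h3 : ∀ u : Fin k → (H.normalCore ⊓ K : Subgroup G),
      (fun i => (((u i : G) * Z i : G) : G ⧸ K)) = fun i => (Z i : G ⧸ K) := by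
    intro u
    funext i
    rw [QuotientGroup.mk_mul]
    have : ((u i : G) : G ⧸ K) = 1 := (QuotientGroup.eq_one_iff _).mpr (u i).2.2
    rw [this, one_mul]
  have h4 : ∑ u : Fin k → (H.normalCore ⊓ K : Subgroup G), f (fun i => (u i : G) * Z i) =
      ∑ w : Fin n → Fin k, ∑ w' : Fin n → Fin k,
        if w ∈ A (fun i => (Z i : G ⧸ K)) ∧ w' ∈ A (fun i => (Z i : G ⧸ K)) then
            ∑ u : Fin k → (H.normalCore ⊓ K : Subgroup G),
              indL H lam (wprod (fun i => (u i : G) * Z i) w *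
                (wprod (fun i => (u i : G) * Z i) w')⁻¹) else 0 := by
    simp only [hf]
    rw [Finset.sum_comm]
    apply Finset.sum_congr rfl
    intro w _
    rw [Finset.sum_comm]
    apply Finset.sum_congr rfl
    intro w' _
    have : ∀ u : Fin k → (H.normalCore ⊓ K : Subgroup G),
        (if w ∈ A (fun i => (((u i : G) * Z i : G) : G ⧸ K)) ∧
            w' ∈ A (fun i => (((u i : G) * Z i : G) : G ⧸ K)) then
          indL H lam (wprod (fun i => (u i : G) * Z i) w *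
            (wprod (fun i => (u i : G) * Z i) w')⁻¹) else 0) =
        if w ∈ A (fun i => (Z i : G ⧸ K)) ∧ w' ∈ A (fun i => (Z i : G ⧸ K)) then
          indL H lam (wprod (fun i => (u i : G) * Z i) w *
            (wprod (fun i => (u i : G) * Z i) w')⁻¹) else 0 := by
      intro u
      rw [h3 u]
    rw [Finset.sum_congr rfl fun u _ => this u]
    by_cases hw : w ∈ A (fun i => (Z i : G ⧸ K)) ∧ w' ∈ A (fun i => (Z i : G ⧸ K))
    · simp only [if_pos hw]
    · simp only [if_neg hw, Finset.sum_const_zero]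
  rw [h4]
  refine (norm_sum_le _ _).trans (Finset.sum_le_sum fun w _ => ?_)
  refine (norm_sum_le _ _).trans (Finset.sum_le_sum fun w' _ => ?_)
  by_cases hw : w ∈ A (fun i => (Z i : G ⧸ K)) ∧ w' ∈ A (fun i => (Z i : G ⧸ K))
  · simp only [if_pos hw]
    exact le_rfl
  · simp only [if_neg hw]
    simp

open Classical in
/-- all the characters induced from `H` together -/
theorem group {G : Type} [Group G] [Fintype G] (hB : S_B1) (hS : S_SM) (P : Planch G)
    (K : Subgroup G) [K.Normal] [Fintype (G ⧸ K)] (D k n R L : ℕ)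
    (τ s ε η R' a θ η₂ : ℝ) (hτ : 0 ≤ τ) (hT : Term K D τ) (hk : 0 < k) (hs : 0 < s)
    (hε : 0 ≤ ε) (hn : n ≤ L) (ha : 0 ≤ a) (hR' : 0 ≤ R') (hθ : 0 < θ) (hθ1 : θ ≤ 1)
    (hidx : ∀ S ⊆ BR (G ⧸ K) R, ((MS K S).index : ℝ) ≤ Real.exp ((k : ℝ) * (HS S s L + η₂)))
    (H : Subgroup G) (hH : H.index ≤ D) (I : Finset P.ι)
    (hI : ∀ i ∈ I, ∃ lam : H →* ℂˣ, ∀ g, (P.ρ i g).trace = indL H lam g) :
    ∑ i ∈ I, |∑ Z : Fin k → G, QF (fun g => (P.ρ i g).trace)
        (wlaw Z (n := n) (GW s ε η R' a R L (fun i => (Z i : G ⧸ K))))| ≤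
      (Nat.card G : ℝ) ^ k *
        (((D : ℝ) ^ 2 * (K.index : ℝ) * τ * ((D.factorial : ℝ) ^ ((2 * R + 1) ^ K.index))) *
        (Wf K.index s ε k n * 2 ^ ((2 * R + 1) ^ K.index) *
          Real.exp ((k : ℝ) * (η₂ + 2 * η + θ * Real.exp R' + 2 * a * Real.log (1 / θ))))) := by
  have : Fintype (H.normalCore ⊓ K : Subgroup G) := Fintype.ofFinite _
  set K₁ : Subgroup G := H.normalCore ⊓ K with hK₁
  set A : (Fin k → G ⧸ K) → Set (Fin n → Fin k) := fun z => GW s ε η R' a R L z with hA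
  set C := (D : ℝ) ^ 2 * (K.index : ℝ) * τ * ((D.factorial : ℝ) ^ ((2 * R + 1) ^ K.index)) with hC
  set W := Wf K.index s ε k n * 2 ^ ((2 * R + 1) ^ K.index) *
          Real.exp ((k : ℝ) * (η₂ + 2 * η + θ * Real.exp R' + 2 * a * Real.log (1 / θ))) with hW
  have hC0 : 0 ≤ C := by positivity
  -- choice of the linear characters
  set lamH : P.ι → (H →* ℂˣ) := fun i =>
    if h : ∃ lam : H →* ℂˣ, ∀ g, (P.ρ i g).trace = indL H lam g then h.choose else 1 with hlam
  have hl : ∀ i ∈ I, ∀ g, (P.ρ i g).trace = indL H (lamH i) g := by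
    intro i hi
    simp only [hlam]
    rw [dif_pos (hI i hi)]
    exact (hI i hi).choose_spec
  have hinj : Set.InjOn lamH (I : Set P.ι) := by
    intro i hi j hj hij
    apply P.inj
    intro g
    rw [hl i hi g, hl j hj g, hij]
  set c1 : ℝ := 1 / (k : ℝ) ^ (2 * n) with hc1
  set c2 : ℝ := 1 / (Nat.card K₁ : ℝ) ^ k with hc2
  have hc10 : 0 ≤ c1 := by positivity
  have hc20 : 0 ≤ c2 := by positivity
  set N : (H →* ℂˣ) → (Fin k → G) → (Fin n → Fin k) → (Fin n → Fin k) → ℝ :=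
    fun lam Z w w' => ‖∑ u : Fin k → K₁, indL H lam (wprod (fun i => (u i : G) * Z i) w *
                (wprod (fun i => (u i : G) * Z i) w')⁻¹)‖ with hN
  have h1 : ∀ i ∈ I, |∑ Z : Fin k → G, QF (fun g => (P.ρ i g).trace)
        (wlaw Z (A (fun i => (Z i : G ⧸ K))))| ≤
      c1 * (c2 * ∑ Z : Fin k → G, ∑ w : Fin n → Fin k, ∑ w' : Fin n → Fin k,
          if w ∈ A (fun i => (Z i : G ⧸ K)) ∧ w' ∈ A (fun i => (Z i : G ⧸ K)) then
            N (lamH i) Z w w' else 0) := by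
    intro i hi
    refine one K H (lamH i) A (fun g => (P.ρ i g).trace) (hl i hi) ?_
    intro x y
    rw [map_mul, map_mul, Matrix.trace_mul_comm]
  refine (Finset.sum_le_sum h1).trans ?_
  rw [← Finset.mul_sum, ← Finset.mul_sum]
  have h2 : ∑ i ∈ I, ∑ Z : Fin k → G, ∑ w : Fin n → Fin k, ∑ w' : Fin n → Fin k,
          (if w ∈ A (fun i => (Z i : G ⧸ K)) ∧ w' ∈ A (fun i => (Z i : G ⧸ K)) then
            N (lamH i) Z w w' else 0) =
      ∑ Z : Fin k → G, ∑ w : Fin n → Fin k, ∑ w' : Fin n → Fin k,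
          if w ∈ A (fun i => (Z i : G ⧸ K)) ∧ w' ∈ A (fun i => (Z i : G ⧸ K)) then
            ∑ lam ∈ I.image lamH, N lam Z w w' else 0 := by
    rw [Finset.sum_comm]
    apply Finset.sum_congr rfl
    intro Z _
    rw [Finset.sum_comm]
    apply Finset.sum_congr rfl
    intro w _
    rw [Finset.sum_comm]
    apply Finset.sum_congr rfl
    intro w' _
    by_cases hw : w ∈ A (fun i => (Z i : G ⧸ K)) ∧ w' ∈ A (fun i => (Z i : G ⧸ K))
    · simp only [if_pos hw]
      rw [Finset.sum_image hinj]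
    · simp only [if_neg hw, Finset.sum_const_zero]
  rw [h2]
  have h3 : ∀ Z : Fin k → G, ∑ w : Fin n → Fin k, ∑ w' : Fin n → Fin k,
          (if w ∈ A (fun i => (Z i : G ⧸ K)) ∧ w' ∈ A (fun i => (Z i : G ⧸ K)) then
            ∑ lam ∈ I.image lamH, N lam Z w w' else 0) ≤
      (Nat.card K₁ : ℝ) ^ k * C * ((k : ℝ) ^ (2 * n) * W) := by
    intro Z
    have hSM := hS (G ⧸ K) k n R L s ε η R' a θ η₂ (fun i => (Z i : G ⧸ K))
      (fun S => ((MS K S).index : ℝ)) hk hs hε hn ha hR' hθ hθ1 (fun S => by positivity) hidx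
    have hJ : Fintype.card (G ⧸ K) = K.index := by
      rw [Subgroup.index, Nat.card_eq_fintype_card]
    rw [hJ] at hSM
    have h4 : ∀ w w' : Fin n → Fin k,
          (if w ∈ A (fun i => (Z i : G ⧸ K)) ∧ w' ∈ A (fun i => (Z i : G ⧸ K)) then
            ∑ lam ∈ I.image lamH, N lam Z w w' else 0) ≤
        (Nat.card K₁ : ℝ) ^ k * C *
          (if w ∈ A (fun i => (Z i : G ⧸ K)) ∧ w' ∈ A (fun i => (Z i : G ⧸ K)) then
            ((MS K (Sset R (fun i => (Z i : G ⧸ K)) w w')).index : ℝ) else 0) := by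
      intro w w'
      by_cases hw : w ∈ A (fun i => (Z i : G ⧸ K)) ∧ w' ∈ A (fun i => (Z i : G ⧸ K))
      · rw [if_pos hw, if_pos hw, mul_assoc]
        exact hB G K H D R k n n τ Z w w' (I.image lamH) hH hτ hT
      · rw [if_neg hw, if_neg hw, mul_zero]
    calc _ ≤ ∑ w : Fin n → Fin k, ∑ w' : Fin n → Fin k, (Nat.card K₁ : ℝ) ^ k * C *
          (if w ∈ A (fun i => (Z i : G ⧸ K)) ∧ w' ∈ A (fun i => (Z i : G ⧸ K)) then
            ((MS K (Sset R (fun i => (Z i : G ⧸ K)) w w')).index : ℝ) else 0) :=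
          Finset.sum_le_sum fun w _ => Finset.sum_le_sum fun w' _ => h4 w w'
      _ = (Nat.card K₁ : ℝ) ^ k * C * ∑ w : Fin n → Fin k, ∑ w' : Fin n → Fin k,
          (if w ∈ A (fun i => (Z i : G ⧸ K)) ∧ w' ∈ A (fun i => (Z i : G ⧸ K)) then
            ((MS K (Sset R (fun i => (Z i : G ⧸ K)) w w')).index : ℝ) else 0) := by
          rw [Finset.mul_sum]
          exact Finset.sum_congr rfl fun w _ => by rw [Finset.mul_sum]
      _ ≤ _ := by
          refine mul_le_mul_of_nonneg_left ?_ (by positivity)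
          exact hSM
  have h5 : ∑ Z : Fin k → G, ∑ w : Fin n → Fin k, ∑ w' : Fin n → Fin k,
          (if w ∈ A (fun i => (Z i : G ⧸ K)) ∧ w' ∈ A (fun i => (Z i : G ⧸ K)) then
            ∑ lam ∈ I.image lamH, N lam Z w w' else 0) ≤
      (Nat.card G : ℝ) ^ k * ((Nat.card K₁ : ℝ) ^ k * C * ((k : ℝ) ^ (2 * n) * W)) := by
    refine (Finset.sum_le_sum fun Z _ => h3 Z).trans (le_of_eq ?_)
    rw [Finset.sum_const, Finset.card_univ, Fintype.card_fun, Fintype.card_fin, nsmul_eq_mul,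
      Nat.card_eq_fintype_card (α := G)]
    push_cast
    ring
  have hk' : (0 : ℝ) < (k : ℝ) ^ (2 * n) := by
    have : (0 : ℝ) < k := by exact_mod_cast hk
    positivity
  have hK1 : (0 : ℝ) < (Nat.card K₁ : ℝ) ^ k := by
    have : (0 : ℝ) < (Nat.card K₁ : ℝ) := by exact_mod_cast Nat.card_pos
    positivity
  calc c1 * (c2 * _) ≤ c1 * (c2 * ((Nat.card G : ℝ) ^ k *
        ((Nat.card K₁ : ℝ) ^ k * C * ((k : ℝ) ^ (2 * n) * W)))) :=
        mul_le_mul_of_nonneg_left (mul_le_mul_of_nonneg_left h5 hc20) hc10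
    _ = (Nat.card G : ℝ) ^ k * (C * W) := by
        rw [hc1, hc2]
        field_simp

end LowSum

theorem p_LowSum (hC : S_Cover) (hB : S_B1) (hS : S_SM) (_hN : S_Cnt) : S_LowSum := by
  classical
  intro G _ _ hnil P K _ _ D k n R L τ s ε η R' a θ η₂ hD hτ hT hk hs hε hn ha hR' hθ hθ1 hidx
  obtain ⟨T, hTD, hTc, hTi⟩ := hC G hnil P D hD
  set C := (D : ℝ) ^ 2 * (K.index : ℝ) * τ * ((D.factorial : ℝ) ^ ((2 * R + 1) ^ K.index)) with hCd
  set W := Wf K.index s ε k n * 2 ^ ((2 * R + 1) ^ K.index) *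
          Real.exp ((k : ℝ) * (η₂ + 2 * η + θ * Real.exp R' + 2 * a * Real.log (1 / θ))) with hW
  set q : P.ι → ℝ := fun i => ∑ Z : Fin k → G, QF (fun g => (P.ρ i g).trace)
        (wlaw Z (n := n) (GW s ε η R' a R L (fun i => (Z i : G ⧸ K)))) with hq
  set E := Real.exp (12 * (1 + Real.sqrt (Real.log (Nat.card G))) *
        Real.log D ^ 2) * (Real.log (Nat.card G) + 1) + 1 with hE
  set I : Finset P.ι := Finset.univ.filter fun i => P.d i ≤ D with hI
  have h1 : ∑ Z : Fin k → G, ∑ i, (if P.d i ≤ D then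
      (P.d i : ℝ) * QF (fun g => (P.ρ i g).trace)
        (wlaw Z (n := n) (GW s ε η R' a R L (fun i => (Z i : G ⧸ K)))) else 0) =
      ∑ i ∈ I, (P.d i : ℝ) * q i := by
    rw [Finset.sum_comm, hI, Finset.sum_filter]
    apply Finset.sum_congr rfl
    intro i _
    by_cases hi : P.d i ≤ D
    · simp only [if_pos hi, hq]
      rw [Finset.mul_sum]
    · simp only [if_neg hi, Finset.sum_const_zero]
  rw [h1]
  have h2 : ∑ i ∈ I, (P.d i : ℝ) * q i ≤ (D : ℝ) * ∑ i ∈ I, |q i| := by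
    rw [Finset.mul_sum]
    apply Finset.sum_le_sum
    intro i hi
    have hi' : (P.d i : ℝ) ≤ D := by exact_mod_cast (Finset.mem_filter.mp hi).2
    have h3 : (0 : ℝ) ≤ P.d i := by positivity
    calc (P.d i : ℝ) * q i ≤ (P.d i : ℝ) * |q i| :=
          mul_le_mul_of_nonneg_left (le_abs_self _) h3
      _ ≤ _ := mul_le_mul_of_nonneg_right hi' (abs_nonneg _)
  refine h2.trans ?_
  -- the choice of the subgroups
  have hsel : ∀ i ∈ I, ∃ H ∈ T, ∃ lam : H →* ℂˣ, ∀ g, (P.ρ i g).trace = indL H lam g :=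
    fun i hi => hTi i (Finset.mem_filter.mp hi).2
  set sel : P.ι → Subgroup G := fun i =>
    if h : ∃ H ∈ T, ∃ lam : H →* ℂˣ, ∀ g, (P.ρ i g).trace = indL H lam g then h.choose else ⊤
    with hseld
  have hsel1 : ∀ i ∈ I, sel i ∈ T ∧ ∃ lam : sel i →* ℂˣ, ∀ g,
      (P.ρ i g).trace = indL (sel i) lam g := by
    intro i hi
    have h := hsel i hi
    have e : sel i = h.choose := by
      simp only [hseld]
      rw [dif_pos h]
    rw [e]
    exact h.choose_spec
  have h3 : ∑ i ∈ I, |q i| = ∑ H ∈ T, ∑ i ∈ I.filter (fun i => sel i = H), |q i| :=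
    (Finset.sum_fiberwise_of_maps_to (fun i hi => (hsel1 i hi).1) _).symm
  have h4 : ∀ H ∈ T, ∑ i ∈ I.filter (fun i => sel i = H), |q i| ≤
      (Nat.card G : ℝ) ^ k * (C * W) := by
    intro H hH
    refine LowSum.group hB hS P K D k n R L τ s ε η R' a θ η₂ hτ hT hk hs hε hn ha hR' hθ hθ1
      hidx H (hTD H hH) _ ?_
    intro i hi
    obtain ⟨hi1, hi2⟩ := Finset.mem_filter.mp hi
    have := (hsel1 i hi1).2
    rw [hi2] at this
    exact this
  have h5 : ∑ i ∈ I, |q i| ≤ ((D : ℝ) * E) * ((Nat.card G : ℝ) ^ k * (C * W)) := by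
    rw [h3]
    refine (Finset.sum_le_sum h4).trans ?_
    rw [Finset.sum_const, nsmul_eq_mul]
    by_cases hT0 : T.Nonempty
    · obtain ⟨H, hH⟩ := hT0
      have h6 : 0 ≤ (Nat.card G : ℝ) ^ k * (C * W) :=
        (Finset.sum_nonneg fun i _ => abs_nonneg _).trans (h4 H hH)
      exact mul_le_mul_of_nonneg_right hTc h6
    · rw [Finset.not_nonempty_iff_eq_empty] at hT0
      have h6 : 0 ≤ C * W := by
        have hWf : 0 ≤ Wf K.index s ε k n := by
          unfold Wf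
          positivity
        positivity
      have h7 : 0 ≤ (D : ℝ) * E := by
        refine le_trans ?_ hTc
        positivity
      rw [hT0]
      simp only [Finset.card_empty, Nat.cast_zero, zero_mul]
      positivity
  calc (D : ℝ) * ∑ i ∈ I, |q i| ≤ (D : ℝ) * (((D : ℝ) * E) * ((Nat.card G : ℝ) ^ k * (C * W))) :=
        mul_le_mul_of_nonneg_left h5 (by positivity)
    _ = _ := by ring

end NilCut
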