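import Pool.Agent.Lib.MP_4ddf81_pr.Stm2

/-!
# MP_4ddf81_pr, stage 2 : the theorem
-/

namespace NilCut

open Filter Topology

/-- The expected distance. -/
noncomputable def Eav (G : Type) [Group G] [Fintype G] (k : ℕ) (t : ℝ) : ℝ :=
  (∑ Z : Fin k → G, dTV Z t) / (Nat.card G : ℝ) ^ k

/-- The mixing time of the expected distance. -/
noncomputable def tMix (G : Type) [Group G] [Fintype G] (k : ℕ) : ℝ :=
  sInf {t : ℝ | 0 ≤ t ∧ Eav G k t ≤ 1 / 2}

namespace Main2

section single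

variable {G : Type} [Group G] [Fintype G]

theorem card_pos' (k : ℕ) : (0 : ℝ) < (Nat.card G : ℝ) ^ k := by
  have : (0 : ℝ) < (Nat.card G : ℝ) := by exact_mod_cast Nat.card_pos
  positivity

omit [Group G] in
theorem cardZ (k : ℕ) : (Fintype.card (Fin k → G) : ℝ) = (Nat.card G : ℝ) ^ k := by
  rw [Fintype.card_fun, Fintype.card_fin, Nat.card_eq_fintype_card]
  push_cast
  rfl

omit [Group G] in
theorem cardZ' (k : ℕ) : (Nat.card (Fin k → G) : ℝ) = (Nat.card G : ℝ) ^ k := by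
  rw [Nat.card_eq_fintype_card, cardZ]

theorem Eav_nonneg (hA : S_Anti) {k : ℕ} (hk : 0 < k) {t : ℝ} (ht : 0 ≤ t) : 0 ≤ Eav G k t :=
  div_nonneg (Finset.sum_nonneg fun Z _ => (hA G k Z t t hk ht le_rfl).2.1) (card_pos' k).le

theorem Eav_le_one (hA : S_Anti) {k : ℕ} (hk : 0 < k) {t : ℝ} (ht : 0 ≤ t) : Eav G k t ≤ 1 := by
  unfold Eav
  rw [div_le_one (card_pos' k)]
  calc ∑ Z : Fin k → G, dTV Z t ≤ ∑ _Z : Fin k → G, (1 : ℝ) :=
        Finset.sum_le_sum fun Z _ => (hA G k Z t t hk ht le_rfl).2.2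
    _ = (Nat.card G : ℝ) ^ k := by
        rw [Finset.sum_const, Finset.card_univ, nsmul_eq_mul, mul_one, cardZ]

theorem Eav_anti (hA : S_Anti) {k : ℕ} (hk : 0 < k) {t t' : ℝ} (ht : 0 ≤ t) (h : t ≤ t') :
    Eav G k t' ≤ Eav G k t :=
  div_le_div_of_nonneg_right (Finset.sum_le_sum fun Z _ => (hA G k Z t t' hk ht h).1)
    (card_pos' k).le

theorem prob_le_one (k : ℕ) (P : (Fin k → G) → Prop) : prob G k P ≤ 1 := by
  classical
  unfold prob
  rw [cardZ', div_le_one (card_pos' k), ← cardZ']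
  exact_mod_cast Nat.card_le_card_of_injective (fun Z : {Z : Fin k → G // P Z} => Z.1)
    Subtype.val_injective

theorem prob_compl (k : ℕ) (P : (Fin k → G) → Prop) :
    prob G k P = 1 - prob G k (fun Z => ¬ P Z) := by
  classical
  unfold prob
  have h1 : (Nat.card {Z : Fin k → G // P Z} : ℝ) + (Nat.card {Z : Fin k → G // ¬ P Z} : ℝ) =
      (Nat.card (Fin k → G) : ℝ) := by
    have h2 : Nat.card {Z : Fin k → G // P Z} + Nat.card {Z : Fin k → G // ¬ P Z} =
        Nat.card (Fin k → G) := by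
      rw [Nat.card_eq_fintype_card, Nat.card_eq_fintype_card, Nat.card_eq_fintype_card,
        Fintype.card_subtype_compl]
      have := Fintype.card_subtype_le P
      omega
    exact_mod_cast h2
  have h3 : (0 : ℝ) < (Nat.card (Fin k → G) : ℝ) := by
    rw [cardZ']
    exact card_pos' k
  rw [← h1] at h3 ⊢
  field_simp
  ring

/-- Markov. -/
theorem prob_markov (k : ℕ) (P : (Fin k → G) → Prop) (f : (Fin k → G) → ℝ) (δ : ℝ)
    (hf : ∀ Z, 0 ≤ f Z) (hδ : 0 < δ) (hP : ∀ Z, P Z → δ ≤ f Z) :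
    prob G k P ≤ ((∑ Z : Fin k → G, f Z) / (Nat.card G : ℝ) ^ k) / δ := by
  classical
  unfold prob
  rw [cardZ', le_div_iff₀ hδ, div_mul_eq_mul_div]
  apply div_le_div_of_nonneg_right _ (card_pos' k).le
  rw [Nat.card_eq_fintype_card, Fintype.card_subtype]
  calc ((Finset.univ.filter P).card : ℝ) * δ = ∑ Z ∈ Finset.univ.filter P, δ := by
        rw [Finset.sum_const, nsmul_eq_mul]
    _ ≤ ∑ Z ∈ Finset.univ.filter P, f Z :=
        Finset.sum_le_sum fun Z hZ => hP Z (Finset.mem_filter.1 hZ).2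
    _ ≤ ∑ Z : Fin k → G, f Z :=
        Finset.sum_le_sum_of_subset_of_nonneg (Finset.filter_subset _ _) fun Z _ _ => hf Z

theorem prob_low (hA : S_Anti) {k : ℕ} (hk : 0 < k) {t δ : ℝ} (ht : 0 ≤ t) (hδ : 0 < δ) :
    1 - (1 - Eav G k t) / δ ≤ prob G k (fun Z => 1 - δ ≤ dTV Z t) := by
  rw [prob_compl]
  have h1 := prob_markov (G := G) k (fun Z => ¬ (1 - δ ≤ dTV Z t)) (fun Z => 1 - dTV Z t) δ
    (fun Z => by linarith [(hA G k Z t t hk ht le_rfl).2.2]) hδ
    (fun Z hZ => by linarith [not_le.1 hZ])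
  have h2 : (∑ Z : Fin k → G, (1 - dTV Z t)) / (Nat.card G : ℝ) ^ k = 1 - Eav G k t := by
    unfold Eav
    rw [Finset.sum_sub_distrib, Finset.sum_const, Finset.card_univ, nsmul_eq_mul, mul_one, cardZ,
      sub_div, div_self (card_pos' k).ne']
  rw [h2] at h1
  linarith

theorem prob_up (hA : S_Anti) {k : ℕ} (hk : 0 < k) {t δ : ℝ} (ht : 0 ≤ t) (hδ : 0 < δ) :
    1 - Eav G k t / δ ≤ prob G k (fun Z => dTV Z t ≤ δ) := by
  rw [prob_compl]
  have h1 := prob_markov (G := G) k (fun Z => ¬ (dTV Z t ≤ δ)) (fun Z => dTV Z t) δ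
    (fun Z => (hA G k Z t t hk ht le_rfl).2.1) hδ (fun Z hZ => (not_le.1 hZ).le)
  have h2 : (∑ Z : Fin k → G, dTV Z t) / (Nat.card G : ℝ) ^ k = Eav G k t := rfl
  rw [h2] at h1
  linarith

/-- From the probability to the expectation, lower bound. -/
theorem Eav_ge (hA : S_Anti) {k : ℕ} (hk : 0 < k) {t δ : ℝ} (ht : 0 ≤ t) (hδ1 : δ ≤ 1) :
    (1 - δ) * prob G k (fun Z => 1 - δ ≤ dTV Z t) ≤ Eav G k t := by
  classical
  unfold prob Eav
  rw [cardZ', ← mul_div_assoc]
  apply div_le_div_of_nonneg_right _ (card_pos' k).le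
  rw [Nat.card_eq_fintype_card, Fintype.card_subtype]
  calc (1 - δ) * ((Finset.univ.filter fun Z : Fin k → G => 1 - δ ≤ dTV Z t).card : ℝ) =
        ∑ Z ∈ Finset.univ.filter (fun Z : Fin k → G => 1 - δ ≤ dTV Z t), (1 - δ) := by
        rw [Finset.sum_const, nsmul_eq_mul]
        ring
    _ ≤ ∑ Z ∈ Finset.univ.filter (fun Z : Fin k → G => 1 - δ ≤ dTV Z t), dTV Z t :=
        Finset.sum_le_sum fun Z hZ => (Finset.mem_filter.1 hZ).2
    _ ≤ ∑ Z : Fin k → G, dTV Z t :=
        Finset.sum_le_sum_of_subset_of_nonneg (Finset.filter_subset _ _)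
          fun Z _ _ => (hA G k Z t t hk ht le_rfl).2.1

/-- From the probability to the expectation, upper bound. -/
theorem Eav_le (hA : S_Anti) {k : ℕ} (hk : 0 < k) {t δ : ℝ} (ht : 0 ≤ t) (hδ : 0 ≤ δ) :
    Eav G k t ≤ δ + (1 - prob G k (fun Z => dTV Z t ≤ δ)) := by
  classical
  have h0 : 1 - prob G k (fun Z => dTV Z t ≤ δ) = prob G k (fun Z => ¬ (dTV Z t ≤ δ)) := by
    rw [prob_compl (G := G) k (fun Z => dTV Z t ≤ δ)]
    ring
  rw [h0]
  have hc : (Nat.card {Z : Fin k → G // ¬ (dTV Z t ≤ δ)} : ℝ) =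
      ((Finset.univ.filter fun Z : Fin k → G => ¬ (dTV Z t ≤ δ)).card : ℝ) := by
    rw [Nat.card_eq_fintype_card, Fintype.card_subtype]
  unfold prob Eav
  rw [cardZ', hc]
  rw [← sub_le_iff_le_add, ← sub_div, div_le_iff₀ (card_pos' k), sub_le_iff_le_add]
  calc ∑ Z : Fin k → G, dTV Z t ≤
        ∑ Z : Fin k → G, (δ + (if ¬ (dTV Z t ≤ δ) then (1 : ℝ) else 0)) := by
        apply Finset.sum_le_sum
        intro Z _
        have h1 := (hA G k Z t t hk ht le_rfl).2.2
        split_ifs with h2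
        · linarith
        · linarith
    _ = δ * (Nat.card G : ℝ) ^ k +
        ((Finset.univ.filter fun Z : Fin k → G => ¬ (dTV Z t ≤ δ)).card : ℝ) := by
        rw [Finset.sum_add_distrib, Finset.sum_const, Finset.card_univ, nsmul_eq_mul, cardZ,
          ← Finset.sum_filter, Finset.sum_const, nsmul_eq_mul, mul_one, mul_comm]

/-- From discrete time to continuous time. -/
theorem Eav_step (hT2 : S_T2) (hP1 : S_P1) {k : ℕ} (hk : 0 < k) {t δ : ℝ} (ht : 0 ≤ t) (n : ℕ)
    (hδ : 0 ≤ δ) (hδ1 : δ ≤ 1) (hn : (n : ℝ) ≤ (1 - δ) * t + 1) (b : ℝ)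
    (hb : ∑ Z : Fin k → G, tvStep Z n ≤ b * (Nat.card G : ℝ) ^ k) :
    Eav G k t ≤ Real.exp (-(δ ^ 2 * t / 4)) + b := by
  unfold Eav
  rw [div_le_iff₀ (card_pos' k), add_mul]
  have h1 := hP1 t δ n ht hδ hδ1 hn
  calc ∑ Z : Fin k → G, dTV Z t ≤
        ∑ Z : Fin k → G, (Real.exp (-(δ ^ 2 * t / 4)) + tvStep Z n) := by
        apply Finset.sum_le_sum
        intro Z _
        linarith [hT2 G k Z t n hk ht]
    _ = Real.exp (-(δ ^ 2 * t / 4)) * (Nat.card G : ℝ) ^ k + ∑ Z : Fin k → G, tvStep Z n := by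
        rw [Finset.sum_add_distrib, Finset.sum_const, Finset.card_univ, nsmul_eq_mul, cardZ,
          mul_comm]
    _ ≤ _ := by linarith

theorem tMix_le {k : ℕ} {t : ℝ} (ht : 0 ≤ t) (h : Eav G k t ≤ 1 / 2) : tMix G k ≤ t := by
  have h1 : BddBelow {t : ℝ | 0 ≤ t ∧ Eav G k t ≤ 1 / 2} := ⟨0, fun _ hx => hx.1⟩
  have h2 : t ∈ {t : ℝ | 0 ≤ t ∧ Eav G k t ≤ 1 / 2} := ⟨ht, h⟩
  exact csInf_le h1 h2

theorem le_tMix (hA : S_Anti) {k : ℕ} (hk : 0 < k) {t t' : ℝ} (ht' : 0 ≤ t')
    (h' : Eav G k t' ≤ 1 / 2) (h : 1 / 2 < Eav G k t) : t ≤ tMix G k := by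
  have h0 : ({t : ℝ | 0 ≤ t ∧ Eav G k t ≤ 1 / 2}).Nonempty := ⟨t', ht', h'⟩
  apply le_csInf h0
  intro x hx
  by_contra hlt
  have h1 := Eav_anti (G := G) hA hk hx.1 (not_le.1 hlt).le
  linarith [hx.2]

theorem tMix_nonneg {k : ℕ} : 0 ≤ tMix G k := Real.sInf_nonneg fun _ hx => hx.1

theorem lt_tMix {k : ℕ} {t : ℝ} (ht : 0 ≤ t) (h : t < tMix G k) : 1 / 2 < Eav G k t := by
  by_contra hle
  have := tMix_le ht (not_lt.1 hle)
  linarith

theorem tMix_lt (hA : S_Anti) {k : ℕ} (hk : 0 < k) {t t' : ℝ} (ht' : 0 ≤ t')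
    (h' : Eav G k t' ≤ 1 / 2) (h : tMix G k < t) : Eav G k t ≤ 1 / 2 := by
  have h0 : ({t : ℝ | 0 ≤ t ∧ Eav G k t ≤ 1 / 2}).Nonempty := ⟨t', ht', h'⟩
  obtain ⟨x, hx, hxt⟩ := exists_lt_of_csInf_lt h0 h
  exact le_trans (Eav_anti hA hk hx.1 hxt.le) hx.2

end single

theorem tends_one {f : ℕ → ℝ} (h1 : ∀ᶠ n in atTop, f n ≤ 1)
    (h2 : ∀ η : ℝ, 0 < η → ∀ᶠ n in atTop, 1 - η ≤ f n) : Tendsto f atTop (𝓝 1) := by
  rw [tendsto_order]
  constructor
  · intro a ha
    filter_upwards [h2 ((1 - a) / 2) (by linarith)] with n hn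
    linarith
  · intro a ha
    filter_upwards [h1] with n hn
    linarith

theorem tends_zero {f : ℕ → ℝ} (h1 : ∀ᶠ n in atTop, 0 ≤ f n)
    (h2 : ∀ η : ℝ, 0 < η → ∀ᶠ n in atTop, f n ≤ η) : Tendsto f atTop (𝓝 0) := by
  rw [tendsto_order]
  constructor
  · intro a ha
    filter_upwards [h1] with n hn
    linarith
  · intro a ha
    filter_upwards [h2 (a / 2) (by linarith)] with n hn
    linarith

/-- Case A: cutoff at the times `N`. -/
theorem caseA (hA : S_Anti) (H : ℕ → Type) [∀ n, Group (H n)] [∀ n, Fintype (H n)] (k : ℕ → ℕ)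
    (N : ℕ → ℝ) (hk : ∀ᶠ n in atTop, 0 < k n) (hN : ∀ᶠ n in atTop, 0 < N n)
    (hlow : ∀ ε : ℝ, 0 < ε → ε < 1 → ∀ δ : ℝ, 0 < δ →
      Tendsto (fun n => prob (H n) (k n) fun Z => 1 - δ ≤ dTV Z ((1 - ε) * N n)) atTop (𝓝 1))
    (hup : ∀ ε : ℝ, 0 < ε → ∀ δ : ℝ, 0 < δ →
      Tendsto (fun n => prob (H n) (k n) fun Z => dTV Z ((1 + ε) * N n) ≤ δ) atTop (𝓝 1)) :
    (∀ ε : ℝ, 0 < ε → ε < 1 →
      Tendsto (fun n => Eav (H n) (k n) ((1 - ε) * tMix (H n) (k n))) atTop (𝓝 1)) ∧
    (∀ ε : ℝ, 0 < ε →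
      Tendsto (fun n => Eav (H n) (k n) ((1 + ε) * tMix (H n) (k n))) atTop (𝓝 0)) := by
  -- in terms of the expectation
  have hlow' : ∀ ε : ℝ, 0 < ε → ε < 1 → ∀ η : ℝ, 0 < η →
      ∀ᶠ n in atTop, 1 - η ≤ Eav (H n) (k n) ((1 - ε) * N n) := by
    intro ε hε hε1 η hη
    set δ : ℝ := min (η / 2) (1 / 2) with hδ
    have hδ0 : 0 < δ := lt_min (by positivity) (by norm_num)
    have hδa : δ ≤ η / 2 := min_le_left _ _
    have hδb : δ ≤ 1 / 2 := min_le_right _ _
    have h1 := (tendsto_order.1 (hlow ε hε hε1 δ hδ0)).1 (1 - δ) (by linarith)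
    filter_upwards [h1, hk, hN] with n hn hkn hNn
    have ht : 0 ≤ (1 - ε) * N n := mul_nonneg (by linarith) hNn.le
    have h2 := Eav_ge (G := H n) hA hkn ht (δ := δ) (by linarith)
    have h3 : (1 - δ) * (1 - δ) ≤
        (1 - δ) * prob (H n) (k n) (fun Z => 1 - δ ≤ dTV Z ((1 - ε) * N n)) :=
      mul_le_mul_of_nonneg_left hn.le (by linarith)
    nlinarith
  have hup' : ∀ ε : ℝ, 0 < ε → ∀ η : ℝ, 0 < η →
      ∀ᶠ n in atTop, Eav (H n) (k n) ((1 + ε) * N n) ≤ η := by
    intro ε hε η hη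
    have h1 := (tendsto_order.1 (hup ε hε (η / 2) (by positivity))).1 (1 - η / 2) (by linarith)
    filter_upwards [h1, hk, hN] with n hn hkn hNn
    have ht : 0 ≤ (1 + ε) * N n := mul_nonneg (by linarith) hNn.le
    have h2 := Eav_le (G := H n) hA hkn ht (δ := η / 2) (by positivity)
    linarith
  have hbd : ∀ ε : ℝ, 0 < ε → ε < 1 → ∀ᶠ n in atTop,
      (1 - ε) * N n ≤ tMix (H n) (k n) ∧ tMix (H n) (k n) ≤ (1 + ε) * N n := by
    intro ε hε hε1
    filter_upwards [hlow' ε hε hε1 (1 / 4) (by norm_num), hup' ε hε (1 / 4) (by norm_num),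
      hk, hN] with n h1 h2 hkn hNn
    have ht : 0 ≤ (1 + ε) * N n := mul_nonneg (by linarith) hNn.le
    exact ⟨le_tMix hA hkn ht (by linarith) (by linarith), tMix_le ht (by linarith)⟩
  constructor
  · intro ε hε hε1
    apply tends_one
    · filter_upwards [hk] with n hkn
      exact Eav_le_one hA hkn (mul_nonneg (by linarith) tMix_nonneg)
    · intro η hη
      filter_upwards [hbd (ε / 4) (by positivity) (by linarith),
        hlow' (ε / 2) (by positivity) (by linarith) η hη, hk, hN] with n h1 h2 hkn hNn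
      refine le_trans h2 (Eav_anti hA hkn (mul_nonneg (by linarith) tMix_nonneg) ?_)
      calc (1 - ε) * tMix (H n) (k n) ≤ (1 - ε) * ((1 + ε / 4) * N n) :=
            mul_le_mul_of_nonneg_left h1.2 (by linarith)
        _ ≤ (1 - ε / 2) * N n := by nlinarith
  · intro ε hε
    apply tends_zero
    · filter_upwards [hk] with n hkn
      exact Eav_nonneg hA hkn (mul_nonneg (by linarith) tMix_nonneg)
    · intro η hη
      set ε' : ℝ := min ε 1 / 4 with hε'
      have hε'0 : 0 < ε' := by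
        rw [hε']
        have : 0 < min ε 1 := lt_min hε one_pos
        positivity
      have hε'a : ε' ≤ ε / 4 := by
        rw [hε']
        linarith [min_le_left ε 1]
      have hε'b : ε' ≤ 1 / 4 := by
        rw [hε']
        linarith [min_le_right ε 1]
      filter_upwards [hbd ε' hε'0 (by linarith), hup' (ε / 2) (by positivity) η hη,
        hk, hN] with n h1 h2 hkn hNn
      refine le_trans (Eav_anti hA hkn (mul_nonneg (by linarith) hNn.le) ?_) h2
      calc (1 + ε / 2) * N n ≤ (1 + ε) * ((1 - ε') * N n) := by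
            have h3 : 1 + ε / 2 ≤ (1 + ε) * (1 - ε') := by
              have h4 : ε' * (1 + ε) ≤ ε / 2 := by
                rcases le_total ε 1 with h5 | h5
                · nlinarith
                · nlinarith
              nlinarith
            calc (1 + ε / 2) * N n ≤ ((1 + ε) * (1 - ε')) * N n :=
                  mul_le_mul_of_nonneg_right h3 hNn.le
              _ = _ := by ring
        _ ≤ (1 + ε) * tMix (H n) (k n) := mul_le_mul_of_nonneg_left h1.1 (by linarith)

/-- Case B: the mixing time is of order `k`. -/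
theorem caseB (hA : S_Anti) (hT2 : S_T2) (hP1 : S_P1) (hD : S_Dich) (hF : S_Fast) (hS : S_Slow)
    (H : ℕ → Type) [∀ n, Group (H n)] [∀ n, Fintype (H n)] (k : ℕ → ℕ) (C₀ δ c : ℝ)
    (hC₀ : 0 < C₀) (hδ : 0 < δ) (hc : 0 < c) (hnil : ∀ n, Group.IsNilpotent (H n))
    (hk : Tendsto (fun n => (k n : ℝ)) atTop atTop)
    (hlog : ∀ᶠ n in atTop, Real.log (Nat.card (H n)) ≤ C₀ * (k n : ℝ))
    (hgen : ∀ᶠ n in atTop, ∃ S : Finset (H n), Subgroup.closure (S : Set (H n)) = ⊤ ∧
      (S.card : ℝ) ≤ (1 - δ) * (k n : ℝ))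
    (hgood : ∀ᶠ n in atTop, ∀ m : ℕ, (m : ℝ) ≤ c * (k n : ℝ) → ¬ good (H n) (k n) m) :
    (∀ ε : ℝ, 0 < ε → ε < 1 →
      Tendsto (fun n => Eav (H n) (k n) ((1 - ε) * tMix (H n) (k n))) atTop (𝓝 1)) ∧
    (∀ ε : ℝ, 0 < ε →
      Tendsto (fun n => Eav (H n) (k n) ((1 + ε) * tMix (H n) (k n))) atTop (𝓝 0)) := by
  have hkN : Tendsto k atTop atTop := tendsto_natCast_atTop_iff.1 hk
  have hk0 : ∀ᶠ n in atTop, 0 < k n := hkN.eventually (eventually_gt_atTop 0)
  obtain ⟨a, ha, hslow⟩ := hS C₀ c hC₀ hc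
  obtain ⟨b', hb', kF, hfast⟩ := hF C₀ δ hC₀ hδ
  -- exponentially small terms
  have hexp : ∀ x η : ℝ, 0 < x → 0 < η → ∀ᶠ n in atTop, Real.exp (-(x * (k n : ℝ))) ≤ η := by
    intro x η hx hη
    have h1 : Tendsto (fun n => x * (k n : ℝ)) atTop atTop := hk.const_mul_atTop hx
    have h2 : Tendsto (fun n => Real.exp (-(x * (k n : ℝ)))) atTop (𝓝 0) :=
      Real.tendsto_exp_neg_atTop_nhds_zero.comp h1
    exact (h2.eventually (gt_mem_nhds hη)).mono fun n hn => hn.le
  -- bounds of the mixing time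
  have hbd : ∀ᶠ n in atTop, a * (k n : ℝ) ≤ tMix (H n) (k n) ∧
      tMix (H n) (k n) ≤ 2 * b' * (k n : ℝ) ∧
      Eav (H n) (k n) (2 * b' * (k n : ℝ)) ≤ 1 / 2 := by
    obtain ⟨kS, hslow'⟩ := hslow (1 / 4) (by norm_num)
    filter_upwards [hk0, hlog, hgen, hgood, hkN.eventually (eventually_ge_atTop kS),
      hkN.eventually (eventually_ge_atTop kF), hexp (b' / 8) (1 / 4) (by positivity)
        (by norm_num)] with n hkn hlogn hgenn hgoodn hkS hkF he
    have hkr : (0 : ℝ) < (k n : ℝ) := by exact_mod_cast hkn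
    have h1 : 3 / 4 ≤ Eav (H n) (k n) (a * (k n : ℝ)) := by
      unfold Eav
      rw [le_div_iff₀ (card_pos' _)]
      calc 3 / 4 * (Nat.card (H n) : ℝ) ^ (k n) = ∑ _Z : Fin (k n) → H n, (3 / 4 : ℝ) := by
            rw [Finset.sum_const, Finset.card_univ, nsmul_eq_mul, cardZ, mul_comm]
        _ ≤ ∑ Z : Fin (k n) → H n, dTV Z (a * (k n : ℝ)) := by
            apply Finset.sum_le_sum
            intro Z _
            have := hslow' (k n) hkS (H n) hlogn hgoodn Z
            linarith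
    have h2 := hfast (k n) hkF (H n) (hnil n) hlogn hgenn
    have ht : 0 ≤ 2 * b' * (k n : ℝ) := by positivity
    have h3 := Eav_step (G := H n) hT2 hP1 hkn ht ⌈b' * (k n : ℝ)⌉₊ (δ := 1 / 2) (by norm_num)
      (by norm_num) (by
        have := (Nat.ceil_lt_add_one (show 0 ≤ b' * (k n : ℝ) by positivity)).le
        linarith) (1 / 4) h2
    have h4 : Real.exp (-((1 / 2 : ℝ) ^ 2 * (2 * b' * (k n : ℝ)) / 4)) ≤ 1 / 4 := by
      refine le_trans (le_of_eq ?_) he
      congr 1
      ring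
    have h5 : Eav (H n) (k n) (2 * b' * (k n : ℝ)) ≤ 1 / 2 := by linarith
    exact ⟨le_tMix hA hkn ht h5 (by linarith), tMix_le ht h5, h5⟩
  constructor
  · intro ε hε hε1
    apply tends_one
    · filter_upwards [hk0] with n hkn
      exact Eav_le_one hA hkn (mul_nonneg (by linarith) tMix_nonneg)
    · intro η hη
      set ηt : ℝ := min η (1 / 4) with hηt
      have hηt0 : 0 < ηt := lt_min hη (by norm_num)
      have hηta : ηt ≤ η := min_le_left _ _
      have hηtb : ηt ≤ 1 / 4 := min_le_right _ _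
      have hs0 : 0 < (1 - ε) * a := mul_pos (by linarith) ha
      obtain ⟨kD, hdich⟩ := hD C₀ δ ((1 - ε) * a) (max (2 * b') ((1 - ε) * a)) (ε * a / 4) ηt
        hC₀ hδ hs0 (le_max_right _ _) (by positivity) hηt0
      filter_upwards [hk0, hlog, hgen, hkN.eventually (eventually_ge_atTop kD), hbd,
        hexp ((ε / 4) ^ 2 * ((1 - ε / 2) * a) / 4) (1 / 8)
          (by have : 0 < 1 - ε / 2 := by linarith
              positivity) (by norm_num)]
        with n hkn hlogn hgenn hkD hbdn he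
      obtain ⟨hb1, hb2, hb3⟩ := hbdn
      have hkr : (0 : ℝ) < (k n : ℝ) := by exact_mod_cast hkn
      set t : ℝ := tMix (H n) (k n) with ht
      have ht0 : 0 < t := lt_of_lt_of_le (by positivity) hb1
      set s : ℝ := (1 - ε) * t / (k n : ℝ) with hs
      have hsk : s * (k n : ℝ) = (1 - ε) * t := by
        rw [hs]
        field_simp
      have hs1 : (1 - ε) * a ≤ s := by
        rw [hs, le_div_iff₀ hkr]
        nlinarith
      have hs2 : s ≤ max (2 * b') ((1 - ε) * a) := by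
        refine le_trans ?_ (le_max_left _ _)
        rw [hs, div_le_iff₀ hkr]
        nlinarith
      rcases hdich (k n) hkD (H n) (hnil n) hlogn hgenn s hs1 hs2 with h1 | h1
      · rw [hsk] at h1
        have h2 : 1 - ηt ≤ Eav (H n) (k n) ((1 - ε) * t) := by
          unfold Eav
          rw [le_div_iff₀ (card_pos' _)]
          exact h1
        linarith
      · exfalso
        have ht2 : 0 ≤ (1 - ε / 2) * t := mul_nonneg (by linarith) ht0.le
        have h3 := Eav_step (G := H n) hT2 hP1 hkn ht2 _ (δ := ε / 4) (by positivity)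
          (by linarith) (by
            have h4 := (Nat.ceil_lt_add_one (show 0 ≤ (s + ε * a / 4) * (k n : ℝ) by
              have : 0 < s := lt_of_lt_of_le hs0 hs1
              positivity)).le
            have h5 : (s + ε * a / 4) * (k n : ℝ) ≤ (1 - ε / 4) * ((1 - ε / 2) * t) := by
              rw [add_mul, hsk]
              have h6 : ε * a / 4 * (k n : ℝ) ≤ ε / 4 * t := by nlinarith
              nlinarith [mul_pos (mul_pos hε hε) ht0]
            linarith) ηt h1
        have h7 : Real.exp (-((ε / 4) ^ 2 * ((1 - ε / 2) * t) / 4)) ≤ 1 / 8 := by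
          refine le_trans (Real.exp_le_exp.2 ?_) he
          apply neg_le_neg
          have h8 : (1 - ε / 2) * a * (k n : ℝ) ≤ (1 - ε / 2) * t := by
            rw [mul_assoc]
            exact mul_le_mul_of_nonneg_left hb1 (by linarith)
          have h9 : 0 ≤ (ε / 4) ^ 2 / 4 := by positivity
          calc (ε / 4) ^ 2 * ((1 - ε / 2) * a) / 4 * (k n : ℝ) =
                (ε / 4) ^ 2 / 4 * ((1 - ε / 2) * a * (k n : ℝ)) := by ring
            _ ≤ (ε / 4) ^ 2 / 4 * ((1 - ε / 2) * t) := mul_le_mul_of_nonneg_left h8 h9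
            _ = _ := by ring
        have h10 := lt_tMix (G := H n) (k := k n) ht2 (by
          rw [← ht]
          nlinarith)
        linarith
  · intro ε hε
    apply tends_zero
    · filter_upwards [hk0] with n hkn
      exact Eav_nonneg hA hkn (mul_nonneg (by linarith) tMix_nonneg)
    · intro η hη
      set ηt : ℝ := min (η / 2) (1 / 4) with hηt
      have hηt0 : 0 < ηt := lt_min (by positivity) (by norm_num)
      have hηta : ηt ≤ η / 2 := min_le_left _ _
      have hηtb : ηt ≤ 1 / 4 := min_le_right _ _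
      set δ' : ℝ := ε / 2 / (1 + ε) with hδ'
      have hδ'0 : 0 < δ' := by positivity
      have hδ'1 : δ' ≤ 1 := by
        rw [hδ', div_le_one (by positivity)]
        linarith
      have hδ'e : (1 - δ') * (1 + ε) = 1 + ε / 2 := by
        rw [hδ']
        field_simp
        ring
      obtain ⟨kD, hdich⟩ := hD C₀ δ a (max (2 * b' * (1 + ε)) a) (ε * a / 4) ηt
        hC₀ hδ ha (le_max_right _ _) (by positivity) hηt0
      filter_upwards [hk0, hlog, hgen, hkN.eventually (eventually_ge_atTop kD), hbd,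
        hexp (δ' ^ 2 * a / 4) (η / 2) (by positivity) (by positivity)]
        with n hkn hlogn hgenn hkD hbdn he
      obtain ⟨hb1, hb2, hb3⟩ := hbdn
      have hkr : (0 : ℝ) < (k n : ℝ) := by exact_mod_cast hkn
      set t : ℝ := tMix (H n) (k n) with ht
      have ht0 : 0 < t := lt_of_lt_of_le (by positivity) hb1
      set s : ℝ := (1 + ε / 4) * t / (k n : ℝ) with hs
      have hsk : s * (k n : ℝ) = (1 + ε / 4) * t := by
        rw [hs]
        field_simp
      have hs1 : a ≤ s := by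
        rw [hs, le_div_iff₀ hkr]
        nlinarith
      have hs2 : s ≤ max (2 * b' * (1 + ε)) a := by
        refine le_trans ?_ (le_max_left _ _)
        rw [hs, div_le_iff₀ hkr]
        have h6 : (1 + ε / 4) * t ≤ (1 + ε) * t := by nlinarith
        have h7 : (1 + ε) * t ≤ (1 + ε) * (2 * b' * (k n : ℝ)) :=
          mul_le_mul_of_nonneg_left hb2 (by linarith)
        linarith
      rcases hdich (k n) hkD (H n) (hnil n) hlogn hgenn s hs1 hs2 with h1 | h1
      · exfalso
        rw [hsk] at h1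
        have h2 : 1 - ηt ≤ Eav (H n) (k n) ((1 + ε / 4) * t) := by
          unfold Eav
          rw [le_div_iff₀ (card_pos' _)]
          exact h1
        have h3 := tMix_lt (G := H n) hA hkn (t := (1 + ε / 4) * t)
          (show 0 ≤ 2 * b' * (k n : ℝ) by positivity) hb3 (by
            rw [← ht]
            nlinarith)
        linarith
      · have ht2 : 0 ≤ (1 + ε) * t := by positivity
        have h3 := Eav_step (G := H n) hT2 hP1 hkn ht2 _ hδ'0.le hδ'1 (by
            have h4 := (Nat.ceil_lt_add_one (show 0 ≤ (s + ε * a / 4) * (k n : ℝ) by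
              have : 0 < s := lt_of_lt_of_le ha hs1
              positivity)).le
            have h5 : (s + ε * a / 4) * (k n : ℝ) ≤ (1 - δ') * ((1 + ε) * t) := by
              rw [add_mul, hsk, ← mul_assoc, hδ'e]
              have h6 : ε * a / 4 * (k n : ℝ) ≤ ε / 4 * t := by nlinarith
              nlinarith
            linarith) ηt h1
        have h7 : Real.exp (-(δ' ^ 2 * ((1 + ε) * t) / 4)) ≤ η / 2 := by
          refine le_trans (Real.exp_le_exp.2 ?_) he
          apply neg_le_neg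
          have h8 : a * (k n : ℝ) ≤ (1 + ε) * t := by nlinarith
          have h9 : 0 ≤ δ' ^ 2 / 4 := by positivity
          calc δ' ^ 2 * a / 4 * (k n : ℝ) = δ' ^ 2 / 4 * (a * (k n : ℝ)) := by ring
            _ ≤ δ' ^ 2 / 4 * ((1 + ε) * t) := mul_le_mul_of_nonneg_left h8 h9
            _ = _ := by ring
        linarith

end Main2

open Main2 in
/-- The theorem of stage 2. -/
theorem p_Main2 (hM : S_Main) (hA : S_Anti) (hT2 : S_T2) (hP1 : S_P1) (hD : S_Dich)
    (hF : S_Fast) (hS : S_Slow) : S_Main2 := by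
  classical
  intro G _ _ k C₀ δ hδ hnil hcard hsmall hlog hgen
  -- a positive constant
  set C : ℝ := max C₀ 1 with hC
  have hC0 : 0 < C := lt_of_lt_of_le one_pos (le_max_right _ _)
  have hlogC : ∀ᶠ n in atTop, Real.log (Nat.card (G n)) ≤ C * (k n : ℝ) := by
    filter_upwards [hlog] with n hn
    refine le_trans hn (mul_le_mul_of_nonneg_right (le_max_left _ _) (Nat.cast_nonneg _))
  have hlogt : Tendsto (fun n => Real.log (Nat.card (G n))) atTop atTop :=
    Real.tendsto_log_atTop.comp hcard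
  have hk : Tendsto (fun n => (k n : ℝ)) atTop atTop := by
    have h1 : Tendsto (fun n => Real.log (Nat.card (G n)) / C) atTop atTop :=
      hlogt.atTop_div_const hC0
    refine tendsto_atTop_mono' atTop ?_ h1
    filter_upwards [hlogC] with n hn
    rw [div_le_iff₀ hC0]
    linarith
  have hkN : Tendsto k atTop atTop := tendsto_natCast_atTop_iff.1 hk
  have hk0 : ∀ᶠ n in atTop, 0 < k n := hkN.eventually (eventually_gt_atTop 0)
  -- the main claim along subsequences
  have key : ∀ ns : ℕ → ℕ, Tendsto ns atTop atTop → ∃ ms : ℕ → ℕ,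
      (∀ ε : ℝ, 0 < ε → ε < 1 → Tendsto (fun n => Eav (G (ns (ms n))) (k (ns (ms n)))
        ((1 - ε) * tMix (G (ns (ms n))) (k (ns (ms n))))) atTop (𝓝 1)) ∧
      (∀ ε : ℝ, 0 < ε → Tendsto (fun n => Eav (G (ns (ms n))) (k (ns (ms n)))
        ((1 + ε) * tMix (G (ns (ms n))) (k (ns (ms n))))) atTop (𝓝 0)) := by
    intro ns hns
    by_cases hB : ∃ c : ℝ, 0 < c ∧ ∀ᶠ j in atTop, ∀ m : ℕ, (m : ℝ) ≤ c * (k (ns j) : ℝ) →
        ¬ good (G (ns j)) (k (ns j)) m
    · obtain ⟨c, hc, hgood⟩ := hB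
      refine ⟨fun n => n, ?_⟩
      exact caseB hA hT2 hP1 hD hF hS (fun j => G (ns j)) (fun j => k (ns j)) C δ c hC0 hδ hc
        (fun n => hnil _) (hk.comp hns) (hns.eventually hlogC) (hns.eventually hgen) hgood
    · push Not at hB
      have hex : ∀ i : ℕ, ∃ j : ℕ, i ≤ j ∧ ∃ m : ℕ, (m : ℝ) ≤ 1 / ((i : ℝ) + 1) * (k (ns j) : ℝ) ∧
          good (G (ns j)) (k (ns j)) m := by
        intro i
        have h1 := hB (1 / ((i : ℝ) + 1)) (by positivity)
        obtain ⟨j, hj1, hj2⟩ := (h1.and_eventually (eventually_ge_atTop i)).exists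
        exact ⟨j, hj2, hj1⟩
      choose ms hms1 hms2 using hex
      have hmst : Tendsto ms atTop atTop := tendsto_atTop_mono hms1 tendsto_id
      have hnm : Tendsto (fun i => ns (ms i)) atTop atTop := hns.comp hmst
      refine ⟨ms, ?_⟩
      have hgoodN : ∀ i, good (G (ns (ms i))) (k (ns (ms i)))
          (nStar (G (ns (ms i))) (k (ns (ms i)))) := by
        intro i
        obtain ⟨m, _, hm⟩ := hms2 i
        exact Nat.sInf_mem (s := {n | good (G (ns (ms i))) (k (ns (ms i))) n}) ⟨m, hm⟩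
      have hNle : ∀ i, (nStar (G (ns (ms i))) (k (ns (ms i))) : ℝ) ≤
          1 / ((i : ℝ) + 1) * (k (ns (ms i)) : ℝ) := by
        intro i
        obtain ⟨m, hm1, hm⟩ := hms2 i
        have h1 : nStar (G (ns (ms i))) (k (ns (ms i))) ≤ m :=
          Nat.sInf_le (s := {n | good (G (ns (ms i))) (k (ns (ms i))) n}) hm
        exact le_trans (by exact_mod_cast h1) hm1
      have hNpos : ∀ i, (0 : ℝ) < (nStar (G (ns (ms i))) (k (ns (ms i))) : ℝ) := by
        intro i
        exact_mod_cast (hgoodN i).1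
      have hreg : Reg (fun i => G (ns (ms i))) (fun i => k (ns (ms i))) := by
        refine ⟨hcard.comp hnm, hsmall.comp hnm, Eventually.of_forall hgoodN, ?_⟩
        refine tendsto_atTop_mono (f := fun i : ℕ => (i : ℝ) + 1) ?_
          (tendsto_atTop_add_const_right _ _ tendsto_natCast_atTop_atTop)
        intro i
        rw [le_div_iff₀ (hNpos i)]
        have h1 := hNle i
        have h2 : (0 : ℝ) < (i : ℝ) + 1 := by positivity
        calc ((i : ℝ) + 1) * (nStar (G (ns (ms i))) (k (ns (ms i))) : ℝ) ≤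
              ((i : ℝ) + 1) * (1 / ((i : ℝ) + 1) * (k (ns (ms i)) : ℝ)) :=
              mul_le_mul_of_nonneg_left h1 h2.le
          _ = (k (ns (ms i)) : ℝ) := by field_simp
      obtain ⟨hlow, hup⟩ := hM (fun i => G (ns (ms i))) (fun i => k (ns (ms i)))
        (fun i => hnil _) hreg
      exact caseA hA (fun i => G (ns (ms i))) (fun i => k (ns (ms i)))
        (fun i => (nStar (G (ns (ms i))) (k (ns (ms i))) : ℝ)) (hnm.eventually hk0)
        (Eventually.of_forall hNpos) hlow hup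
  refine ⟨fun n => tMix (G n) (k n), ?_, ?_⟩
  · intro ε hε hε1 δ' hδ'
    have h1 : Tendsto (fun n => Eav (G n) (k n) ((1 - ε) * tMix (G n) (k n))) atTop (𝓝 1) := by
      apply tendsto_of_subseq_tendsto
      intro ns hns
      obtain ⟨ms, h2, _⟩ := key ns hns
      exact ⟨ms, h2 ε hε hε1⟩
    apply tends_one
    · exact Eventually.of_forall fun n => prob_le_one _ _
    · intro η hη
      have h3 := (tendsto_order.1 h1).1 (1 - η * δ') (by nlinarith)
      filter_upwards [h3, hk0] with n hn hkn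
      have h4 := prob_low (G := G n) hA hkn
        (show 0 ≤ (1 - ε) * tMix (G n) (k n) from mul_nonneg (by linarith) tMix_nonneg) hδ'
      refine le_trans ?_ h4
      have h5 : (1 - Eav (G n) (k n) ((1 - ε) * tMix (G n) (k n))) / δ' ≤ η := by
        rw [div_le_iff₀ hδ']
        linarith
      linarith
  · intro ε hε δ' hδ'
    have h1 : Tendsto (fun n => Eav (G n) (k n) ((1 + ε) * tMix (G n) (k n))) atTop (𝓝 0) := by
      apply tendsto_of_subseq_tendsto
      intro ns hns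
      obtain ⟨ms, _, h2⟩ := key ns hns
      exact ⟨ms, h2 ε hε⟩
    apply tends_one
    · exact Eventually.of_forall fun n => prob_le_one _ _
    · intro η hη
      have h3 := (tendsto_order.1 h1).2 (η * δ') (by positivity)
      filter_upwards [h3, hk0] with n hn hkn
      have h4 := prob_up (G := G n) hA hkn
        (show 0 ≤ (1 + ε) * tMix (G n) (k n) from mul_nonneg (by linarith) tMix_nonneg) hδ'
      refine le_trans ?_ h4
      have h5 : Eav (G n) (k n) ((1 + ε) * tMix (G n) (k n)) / δ' ≤ η := by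
        rw [div_le_iff₀ hδ']
        linarith
      linarith

end NilCut
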