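import Pool.Agent.Lib.MP_4ddf81_pr.Stm2

namespace NilCut

theorem p_MaxH : S_MaxH := by
  intro G _ _ hnil H hH
  obtain ⟨M, hM, hHM⟩ := (eq_top_or_exists_le_coatom H).resolve_left hH
  have : Group.IsNilpotent G := hnil
  have hMn : M.Normal :=
    Subgroup.NormalizerCondition.normal_of_coatom M Group.normalizerCondition_of_isNilpotent hM
  have hnt : Nontrivial (G ⧸ M) := by
    rw [QuotientGroup.nontrivial_iff]
    exact hM.1
  have hsimple : IsSimpleGroup (G ⧸ M) := by
    refine ⟨fun K _ => ?_⟩
    have h1 : M ≤ K.comap (QuotientGroup.mk' M) := by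
      intro x hx
      rw [Subgroup.mem_comap]
      have : QuotientGroup.mk' M x = 1 := (QuotientGroup.eq_one_iff x).2 hx
      rw [this]
      exact K.one_mem
    rcases eq_or_lt_of_le h1 with h2 | h2
    · left
      have h3 := Subgroup.map_comap_eq_self_of_surjective (QuotientGroup.mk'_surjective M) K
      rw [← h3, ← h2, Subgroup.map_eq_bot_iff, QuotientGroup.ker_mk']
    · right
      have h3 := Subgroup.map_comap_eq_self_of_surjective (QuotientGroup.mk'_surjective M) K
      rw [← h3, hM.2 _ h2]
      exact Subgroup.map_top_of_surjective _ (QuotientGroup.mk'_surjective M)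
  have : Group.IsNilpotent (G ⧸ M) := inferInstance
  have hcyc : IsCyclic (G ⧸ M) := inferInstance
  have hp : (Nat.card (G ⧸ M)).Prime := by
    letI : CommGroup (G ⧸ M) := IsCyclic.commGroup
    exact CommGroup.is_simple_iff_prime_card.1 hsimple
  refine ⟨Nat.card (G ⧸ M), hp, Subgroup.card_quotient_dvd_card M,
    (zmodCyclicMulEquiv hcyc).symm.toMonoidHom.comp (QuotientGroup.mk' M), ?_, ?_⟩
  · intro h
    apply hM.1
    rw [Subgroup.eq_top_iff']
    intro x
    have h1 := DFunLike.congr_fun h x
    rw [← QuotientGroup.eq_one_iff]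
    have h2 : (zmodCyclicMulEquiv hcyc).symm (QuotientGroup.mk' M x) = 1 := h1
    exact (MulEquiv.map_eq_one_iff _).1 h2
  · intro h hh
    have h1 : QuotientGroup.mk' M h = 1 := (QuotientGroup.eq_one_iff h).2 (hHM hh)
    show (zmodCyclicMulEquiv hcyc).symm (QuotientGroup.mk' M h) = 1
    rw [h1, map_one]

end NilCut
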