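import Pool.Agent.Lib.MP_4ddf81_pr.Stm2

namespace NilCut

theorem p_Mean : S_Mean := by
  classical
  intro G _ _ d ρ hρ hnt
  by_contra hE
  set E : Matrix (Fin d) (Fin d) ℂ := ∑ g : G, ρ g with hEdef
  have hmul : ∀ h, ρ h * E = E := by
    intro h
    rw [hEdef, Finset.mul_sum]
    refine Fintype.sum_equiv (Equiv.mulLeft h) _ _ (fun g => ?_)
    rw [← map_mul]
    rfl
  have hT : ∀ A : Matrix (Fin d) (Fin d) ℂ, ∃ c : ℂ, A * E = c • E := by
    intro A
    have hA : A ∈ Submodule.span ℂ (Set.range ρ) := by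
      have : Submodule.span ℂ (Set.range ρ) = ⊤ := hρ
      rw [this]
      exact Submodule.mem_top
    refine Submodule.span_induction (p := fun A _ => ∃ c : ℂ, A * E = c • E) ?_ ?_ ?_ ?_ hA
    · rintro _ ⟨h, rfl⟩
      exact ⟨1, by rw [hmul, one_smul]⟩
    · exact ⟨0, by rw [zero_mul, zero_smul]⟩
    · rintro x y _ _ ⟨a, ha⟩ ⟨b, hb⟩
      exact ⟨a + b, by rw [add_mul, ha, hb, add_smul]⟩
    · rintro r x _ ⟨a, ha⟩
      exact ⟨r * a, by rw [smul_mul_assoc, ha, smul_smul]⟩
  obtain ⟨i0, j0, h0⟩ : ∃ i j, E i j ≠ 0 := by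
    by_contra hcon
    push Not at hcon
    exact hE (Matrix.ext fun i j => hcon i j)
  have hsub : ∀ i, i = i0 := by
    intro i
    by_contra hi
    obtain ⟨c, hc⟩ := hT (Matrix.single i i0 1)
    have h1 := congrFun (congrFun hc i) j0
    have h2 := congrFun (congrFun hc i0) j0
    rw [Matrix.single_mul_apply_same, one_mul, Matrix.smul_apply, smul_eq_mul] at h1
    rw [Matrix.single_mul_apply_of_ne _ _ _ _ _ (fun h => hi h.symm), Matrix.smul_apply, smul_eq_mul] at h2
    rcases mul_eq_zero.mp h2.symm with h3 | h3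
    · rw [h3, zero_mul] at h1
      exact h0 h1
    · exact h0 h3
  obtain ⟨g, hg⟩ := hnt
  apply hg
  have h1 := congrFun (congrFun (hmul g) i0) j0
  rw [Matrix.mul_apply] at h1
  have h2 : ∑ j, ρ g i0 j * E j j0 = ρ g i0 i0 * E i0 j0 := by
    rw [Finset.sum_eq_single i0]
    · intro b _ hb
      exact absurd (hsub b) hb
    · intro h
      exact absurd (Finset.mem_univ _) h
  rw [h2] at h1
  have h3 : ρ g i0 i0 = 1 := mul_right_cancel₀ h0 (by rw [h1, one_mul])
  rw [Matrix.trace, Finset.sum_eq_single i0]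
  · exact h3
  · intro b _ hb
    exact absurd (hsub b) hb
  · intro h
    exact absurd (Finset.mem_univ _) h

end NilCut
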