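import Pool.Agent.Lib.MP_4ddf81_pr.Stm2

namespace NilCut

theorem p_Mono (hP : S_Pop2) : S_Mono := by
  intro G _ _ hG P
  have key : ∀ i : P.ι, ∃ (H : Subgroup G) (lam : H →* ℂˣ), H.index = P.d i ∧
      ∀ g, (P.ρ i g).trace = indL H lam g := by
    intro i
    obtain ⟨H, F₁, hidx, hsub, hF₁, hcard⟩ := hP G hG (P.d i) (P.pos i)
      {fun g => (P.ρ i g).trace} (Finset.singleton_nonempty _) (by
        intro χ hχ
        rw [Finset.mem_singleton] at hχ
        subst hχ
        exact ⟨P.ρ i, P.irr i, fun g => rfl⟩)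
    have hne : F₁.Nonempty := by
      rw [← Finset.card_pos]
      by_contra h0
      have h1 : F₁.card = 0 := by omega
      rw [h1, Finset.card_singleton, Nat.cast_zero, mul_zero, Nat.cast_one] at hcard
      linarith
    obtain ⟨χ, hχ⟩ := hne
    have hχ' := Finset.mem_singleton.1 (hsub hχ)
    obtain ⟨lam, hlam⟩ := hF₁ χ hχ
    refine ⟨H, lam, hidx, fun g => ?_⟩
    rw [← hlam g, hχ']
  choose H lam h1 h2 using key
  exact ⟨⟨H, lam, h1, h2⟩⟩

end NilCut
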