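import Pool.Agent.Lib.MP_4ddf81_pr.Stm2

/-!
# MP_4ddf81_pr, stage 2 : the occupation numbers of the states (helper42)
-/

namespace NilCut

open Filter Topology

namespace OccP

variable {Q : Type} [Group Q]

private lemma st_snoc {k n : ℕ} (z : Fin k → Q) (u : Fin n → Fin k) (l : Fin k) (j : ℕ)
    (hj : j ≤ n) : st z (Fin.snoc u l : Fin (n + 1) → Fin k) j = st z u j := by
  unfold st
  rw [List.ofFn_succ']
  simp only [Fin.snoc_castSucc, Fin.snoc_last, List.concat_eq_append]
  rw [List.take_append_of_le_length (by simpa using hj)]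

private lemma st_snoc_last {k n : ℕ} (z : Fin k → Q) (u : Fin n → Fin k) (l : Fin k) :
    st z (Fin.snoc u l : Fin (n + 1) → Fin k) (n + 1) = st z u n * z l := by
  unfold st
  rw [List.ofFn_succ']
  simp only [Fin.snoc_castSucc, Fin.snoc_last, List.concat_eq_append]
  rw [List.take_of_length_le (by simp), List.take_of_length_le (by simp), List.prod_append]
  simp

open Classical in
/-- empirical frequency -/
private noncomputable def nu {k : ℕ} (z : Fin k → Q) (q : Q) : ℝ :=
  (∑ i, if z i = q then (1 : ℝ) else 0) / k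

open Classical in
private noncomputable def xi {k n : ℕ} (z : Fin k → Q) (a : Q) (w : Fin n → Fin k) (j : ℕ) : ℝ :=
  (if st z w (j + 1) = a then 1 else 0) - nu z ((st z w j)⁻¹ * a)

private noncomputable def BB {k n : ℕ} (z : Fin k → Q) (a : Q) (w : Fin n → Fin k) : ℝ :=
  ∑ j ∈ Finset.range n, xi z a w j

omit [Group Q] in
private lemma nu_nonneg {k : ℕ} (z : Fin k → Q) (q : Q) : 0 ≤ nu z q := by
  unfold nu
  exact div_nonneg (Finset.sum_nonneg fun i _ => by split_ifs <;> norm_num) (Nat.cast_nonneg _)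

omit [Group Q] in
private lemma nu_le_one {k : ℕ} (hk : 0 < k) (z : Fin k → Q) (q : Q) : nu z q ≤ 1 := by
  classical
  unfold nu
  rw [div_le_one (by exact_mod_cast hk)]
  calc ∑ i : Fin k, (if z i = q then (1 : ℝ) else 0) ≤ ∑ _i : Fin k, (1 : ℝ) :=
        Finset.sum_le_sum fun i _ => by split_ifs <;> norm_num
    _ = k := by simp

open Classical in
private lemma BB_snoc {k n : ℕ} (z : Fin k → Q) (a : Q) (u : Fin n → Fin k) (l : Fin k) :
    BB z a (Fin.snoc u l : Fin (n + 1) → Fin k) =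
      BB z a u + ((if z l = (st z u n)⁻¹ * a then 1 else 0) - nu z ((st z u n)⁻¹ * a)) := by
  unfold BB
  rw [Finset.sum_range_succ]
  congr 1
  · apply Finset.sum_congr rfl
    intro j hj
    rw [Finset.mem_range] at hj
    unfold xi
    rw [st_snoc z u l (j + 1) hj, st_snoc z u l j hj.le]
  · unfold xi
    rw [st_snoc_last, st_snoc z u l n le_rfl]
    congr 1
    by_cases h : z l = (st z u n)⁻¹ * a
    · rw [if_pos h, if_pos (by rw [h]; group)]
    · rw [if_neg h, if_neg (fun h' => h (by rw [← h']; group))]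

private lemma sum_snoc {k n : ℕ} (F : (Fin (n + 1) → Fin k) → ℝ) :
    ∑ w, F w = ∑ u : Fin n → Fin k, ∑ l : Fin k, F (Fin.snoc u l : Fin (n + 1) → Fin k) := by
  rw [← (Fin.snocEquiv (fun _ : Fin (n + 1) => Fin k)).sum_comp F, Fintype.sum_prod_type_right]
  rfl

private lemma sum_sq {k : ℕ} (hk : 0 < k) (z : Fin k → Q) (a : Q) : ∀ n : ℕ,
    ∑ w : Fin n → Fin k, (BB z a w) ^ 2 ≤ (n : ℝ) * (k : ℝ) ^ n := by
  classical
  intro n
  induction n with
  | zero => simp [BB]
  | succ n ih =>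
      rw [sum_snoc]
      have hk0 : (0 : ℝ) < k := by exact_mod_cast hk
      have h : ∀ u : Fin n → Fin k, ∑ l : Fin k,
          (BB z a (Fin.snoc u l : Fin (n + 1) → Fin k)) ^ 2 ≤ k * (BB z a u) ^ 2 + k := by
        intro u
        simp only [BB_snoc]
        set q := (st z u n)⁻¹ * a with hq
        have h0 : ∑ l : Fin k, (((if z l = q then 1 else 0) : ℝ) - nu z q) = 0 := by
          rw [Finset.sum_sub_distrib, Finset.sum_const, Finset.card_univ, Fintype.card_fin,
            nsmul_eq_mul]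
          unfold nu
          field_simp
          simp
        have h1 : ∀ l : Fin k, (((if z l = q then 1 else 0) : ℝ) - nu z q) ^ 2 ≤ 1 := by
          intro l
          have := nu_nonneg z q
          have := nu_le_one hk z q
          split_ifs <;> nlinarith
        calc ∑ l : Fin k, (BB z a u + (((if z l = q then 1 else 0) : ℝ) - nu z q)) ^ 2
            = ∑ l : Fin k, ((BB z a u) ^ 2 + 2 * BB z a u *
                (((if z l = q then 1 else 0) : ℝ) - nu z q) +
                (((if z l = q then 1 else 0) : ℝ) - nu z q) ^ 2) :=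
              Finset.sum_congr rfl fun l _ => by ring
          _ = k * (BB z a u) ^ 2 + ∑ l : Fin k, (((if z l = q then 1 else 0) : ℝ) - nu z q) ^ 2 := by
              rw [Finset.sum_add_distrib, Finset.sum_add_distrib, ← Finset.mul_sum, h0,
                Finset.sum_const, Finset.card_univ, Fintype.card_fin, nsmul_eq_mul]
              ring
          _ ≤ k * (BB z a u) ^ 2 + ∑ _l : Fin k, (1 : ℝ) := by
              gcongr with l _
              exact h1 l
          _ = k * (BB z a u) ^ 2 + k := by simp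
      calc ∑ u : Fin n → Fin k, ∑ l : Fin k, (BB z a (Fin.snoc u l : Fin (n + 1) → Fin k)) ^ 2
          ≤ ∑ u : Fin n → Fin k, (k * (BB z a u) ^ 2 + k) := Finset.sum_le_sum fun u _ => h u
        _ = k * ∑ u : Fin n → Fin k, (BB z a u) ^ 2 + (k : ℝ) ^ n * k := by
            rw [Finset.sum_add_distrib, ← Finset.mul_sum, Finset.sum_const, Finset.card_univ,
              nsmul_eq_mul]
            simp
        _ ≤ k * ((n : ℝ) * (k : ℝ) ^ n) + (k : ℝ) ^ n * k := by gcongr
        _ = ((n + 1 : ℕ) : ℝ) * (k : ℝ) ^ (n + 1) := by push_cast; ring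

private lemma sum_cons {X : Type} [Fintype X] {k : ℕ} (F : (Fin (k + 1) → X) → ℝ) :
    ∑ w, F w = ∑ x : X, ∑ u : Fin k → X, F (Fin.cons x u : Fin (k + 1) → X) := by
  rw [← (Fin.consEquiv (fun _ : Fin (k + 1) => X)).sum_comp F, Fintype.sum_prod_type]
  rfl

private lemma var_sum {X : Type} [Fintype X] (y : X → ℝ) (hy : ∑ x, y x = 0) : ∀ k : ℕ,
    (Fintype.card X : ℝ) * ∑ z : Fin k → X, (∑ i, y (z i)) ^ 2 =
      (k : ℝ) * (Fintype.card X : ℝ) ^ k * ∑ x, y x ^ 2 := by
  intro k
  induction k with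
  | zero => simp
  | succ k ih =>
      rw [sum_cons]
      have h : ∑ x : X, ∑ u : Fin k → X, (∑ i, y ((Fin.cons x u : Fin (k + 1) → X) i)) ^ 2 =
          (Fintype.card X : ℝ) ^ k * ∑ x, y x ^ 2 +
            (Fintype.card X : ℝ) * ∑ u : Fin k → X, (∑ i, y (u i)) ^ 2 := by
        have e : ∀ (x : X) (u : Fin k → X),
            (∑ i, y ((Fin.cons x u : Fin (k + 1) → X) i)) ^ 2 =
            y x ^ 2 + 2 * y x * (∑ i, y (u i)) + (∑ i, y (u i)) ^ 2 := by
          intro x u
          rw [Fin.sum_univ_succ]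
          simp only [Fin.cons_zero, Fin.cons_succ]
          ring
        simp only [e, Finset.sum_add_distrib]
        have e1 : ∑ x : X, ∑ _u : Fin k → X, y x ^ 2 = (Fintype.card X : ℝ) ^ k * ∑ x, y x ^ 2 := by
          simp only [Finset.sum_const, Finset.card_univ, nsmul_eq_mul, ← Finset.mul_sum]
          simp
        have e2 : ∑ x : X, ∑ u : Fin k → X, 2 * y x * (∑ i, y (u i)) = 0 := by
          simp only [← Finset.mul_sum]
          rw [← Finset.sum_mul, ← Finset.mul_sum, hy]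
          ring
        have e3 : ∑ _x : X, ∑ u : Fin k → X, (∑ i, y (u i)) ^ 2 =
            (Fintype.card X : ℝ) * ∑ u : Fin k → X, (∑ i, y (u i)) ^ 2 := by
          rw [Finset.sum_const, Finset.card_univ, nsmul_eq_mul]
        rw [e1, e2, e3]
        ring
      rw [h, ih]
      push_cast
      ring

private lemma nu_var [Fintype Q] {k : ℕ} (hk : 0 < k) :
    ∑ z : Fin k → Q, ∑ q : Q, (nu z q - 1 / (Fintype.card Q : ℝ)) ^ 2 ≤
      (Fintype.card Q : ℝ) ^ k / k := by
  classical
  have hk0 : (0 : ℝ) < k := by exact_mod_cast hk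
  have hJ : (0 : ℝ) < Fintype.card Q := by exact_mod_cast Fintype.card_pos
  rw [Finset.sum_comm]
  have h : ∀ q : Q, ∑ z : Fin k → Q, (nu z q - 1 / (Fintype.card Q : ℝ)) ^ 2 ≤
      (Fintype.card Q : ℝ) ^ k / k / (Fintype.card Q : ℝ) := by
    intro q
    set y : Q → ℝ := fun x => (if x = q then 1 else 0) - 1 / (Fintype.card Q : ℝ) with hy
    have hy0 : ∑ x, y x = 0 := by
      simp only [hy]
      rw [Finset.sum_sub_distrib, Finset.sum_const, Finset.card_univ, nsmul_eq_mul]
      simp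
    have hy2 : ∑ x, y x ^ 2 ≤ 1 := by
      have e : ∀ x, y x ^ 2 = (if x = q then 1 else 0) - 2 / (Fintype.card Q : ℝ) *
          (if x = q then 1 else 0) + 1 / (Fintype.card Q : ℝ) ^ 2 := by
        intro x
        simp only [hy]
        split_ifs <;> ring
      simp only [e]
      rw [Finset.sum_add_distrib, Finset.sum_sub_distrib, ← Finset.mul_sum, Finset.sum_const,
        Finset.card_univ, nsmul_eq_mul]
      simp only [Finset.sum_ite_eq', Finset.mem_univ, if_true]
      have h1 : (Fintype.card Q : ℝ) * (1 / (Fintype.card Q : ℝ) ^ 2) =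
          1 / (Fintype.card Q : ℝ) := by field_simp
      rw [h1]
      have h2 : 0 < 1 / (Fintype.card Q : ℝ) := by positivity
      have h3 : 2 / (Fintype.card Q : ℝ) * 1 = 2 * (1 / (Fintype.card Q : ℝ)) := by ring
      rw [h3]
      linarith
    have hv := var_sum y hy0 k
    have e2 : ∀ z : Fin k → Q, nu z q - 1 / (Fintype.card Q : ℝ) = (∑ i, y (z i)) / k := by
      intro z
      simp only [hy]
      rw [Finset.sum_sub_distrib, Finset.sum_const, Finset.card_univ, Fintype.card_fin,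
        nsmul_eq_mul]
      unfold nu
      field_simp
    simp only [e2, div_pow]
    rw [← Finset.sum_div]
    have h4 : ∑ z : Fin k → Q, (∑ i, y (z i)) ^ 2 ≤
        (k : ℝ) * (Fintype.card Q : ℝ) ^ k / (Fintype.card Q : ℝ) := by
      rw [le_div_iff₀ hJ, mul_comm, hv]
      calc (k : ℝ) * (Fintype.card Q : ℝ) ^ k * ∑ x, y x ^ 2 ≤
            (k : ℝ) * (Fintype.card Q : ℝ) ^ k * 1 := by gcongr
        _ = _ := mul_one _
    calc (∑ z : Fin k → Q, (∑ i, y (z i)) ^ 2) / (k : ℝ) ^ 2 ≤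
          ((k : ℝ) * (Fintype.card Q : ℝ) ^ k / (Fintype.card Q : ℝ)) / (k : ℝ) ^ 2 := by gcongr
      _ = (Fintype.card Q : ℝ) ^ k / k / (Fintype.card Q : ℝ) := by field_simp
  calc ∑ q : Q, ∑ z : Fin k → Q, (nu z q - 1 / (Fintype.card Q : ℝ)) ^ 2 ≤
        ∑ _q : Q, (Fintype.card Q : ℝ) ^ k / k / (Fintype.card Q : ℝ) :=
        Finset.sum_le_sum fun q _ => h q
    _ = (Fintype.card Q : ℝ) ^ k / k := by
        rw [Finset.sum_const, Finset.card_univ, nsmul_eq_mul]
        field_simp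

open Classical in
private lemma occ_eq {k n : ℕ} (z : Fin k → Q) (w : Fin n → Fin k) (a : Q) :
    (occ z w a : ℝ) = ∑ j ∈ Finset.range n, (if st z w j = a then (1 : ℝ) else 0) := by
  unfold occ
  rw [Finset.card_filter]
  push_cast
  rw [← Fin.sum_univ_eq_sum_range (fun j => if st z w j = a then (1 : ℝ) else 0) n]

private lemma occ_le {k n : ℕ} (z : Fin k → Q) (w : Fin n → Fin k) (a : Q) :
    (occ z w a : ℝ) ≤ BB z a w + ∑ j ∈ Finset.range n, nu z ((st z w j)⁻¹ * a) + 1 := by
  classical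
  rw [occ_eq]
  unfold BB xi
  rw [Finset.sum_sub_distrib]
  have h := Finset.sum_range_succ (fun j => if st z w j = a then (1 : ℝ) else 0) n
  have h' := Finset.sum_range_succ' (fun j => if st z w j = a then (1 : ℝ) else 0) n
  have h1 : (if st z w 0 = a then (1 : ℝ) else 0) ≤ 1 := by split_ifs <;> norm_num
  have h2 : (0 : ℝ) ≤ (if st z w n = a then (1 : ℝ) else 0) := by split_ifs <;> norm_num
  linarith

end OccP

open OccP in
theorem p_Occ : S_Occ := by
  classical
  intro Q _ _ k n ε hε hk3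
  have hkr : (0 : ℝ) < k := by
    by_contra h
    have : (k : ℝ) = 0 := le_antisymm (not_lt.1 h) (Nat.cast_nonneg _)
    rw [this] at hk3
    linarith
  have hk : 0 < k := by exact_mod_cast hkr
  have hJ : (0 : ℝ) < Fintype.card Q := by exact_mod_cast Fintype.card_pos
  set J : ℝ := (Fintype.card Q : ℝ) with hJdef
  have hek : 0 < ε * k := by positivity
  set f : (Fin k → Q) × (Fin n → Fin k) → ℝ := fun p =>
    ∑ b : Q, 9 * (BB p.1 b p.2) ^ 2 / (ε * k) ^ 2 +
      9 * (n : ℝ) ^ 2 / (ε * k) ^ 2 * ∑ q : Q, (nu p.1 q - 1 / J) ^ 2 with hf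
  have hf0 : ∀ p, 0 ≤ f p := by
    intro p
    simp only [hf]
    apply add_nonneg
    · exact Finset.sum_nonneg fun b _ => by positivity
    · exact mul_nonneg (by positivity) (Finset.sum_nonneg fun q _ => sq_nonneg _)
  have hone : ∀ p : (Fin k → Q) × (Fin n → Fin k),
      (∃ b, (n : ℝ) / J + ε * (k : ℝ) < (occ p.1 p.2 b : ℝ)) → 1 ≤ f p := by
    rintro ⟨z, w⟩ ⟨b, hb⟩
    simp only at hb
    have h1 := occ_le z w b
    by_cases hB : ε * k / 3 < |BB z b w|
    · have h2 : 1 ≤ 9 * (BB z b w) ^ 2 / (ε * k) ^ 2 := by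
        rw [one_le_div (by positivity), ← sq_abs (BB z b w)]
        have : (ε * k / 3) ^ 2 ≤ |BB z b w| ^ 2 := pow_le_pow_left₀ (by positivity) hB.le 2
        nlinarith
      have h3 : 9 * (BB z b w) ^ 2 / (ε * k) ^ 2 ≤ ∑ b : Q, 9 * (BB z b w) ^ 2 / (ε * k) ^ 2 :=
        Finset.single_le_sum (f := fun b => 9 * (BB z b w) ^ 2 / (ε * k) ^ 2)
          (fun b _ => by positivity) (Finset.mem_univ b)
      have h4 : 0 ≤ 9 * (n : ℝ) ^ 2 / (ε * k) ^ 2 * ∑ q : Q, (nu z q - 1 / J) ^ 2 :=
        mul_nonneg (by positivity) (Finset.sum_nonneg fun q _ => sq_nonneg _)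
      simp only [hf]
      linarith
    · push Not at hB
      have h2 : ε * k / 3 < ∑ j ∈ Finset.range n, (nu z ((st z w j)⁻¹ * b) - 1 / J) := by
        rw [Finset.sum_sub_distrib, Finset.sum_const, Finset.card_range, nsmul_eq_mul]
        have h5 := le_abs_self (BB z b w)
        have h6 : (n : ℝ) * (1 / J) = n / J := by ring
        rw [h6]
        linarith
      -- some frequency is far from the mean
      obtain ⟨q, hq⟩ : ∃ q : Q, ε * k / 3 < n * |nu z q - 1 / J| := by
        by_contra hcon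
        push Not at hcon
        rcases Nat.eq_zero_or_pos n with hn | hn
        · subst hn
          simp at h2
          linarith
        have hn0 : (0 : ℝ) < n := by exact_mod_cast hn
        have h7 : ∑ j ∈ Finset.range n, (nu z ((st z w j)⁻¹ * b) - 1 / J) ≤
            ∑ _j ∈ Finset.range n, (ε * k / 3) / n := by
          apply Finset.sum_le_sum
          intro j _
          have h8 := hcon ((st z w j)⁻¹ * b)
          rw [le_div_iff₀ hn0, mul_comm]
          exact (mul_le_mul_of_nonneg_left (le_abs_self _) hn0.le).trans h8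
        rw [Finset.sum_const, Finset.card_range, nsmul_eq_mul] at h7
        have h9 : (n : ℝ) * (ε * k / 3 / n) = ε * k / 3 := by field_simp
        rw [h9] at h7
        linarith
      have h3 : 1 ≤ 9 * (n : ℝ) ^ 2 / (ε * k) ^ 2 * (nu z q - 1 / J) ^ 2 := by
        have h5 : (ε * k / 3) ^ 2 ≤ (n * |nu z q - 1 / J|) ^ 2 :=
          pow_le_pow_left₀ (by positivity) hq.le 2
        rw [mul_pow, sq_abs] at h5
        rw [div_mul_eq_mul_div, one_le_div (by positivity)]
        nlinarith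
      have h4 : (nu z q - 1 / J) ^ 2 ≤ ∑ q : Q, (nu z q - 1 / J) ^ 2 :=
        Finset.single_le_sum (f := fun q => (nu z q - 1 / J) ^ 2)
          (fun q _ => sq_nonneg _) (Finset.mem_univ q)
      have h5 : 9 * (n : ℝ) ^ 2 / (ε * k) ^ 2 * (nu z q - 1 / J) ^ 2 ≤
          9 * (n : ℝ) ^ 2 / (ε * k) ^ 2 * ∑ q : Q, (nu z q - 1 / J) ^ 2 :=
        mul_le_mul_of_nonneg_left h4 (by positivity)
      have h6 : 0 ≤ ∑ b : Q, 9 * (BB z b w) ^ 2 / (ε * k) ^ 2 :=
        Finset.sum_nonneg fun b _ => by positivity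
      simp only [hf]
      linarith
  -- counting
  have hcard : (Nat.card {p : (Fin k → Q) × (Fin n → Fin k) //
      ∃ b, (n : ℝ) / J + ε * (k : ℝ) < (occ p.1 p.2 b : ℝ)} : ℝ) ≤ ∑ p, f p := by
    rw [Nat.card_eq_fintype_card, Fintype.card_subtype, Finset.card_filter]
    push_cast
    apply Finset.sum_le_sum
    intro p _
    split_ifs with h
    · exact hone p h
    · exact hf0 p
  refine hcard.trans ?_
  simp only [hf]
  rw [Finset.sum_add_distrib]
  have hA : ∑ p : (Fin k → Q) × (Fin n → Fin k), ∑ b : Q, 9 * (BB p.1 b p.2) ^ 2 / (ε * k) ^ 2 ≤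
      J ^ k * (k : ℝ) ^ n * (9 * J * n / (ε * k) ^ 2) := by
    rw [Fintype.sum_prod_type]
    have h : ∀ z : Fin k → Q, ∑ w : Fin n → Fin k, ∑ b : Q, 9 * (BB z b w) ^ 2 / (ε * k) ^ 2 ≤
        (k : ℝ) ^ n * (9 * J * n / (ε * k) ^ 2) := by
      intro z
      rw [Finset.sum_comm]
      have h' : ∀ b : Q, ∑ w : Fin n → Fin k, 9 * (BB z b w) ^ 2 / (ε * k) ^ 2 ≤
          9 * ((n : ℝ) * (k : ℝ) ^ n) / (ε * k) ^ 2 := by
        intro b
        rw [← Finset.sum_div, ← Finset.mul_sum]
        have := sum_sq hk z b n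
        gcongr
      calc ∑ b : Q, ∑ w : Fin n → Fin k, 9 * (BB z b w) ^ 2 / (ε * k) ^ 2 ≤
            ∑ _b : Q, 9 * ((n : ℝ) * (k : ℝ) ^ n) / (ε * k) ^ 2 :=
            Finset.sum_le_sum fun b _ => h' b
        _ = (k : ℝ) ^ n * (9 * J * n / (ε * k) ^ 2) := by
            rw [Finset.sum_const, Finset.card_univ, nsmul_eq_mul]
            ring
    calc ∑ z : Fin k → Q, ∑ w : Fin n → Fin k, ∑ b : Q, 9 * (BB z b w) ^ 2 / (ε * k) ^ 2 ≤
          ∑ _z : Fin k → Q, (k : ℝ) ^ n * (9 * J * n / (ε * k) ^ 2) :=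
          Finset.sum_le_sum fun z _ => h z
      _ = J ^ k * (k : ℝ) ^ n * (9 * J * n / (ε * k) ^ 2) := by
          rw [Finset.sum_const, Finset.card_univ, nsmul_eq_mul]
          simp only [Fintype.card_fun, Fintype.card_fin, Nat.cast_pow]
          ring
  have hB : ∑ p : (Fin k → Q) × (Fin n → Fin k),
      9 * (n : ℝ) ^ 2 / (ε * k) ^ 2 * ∑ q : Q, (nu p.1 q - 1 / J) ^ 2 ≤
      J ^ k * (k : ℝ) ^ n * (9 * (n : ℝ) ^ 2 / (ε ^ 2 * (k : ℝ) ^ 3)) := by
    rw [Fintype.sum_prod_type]
    simp only [Finset.sum_const, Finset.card_univ, nsmul_eq_mul, Fintype.card_fun,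
      Fintype.card_fin, Nat.cast_pow]
    rw [← Finset.mul_sum, ← Finset.mul_sum]
    have h := nu_var (Q := Q) hk
    calc (k : ℝ) ^ n * (9 * (n : ℝ) ^ 2 / (ε * k) ^ 2 *
          ∑ z : Fin k → Q, ∑ q : Q, (nu z q - 1 / J) ^ 2) ≤
          (k : ℝ) ^ n * (9 * (n : ℝ) ^ 2 / (ε * k) ^ 2 * (J ^ k / k)) := by gcongr
      _ = _ := by field_simp
  linarith [mul_add (J ^ k * (k : ℝ) ^ n) (9 * J * n / (ε * k) ^ 2)
    (9 * (n : ℝ) ^ 2 / (ε ^ 2 * (k : ℝ) ^ 3))]

end NilCut
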