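import Pool.Agent.Lib.MP_4ddf81_pr.Stm2
import Pool.Agent.Lib.MP_4ddf81_pr.P.Perm

/-! The sum over all permutations, for one representation. -/

namespace NilCut

namespace PermD

/-- the product formula for one degree -/
theorem degree {d : ℕ} (hd : 0 < d) (m : ℕ) (N : ℝ) :
    (N / (d : ℝ)) ^ m * ∏ j ∈ Finset.range (m + 1), ((d : ℝ) + (j : ℝ)) =
      N ^ m * ((d : ℝ) * ∏ j ∈ Finset.range m, (1 + ((j : ℝ) + 1) / (d : ℝ))) := by
  have hd' : (d : ℝ) ≠ 0 := by positivity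
  have h := Perm.degree hd m N
  apply mul_left_cancel₀ hd'
  rw [h]
  ring

end PermD

theorem p_PermD (hL : S_Loops) (hF : S_Fix) (hP : S_Phi) (hA : S_AvTr) : S_PermD := by
  intro G _ _ d ρ hd hirr m c
  have h1 : ∀ σ : Equiv.Perm (Fin m),
      ‖∑ z : Fin m → G, (ρ (altW c z * (altW c (z ∘ σ))⁻¹)).trace‖ ≤
        ((Nat.card G : ℝ) / (d : ℝ)) ^ m * (fixN d (phiP σ) : ℝ) := by
    intro σ
    rw [hA G d ρ hirr m c σ, norm_mul, norm_pow, norm_div, Complex.norm_natCast,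
      Complex.norm_natCast]
    have h2 := hL G d ρ (m + 1) (phiP σ) (fun a => c a * (c ((casP σ)⁻¹ a))⁻¹)
    gcongr
  calc ∑ σ : Equiv.Perm (Fin m),
      ‖∑ z : Fin m → G, (ρ (altW c z * (altW c (z ∘ σ))⁻¹)).trace‖
      ≤ ∑ σ : Equiv.Perm (Fin m),
        ((Nat.card G : ℝ) / (d : ℝ)) ^ m * (fixN d (phiP σ) : ℝ) :=
      Finset.sum_le_sum fun σ _ => h1 σ
    _ = ((Nat.card G : ℝ) / (d : ℝ)) ^ m *
        ∑ σ : Equiv.Perm (Fin m), (fixN d (phiP σ) : ℝ) := by rw [Finset.mul_sum]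
    _ ≤ ((Nat.card G : ℝ) / (d : ℝ)) ^ m *
        ∏ j ∈ Finset.range (m + 1), ((d : ℝ) + (j : ℝ)) := by
      have h := Perm.sumFix hF hP m d
      gcongr
    _ = _ := PermD.degree hd m _

end NilCut
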