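import Pool.Agent.Lib.MP_4ddf81_pr.Stm2

/-!
# MP_4ddf81_pr, stage 2, piece Plan
-/

namespace NilCut

namespace Plan

variable {G : Type} [Group G]

lemma tr_one (P : Planch G) (i : P.ι) : (P.ρ i 1).trace = (P.d i : ℂ) := by
  simp [Matrix.trace_one]

lemma not_nt (P : Planch G) (i : P.ι) (h : ¬ P.nt i) (g : G) : (P.ρ i g).trace = 1 := by
  by_contra hg
  exact h ⟨g, hg⟩

lemma d_one (P : Planch G) (i : P.ι) (h : ¬ P.nt i) : (P.d i : ℂ) = 1 := by
  rw [← tr_one, not_nt P i h]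

variable [Fintype G]

lemma QF_triv (P : Planch G) (i : P.ι) (h : ¬ P.nt i) (μ : G → ℝ) :
    QF (fun g => (P.ρ i g).trace) μ = (∑ g, μ g) ^ 2 := by
  unfold QF
  have : ∀ a b : G, (μ a : ℂ) * (μ b : ℂ) * (fun g => (P.ρ i g).trace) (b⁻¹ * a) =
      ((μ a * μ b : ℝ) : ℂ) := by
    intro a b
    simp only [not_nt P i h]
    push_cast
    ring
  simp only [this]
  rw [← Complex.ofReal_re ((∑ g, μ g) ^ 2)]
  congr 1
  rw [pow_two, Finset.sum_mul_sum]
  push_cast
  rfl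

open Classical in
lemma sum_all (P : Planch G) (μ : G → ℝ) :
    ∑ i, (P.d i : ℝ) * QF (fun g => (P.ρ i g).trace) μ = (Nat.card G : ℝ) * ∑ g, μ g ^ 2 := by
  unfold QF
  have h1 : ∀ i : P.ι, (P.d i : ℝ) *
      (∑ a : G, ∑ b : G, (μ a : ℂ) * (μ b : ℂ) * (fun g => (P.ρ i g).trace) (b⁻¹ * a)).re =
      ((P.d i : ℂ) * ∑ a : G, ∑ b : G, (μ a : ℂ) * (μ b : ℂ) * (P.ρ i (b⁻¹ * a)).trace).re := by
    intro i
    have : (P.d i : ℂ) = ((P.d i : ℝ) : ℂ) := by norm_num
    rw [this, Complex.re_ofReal_mul]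
  simp only [h1]
  rw [← Complex.re_sum]
  have h2 : ∑ i : P.ι, (P.d i : ℂ) *
      ∑ a : G, ∑ b : G, (μ a : ℂ) * (μ b : ℂ) * (P.ρ i (b⁻¹ * a)).trace =
      ∑ a : G, ∑ b : G, (μ a : ℂ) * (μ b : ℂ) *
        ∑ i : P.ι, (P.d i : ℂ) * (P.ρ i (b⁻¹ * a)).trace := by
    simp only [Finset.mul_sum]
    rw [Finset.sum_comm]
    refine Finset.sum_congr rfl fun a _ => ?_
    rw [Finset.sum_comm]
    refine Finset.sum_congr rfl fun b _ => ?_
    refine Finset.sum_congr rfl fun i _ => ?_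
    ring
  rw [h2]
  have h3 : ∀ a b : G, (μ a : ℂ) * (μ b : ℂ) *
        ∑ i : P.ι, (P.d i : ℂ) * (P.ρ i (b⁻¹ * a)).trace =
      if a = b then (μ a : ℂ) * (μ b : ℂ) * (Nat.card G : ℂ) else 0 := by
    intro a b
    rw [P.planch]
    have : b⁻¹ * a = 1 ↔ a = b := by
      rw [inv_mul_eq_one]
      exact eq_comm
    by_cases h : a = b
    · simp [h]
    · rw [if_neg (fun h' => h (this.1 h')), if_neg h, mul_zero]
  simp only [h3]
  simp only [Finset.sum_ite_eq, Finset.mem_univ, if_true]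
  rw [← Complex.ofReal_re ((Nat.card G : ℝ) * ∑ g, μ g ^ 2)]
  congr 1
  push_cast
  rw [Finset.mul_sum]
  refine Finset.sum_congr rfl fun a _ => ?_
  ring

open Classical in
lemma card_triv (hM : S_Mean) (P : Planch G) :
    ∑ i : P.ι, (if P.nt i then (0 : ℝ) else 1) = 1 := by
  have h1 : ∑ g : G, ∑ i : P.ι, (P.d i : ℂ) * (P.ρ i g).trace = (Nat.card G : ℂ) := by
    simp only [P.planch]
    simp
  rw [Finset.sum_comm] at h1
  have h2 : ∀ i : P.ι, ∑ g : G, (P.d i : ℂ) * (P.ρ i g).trace =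
      (Nat.card G : ℂ) * (if P.nt i then (0 : ℂ) else 1) := by
    intro i
    by_cases h : P.nt i
    · rw [if_pos h, mul_zero, ← Finset.mul_sum]
      have := hM G (P.d i) (P.ρ i) (P.irr i) h
      rw [← Matrix.trace_sum, this]
      simp
    · rw [if_neg h]
      simp only [not_nt P i h, d_one P i h]
      simp
  simp only [h2] at h1
  rw [← Finset.mul_sum] at h1
  have hG : (Nat.card G : ℂ) ≠ 0 := by
    have : 0 < Nat.card G := Nat.card_pos
    exact_mod_cast this.ne'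
  have h3 : ∑ i : P.ι, (if P.nt i then (0 : ℂ) else 1) = 1 := by
    have := mul_left_cancel₀ hG (h1.trans (mul_one _).symm)
    exact this
  have h4 : ((∑ i : P.ι, (if P.nt i then (0 : ℝ) else 1) : ℝ) : ℂ) = ((1 : ℝ) : ℂ) := by
    rw [Complex.ofReal_sum, Complex.ofReal_one, ← h3]
    refine Finset.sum_congr rfl fun i _ => ?_
    by_cases h : P.nt i <;> simp [h]
  exact Complex.ofReal_injective h4

end Plan

open Plan in
theorem p_Plan (hM : S_Mean) : S_Plan := by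
  classical
  intro G _ _ P μ
  have hG : (Nat.card G : ℝ) ≠ 0 := by
    have : 0 < Nat.card G := Nat.card_pos
    exact_mod_cast this.ne'
  set m : ℝ := ∑ h : G, μ h with hm
  have hL : (Nat.card G : ℝ) * ∑ g : G, (μ g - m / (Nat.card G : ℝ)) ^ 2 =
      (Nat.card G : ℝ) * ∑ g, μ g ^ 2 - m ^ 2 := by
    have : ∑ g : G, (μ g - m / (Nat.card G : ℝ)) ^ 2 =
        ∑ g, μ g ^ 2 - 2 * (m / (Nat.card G : ℝ)) * m +
          (Nat.card G : ℝ) * (m / (Nat.card G : ℝ)) ^ 2 := by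
      have e : ∀ g : G, (μ g - m / (Nat.card G : ℝ)) ^ 2 =
          μ g ^ 2 - 2 * (m / (Nat.card G : ℝ)) * μ g + (m / (Nat.card G : ℝ)) ^ 2 := by
        intro g
        ring
      simp only [e]
      rw [Finset.sum_add_distrib, Finset.sum_sub_distrib, ← Finset.mul_sum, ← hm]
      simp
    rw [this]
    field_simp
    ring
  rw [hL, ← sum_all P μ]
  have hs : ∑ i, (if P.nt i then
        (P.d i : ℝ) * QF (fun g => (P.ρ i g).trace) μ else 0) =
      ∑ i, ((P.d i : ℝ) * QF (fun g => (P.ρ i g).trace) μ -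
        (if P.nt i then (0 : ℝ) else 1) * m ^ 2) := by
    refine Finset.sum_congr rfl fun i _ => ?_
    by_cases h : P.nt i
    · simp [h]
    · rw [if_neg h, if_neg h, QF_triv P i h]
      have : (P.d i : ℝ) = 1 := by
        have := d_one P i h
        exact_mod_cast this
      rw [this]
      ring
  rw [Finset.sum_sub_distrib, ← Finset.sum_mul, card_triv hM P, one_mul] at hs
  exact hs.symm

end NilCut
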