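import Pool.Agent.Lib.MP_4ddf81_pr.Stm2
import Pool.Agent.Lib.MP_4ddf81_pr.P.N

/-!
# MP_4ddf81_pr, stage 2 : piece Pop2
-/

namespace NilCut

/-- characters of degree one are linear characters of the whole group -/
theorem Pop2.one (G : Type) [Group G] [Fintype G] (χ : G → ℂ) (hχ : IsIrrChar G 1 χ) :
    ∃ lam : (⊤ : Subgroup G) →* ℂˣ, ∀ g, χ g = indL ⊤ lam g := by
  classical
  obtain ⟨ρ, -, hρ⟩ := hχ
  obtain ⟨f, hf⟩ : ∃ f : G →* ℂ, ∀ g, χ g = f g :=
    ⟨Matrix.detMonoidHom.comp ρ, fun g => by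
      rw [hρ g, Matrix.trace_fin_one]
      show _ = Matrix.det (ρ g)
      rw [Matrix.det_fin_one]⟩
  refine ⟨f.toHomUnits.comp (⊤ : Subgroup G).subtype, fun g => ?_⟩
  unfold indL
  have h1 : ∀ y : G, (if h : y⁻¹ * g * y ∈ (⊤ : Subgroup G) then
      (((f.toHomUnits.comp (⊤ : Subgroup G).subtype) ⟨y⁻¹ * g * y, h⟩ : ℂˣ) : ℂ) else 0) =
      f g := by
    intro y
    rw [dif_pos (Subgroup.mem_top _)]
    show f (y⁻¹ * g * y) = f g
    rw [map_mul, map_mul, mul_comm (f y⁻¹), mul_assoc, ← map_mul f y⁻¹ y, inv_mul_cancel,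
      map_one, mul_one]
  have h2 : (Nat.card (⊤ : Subgroup G) : ℂ) = (Fintype.card G : ℂ) := by
    rw [Subgroup.card_top, Nat.card_eq_fintype_card]
  have h3 : (Fintype.card G : ℂ) ≠ 0 := by
    exact_mod_cast Fintype.card_ne_zero
  rw [h2, hf g]
  rw [Finset.sum_congr rfl fun y _ => h1 y, Finset.sum_const, Finset.card_univ, nsmul_eq_mul,
    ← mul_assoc, one_div_mul_cancel h3, one_mul]

theorem Pop2.aux (hS : S_Step) (hC : S_Clif3) (hT : S_Trans) (D : ℕ) :
    ∀ (G : Type) [Group G] [Fintype G], Group.IsNilpotent G →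
    1 ≤ D → ∀ F : Finset (G → ℂ), F.Nonempty → (∀ χ ∈ F, IsIrrChar G D χ) →
    ∃ (H : Subgroup G) (F₁ : Finset (G → ℂ)), H.index = D ∧ F₁ ⊆ F ∧
      (∀ χ ∈ F₁, ∃ lam : H →* ℂˣ, ∀ g, χ g = indL H lam g) ∧
      (F.card : ℝ) ≤ Real.exp (12 * (1 + Real.sqrt (Real.log (Nat.card G))) *
        Real.log D ^ 2) * (F₁.card : ℝ) := by
  classical
  induction D using Nat.strong_induction_on with
  | _ D ih =>
    intro G _ _ hnil hD F hF hFi
    rcases Nat.lt_or_ge D 2 with hD1 | hD2
    · have hD' : D = 1 := by omega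
      subst hD'
      refine ⟨⊤, F, Subgroup.index_top, Finset.Subset.refl _, fun χ hχ => Pop2.one G χ (hFi χ hχ),
        ?_⟩
      simp only [Nat.cast_one, Real.log_one]
      norm_num
    · obtain ⟨q, l, F₁, hq, hl, hlq, hsub, hne, htw, hcard⟩ := hS G hnil D hD2 F hF hFi
      obtain ⟨χ₀, hχ₀⟩ := hne
      obtain ⟨hidx, hqD, -⟩ := hC G D q hq (by omega) l hl hlq χ₀ (htw χ₀ hχ₀)
      have hex : ∀ χ : G → ℂ, ∃ χ' : l.ker → ℂ, χ ∈ F₁ → (IsIrrChar l.ker (D / q) χ' ∧
          ∀ x : G, (Nat.card l.ker : ℂ) * χ x =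
            ∑ y : G, (if h : y * x * y⁻¹ ∈ l.ker then χ' ⟨y * x * y⁻¹, h⟩ else 0)) := by
        intro χ
        by_cases hχ : χ ∈ F₁
        · obtain ⟨-, -, χ', h1, h2⟩ := hC G D q hq (by omega) l hl hlq χ (htw χ hχ)
          refine ⟨χ', fun _ => ⟨h1, fun x => ?_⟩⟩
          rw [h2 x]
        · exact ⟨fun _ => 0, fun h => absurd h hχ⟩
      choose c hc using hex
      have hqpos : 0 < q := hq.pos
      have hDq : D / q < D := Nat.div_lt_self (by omega) hq.one_lt
      have hDq1 : 1 ≤ D / q := Nat.div_pos (Nat.le_of_dvd (by omega) hqD) hqpos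
      have hinj : Set.InjOn c (F₁ : Set (G → ℂ)) := by
        intro χ hχ χ' hχ' heq
        have hk : (Nat.card l.ker : ℂ) ≠ 0 := by
          exact_mod_cast Nat.card_pos.ne'
        funext x
        have h1 := (hc χ hχ).2 x
        have h2 := (hc χ' hχ').2 x
        rw [heq, ← h2] at h1
        exact mul_left_cancel₀ hk h1
      haveI : Group.IsNilpotent G := hnil
      letI : Fintype l.ker := Fintype.ofFinite _
      obtain ⟨H', F₁', hH'i, hsub', hmon, hH'c⟩ := ih (D / q) hDq l.ker inferInstance hDq1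
        (F₁.image c) (Finset.image_nonempty.2 ⟨χ₀, hχ₀⟩) (by
          intro χ' hχ'
          obtain ⟨χ, hχ, rfl⟩ := Finset.mem_image.1 hχ'
          exact (hc χ hχ).1)
      have hDeq : D = q * (D / q) := (Nat.mul_div_cancel' hqD).symm
      have hF'c : (F₁.image c).card = F₁.card := Finset.card_image_of_injOn hinj
      have hF₂ : (F₁.filter (fun χ => c χ ∈ F₁')).card = F₁'.card := by
        have h1 : (F₁.filter (fun χ => c χ ∈ F₁')).image c = F₁' := by
          ext χ'
          rw [Finset.mem_image]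
          constructor
          · rintro ⟨χ, hχ, rfl⟩
            exact (Finset.mem_filter.1 hχ).2
          · intro hχ'
            obtain ⟨χ, hχ, rfl⟩ := Finset.mem_image.1 (hsub' hχ')
            exact ⟨χ, Finset.mem_filter.2 ⟨hχ, hχ'⟩, rfl⟩
        have h2 : ((F₁.filter (fun χ => c χ ∈ F₁')).image c).card =
            (F₁.filter (fun χ => c χ ∈ F₁')).card :=
          Finset.card_image_of_injOn (hinj.mono (Finset.coe_subset.2 (Finset.filter_subset _ _)))
        rw [h1] at h2
        exact h2.symm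
      refine ⟨H'.map l.ker.subtype, F₁.filter (fun χ => c χ ∈ F₁'), ?_,
        (Finset.filter_subset _ _).trans hsub, ?_, ?_⟩
      · rw [Subgroup.index_map_subtype, hH'i, hidx]
        rw [mul_comm]; exact hDeq.symm
      · intro χ hχ
        obtain ⟨h1, h2⟩ := Finset.mem_filter.1 hχ
        obtain ⟨lam, hlam⟩ := hmon (c χ) h2
        refine (hT G l.ker χ (c χ) H' lam ?_ hlam).2
        intro x
        rw [(hc χ h1).2 x]
        refine Finset.sum_congr rfl fun y _ => ?_
        by_cases hy : y * x * y⁻¹ ∈ l.ker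
        · rw [dif_pos hy, dif_pos hy]
        · rw [dif_neg hy, dif_neg hy]
      · rw [hF₂]
        have hMG : Nat.card l.ker ≤ Nat.card G :=
          Nat.card_le_card_of_injective (fun x : l.ker => (x : G)) Subtype.val_injective
        have hM1 : (1 : ℝ) ≤ (Nat.card l.ker : ℝ) := by
          exact_mod_cast Nat.card_pos
        have hin := N.ineq (Real.log (Nat.card G)) (Real.log (Nat.card l.ker)) (D : ℝ) (q : ℝ)
          ((D / q : ℕ) : ℝ) (Real.log_nonneg hM1)
          (Real.log_le_log (by linarith) (by exact_mod_cast hMG)) (by exact_mod_cast hq.two_le)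
          (by exact_mod_cast hDq1) (by exact_mod_cast hDeq)
        calc (F.card : ℝ) ≤ Real.exp ((8 * Real.sqrt (Real.log (Nat.card G)) + 7) *
              Real.log D) * (F₁.card : ℝ) := hcard
          _ = Real.exp ((8 * Real.sqrt (Real.log (Nat.card G)) + 7) *
              Real.log D) * ((F₁.image c).card : ℝ) := by rw [hF'c]
          _ ≤ Real.exp ((8 * Real.sqrt (Real.log (Nat.card G)) + 7) *
              Real.log D) * (Real.exp (12 * (1 + Real.sqrt (Real.log (Nat.card l.ker))) *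
                Real.log ((D / q : ℕ) : ℝ) ^ 2) * (F₁'.card : ℝ)) :=
              mul_le_mul_of_nonneg_left hH'c (Real.exp_pos _).le
          _ = Real.exp ((8 * Real.sqrt (Real.log (Nat.card G)) + 7) *
              Real.log D + 12 * (1 + Real.sqrt (Real.log (Nat.card l.ker))) *
                Real.log ((D / q : ℕ) : ℝ) ^ 2) * (F₁'.card : ℝ) := by
              rw [Real.exp_add]
              exact (mul_assoc _ _ _).symm
          _ ≤ _ := mul_le_mul_of_nonneg_right (Real.exp_le_exp.2 hin) (Nat.cast_nonneg _)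

theorem p_Pop2 (hS : S_Step) (hC : S_Clif3) (hT : S_Trans) : S_Pop2 := by
  intro G _ _ hnil D hD F hF hFi
  exact Pop2.aux hS hC hT D G hnil hD F hF hFi

end NilCut
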