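import Pool.Agent.Lib.MP_4ddf81_pr.Stm2

/-!
# MP_4ddf81_pr, stage 2, piece Push
-/

namespace NilCut

namespace Push

open Subgroup in
theorem fst_eq {G : Type} [Group G] (K : Subgroup G) (g : G) :
    ((groupEquivQuotientProdSubgroup (s := K)) g).1 = (g : G ⧸ K) := rfl

/-- the bijection -/
noncomputable def eqv {G : Type} [Group G] (K : Subgroup G) (k : ℕ) (α : Type)
    (B : (Fin k → G ⧸ K) → α → Prop) :
    {p : (Fin k → G) × α // B (fun i => (p.1 i : G ⧸ K)) p.2} ≃
      (Fin k → K) × {p : (Fin k → G ⧸ K) × α // B p.1 p.2} where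
  toFun p := (fun i => ((Subgroup.groupEquivQuotientProdSubgroup (s := K)) (p.1.1 i)).2,
    ⟨(fun i => (p.1.1 i : G ⧸ K), p.1.2), p.2⟩)
  invFun q := ⟨(fun i => (Subgroup.groupEquivQuotientProdSubgroup (s := K)).symm
    (q.2.1.1 i, q.1 i), q.2.1.2), by
      have h : (fun i => (((Subgroup.groupEquivQuotientProdSubgroup (s := K)).symm
          (q.2.1.1 i, q.1 i) : G) : G ⧸ K)) = q.2.1.1 := by
        funext i
        rw [← fst_eq, Equiv.apply_symm_apply]
      dsimp only
      rw [h]
      exact q.2.2⟩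
  left_inv p := by
    refine Subtype.ext (Prod.ext ?_ rfl)
    funext i
    exact (Subgroup.groupEquivQuotientProdSubgroup (s := K)).symm_apply_apply (p.1.1 i)
  right_inv q := by
    refine Prod.ext ?_ (Subtype.ext (Prod.ext ?_ rfl))
    · funext i
      show ((Subgroup.groupEquivQuotientProdSubgroup (s := K))
        ((Subgroup.groupEquivQuotientProdSubgroup (s := K)).symm (q.2.1.1 i, q.1 i))).2 = q.1 i
      rw [Equiv.apply_symm_apply]
    · funext i
      show (((Subgroup.groupEquivQuotientProdSubgroup (s := K)).symm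
          (q.2.1.1 i, q.1 i) : G) : G ⧸ K) = q.2.1.1 i
      rw [← fst_eq, Equiv.apply_symm_apply]

end Push

theorem p_Push : S_Push := by
  intro G _ _ K k α _ B
  rw [Nat.card_congr (Push.eqv K k α B), Nat.card_prod, Nat.card_fun]
  simp

end NilCut
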