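import Pool.Agent.Lib.MP_4ddf81_pr.Stm2

namespace NilCut

namespace Pw

lemma pois_pos' {t : ℝ} (ht : 0 < t) (n : ℕ) : 0 < pois t n := by
  unfold pois
  positivity

lemma sum_pois_le {t : ℝ} (ht : 0 < t) (n : ℕ) : ∑ i ∈ Finset.range n, pois t i ≤ 1 := by
  have h := Real.sum_le_exp_of_nonneg ht.le n
  have h1 : ∑ i ∈ Finset.range n, pois t i =
      Real.exp (-t) * ∑ i ∈ Finset.range n, t ^ i / (i.factorial : ℝ) := by
    rw [Finset.mul_sum]
    refine Finset.sum_congr rfl fun i _ => ?_
    unfold pois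
    ring
  rw [h1]
  calc Real.exp (-t) * ∑ i ∈ Finset.range n, t ^ i / (i.factorial : ℝ)
      ≤ Real.exp (-t) * Real.exp t := mul_le_mul_of_nonneg_left h (Real.exp_pos _).le
    _ = 1 := by rw [← Real.exp_add]; simp

lemma sum_mul_pois_le {t : ℝ} (ht : 0 < t) (n : ℕ) :
    ∑ i ∈ Finset.range n, pois t i * (i : ℝ) ≤ t := by
  rcases n with _ | n
  · simpa using ht.le
  rw [Finset.sum_range_succ']
  have h1 : ∀ i ∈ Finset.range n, pois t (i + 1) * ((i + 1 : ℕ) : ℝ) = t * pois t i := by
    intro i _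
    unfold pois
    rw [Nat.factorial_succ]
    have : ((i.factorial : ℕ) : ℝ) ≠ 0 := by exact_mod_cast i.factorial_ne_zero
    push_cast
    have h2 : ((i : ℝ) + 1) ≠ 0 := by positivity
    field_simp
    ring
  rw [Finset.sum_congr rfl h1, ← Finset.mul_sum]
  have h2 := sum_pois_le ht n
  simp only [Nat.cast_zero, mul_zero, add_zero]
  nlinarith

lemma sum_sqrt_pois_le {t : ℝ} (ht : 0 < t) (n : ℕ) :
    ∑ i ∈ Finset.range n, Real.sqrt (pois t i) ≤ 2 * Real.exp (2 * t) := by
  have h1 : ∀ i ∈ Finset.range n, Real.sqrt (pois t i) ≤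
      Real.sqrt ((4 * t) ^ i / (i.factorial : ℝ)) * (1 / 2 : ℝ) ^ i := by
    intro i _
    have h2 : ((1 / 2 : ℝ) ^ i) = Real.sqrt ((1 / 4 : ℝ) ^ i) := by
      rw [eq_comm, Real.sqrt_eq_iff_mul_self_eq (by positivity) (by positivity), ← mul_pow]
      norm_num
    rw [h2, ← Real.sqrt_mul (by positivity)]
    refine Real.sqrt_le_sqrt ?_
    unfold pois
    have h3 : Real.exp (-t) ≤ 1 := Real.exp_le_one_iff.2 (by linarith)
    have h4 : (4 * t) ^ i / (i.factorial : ℝ) * (1 / 4) ^ i = t ^ i / (i.factorial : ℝ) := by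
      rw [div_mul_eq_mul_div, ← mul_pow]
      congr 2
      ring
    rw [h4, mul_div_assoc]
    have h5 : 0 ≤ t ^ i / (i.factorial : ℝ) := by positivity
    nlinarith
  refine (Finset.sum_le_sum h1).trans ?_
  have hcs := Real.sum_sqrt_mul_sqrt_le (Finset.range n)
    (f := fun i => (4 * t) ^ i / (i.factorial : ℝ)) (g := fun i => ((1 / 4 : ℝ) ^ i))
    (fun i => by positivity) (fun i => by positivity)
  have h2 : ∀ i : ℕ, ((1 / 2 : ℝ) ^ i) = Real.sqrt ((1 / 4 : ℝ) ^ i) := by
    intro i
    rw [eq_comm, Real.sqrt_eq_iff_mul_self_eq (by positivity) (by positivity), ← mul_pow]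
    norm_num
  simp only [h2]
  refine hcs.trans ?_
  have h3 : Real.sqrt (∑ i ∈ Finset.range n, (4 * t) ^ i / (i.factorial : ℝ)) ≤
      Real.exp (2 * t) := by
    rw [Real.sqrt_le_left (Real.exp_pos _).le, ← Real.exp_nat_mul]
    have h := Real.sum_le_exp_of_nonneg (x := 4 * t) (by positivity) n
    refine h.trans (le_of_eq ?_)
    congr 1
    push_cast
    ring
  have h4 : Real.sqrt (∑ i ∈ Finset.range n, (1 / 4 : ℝ) ^ i) ≤ 2 := by
    rw [Real.sqrt_le_left (by norm_num)]
    have h5 : ∑ i ∈ Finset.range n, (1 / 4 : ℝ) ^ i ≤ 4 / 3 := by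
      rw [geom_sum_eq (by norm_num)]
      have : (0 : ℝ) ≤ (1 / 4) ^ n := by positivity
      have h6 : ((1 / 4 : ℝ) ^ n - 1) / (1 / 4 - 1) = 4 / 3 * (1 - (1 / 4) ^ n) := by ring
      rw [h6]
      linarith
    linarith
  calc Real.sqrt (∑ i ∈ Finset.range n, (4 * t) ^ i / (i.factorial : ℝ)) *
        Real.sqrt (∑ i ∈ Finset.range n, (1 / 4 : ℝ) ^ i)
      ≤ Real.exp (2 * t) * 2 := mul_le_mul h3 h4 (Real.sqrt_nonneg _) (Real.exp_pos _).le
    _ = 2 * Real.exp (2 * t) := by ring

end Pw

open Pw in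
theorem p_Pw : S_Pw := by
  classical
  intro Q _ _ s L R hs
  have hJ : (0 : ℝ) < (Fintype.card Q : ℝ) := by exact_mod_cast Fintype.card_pos
  set t : ℝ := s / (Fintype.card Q : ℝ) with ht
  have htp : 0 < t := by positivity
  have htJ : (Fintype.card Q : ℝ) * t = s := by rw [ht]; field_simp
  have hpos : ∀ x : Q → ℕ, 0 < pw s x := fun x => Finset.prod_pos fun a _ => pois_pos' htp _
  have hsum : ∀ g : Q → ℕ → ℝ, ∑ x ∈ XL Q L, ∏ a : Q, g a (x a) =
      ∏ a : Q, ∑ j ∈ Finset.range (L + 1), g a j := by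
    intro g
    unfold XL
    rw [Finset.prod_univ_sum]
  refine ⟨hpos, ?_, ?_, ?_⟩
  · have h := hsum (fun _ j => pois t j)
    have h1 : ∑ x ∈ XL Q L, pw s x = ∑ x ∈ XL Q L, ∏ a : Q, pois t (x a) := rfl
    rw [h1, h]
    refine Finset.prod_le_one (fun a _ => Finset.sum_nonneg fun j _ => (pois_pos' htp j).le)
      fun a _ => sum_pois_le htp _
  · have h1 : ∀ x ∈ XL Q L, Real.sqrt (pw s x) = ∏ a : Q, Real.sqrt (pois t (x a)) := by
      intro x _
      unfold pw
      rw [Real.sqrt_prod _ (fun a _ => (pois_pos' htp _).le)]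
    rw [Finset.sum_congr rfl h1, hsum (fun _ j => Real.sqrt (pois t j))]
    calc ∏ a : Q, ∑ j ∈ Finset.range (L + 1), Real.sqrt (pois t j)
        ≤ ∏ a : Q, 2 * Real.exp (2 * t) :=
          Finset.prod_le_prod (fun a _ => Finset.sum_nonneg fun j _ => Real.sqrt_nonneg _)
            fun a _ => sum_sqrt_pois_le htp _
      _ = 2 ^ (Fintype.card Q) * Real.exp (2 * s) := by
          rw [Finset.prod_const, Finset.card_univ, mul_pow, ← Real.exp_nat_mul]
          congr 2
          rw [← htJ]
          ring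
  · have h1 : ∀ x ∈ XL Q L, (if ∃ b, R < x b then pw s x else 0) ≤
        ∑ b : Q, (∏ a : Q, (pois t (x a) * (if a = b then (x a : ℝ) else 1))) / ((R : ℝ) + 1) := by
      intro x _
      have h2 : ∀ b : Q, (∏ a : Q, (pois t (x a) * (if a = b then (x a : ℝ) else 1))) =
          pw s x * (x b : ℝ) := by
        intro b
        rw [Finset.prod_mul_distrib, Finset.prod_ite_eq']
        simp only [Finset.mem_univ, if_true]
        rfl
      simp only [h2]
      split_ifs with hb
      · obtain ⟨b, hb⟩ := hb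
        have h3 : pw s x ≤ pw s x * (x b : ℝ) / ((R : ℝ) + 1) := by
          rw [le_div_iff₀ (by positivity)]
          refine mul_le_mul_of_nonneg_left ?_ (hpos x).le
          exact_mod_cast hb
        refine h3.trans (Finset.single_le_sum (f := fun b => pw s x * (x b : ℝ) / ((R : ℝ) + 1))
          (fun b _ => ?_) (Finset.mem_univ b))
        have := (hpos x).le
        positivity
      · exact Finset.sum_nonneg fun b _ => by
          have := (hpos x).le
          positivity
    have h0 : ∑ x ∈ XL Q L, (if ∃ b, R < x b then pw s x else 0) ≤ s / ((R : ℝ) + 1) := by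
      refine (Finset.sum_le_sum h1).trans ?_
      rw [Finset.sum_comm]
      have h4 : ∀ b ∈ (Finset.univ : Finset Q),
          ∑ x ∈ XL Q L, (∏ a : Q, (pois t (x a) * (if a = b then (x a : ℝ) else 1))) /
            ((R : ℝ) + 1) ≤ t / ((R : ℝ) + 1) := by
        intro b _
        rw [← Finset.sum_div]
        refine div_le_div_of_nonneg_right ?_ (by positivity)
        rw [hsum (fun a j => pois t j * (if a = b then (j : ℝ) else 1))]
        calc ∏ a : Q, ∑ j ∈ Finset.range (L + 1), pois t j * (if a = b then (j : ℝ) else 1)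
            ≤ ∏ a : Q, (if a = b then t else 1) := by
              refine Finset.prod_le_prod (fun a _ => Finset.sum_nonneg fun j _ => ?_)
                fun a _ => ?_
              · have := (pois_pos' htp j).le
                split_ifs <;> positivity
              · split_ifs with hab
                · exact sum_mul_pois_le htp _
                · simpa using sum_pois_le htp (L + 1)
          _ = t := by
              rw [Finset.prod_ite_eq']
              simp
      refine (Finset.sum_le_sum h4).trans (le_of_eq ?_)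
      rw [Finset.sum_const, Finset.card_univ, nsmul_eq_mul, mul_div_assoc', htJ]
    convert h0 using 2

end NilCut
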