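import Pool.Agent.Lib.MP_4ddf81_pr.Stm2

/-!
# MP_4ddf81_pr, stage 2, piece QF1: the quadratic form of an induced character
-/

namespace NilCut

namespace QF1

open ComplexConjugate

variable {G : Type} [Group G]

open Classical in
/-- the linear character, extended by zero -/
noncomputable def L (H : Subgroup G) (lam : H →* ℂˣ) (x : G) : ℂ :=
  if h : x ∈ H then ((lam ⟨x, h⟩ : ℂˣ) : ℂ) else 0

theorem L_mem {H : Subgroup G} {lam : H →* ℂˣ} (x : H) : L H lam x = ((lam x : ℂˣ) : ℂ) := by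
  unfold L
  rw [dif_pos x.2]

theorem L_not {H : Subgroup G} {lam : H →* ℂˣ} {x : G} (hx : x ∉ H) : L H lam x = 0 := by
  unfold L
  rw [dif_neg hx]

theorem L_mul {H : Subgroup G} {lam : H →* ℂˣ} {x : G} (hx : x ∈ H) (w : G) :
    L H lam (x * w) = L H lam x * L H lam w := by
  by_cases hw : w ∈ H
  · have h1 := L_mem (lam := lam) ⟨x, hx⟩
    have h2 := L_mem (lam := lam) ⟨w, hw⟩
    have h3 := L_mem (lam := lam) (⟨x, hx⟩ * ⟨w, hw⟩ : H)
    rw [map_mul] at h3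
    push_cast at h3
    rw [← h1, ← h2] at h3
    exact h3
  · have hxw : x * w ∉ H := fun h => hw ((H.mul_mem_cancel_left hx).1 h)
    rw [L_not hw, L_not hxw, mul_zero]

theorem L_norm [Fintype G] {H : Subgroup G} {lam : H →* ℂˣ} {x : G} (hx : x ∈ H) :
    L H lam x * conj (L H lam x) = 1 := by
  have h1 := L_mem (lam := lam) ⟨x, hx⟩
  have hn : Nat.card H ≠ 0 := Nat.card_pos.ne'
  have h2 : (lam ⟨x, hx⟩) ^ (Nat.card H) = 1 := by
    rw [← map_pow, pow_card_eq_one', map_one]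
  have h3 : ((lam ⟨x, hx⟩ : ℂˣ) : ℂ) ^ (Nat.card H) = 1 := by
    rw [← Units.val_pow_eq_pow_val, h2, Units.val_one]
  have h4 := Complex.norm_eq_one_of_pow_eq_one h3 hn
  have h5 : L H lam x = ((lam ⟨x, hx⟩ : ℂˣ) : ℂ) := h1
  rw [h5, Complex.mul_conj', h4]
  norm_num

open Classical in
theorem sum_L [Fintype G] (H : Subgroup G) (lam : H →* ℂˣ) (w : G) :
    ∑ h : G, L H lam (h * w) * conj (L H lam h) = (Nat.card H : ℂ) * L H lam w := by
  have h1 : ∀ h : G, L H lam (h * w) * conj (L H lam h) = if h ∈ H then L H lam w else 0 := by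
    intro h
    by_cases hh : h ∈ H
    · rw [if_pos hh, L_mul hh]
      calc L H lam h * L H lam w * conj (L H lam h)
          = (L H lam h * conj (L H lam h)) * L H lam w := by ring
        _ = L H lam w := by rw [L_norm hh, one_mul]
    · rw [if_neg hh, L_not hh, map_zero, mul_zero]
  rw [Finset.sum_congr rfl (fun h _ => h1 h), ← Finset.sum_filter, Finset.sum_const,
    nsmul_eq_mul]
  congr 2
  rw [Nat.card_eq_fintype_card, Fintype.card_subtype]

theorem sum_pair [Fintype G] (H : Subgroup G) (lam : H →* ℂˣ) (u v : G) :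
    ∑ g : G, L H lam (g⁻¹ * u) * conj (L H lam (g⁻¹ * v))
      = (Nat.card H : ℂ) * L H lam (v⁻¹ * u) := by
  rw [← sum_L]
  have h := Equiv.sum_comp ((Equiv.inv G).trans (Equiv.mulRight v))
    (fun h => L H lam (h * (v⁻¹ * u)) * conj (L H lam h))
  rw [← h]
  refine Finset.sum_congr rfl fun g _ => ?_
  show _ = L H lam (g⁻¹ * v * (v⁻¹ * u)) * conj (L H lam (g⁻¹ * v))
  rw [mul_assoc g⁻¹ v, mul_inv_cancel_left]

open Classical in
theorem VV_eq [Fintype G] (H : Subgroup G) (lam : H →* ℂˣ) (μ : G → ℝ) (y g : G) :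
    VV H lam μ y g = ∑ a : G, (μ a : ℂ) * L H lam (g⁻¹ * (a * y)) := by
  have h1 : VV H lam μ y g = ∑ x : G, (μ (g * x * y⁻¹) : ℂ) * L H lam x := by
    unfold VV
    have h2 : ∀ x : H, (μ (g * x * y⁻¹) : ℂ) * ((lam x : ℂˣ) : ℂ)
        = (fun z : G => (μ (g * z * y⁻¹) : ℂ) * L H lam z) x := by
      intro x
      simp only [L_mem]
    rw [Finset.sum_congr rfl (fun x _ => h2 x)]
    refine (Finset.sum_subtype (Finset.univ.filter (fun z : G => z ∈ H))
      (p := fun z : G => z ∈ H) (by simp)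
      (fun z : G => (μ (g * z * y⁻¹) : ℂ) * L H lam z)).symm.trans ?_
    apply Finset.sum_subset (Finset.filter_subset _ _)
    intro z _ hz
    have hz' : z ∉ H := fun h => hz (Finset.mem_filter.2 ⟨Finset.mem_univ _, h⟩)
    rw [L_not hz', mul_zero]
  rw [h1]
  have h := Equiv.sum_comp ((Equiv.mulRight y).trans (Equiv.mulLeft g⁻¹))
    (fun x : G => (μ (g * x * y⁻¹) : ℂ) * L H lam x)
  rw [← h]
  refine Finset.sum_congr rfl fun a _ => ?_
  show (μ (g * (g⁻¹ * (a * y)) * y⁻¹) : ℂ) * L H lam (g⁻¹ * (a * y)) = _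
  rw [mul_inv_cancel_left, mul_inv_cancel_right]

open Classical in
theorem indL_eq [Fintype G] (H : Subgroup G) (lam : H →* ℂˣ) (g : G) :
    indL H lam g = (1 / (Nat.card H : ℂ)) * ∑ y : G, L H lam (y⁻¹ * g * y) := rfl

theorem sum_norm [Fintype G] (H : Subgroup G) (lam : H →* ℂˣ) (μ : G → ℝ) (y : G) :
    ∑ g : G, ((‖VV H lam μ y g‖ : ℂ)) ^ 2 =
      (Nat.card H : ℂ) * ∑ a : G, ∑ b : G, (μ a : ℂ) * (μ b : ℂ) *
        L H lam (y⁻¹ * (b⁻¹ * a) * y) := by
  have h1 : ∀ g : G, ((‖VV H lam μ y g‖ : ℂ)) ^ 2 = ∑ a : G, ∑ b : G,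
      (μ a : ℂ) * (μ b : ℂ) * (L H lam (g⁻¹ * (a * y)) * conj (L H lam (g⁻¹ * (b * y)))) := by
    intro g
    rw [← Complex.mul_conj', VV_eq, map_sum, Finset.sum_mul_sum]
    refine Finset.sum_congr rfl fun a _ => Finset.sum_congr rfl fun b _ => ?_
    rw [map_mul, Complex.conj_ofReal]
    ring
  rw [Finset.sum_congr rfl (fun g _ => h1 g), Finset.sum_comm, Finset.mul_sum]
  refine Finset.sum_congr rfl fun a _ => ?_
  rw [Finset.sum_comm, Finset.mul_sum]
  refine Finset.sum_congr rfl fun b _ => ?_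
  rw [← Finset.mul_sum, sum_pair]
  have e : (b * y)⁻¹ * (a * y) = y⁻¹ * (b⁻¹ * a) * y := by group
  rw [e]
  ring

end QF1

/-- Piece QF1. -/
theorem p_QF1 : S_QF1 := by
  intro G _ _ H lam μ
  have hc : (Nat.card H : ℂ) ≠ 0 := by
    exact_mod_cast (Nat.card_pos (α := H)).ne'
  have key : (∑ a : G, ∑ b : G, (μ a : ℂ) * (μ b : ℂ) * indL H lam (b⁻¹ * a)) =
      (((1 / (Nat.card H : ℝ) ^ 2) * ∑ y : G, ∑ g : G, ‖VV H lam μ y g‖ ^ 2 : ℝ) : ℂ) := by
    push_cast
    rw [Finset.sum_congr rfl (fun y _ => QF1.sum_norm H lam μ y), ← Finset.mul_sum]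
    have e1 : ∑ y : G, ∑ a : G, ∑ b : G, (μ a : ℂ) * (μ b : ℂ) *
        QF1.L H lam (y⁻¹ * (b⁻¹ * a) * y) = ∑ a : G, ∑ b : G, (μ a : ℂ) * (μ b : ℂ) *
          ∑ y : G, QF1.L H lam (y⁻¹ * (b⁻¹ * a) * y) := by
      rw [Finset.sum_comm]
      refine Finset.sum_congr rfl fun a _ => ?_
      rw [Finset.sum_comm]
      refine Finset.sum_congr rfl fun b _ => ?_
      rw [Finset.mul_sum]
    rw [e1, ← mul_assoc, Finset.mul_sum]
    refine Finset.sum_congr rfl fun a _ => ?_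
    rw [Finset.mul_sum]
    refine Finset.sum_congr rfl fun b _ => ?_
    rw [QF1.indL_eq]
    field_simp
  unfold QF
  rw [key, Complex.ofReal_re]

end NilCut
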