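import Pool.Agent.Lib.MP_4ddf81_pr.Stm2

/-! # MP_4ddf81_pr, stage 2, piece QF2 (helper70): positivity and contraction. -/

namespace NilCut

namespace QF2

variable {G : Type} [Group G] [Fintype G]

theorem vv_left (H : Subgroup G) (lam : H →* ℂˣ) (μ ν : G → ℝ) (y g : G) :
    VV H lam (conv ν μ) y g = ∑ h : G, (ν h : ℂ) * VV H lam μ y (h⁻¹ * g) := by
  unfold VV conv
  simp only [Complex.ofReal_sum, Complex.ofReal_mul, Finset.sum_mul, Finset.mul_sum]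
  rw [Finset.sum_comm]
  refine Finset.sum_congr rfl fun h _ => Finset.sum_congr rfl fun x _ => ?_
  have e : h⁻¹ * (g * (x : G) * y⁻¹) = h⁻¹ * g * x * y⁻¹ := by group
  rw [e, mul_assoc]

theorem vv_right (H : Subgroup G) (lam : H →* ℂˣ) (μ ν : G → ℝ) (y g : G) :
    VV H lam (conv μ ν) y g = ∑ c : G, (ν c : ℂ) * VV H lam μ (c * y) g := by
  unfold VV
  have e : ∀ p : G, conv μ ν p = ∑ c : G, ν c * μ (p * c⁻¹) := by
    intro p
    unfold conv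
    refine (Fintype.sum_equiv ((Equiv.inv G).trans (Equiv.mulLeft p)) _ _ fun c => ?_).symm
    simp only [Equiv.trans_apply, Equiv.inv_apply, Equiv.coe_mulLeft]
    rw [mul_comm]
    congr 2
    group
  simp only [e, Complex.ofReal_sum, Complex.ofReal_mul, Finset.sum_mul, Finset.mul_sum]
  rw [Finset.sum_comm]
  refine Finset.sum_congr rfl fun c _ => Finset.sum_congr rfl fun x _ => ?_
  have e : g * (x : G) * y⁻¹ * c⁻¹ = g * x * (c * y)⁻¹ := by group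
  rw [e, mul_assoc]

theorem cs (ν : G → ℝ) (hν : ∀ g, 0 ≤ ν g) (hs : ∑ g, ν g ≤ 1) (a : G → ℂ) :
    ‖∑ h : G, (ν h : ℂ) * a h‖ ^ 2 ≤ ∑ h : G, ν h * ‖a h‖ ^ 2 := by
  have h1 : ‖∑ h : G, (ν h : ℂ) * a h‖ ≤ ∑ h : G, ν h * ‖a h‖ := by
    refine (norm_sum_le _ _).trans (le_of_eq ?_)
    refine Finset.sum_congr rfl fun h _ => ?_
    rw [norm_mul, Complex.norm_real, Real.norm_of_nonneg (hν h)]
  have h2 : (∑ h : G, ν h * ‖a h‖) ^ 2 ≤ (∑ h : G, ν h) * ∑ h : G, ν h * ‖a h‖ ^ 2 := by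
    apply Finset.sum_sq_le_sum_mul_sum_of_sq_le_mul
    · exact fun h _ => hν h
    · exact fun h _ => mul_nonneg (hν h) (sq_nonneg _)
    · intro h _
      exact le_of_eq (by ring)
  have h3 : 0 ≤ ∑ h : G, ν h * ‖a h‖ ^ 2 :=
    Finset.sum_nonneg fun h _ => mul_nonneg (hν h) (sq_nonneg _)
  calc ‖∑ h : G, (ν h : ℂ) * a h‖ ^ 2 ≤ (∑ h : G, ν h * ‖a h‖) ^ 2 :=
        pow_le_pow_left₀ (norm_nonneg _) h1 2
    _ ≤ (∑ h : G, ν h) * ∑ h : G, ν h * ‖a h‖ ^ 2 := h2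
    _ ≤ 1 * ∑ h : G, ν h * ‖a h‖ ^ 2 := mul_le_mul_of_nonneg_right hs h3
    _ = _ := one_mul _

/-- averaging does not increase the double sum -/
theorem avg (ν : G → ℝ) (hν : ∀ g, 0 ≤ ν g) (hs : ∑ g, ν g ≤ 1) (W : G → G → ℂ)
    (V : G → G → G → ℂ) (N : ℝ) (hN : 0 ≤ N) (hW : ∀ y g, W y g = ∑ h : G, (ν h : ℂ) * V h y g)
    (hV : ∀ h, ∑ y : G, ∑ g : G, ‖V h y g‖ ^ 2 = N) :
    ∑ y : G, ∑ g : G, ‖W y g‖ ^ 2 ≤ N := by
  have h1 : ∑ y : G, ∑ g : G, ‖W y g‖ ^ 2 ≤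
      ∑ y : G, ∑ g : G, ∑ h : G, ν h * ‖V h y g‖ ^ 2 := by
    refine Finset.sum_le_sum fun y _ => Finset.sum_le_sum fun g _ => ?_
    rw [hW]
    exact cs ν hν hs _
  have h2 : ∑ y : G, ∑ g : G, ∑ h : G, ν h * ‖V h y g‖ ^ 2 = (∑ h : G, ν h) * N := by
    rw [Finset.sum_mul]
    calc ∑ y : G, ∑ g : G, ∑ h : G, ν h * ‖V h y g‖ ^ 2
        = ∑ y : G, ∑ h : G, ∑ g : G, ν h * ‖V h y g‖ ^ 2 :=
          Finset.sum_congr rfl fun y _ => Finset.sum_comm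
      _ = ∑ h : G, ∑ y : G, ∑ g : G, ν h * ‖V h y g‖ ^ 2 := Finset.sum_comm
      _ = ∑ h : G, ν h * N := by
          refine Finset.sum_congr rfl fun h _ => ?_
          rw [← hV h]
          simp only [Finset.mul_sum]
  rw [h2] at h1
  exact h1.trans (by nlinarith)

end QF2

open QF2 in
theorem p_QF2 (h1 : S_QF1) : S_QF2 := by
  intro G _ _ H lam μ ν hν hs
  have hN : 0 ≤ ∑ y : G, ∑ g : G, ‖VV H lam μ y g‖ ^ 2 :=
    Finset.sum_nonneg fun y _ => Finset.sum_nonneg fun g _ => sq_nonneg _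
  have hc : (0 : ℝ) ≤ 1 / (Nat.card H : ℝ) ^ 2 := by positivity
  rw [h1 G H lam μ, h1 G H lam (conv ν μ), h1 G H lam (conv μ ν)]
  refine ⟨mul_nonneg hc hN, mul_le_mul_of_nonneg_left ?_ hc, mul_le_mul_of_nonneg_left ?_ hc⟩
  · refine avg ν hν hs _ (fun h y g => VV H lam μ y (h⁻¹ * g)) _ hN
      (fun y g => vv_left H lam μ ν y g) fun h => ?_
    refine Finset.sum_congr rfl fun y _ => ?_
    exact Fintype.sum_equiv (Equiv.mulLeft h⁻¹) _ _ fun g => rfl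
  · refine avg ν hν hs _ (fun c y g => VV H lam μ (c * y) g) _ hN
      (fun y g => vv_right H lam μ ν y g) fun c => ?_
    exact Fintype.sum_equiv (Equiv.mulLeft c) _ _ fun y => rfl

end NilCut
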