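import Pool.Agent.Lib.MP_4ddf81_pr.Stm2

/-!
# MP_4ddf81_pr, stage 2 : piece QF3 (convexity of the quadratic form), helper44
-/

namespace NilCut

namespace QF3

lemma VV_sum {G : Type} [Group G] [Fintype G] (H : Subgroup G) (lam : H →* ℂˣ)
    {ι : Type} (s : Finset ι) (μ : ι → G → ℝ) (y g : G) :
    VV H lam (fun g => ∑ c ∈ s, μ c g) y g = ∑ c ∈ s, VV H lam (μ c) y g := by
  classical
  unfold VV
  rw [Finset.sum_comm]
  apply Finset.sum_congr rfl
  intro x _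
  rw [Complex.ofReal_sum, Finset.sum_mul]

lemma norm_sq_le {ι : Type} (s : Finset ι) (a : ι → ℂ) (m : ι → ℝ) (hm : ∀ c ∈ s, 0 < m c) :
    ‖∑ c ∈ s, a c‖ ^ 2 ≤ (∑ c ∈ s, m c) * ∑ c ∈ s, ‖a c‖ ^ 2 / m c := by
  have h1 : ‖∑ c ∈ s, a c‖ ^ 2 ≤ (∑ c ∈ s, ‖a c‖) ^ 2 := by
    gcongr
    exact norm_sum_le _ _
  refine h1.trans ?_
  apply Finset.sum_sq_le_sum_mul_sum_of_sq_le_mul
  · intro c hc
    exact (hm c hc).le
  · intro c hc
    have := hm c hc
    positivity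
  · intro c hc
    have := (hm c hc).ne'
    apply le_of_eq
    field_simp

end QF3

theorem p_QF3 (h1 : S_QF1) : S_QF3 := by
  intro G _ _ H lam ι s μ m hm
  rw [h1 G H lam]
  have hr : (∑ c ∈ s, m c) * ∑ c ∈ s, QF (indL H lam) (μ c) / m c =
      (1 / (Nat.card H : ℝ) ^ 2) * ∑ y : G, ∑ g : G,
        (∑ c ∈ s, m c) * ∑ c ∈ s, ‖VV H lam (μ c) y g‖ ^ 2 / m c := by
    have h2 : ∀ c, QF (indL H lam) (μ c) / m c =
        (1 / (Nat.card H : ℝ) ^ 2) * ∑ y : G, ∑ g : G, ‖VV H lam (μ c) y g‖ ^ 2 / m c := by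
      intro c
      rw [h1 G H lam, mul_div_assoc, Finset.sum_div]
      congr 1
      apply Finset.sum_congr rfl
      intro y _
      rw [Finset.sum_div]
    rw [Finset.sum_congr rfl fun c _ => h2 c, ← Finset.mul_sum, mul_left_comm]
    congr 1
    rw [Finset.sum_comm, Finset.mul_sum]
    apply Finset.sum_congr rfl
    intro y _
    rw [Finset.sum_comm, Finset.mul_sum]
  rw [hr]
  apply mul_le_mul_of_nonneg_left _ (by positivity)
  apply Finset.sum_le_sum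
  intro y _
  apply Finset.sum_le_sum
  intro g _
  rw [QF3.VV_sum]
  exact QF3.norm_sq_le s _ m hm

end NilCut
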