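import Pool.Agent.Lib.MP_4ddf81_pr.Stm2

/-! Decay of the quadratic form of an induced character by the gap. -/

namespace NilCut

namespace QF4

variable {G : Type} [Group G]

theorem wprod_cons {k n : ℕ} (Z : Fin k → G) (w : Fin n → Fin k)
    (i : Fin k) : wprod Z (Fin.cons i w : Fin (n + 1) → Fin k) = Z i * wprod Z w := by
  unfold wprod
  rw [List.ofFn_succ, List.prod_cons]
  simp

open Classical in
theorem card_eq {k n : ℕ} (Z : Fin k → G) (g : G) :
    (Nat.card {w : Fin n → Fin k // wprod Z w = g} : ℝ) =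
      ∑ w : Fin n → Fin k, if wprod Z w = g then (1 : ℝ) else 0 := by
  rw [Nat.card_eq_fintype_card, Fintype.card_subtype, ← Finset.sum_filter, Finset.sum_const,
    nsmul_eq_mul, mul_one]

theorem card_succ {k n : ℕ} (Z : Fin k → G) (g : G) :
    (Nat.card {w : Fin (n + 1) → Fin k // wprod Z w = g} : ℝ) =
      ∑ i : Fin k, (Nat.card {w : Fin n → Fin k // wprod Z w = (Z i)⁻¹ * g} : ℝ) := by
  classical
  rw [card_eq]
  simp only [card_eq]
  rw [← Fintype.sum_prod_type' (f := fun (i : Fin k) (w : Fin n → Fin k) =>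
    if wprod Z w = (Z i)⁻¹ * g then (1 : ℝ) else 0)]
  symm
  refine Fintype.sum_equiv (Fin.consEquiv fun _ => Fin k) _ _ ?_
  rintro ⟨i, w⟩
  have h : (Fin.consEquiv fun _ : Fin (n + 1) => Fin k) (i, w) =
      (Fin.cons i w : Fin (n + 1) → Fin k) := rfl
  rw [h, wprod_cons]
  dsimp only
  by_cases e : wprod Z w = (Z i)⁻¹ * g
  · rw [if_pos e, if_pos (by rw [e, mul_inv_cancel_left])]
  · rw [if_neg e, if_neg (fun e' => e (by rw [← e', inv_mul_cancel_left]))]

theorem stepLaw_succ {k : ℕ} (n : ℕ) (Z : Fin k → G) (g : G) :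
    stepLaw Z (n + 1) g = (1 / (k : ℝ)) * ∑ i : Fin k, stepLaw Z n ((Z i)⁻¹ * g) := by
  unfold stepLaw
  rw [card_succ, ← Finset.sum_div, pow_succ, div_mul_eq_div_div]
  ring

theorem stepLaw_zero [DecidableEq G] {k : ℕ} (Z : Fin k → G) (g : G) :
    stepLaw Z 0 g = if g = 1 then 1 else 0 := by
  classical
  unfold stepLaw
  rw [card_eq, pow_zero, div_one, Fintype.sum_unique]
  have h : wprod Z (default : Fin 0 → Fin k) = 1 := by
    unfold wprod
    simp
  rw [h]
  by_cases e : g = 1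
  · rw [if_pos e, if_pos e.symm]
  · rw [if_neg e, if_neg (fun e' => e e'.symm)]

variable [Fintype G]

theorem conv_zero {k : ℕ} (Z : Fin k → G) (μ : G → ℝ) : conv (stepLaw Z 0) μ = μ := by
  classical
  funext g
  unfold conv
  rw [Finset.sum_eq_single (1 : G)]
  · rw [stepLaw_zero, if_pos rfl, one_mul, inv_one, one_mul]
  · intro h _ hh
    rw [stepLaw_zero, if_neg hh, zero_mul]
  · intro h
    exact absurd (Finset.mem_univ _) h

theorem conv_succ {k : ℕ} (n : ℕ) (Z : Fin k → G) (μ : G → ℝ) (g : G) :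
    conv (stepLaw Z (n + 1)) μ g =
      (1 / (k : ℝ)) * ∑ i : Fin k, conv (stepLaw Z n) μ ((Z i)⁻¹ * g) := by
  unfold conv
  have h1 : ∀ h : G, stepLaw Z (n + 1) h * μ (h⁻¹ * g) =
      (1 / (k : ℝ)) * ∑ i : Fin k, stepLaw Z n ((Z i)⁻¹ * h) * μ (h⁻¹ * g) := by
    intro h
    rw [stepLaw_succ, mul_assoc, Finset.sum_mul]
  rw [Finset.sum_congr rfl (fun h _ => h1 h), ← Finset.mul_sum, Finset.sum_comm]
  congr 1
  refine Finset.sum_congr rfl fun i _ => ?_
  refine (Fintype.sum_equiv (Equiv.mulLeft (Z i)) _ _ fun h => ?_).symm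
  simp only [Equiv.coe_mulLeft]
  rw [inv_mul_cancel_left, mul_inv_rev, mul_assoc]

theorem VV_succ {k : ℕ} (n : ℕ) (Z : Fin k → G) (μ : G → ℝ) (H : Subgroup G)
    (lam : H →* ℂˣ) (y g : G) :
    VV H lam (conv (stepLaw Z (n + 1)) μ) y g =
      TZ Z (VV H lam (conv (stepLaw Z n) μ) y) g := by
  classical
  unfold VV TZ
  have h1 : ∀ x : H, ((conv (stepLaw Z (n + 1)) μ (g * x * y⁻¹) : ℝ) : ℂ) *
      ((lam x : ℂˣ) : ℂ) = (1 / (k : ℂ)) * ∑ i : Fin k,
        ((conv (stepLaw Z n) μ ((Z i)⁻¹ * g * x * y⁻¹) : ℝ) : ℂ) * ((lam x : ℂˣ) : ℂ) := by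
    intro x
    rw [conv_succ]
    push_cast
    rw [mul_assoc, Finset.sum_mul]
    simp only [mul_assoc]
  rw [Finset.sum_congr rfl (fun x _ => h1 x), ← Finset.mul_sum, Finset.sum_comm]

theorem VV_cov (μ : G → ℝ) (H : Subgroup G) (lam : H →* ℂˣ) (y : G) :
    Cov H lam (VV H lam μ y) := by
  classical
  intro g h
  unfold VV
  rw [Finset.mul_sum]
  refine Fintype.sum_equiv (Equiv.mulLeft h) _ _ fun x => ?_
  simp only [Equiv.coe_mulLeft, Subgroup.coe_mul, map_mul, Units.val_mul, Units.val_inv_eq_inv_val]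
  rw [← mul_assoc g]
  have h0 : ((lam h : ℂˣ) : ℂ) ≠ 0 := Units.ne_zero _
  field_simp

end QF4

theorem p_QF4 (h1 : S_QF1) : S_QF4 := by
  classical
  intro G _ _ H lam k Z c n μ _ _ hc1 hgap
  induction n with
  | zero => rw [QF4.conv_zero, pow_zero, one_mul]
  | succ n ih =>
    have h2 : QF (indL H lam) (conv (stepLaw Z (n + 1)) μ) ≤
        (1 - c) * QF (indL H lam) (conv (stepLaw Z n) μ) := by
      rw [h1, h1]
      have h3 : ∀ y : G, ∑ g : G, ‖VV H lam (conv (stepLaw Z (n + 1)) μ) y g‖ ^ 2 ≤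
          (1 - c) * ∑ g : G, ‖VV H lam (conv (stepLaw Z n) μ) y g‖ ^ 2 := by
        intro y
        have h4 := hgap _ (QF4.VV_cov (conv (stepLaw Z n) μ) H lam y)
        simp only [QF4.VV_succ]
        exact h4
      have h5 := Finset.sum_le_sum fun y (_ : y ∈ (Finset.univ : Finset G)) => h3 y
      rw [← Finset.mul_sum] at h5
      have h6 : 0 ≤ 1 / (Nat.card H : ℝ) ^ 2 := by positivity
      calc (1 / (Nat.card H : ℝ) ^ 2) *
            ∑ y : G, ∑ g : G, ‖VV H lam (conv (stepLaw Z (n + 1)) μ) y g‖ ^ 2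
          ≤ (1 / (Nat.card H : ℝ) ^ 2) * ((1 - c) *
            ∑ y : G, ∑ g : G, ‖VV H lam (conv (stepLaw Z n) μ) y g‖ ^ 2) :=
            mul_le_mul_of_nonneg_left h5 h6
        _ = _ := by ring
    refine h2.trans ?_
    rw [pow_succ', mul_assoc]
    exact mul_le_mul_of_nonneg_left ih (by linarith)

end NilCut
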