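import Pool.Agent.Lib.MP_4ddf81_pr.Stm2

/-!
# MP_4ddf81_pr, stage 2 : roots of unity close to one
-/

namespace NilCut

namespace Root

/-- An element of norm one with `ξ ^ r = 1` has argument `2πj/r`. -/
private theorem exists_int (r : ℕ) (hr : 0 < r) (ξ : ℂ) (h : ξ ^ r = 1) :
    ∃ j : ℤ, (r : ℝ) * ξ.arg = 2 * Real.pi * j ∧
      Complex.exp (Complex.I * (ξ.arg : ℝ)) = ξ := by
  have hn : ‖ξ‖ = 1 := by
    have h1 : ‖ξ‖ ^ r = 1 := by rw [← norm_pow, h, norm_one]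
    exact (pow_eq_one_iff_of_nonneg (norm_nonneg _) hr.ne').mp h1
  have he : Complex.exp ((ξ.arg : ℝ) * Complex.I) = ξ := by
    have := Complex.norm_mul_exp_arg_mul_I ξ
    rw [hn] at this
    simpa using this
  have h1 : Complex.exp ((r : ℂ) * ((ξ.arg : ℝ) * Complex.I)) = 1 := by
    rw [Complex.exp_nat_mul, he, h]
  obtain ⟨j, hj⟩ := Complex.exp_eq_one_iff.mp h1
  refine ⟨j, ?_, by rw [mul_comm]; exact he⟩
  have h2 : ((r : ℂ) * (ξ.arg : ℝ)) * Complex.I = (2 * Real.pi * j) * Complex.I := by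
    rw [mul_assoc, hj]; ring
  have h3 := mul_right_cancel₀ Complex.I_ne_zero h2
  exact_mod_cast h3

private theorem bound (r : ℕ) (hr : 0 < r) (ξ : ℂ) (x : ℝ) (hx : ‖ξ - 1‖ ≤ x) (j : ℤ)
    (hj : (r : ℝ) * ξ.arg = 2 * Real.pi * j)
    (he : Complex.exp (Complex.I * (ξ.arg : ℝ)) = ξ) :
    |(j : ℝ)| ≤ x * r / 4 := by
  have hpi := Real.pi_pos
  have hr0 : (0 : ℝ) < r := by exact_mod_cast hr
  have h1 : ‖ξ - 1‖ = ‖2 * Real.sin (ξ.arg / 2)‖ := by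
    rw [← Complex.norm_exp_I_mul_ofReal_sub_one, he]
  have h2 : |ξ.arg / 2| ≤ Real.pi / 2 := by
    rw [abs_div, abs_of_pos (by norm_num : (0:ℝ) < 2)]
    have := Complex.abs_arg_le_pi ξ
    linarith
  have h3 := Real.mul_abs_le_abs_sin h2
  have h4 : 2 / Real.pi * |ξ.arg| ≤ x := by
    rw [h1, Real.norm_eq_abs, abs_mul, abs_of_pos (by norm_num : (0:ℝ) < 2)] at hx
    rw [abs_div, abs_of_pos (by norm_num : (0:ℝ) < 2)] at h3
    calc 2 / Real.pi * |ξ.arg| = 2 * (2 / Real.pi * (|ξ.arg| / 2)) := by ring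
      _ ≤ _ := by linarith
  have h5 : (r : ℝ) * |ξ.arg| = 2 * Real.pi * |(j : ℝ)| := by
    have := congrArg abs hj
    rw [abs_mul, abs_mul, abs_of_pos hr0, abs_of_pos (by positivity : (0:ℝ) < 2 * Real.pi)]
      at this
    exact this
  have h6 : 2 / Real.pi * |ξ.arg| * r = 4 * |(j : ℝ)| := by
    have : 2 / Real.pi * |ξ.arg| * r = 2 / Real.pi * ((r : ℝ) * |ξ.arg|) := by ring
    rw [this, h5]
    field_simp
    ring
  have h7 := mul_le_mul_of_nonneg_right h4 hr0.le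
  linarith

end Root

theorem p_Root : S_Root := by
  intro Γ _ x hx
  set r : ℕ := Nat.card Γ with hr
  have hr0 : 0 < r := Nat.card_pos
  have hpow : ∀ ξ : Γ, (((ξ : ℂˣ) : ℂ)) ^ r = 1 := by
    intro ξ
    have h1 : ξ ^ r = 1 := pow_card_eq_one'
    have h2 : (((ξ ^ r : Γ) : ℂˣ) : ℂ) = 1 := by rw [h1]; rfl
    simpa using h2
  choose j hj he using fun ξ : Γ => Root.exists_int r hr0 _ (hpow ξ)
  have hmem : ∀ ξ : {ξ : Γ // ‖((ξ : ℂˣ) : ℂ) - 1‖ ≤ x},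
      j ξ.1 ∈ Finset.Icc (-⌊x * r / 4⌋) ⌊x * r / 4⌋ := by
    intro ξ
    have h := Root.bound r hr0 _ x ξ.2 (j ξ.1) (hj ξ.1) (he ξ.1)
    have h1 : |j ξ.1| ≤ ⌊x * r / 4⌋ := by
      rw [Int.le_floor]
      exact_mod_cast h
    exact Finset.mem_Icc.mpr (abs_le.mp h1)
  have hinj : Function.Injective (fun ξ : {ξ : Γ // ‖((ξ : ℂˣ) : ℂ) - 1‖ ≤ x} =>
      (⟨j ξ.1, hmem ξ⟩ : Finset.Icc (-⌊x * r / 4⌋) ⌊x * r / 4⌋)) := by
    intro ξ ζ h
    have h1 : j ξ.1 = j ζ.1 := congrArg Subtype.val h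
    have hr1 : (r : ℝ) ≠ 0 := by exact_mod_cast hr0.ne'
    have h2 : (((ξ.1 : ℂˣ) : ℂ)).arg = (((ζ.1 : ℂˣ) : ℂ)).arg := by
      have h3 := hj ξ.1
      have h4 := hj ζ.1
      rw [h1, ← h4] at h3
      exact mul_left_cancel₀ hr1 h3
    have h3 : (((ξ.1 : ℂˣ) : ℂ)) = (((ζ.1 : ℂˣ) : ℂ)) := by
      rw [← he ξ.1, ← he ζ.1, h2]
    exact Subtype.ext (Subtype.ext (Units.ext h3))
  have hcard := Nat.card_le_card_of_injective _ hinj
  have h0 : 0 ≤ ⌊x * r / 4⌋ := Int.floor_nonneg.mpr (by positivity)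
  have h1 : (Nat.card (Finset.Icc (-⌊x * r / 4⌋) ⌊x * r / 4⌋) : ℤ) =
      2 * ⌊x * r / 4⌋ + 1 := by
    rw [Nat.card_eq_fintype_card, Fintype.card_coe, Int.card_Icc]
    rw [Int.toNat_of_nonneg (by omega)]
    ring
  have h2 : (Nat.card (Finset.Icc (-⌊x * r / 4⌋) ⌊x * r / 4⌋) : ℝ) ≤ x * r / 2 + 1 := by
    have h3 : (Nat.card (Finset.Icc (-⌊x * r / 4⌋) ⌊x * r / 4⌋) : ℝ) =
        2 * (⌊x * r / 4⌋ : ℝ) + 1 := by exact_mod_cast h1
    rw [h3]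
    have := Int.floor_le (x * r / 4)
    linarith
  exact le_trans (by exact_mod_cast hcard) h2

end NilCut
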