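import Pool.Agent.Lib.MP_4ddf81_pr.Stm2

/-!
# MP_4ddf81_pr, stage 2, piece SDb
-/

namespace NilCut

namespace SDb

/-- the product for one degree -/
theorem prod_le {D m : ℕ} (hD : 1 ≤ D) {d : ℕ} (hd : D < d) :
    ∏ j ∈ Finset.range m, (1 + ((j : ℝ) + 1) / (d : ℝ)) ≤ (1 + (m : ℝ) / (D : ℝ)) ^ m := by
  have hD0 : (0 : ℝ) < (D : ℝ) := by exact_mod_cast hD
  have hd0 : (0 : ℝ) < (d : ℝ) := by exact_mod_cast (by omega : 0 < d)
  calc ∏ j ∈ Finset.range m, (1 + ((j : ℝ) + 1) / (d : ℝ))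
      ≤ ∏ _j ∈ Finset.range m, (1 + (m : ℝ) / (D : ℝ)) := by
        refine Finset.prod_le_prod (fun j _ => by positivity) fun j hj => ?_
        have h1 : (j : ℝ) + 1 ≤ (m : ℝ) := by exact_mod_cast Finset.mem_range.1 hj
        have h2 : (D : ℝ) ≤ (d : ℝ) := by exact_mod_cast hd.le
        have h3 : ((j : ℝ) + 1) / (d : ℝ) ≤ (m : ℝ) / (D : ℝ) := by gcongr
        linarith
    _ = (1 + (m : ℝ) / (D : ℝ)) ^ m := by simp

end SDb

open SDb

theorem p_SDb (hS : S_Sq) : S_SDb := by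
  intro G _ _ P D m hD
  unfold Planch.SD
  have hB : (0 : ℝ) ≤ (1 + (m : ℝ) / (D : ℝ)) ^ m := by positivity
  calc ∑ i ∈ Finset.univ.filter (fun i => D < P.d i),
        (P.d i : ℝ) ^ 2 * ∏ j ∈ Finset.range m, (1 + ((j : ℝ) + 1) / (P.d i : ℝ))
      ≤ ∑ i ∈ Finset.univ.filter (fun i => D < P.d i),
        (P.d i : ℝ) ^ 2 * (1 + (m : ℝ) / (D : ℝ)) ^ m := by
        refine Finset.sum_le_sum fun i hi => ?_
        exact mul_le_mul_of_nonneg_left (prod_le hD (Finset.mem_filter.1 hi).2) (by positivity)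
    _ ≤ ∑ i, (P.d i : ℝ) ^ 2 * (1 + (m : ℝ) / (D : ℝ)) ^ m :=
        Finset.sum_le_sum_of_subset_of_nonneg (Finset.filter_subset _ _)
          fun i _ _ => mul_nonneg (by positivity) hB
    _ = (Nat.card G : ℝ) * (1 + (m : ℝ) / (D : ℝ)) ^ m := by
        rw [← Finset.sum_mul, (hS G P).1]

end NilCut
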