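import Pool.Agent.Lib.MP_4ddf81_pr.Stm2

set_option autoImplicit false

namespace NilCut

open Filter Topology

namespace Slow

theorem choose_le {N n : ℕ} (hn : 0 < n) :
    (Nat.choose N n : ℝ) ≤ (Real.exp 1 * N / n) ^ n := by
  have h1 : (Nat.choose N n : ℝ) ≤ (N : ℝ) ^ n / (n.factorial : ℝ) := Nat.choose_le_pow_div n N
  have hnr : (0 : ℝ) < n := by exact_mod_cast hn
  have h2 := Real.pow_div_factorial_le_exp (n : ℝ) hnr.le n
  have hf : (0 : ℝ) < n.factorial := by exact_mod_cast n.factorial_pos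
  have h3 : 1 / (n.factorial : ℝ) ≤ Real.exp 1 ^ n / (n : ℝ) ^ n := by
    rw [le_div_iff₀ (by positivity)]
    rw [← Real.exp_nat_mul, mul_one]
    calc 1 / (n.factorial : ℝ) * (n : ℝ) ^ n = (n : ℝ) ^ n / n.factorial := by ring
      _ ≤ Real.exp n := h2
  calc (Nat.choose N n : ℝ) ≤ (N : ℝ) ^ n / (n.factorial : ℝ) := h1
    _ = (N : ℝ) ^ n * (1 / (n.factorial : ℝ)) := by ring
    _ ≤ (N : ℝ) ^ n * (Real.exp 1 ^ n / (n : ℝ) ^ n) :=
        mul_le_mul_of_nonneg_left h3 (by positivity)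
    _ = (Real.exp 1 * N / n) ^ n := by rw [div_pow, mul_pow]; ring

theorem exists_c (a : ℝ) (ha : 0 < a) (ha1 : a < 1) :
    ∃ b : ℝ, 0 < b ∧ b ≤ a / 4 ∧ b * Real.log (4 * Real.exp 1 / b) ≤ a / 4 * Real.log (1 / a) := by
  have hl : 0 < Real.log (1 / a) := Real.log_pos (by rw [lt_div_iff₀ ha]; linarith)
  have h1 : Tendsto (fun x : ℝ => x * Real.log (4 * Real.exp 1) - Real.log x * x)
      (𝓝[>] 0) (𝓝 (0 * Real.log (4 * Real.exp 1) - 0)) := by
    refine Tendsto.sub ?_ ?_
    · exact (tendsto_nhdsWithin_of_tendsto_nhds (tendsto_id)).mul_const _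
    · have := tendsto_log_mul_rpow_nhdsGT_zero (r := 1) one_pos
      simpa using this
  rw [zero_mul, sub_zero] at h1
  have h2 := h1.eventually_lt_const (show (0:ℝ) < a / 4 * Real.log (1 / a) by positivity)
  have h3 : ∀ᶠ x : ℝ in 𝓝[>] 0, x < a / 4 := by
    refine nhdsWithin_le_nhds ?_
    exact (gt_mem_nhds (by positivity))
  have h4 : ∀ᶠ x : ℝ in 𝓝[>] 0, 0 < x := self_mem_nhdsWithin
  obtain ⟨b, hb1, hb2, hb3⟩ := (h2.and (h3.and h4)).exists
  refine ⟨b, hb3, hb2.le, ?_⟩
  rw [Real.log_div (by positivity) hb3.ne']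
  linarith

end Slow

theorem p_Slow (h1 : S_L1) (h3 : S_T3) (hp : S_P2) : S_Slow := by
  intro C₀ c hC0 hc
  set a : ℝ := min c (1 / 4) with ha
  have ha0 : 0 < a := lt_min hc (by norm_num)
  have hac : a ≤ c := min_le_left _ _
  have ha4 : a ≤ 1 / 4 := min_le_right _ _
  obtain ⟨b, hb0, hba, hblog⟩ := Slow.exists_c a ha0 (by linarith)
  have hla : 0 < Real.log (1 / a) := Real.log_pos (by rw [lt_div_iff₀ ha0]; linarith)
  refine ⟨b / 2, by positivity, ?_⟩
  intro η hη
  have e1 : ∀ᶠ x : ℝ in atTop, Real.exp (-(b / 2 * x / 8)) ≤ η / 2 := by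
    have : Tendsto (fun x : ℝ => Real.exp (-(b / 2 * x / 8))) atTop (𝓝 0) := by
      refine Real.tendsto_exp_neg_atTop_nhds_zero.comp ?_
      exact (tendsto_id.const_mul_atTop (show (0:ℝ) < b / 2 by positivity)).atTop_div_const
        (by norm_num)
    exact (this.eventually_lt_const (by positivity)).mono fun x hx => hx.le
  have e2 : ∀ᶠ x : ℝ in atTop, Real.exp (-(a / 4 * Real.log (1 / a) * x)) ≤ η / 2 := by
    have : Tendsto (fun x : ℝ => Real.exp (-(a / 4 * Real.log (1 / a) * x))) atTop (𝓝 0) := by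
      refine Real.tendsto_exp_neg_atTop_nhds_zero.comp ?_
      exact (tendsto_id.const_mul_atTop (show (0:ℝ) < a / 4 * Real.log (1 / a) by positivity))
    exact (this.eventually_lt_const (by positivity)).mono fun x hx => hx.le
  have e3 : ∀ᶠ x : ℝ in atTop, 2 * C₀ / a ≤ Real.log x :=
    Real.tendsto_log_atTop.eventually_ge_atTop _
  obtain ⟨X, hX⟩ := eventually_atTop.1 (e1.and (e2.and (e3.and ((eventually_ge_atTop (2 / a)).and
    ((eventually_ge_atTop (2 / b)).and (eventually_ge_atTop 2))))))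
  refine ⟨⌈X⌉₊, ?_⟩
  intro k hk G _ _ hG hgood Z
  have hkX : X ≤ (k : ℝ) := (Nat.le_ceil X).trans (by exact_mod_cast hk)
  obtain ⟨f1, f2, f3, f4, f5, f6⟩ := hX k hkX
  have hk0 : (0 : ℝ) < k := by linarith
  have hkn : 0 < k := by exact_mod_cast hk0
  have g4 : 2 ≤ a * k := by rwa [div_le_iff₀ ha0, mul_comm] at f4
  have g5 : 2 ≤ b * k := by rwa [div_le_iff₀ hb0, mul_comm] at f5
  set m : ℕ := ⌊a * k⌋₊ with hm
  set n : ℕ := ⌊b * k⌋₊ with hn
  have hm1 : (m : ℝ) ≤ a * k := Nat.floor_le (by positivity)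
  have hm2 : a * k / 2 ≤ m := by
    have := Nat.lt_floor_add_one (a * (k : ℝ))
    rw [← hm] at this
    linarith
  have hn1 : (n : ℝ) ≤ b * k := Nat.floor_le (by positivity)
  have hn2 : b * k / 2 ≤ n := by
    have := Nat.lt_floor_add_one (b * (k : ℝ))
    rw [← hn] at this
    linarith
  have hm0 : (0 : ℝ) < m := by linarith
  have hn0 : (0 : ℝ) < n := by linarith
  have hm0n : 1 ≤ m := by exact_mod_cast hm0
  have hn0n : 0 < n := by exact_mod_cast hn0
  have hGpos : (0 : ℝ) < (Nat.card G : ℝ) := by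
    have := Nat.card_pos (α := G)
    exact_mod_cast this
  -- |G| ≤ k ^ m
  have hGk : Nat.card G ≤ k ^ m := by
    have : (Nat.card G : ℝ) ≤ (k : ℝ) ^ m := by
      rw [← Real.exp_log hGpos, ← Real.exp_log hk0, ← Real.exp_nat_mul]
      apply Real.exp_le_exp.2
      refine hG.trans ?_
      have h5 : a * k / 2 * (2 * C₀ / a) ≤ m * Real.log k :=
        mul_le_mul hm2 f3 (by positivity) (by positivity)
      have h6 : a * k / 2 * (2 * C₀ / a) = C₀ * k := by field_simp
      linarith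
    exact_mod_cast this
  have hng := hgood m (hm1.trans (mul_le_mul_of_nonneg_right hac hk0.le))
  have hH : ∃ H : Subgroup G, (k * H.index) ^ m < Nat.card (Abelianization H) * m ^ m := by
    by_contra hcon
    push Not at hcon
    exact hng ⟨hm0n, hGk, hcon⟩
  obtain ⟨H, hH⟩ := hH
  have hJ1n : 1 ≤ H.index := Nat.one_le_iff_ne_zero.2 H.index_ne_zero_of_finite
  set J : ℝ := (H.index : ℝ) with hJ
  have hJ1 : 1 ≤ J := by rw [hJ]; exact_mod_cast hJ1n
  have hJ0 : 0 < J := by linarith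
  set A : ℝ := (Nat.card (Abelianization H) : ℝ) with hA
  have hHr : ((k : ℝ) * J) ^ m < A * (m : ℝ) ^ m := by
    rw [hJ, hA]; exact_mod_cast hH
  -- lower bound of A
  have hAlow : (J / a) ^ m ≤ A := by
    have h5 : (J / a) ^ m * (m : ℝ) ^ m ≤ A * (m : ℝ) ^ m := by
      refine le_trans ?_ hHr.le
      rw [← mul_pow]
      refine pow_le_pow_left₀ (by positivity) ?_ _
      calc J / a * m ≤ J / a * (a * k) := mul_le_mul_of_nonneg_left hm1 (by positivity)
        _ = k * J := by field_simp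
    exact le_of_mul_le_mul_right h5 (by positivity)
  have hL1 := h1 G k Z n H
  set Rr : ℝ := (Nat.card (reach Z n) : ℝ) / (Nat.card G : ℝ) with hRr
  have hL1r : Rr * A ≤ (Nat.choose (k * H.index + n) n : ℝ) := by
    have h5 : (Nat.card (reach Z n) : ℝ) * A ≤
        (Nat.card G : ℝ) * (Nat.choose (k * H.index + n) n : ℝ) := by
      rw [hA]; exact_mod_cast hL1
    rw [hRr, div_mul_eq_mul_div, div_le_iff₀ hGpos]
    linarith
  have hch : (Nat.choose (k * H.index + n) n : ℝ) ≤ (4 * Real.exp 1 / b * J) ^ n := by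
    refine (Slow.choose_le hn0n).trans (pow_le_pow_left₀ (by positivity) ?_ _)
    push_cast
    rw [← hJ, div_le_iff₀ hn0]
    have h5 : (n : ℝ) ≤ k * J := by
      have : b * k ≤ 1 * k := mul_le_mul_of_nonneg_right (by linarith) hk0.le
      have : (k : ℝ) * 1 ≤ k * J := mul_le_mul_of_nonneg_left hJ1 hk0.le
      linarith
    have h6 : 4 * Real.exp 1 / b * J * (b * k / 2) ≤ 4 * Real.exp 1 / b * J * n :=
      mul_le_mul_of_nonneg_left hn2 (by positivity)
    have h7 : 4 * Real.exp 1 / b * J * (b * k / 2) = Real.exp 1 * (2 * (k * J)) := by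
      field_simp; ring
    rw [h7] at h6
    refine le_trans ?_ h6
    exact mul_le_mul_of_nonneg_left (by linarith) (Real.exp_pos _).le
  have hlJ : 0 ≤ Real.log J := Real.log_nonneg hJ1
  have e4b : (1:ℝ) ≤ 4 * Real.exp 1 / b := by
    rw [le_div_iff₀ hb0]
    have : (1:ℝ) ≤ Real.exp 1 := Real.one_le_exp zero_le_one
    linarith
  have hl4 : 0 ≤ Real.log (4 * Real.exp 1 / b) := Real.log_nonneg e4b
  have hB : (4 * Real.exp 1 / b * J) ^ n ≤
      Real.exp (b * k * (Real.log (4 * Real.exp 1 / b) + Real.log J)) := by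
    rw [← Real.exp_log (show (0:ℝ) < 4 * Real.exp 1 / b * J by positivity), ← Real.exp_nat_mul,
      Real.log_mul (by positivity) hJ0.ne']
    apply Real.exp_le_exp.2
    exact mul_le_mul_of_nonneg_right hn1 (by linarith)
  have hA2 : Real.exp (a * k / 2 * (Real.log (1 / a) + Real.log J)) ≤ A := by
    refine le_trans ?_ hAlow
    rw [← Real.exp_log (show (0:ℝ) < J / a by positivity), ← Real.exp_nat_mul]
    apply Real.exp_le_exp.2
    have h5 : Real.log (J / a) = Real.log (1 / a) + Real.log J := by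
      rw [← Real.log_mul (by positivity) hJ0.ne']; congr 1; ring
    rw [h5]
    exact mul_le_mul_of_nonneg_right hm2 (by linarith)
  have hR : Rr ≤ Real.exp (-(a / 4 * Real.log (1 / a) * k)) := by
    have hR0 : 0 ≤ Rr := by positivity
    have h5 : Rr * Real.exp (a * k / 2 * (Real.log (1 / a) + Real.log J)) ≤
        Real.exp (b * k * (Real.log (4 * Real.exp 1 / b) + Real.log J)) :=
      (mul_le_mul_of_nonneg_left hA2 hR0).trans (hL1r.trans (hch.trans hB))
    have h6 : Rr ≤ Real.exp (b * k * (Real.log (4 * Real.exp 1 / b) + Real.log J)) *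
        Real.exp (-(a * k / 2 * (Real.log (1 / a) + Real.log J))) := by
      rw [Real.exp_neg, ← div_eq_mul_inv, le_div_iff₀ (Real.exp_pos _)]
      exact h5
    refine h6.trans ?_
    rw [← Real.exp_add]
    apply Real.exp_le_exp.2
    have h7 : b * k * Real.log J ≤ a / 4 * k * Real.log J := by
      have : b * k ≤ a / 4 * k := mul_le_mul_of_nonneg_right hba hk0.le
      exact mul_le_mul_of_nonneg_right this hlJ
    have h8 : b * Real.log (4 * Real.exp 1 / b) * k ≤ a / 4 * Real.log (1 / a) * k :=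
      mul_le_mul_of_nonneg_right hblog hk0.le
    have h9 : 0 ≤ a * k * Real.log J := by positivity
    nlinarith
  have ht0 : (0 : ℝ) ≤ b / 2 * k := by positivity
  have hT := h3 G k Z (b / 2 * k) n hkn ht0
  have hP := hp (b / 2 * k) 1 n ht0 zero_le_one le_rfl (by
    have := Nat.lt_floor_add_one (b * (k : ℝ))
    rw [← hn] at this
    linarith)
  have hP' : 1 - Real.exp (-(b / 2 * k / 8)) ≤ ∑ i ∈ Finset.range (n + 1), pois (b / 2 * k) i := by
    refine le_trans (le_of_eq ?_) hP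
    congr 3
    ring
  linarith

end NilCut
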