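import Pool.Agent.Lib.MP_4ddf81_pr.Stm2

namespace NilCut

theorem p_Sq : S_Sq := by
  intro G _ _ P
  have h1 := P.planch 1
  rw [if_pos rfl] at h1
  have h2 : ∀ i, (P.d i : ℂ) * (P.ρ i 1).trace = ((P.d i ^ 2 : ℕ) : ℂ) := by
    intro i
    rw [map_one, Matrix.trace_one, Fintype.card_fin]
    push_cast
    ring
  rw [Finset.sum_congr rfl (fun i _ => h2 i), ← Nat.cast_sum] at h1
  have h3 : ∑ i, P.d i ^ 2 = Nat.card G := by exact_mod_cast h1
  refine ⟨by exact_mod_cast h3, ?_⟩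
  have h4 : Nat.card P.ι ≤ Nat.card G := by
    rw [← h3, Nat.card_eq_fintype_card]
    calc Fintype.card P.ι = ∑ _i : P.ι, 1 := by simp
      _ ≤ ∑ i, P.d i ^ 2 := Finset.sum_le_sum (fun i _ => Nat.one_le_pow _ _ (P.pos i))
  exact_mod_cast h4

end NilCut
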