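import Pool.Agent.Lib.MP_4ddf81_pr.Stm2

/-!
# MP_4ddf81_pr, stage 2 : existence of a terminal normal subgroup of bounded index
-/

namespace NilCut

namespace Term

/-- Bounds for the indices. -/
private def f (D : ℕ) : ℕ → ℕ
  | 0 => 1
  | m + 1 => f D m + (f D m * D).factorial

private theorem f_pos (D m : ℕ) : 1 ≤ f D m := by
  cases m with
  | zero => exact le_refl 1
  | succ m => exact le_trans (Nat.factorial_pos _) (Nat.le_add_left _ _)

private theorem f_mono (D : ℕ) : Monotone (f D) :=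
  monotone_nat_of_le_succ (fun m => Nat.le_add_right _ _)

/-- One step. -/
private theorem step (hA : S_AbSub) (hC : S_Core) (D : ℕ) (c₂ : ℝ) (Jm : ℕ)
    (k : ℕ) (hJ0 : 1 ≤ Jm) (hk : Real.log Jm ≤ c₂ * k / 2)
    (G : Type) [Group G] [Finite G] (m : ℕ) (hm : f D (m + 1) ≤ Jm)
    (K : Subgroup G) [K.Normal] (hK : K.index ≤ f D m)
    (hKc : Real.exp (m * (c₂ * k / 2)) ≤ Nat.card (Abelianization K))
    (hT : ¬ NilCut.Term K D (Real.exp (c₂ * (k : ℝ)))) :
    ∃ K' : Subgroup G, K'.Normal ∧ K'.index ≤ f D (m + 1) ∧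
      Real.exp ((m + 1 : ℕ) * (c₂ * k / 2)) ≤ Nat.card (Abelianization K') := by
  unfold NilCut.Term at hT
  push Not at hT
  obtain ⟨H, hHK, hHD, hH⟩ := hT
  refine ⟨H.normalCore, inferInstance, ?_, ?_⟩
  · refine (hC G H).trans ?_
    have h1 : H.index = H.relIndex K * K.index := (Subgroup.relIndex_mul_index hHK).symm
    have h2 : H.index ≤ f D m * D := by
      rw [h1, mul_comm]
      exact Nat.mul_le_mul hK hHD
    exact (Nat.factorial_le h2).trans (Nat.le_add_left _ _)
  · have h1 : H.index ≤ f D m * D := by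
      rw [(Subgroup.relIndex_mul_index hHK).symm, mul_comm]
      exact Nat.mul_le_mul hK hHD
    have h2 : H.normalCore.relIndex H ≤ Jm := by
      have h3 : H.normalCore.index = H.normalCore.relIndex H * H.index :=
        (Subgroup.relIndex_mul_index H.normalCore_le).symm
      have h4 : 0 < H.index := Nat.pos_of_ne_zero Subgroup.FiniteIndex.index_ne_zero
      have h5 : H.normalCore.relIndex H ≤ H.normalCore.index := by
        rw [h3]; exact Nat.le_mul_of_pos_right _ h4
      refine h5.trans ((hC G H).trans ?_)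
      exact ((Nat.factorial_le h1).trans (Nat.le_add_left _ _)).trans hm
    have h3 := hA G H.normalCore H H.normalCore_le
    have h4 : (Nat.card (Abelianization H) : ℝ) ≤
        Nat.card (Abelianization H.normalCore) * (Jm : ℝ) := by
      have : Nat.card (Abelianization H) ≤ Nat.card (Abelianization H.normalCore) * Jm :=
        h3.trans (Nat.mul_le_mul_left _ h2)
      exact_mod_cast this
    have hJpos : (0 : ℝ) < Jm := by exact_mod_cast hJ0
    have h5 : (Jm : ℝ) ≤ Real.exp (c₂ * k / 2) := by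
      rw [← Real.exp_log hJpos]
      exact Real.exp_le_exp.mpr hk
    have h6 : Real.exp (c₂ * k) * Real.exp (m * (c₂ * k / 2)) ≤
        Nat.card (Abelianization H.normalCore) * Real.exp (c₂ * k / 2) := by
      calc Real.exp (c₂ * k) * Real.exp (m * (c₂ * k / 2))
          ≤ Real.exp (c₂ * k) * Nat.card (Abelianization K) :=
            mul_le_mul_of_nonneg_left hKc (Real.exp_pos _).le
        _ ≤ Nat.card (Abelianization H) := hH.le
        _ ≤ Nat.card (Abelianization H.normalCore) * (Jm : ℝ) := h4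
        _ ≤ _ := mul_le_mul_of_nonneg_left h5 (by positivity)
    have h7 : Real.exp (c₂ * k) * Real.exp (m * (c₂ * k / 2)) =
        Real.exp ((m + 1 : ℕ) * (c₂ * k / 2)) * Real.exp (c₂ * k / 2) := by
      rw [← Real.exp_add, ← Real.exp_add]
      congr 1
      push_cast
      ring
    rw [h7] at h6
    exact le_of_mul_le_mul_right h6 (Real.exp_pos _)

end Term

theorem p_Term (hA : S_AbSub) (hC : S_Core) : S_Term := by
  intro D c₂ C₀ hD hc₂ hC₀
  set M : ℕ := ⌈2 * C₀ / c₂⌉₊ + 1 with hM
  set Jm : ℕ := Term.f D M with hJm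
  have hJ1 : 1 ≤ Jm := Term.f_pos D M
  refine ⟨Jm, ⌈2 * Real.log Jm / c₂⌉₊ + 1, ?_⟩
  intro k hk G _ _ hG
  have hk1 : 1 ≤ k := le_trans (Nat.le_add_left _ _) hk
  have hk0 : (0 : ℝ) < k := by exact_mod_cast hk1
  have hkl : Real.log Jm ≤ c₂ * k / 2 := by
    have h1 : 2 * Real.log Jm / c₂ ≤ (k : ℝ) := by
      refine (Nat.le_ceil _).trans ?_
      exact_mod_cast (Nat.le_succ _).trans hk
    rw [div_le_iff₀ hc₂] at h1
    linarith
  by_contra hno
  push Not at hno
  have key : ∀ m : ℕ, m ≤ M → ∃ K : Subgroup G, K.Normal ∧ K.index ≤ Term.f D m ∧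
      Real.exp (m * (c₂ * k / 2)) ≤ Nat.card (Abelianization K) := by
    intro m
    induction m with
    | zero =>
      intro _
      refine ⟨⊤, inferInstance, ?_, ?_⟩
      · rw [Subgroup.index_top]; exact Term.f_pos D 0
      · have : 1 ≤ Nat.card (Abelianization (⊤ : Subgroup G)) := Nat.card_pos
        simpa using (by exact_mod_cast this :
          (1 : ℝ) ≤ Nat.card (Abelianization (⊤ : Subgroup G)))
    | succ m ih =>
      intro hm
      obtain ⟨K, hKn, hKi, hKc⟩ := ih (by omega)
      haveI := hKn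
      refine Term.step hA hC D c₂ Jm k hJ1 hkl G m (Term.f_mono D hm) K hKi hKc ?_
      exact hno K hKn (hKi.trans (Term.f_mono D (by omega)))
  obtain ⟨K, -, -, hKc⟩ := key M le_rfl
  have h1 : Nat.card (Abelianization K) ≤ Nat.card G := by
    refine le_trans (Nat.card_le_card_of_surjective (Abelianization.of : K →* _)
      QuotientGroup.mk_surjective) ?_
    exact Nat.card_le_card_of_injective _ (Subtype.val_injective)
  have h2 : Real.exp (M * (c₂ * k / 2)) ≤ Nat.card G :=
    hKc.trans (by exact_mod_cast h1)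
  have hG0 : (0 : ℝ) < Nat.card G := by exact_mod_cast Nat.card_pos
  have h3 : (M : ℝ) * (c₂ * k / 2) ≤ C₀ * k := by
    refine le_trans ?_ hG
    rw [← Real.log_exp (M * (c₂ * k / 2))]
    exact Real.log_le_log (Real.exp_pos _) h2
  have h4 : 2 * C₀ / c₂ < (M : ℝ) := by
    have : 2 * C₀ / c₂ ≤ (⌈2 * C₀ / c₂⌉₊ : ℝ) := Nat.le_ceil _
    rw [hM]; push_cast; linarith
  rw [div_lt_iff₀ hc₂] at h4
  have h5 : C₀ * k < (M : ℝ) * (c₂ * k / 2) := by
    have := mul_lt_mul_of_pos_right h4 hk0
    nlinarith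
  linarith

end NilCut
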