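import Pool.Agent.Lib.MP_4ddf81_pr.Stm2

/-! Piece Trans: induction in stages (from a subgroup of `N` to `G`). -/

namespace NilCut

namespace Trans

open Classical in
/-- The function `lam` extended by zero. -/
noncomputable def ext0 {G : Type} [Group G] (H : Subgroup G) (lam : H →* ℂˣ) (z : G) : ℂ :=
  if h : z ∈ H then ((lam ⟨z, h⟩ : ℂˣ) : ℂ) else 0

lemma indL_eq {G : Type} [Group G] [Fintype G] (H : Subgroup G) (lam : H →* ℂˣ) (g : G) :
    indL H lam g = (1 / (Nat.card H : ℂ)) * ∑ y : G, ext0 H lam (y⁻¹ * g * y) := rfl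

end Trans

open NilCut.Trans in
theorem p_Trans : S_Trans := by
  classical
  intro G _ _ N _ χ χ' H lam hχ hχ'
  refine ⟨Subgroup.index_map_subtype H, ?_⟩
  let e : H ≃* (H.map N.subtype : Subgroup G) :=
    H.equivMapOfInjective N.subtype N.subtype_injective
  let lam' : (H.map N.subtype : Subgroup G) →* ℂˣ := lam.comp e.symm.toMonoidHom
  refine ⟨lam', fun x => ?_⟩
  have hcard : Nat.card (H.map N.subtype : Subgroup G) = Nat.card H :=
    (Nat.card_congr e.toEquiv).symm
  -- the two extensions by zero agree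
  have hext : ∀ n : N, ext0 H lam n = ext0 (H.map N.subtype) lam' (n : G) := by
    intro n
    unfold ext0
    by_cases h : n ∈ H
    · have h' : (n : G) ∈ H.map N.subtype := ⟨n, h, rfl⟩
      rw [dif_pos h, dif_pos h']
      have h3 : e ⟨n, h⟩ = ⟨(n : G), h'⟩ := Subtype.ext
        (Subgroup.coe_equivMapOfInjective_apply H N.subtype N.subtype_injective ⟨n, h⟩)
      have h4 : lam' ⟨(n : G), h'⟩ = lam ⟨n, h⟩ := by
        rw [← h3]
        change lam (e.symm (e ⟨n, h⟩)) = _
        rw [e.symm_apply_apply]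
      rw [h4]
    · have h' : (n : G) ∉ H.map N.subtype := by
        rintro ⟨m, hm, hmn⟩
        exact h (by rwa [Subtype.ext hmn] at hm)
      rw [dif_neg h, dif_neg h']
  have hout : ∀ z : G, z ∉ N → ext0 (H.map N.subtype) lam' z = 0 := by
    intro z hz
    unfold ext0
    rw [dif_neg]
    rintro ⟨m, _, rfl⟩
    exact hz m.2
  have hN : (Nat.card N : ℂ) ≠ 0 := by
    have : 0 < Nat.card N := Nat.card_pos
    exact_mod_cast this.ne'
  have key : (Nat.card N : ℂ) * χ x
      = (Nat.card N : ℂ) * indL (H.map N.subtype) lam' x := by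
    rw [hχ x]
    have h1 : ∀ y : G, (if h : y * x * y⁻¹ ∈ N then χ' ⟨y * x * y⁻¹, h⟩ else 0)
        = (1 / (Nat.card H : ℂ)) *
          ∑ n : N, ext0 (H.map N.subtype) lam' (((n : G)⁻¹ * y) * x * ((n : G)⁻¹ * y)⁻¹) := by
      intro y
      by_cases h : y * x * y⁻¹ ∈ N
      · rw [dif_pos h, hχ', indL_eq]
        congr 1
        refine Finset.sum_congr rfl fun n _ => ?_
        rw [hext]
        congr 1
        push_cast
        group
      · rw [dif_neg h]
        symm
        rw [Finset.sum_eq_zero, mul_zero]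
        intro n _
        apply hout
        intro hcon
        apply h
        have h2 := N.mul_mem (N.mul_mem n.2 hcon) (N.inv_mem n.2)
        convert h2 using 1
        group
    rw [Finset.sum_congr rfl fun y _ => h1 y, ← Finset.mul_sum, Finset.sum_comm]
    have h2 : ∀ n : N, ∑ y : G,
        ext0 (H.map N.subtype) lam' (((n : G)⁻¹ * y) * x * ((n : G)⁻¹ * y)⁻¹)
        = ∑ y : G, ext0 (H.map N.subtype) lam' (y * x * y⁻¹) := by
      intro n
      exact Fintype.sum_equiv (Equiv.mulLeft ((n : G)⁻¹)) _ _ fun y => rfl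
    rw [Finset.sum_congr rfl fun n _ => h2 n, Finset.sum_const, Finset.card_univ,
      nsmul_eq_mul, indL_eq, hcard, ← Nat.card_eq_fintype_card]
    have h3 : ∑ y : G, ext0 (H.map N.subtype) lam' (y * x * y⁻¹)
        = ∑ y : G, ext0 (H.map N.subtype) lam' (y⁻¹ * x * y) := by
      refine Fintype.sum_equiv (Equiv.inv G) _ _ fun y => ?_
      simp
    rw [h3]
    ring
  exact mul_left_cancel₀ hN key

end NilCut
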