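import Pool.Agent.Lib.MP_4ddf81_pr.Stm2

/-!
# MP_4ddf81_pr, stage 2 : comparison with the product law, a set of families of counts
-/

namespace NilCut

namespace TransS

lemma pw_nonneg {Q : Type} [Group Q] [Fintype Q] {s : ℝ} (hs : 0 < s) (x : Q → ℕ) :
    0 ≤ pw s x := by
  unfold pw pois
  refine Finset.prod_nonneg fun a _ => ?_
  positivity

lemma Wf_nonneg {J : ℕ} {s ε : ℝ} {k n : ℕ} (hs : 0 < s) (hε : 0 ≤ ε) : 0 ≤ Wf J s ε k n := by
  unfold Wf
  positivity

end TransS

open TransS in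
theorem p_TransS (hT : S_Transf) (hC : S_Cnt) : S_TransS := by
  classical
  intro Q _ _ k n L s ε z A hk hs hε hnL
  set C : (Fin n → Fin k) → Prop := fun w =>
    ∀ b, (occ z w b : ℝ) ≤ (n : ℝ) / (Fintype.card Q : ℝ) + ε * (k : ℝ) with hCdef
  set T : Finset (Fin k → Q → ℕ) :=
    (Fintype.piFinset fun _ : Fin k => XL Q L).filter (fun N => N ∈ A) with hTdef
  have h1 : (Nat.card {w : Fin n → Fin k // C w ∧ cnt z w ∈ A}) =
      ∑ N ∈ T, (Finset.univ.filter fun w : Fin n → Fin k => C w ∧ cnt z w = N).card := by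
    rw [Nat.card_eq_fintype_card, Fintype.card_subtype]
    rw [Finset.card_eq_sum_card_fiberwise (f := fun w => cnt z w) (t := T)]
    · refine Finset.sum_congr rfl fun N hN => ?_
      congr 1
      ext w
      simp only [Finset.mem_filter, Finset.mem_univ, true_and]
      constructor
      · rintro ⟨⟨h1, h2⟩, h3⟩
        exact ⟨h1, h3⟩
      · rintro ⟨h1, h3⟩
        refine ⟨⟨h1, ?_⟩, h3⟩
        rw [h3]
        exact (Finset.mem_filter.1 hN).2
    · intro w hw
      have hw' := (Finset.mem_filter.1 (Finset.mem_coe.1 hw)).2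
      refine Finset.mem_coe.2 (Finset.mem_filter.2 ⟨?_, hw'.2⟩)
      refine Fintype.mem_piFinset.2 fun i => ?_
      refine Fintype.mem_piFinset.2 fun a => ?_
      have h5 : cnt z w i a ≤ n := (hC Q k n z w).1 i a
      have h6 : cnt z w i a < L + 1 := by omega
      exact Finset.mem_range.2 h6
  have h2 : ∀ N ∈ T,
      ((Finset.univ.filter fun w : Fin n → Fin k => C w ∧ cnt z w = N).card : ℝ) ≤
        (k : ℝ) ^ n * (Wf (Fintype.card Q) s ε k n * ∏ i, pw s (N i)) := by
    intro N hN
    by_cases hex : ∃ w : Fin n → Fin k, C w ∧ cnt z w = N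
    · obtain ⟨w0, hw0, hw0N⟩ := hex
      have hb : ∀ a, (∑ i, (N i a : ℝ)) ≤ (n : ℝ) / (Fintype.card Q : ℝ) + ε * (k : ℝ) := by
        intro a
        have e1 := (hC Q k n z w0).2.1 a
        rw [hw0N] at e1
        have e2 : (∑ i, (N i a : ℝ)) = (occ z w0 a : ℝ) := by
          rw [← e1]
          push_cast
          rfl
        rw [e2]
        exact hw0 a
      refine le_trans ?_ (hT Q k n s ε z N hk hs hε hb)
      rw [Nat.card_eq_fintype_card, Fintype.card_subtype]
      refine Nat.cast_le.2 (Finset.card_le_card ?_)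
      intro w hw
      simp only [Finset.mem_filter, Finset.mem_univ, true_and] at hw ⊢
      exact hw.2
    · have : (Finset.univ.filter fun w : Fin n → Fin k => C w ∧ cnt z w = N) = ∅ := by
        refine Finset.filter_eq_empty_iff.2 fun w _ hw => hex ⟨w, hw⟩
      rw [this]
      simp only [Finset.card_empty, Nat.cast_zero]
      refine mul_nonneg (by positivity) (mul_nonneg (Wf_nonneg hs hε) ?_)
      exact Finset.prod_nonneg fun i _ => pw_nonneg hs _
  rw [h1]
  push_cast
  calc (∑ N ∈ T, ((Finset.univ.filter fun w : Fin n → Fin k => C w ∧ cnt z w = N).card : ℝ))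
      ≤ ∑ N ∈ T, (k : ℝ) ^ n * (Wf (Fintype.card Q) s ε k n * ∏ i, pw s (N i)) :=
        Finset.sum_le_sum h2
    _ = (k : ℝ) ^ n * (Wf (Fintype.card Q) s ε k n * ∑ N ∈ T, ∏ i, pw s (N i)) := by
        rw [← Finset.mul_sum, ← Finset.mul_sum]

end NilCut
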