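import Pool.Agent.Lib.MP_4ddf81_pr.Stm2

/-!
# MP_4ddf81_pr, piece `Transf`
-/

set_option autoImplicit false

namespace NilCut

namespace Transf

/-- `n ^ (n+1) * e ≤ (n+1)^(n+1)`. -/
lemma pow_step (n : ℕ) : Real.exp 1 * (n : ℝ) ^ (n + 1) ≤ ((n : ℝ) + 1) ^ (n + 1) := by
  have h1 : (n : ℝ) ≤ ((n : ℝ) + 1) * Real.exp (-(1 / ((n : ℝ) + 1))) := by
    have h := Real.add_one_le_exp (-(1 / ((n : ℝ) + 1)))
    have hp : (0 : ℝ) < (n : ℝ) + 1 := by positivity
    have h2 : ((n : ℝ) + 1) * (-(1 / ((n : ℝ) + 1)) + 1) ≤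
        ((n : ℝ) + 1) * Real.exp (-(1 / ((n : ℝ) + 1))) :=
      mul_le_mul_of_nonneg_left h hp.le
    have h3 : ((n : ℝ) + 1) * (-(1 / ((n : ℝ) + 1)) + 1) = n := by
      field_simp
      ring
    linarith
  have h2 : (n : ℝ) ^ (n + 1) ≤
      (((n : ℝ) + 1) * Real.exp (-(1 / ((n : ℝ) + 1)))) ^ (n + 1) :=
    pow_le_pow_left₀ (Nat.cast_nonneg n) h1 _
  have h3 : (((n : ℝ) + 1) * Real.exp (-(1 / ((n : ℝ) + 1)))) ^ (n + 1) =
      ((n : ℝ) + 1) ^ (n + 1) * Real.exp (-1) := by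
    rw [mul_pow, ← Real.exp_nat_mul]
    congr 2
    have hp : ((n : ℝ) + 1) ≠ 0 := by positivity
    push_cast
    field_simp
  rw [h3] at h2
  calc Real.exp 1 * (n : ℝ) ^ (n + 1)
      ≤ Real.exp 1 * (((n : ℝ) + 1) ^ (n + 1) * Real.exp (-1)) :=
        mul_le_mul_of_nonneg_left h2 (Real.exp_pos _).le
    _ = ((n : ℝ) + 1) ^ (n + 1) * (Real.exp 1 * Real.exp (-1)) := by ring
    _ = ((n : ℝ) + 1) ^ (n + 1) := by
        rw [← Real.exp_add]
        norm_num

lemma fac_aux (n : ℕ) :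
    ((n + 1).factorial : ℝ) * Real.exp ((n : ℝ) + 1) ≤
      Real.exp 1 * ((n : ℝ) + 1) * ((n : ℝ) + 1) ^ (n + 1) := by
  induction n with
  | zero => simp
  | succ n ih =>
    have h := pow_step (n + 1)
    have h1 : (((n + 1 + 1).factorial : ℕ) : ℝ) = ((n : ℝ) + 2) * ((n + 1).factorial : ℝ) := by
      rw [Nat.factorial_succ (n + 1)]
      push_cast
      ring
    have h2 : Real.exp (((n + 1 : ℕ) : ℝ) + 1) = Real.exp ((n : ℝ) + 1) * Real.exp 1 := by
      rw [← Real.exp_add]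
      push_cast
      ring_nf
    rw [h1, h2]
    push_cast at h ⊢
    have h3 : Real.exp 1 * (((n : ℝ) + 1) * ((n : ℝ) + 1) ^ (n + 1)) ≤
        ((n : ℝ) + 1 + 1) ^ (n + 1 + 1) := by
      calc Real.exp 1 * (((n : ℝ) + 1) * ((n : ℝ) + 1) ^ (n + 1))
          = Real.exp 1 * ((n : ℝ) + 1) ^ (n + 1 + 1) := by ring
        _ ≤ _ := h
    have hp : (0 : ℝ) ≤ ((n : ℝ) + 2) * Real.exp 1 := by positivity
    calc ((n : ℝ) + 2) * ((n + 1).factorial : ℝ) * (Real.exp ((n : ℝ) + 1) * Real.exp 1)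
        = (((n : ℝ) + 2) * Real.exp 1) *
          (((n + 1).factorial : ℝ) * Real.exp ((n : ℝ) + 1)) := by ring
      _ ≤ (((n : ℝ) + 2) * Real.exp 1) *
          (Real.exp 1 * ((n : ℝ) + 1) * ((n : ℝ) + 1) ^ (n + 1)) :=
          mul_le_mul_of_nonneg_left ih hp
      _ = (((n : ℝ) + 2) * Real.exp 1) *
          (Real.exp 1 * (((n : ℝ) + 1) * ((n : ℝ) + 1) ^ (n + 1))) := by ring
      _ ≤ (((n : ℝ) + 2) * Real.exp 1) * ((n : ℝ) + 1 + 1) ^ (n + 1 + 1) :=
          mul_le_mul_of_nonneg_left h3 hp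
      _ = Real.exp 1 * ((n : ℝ) + 1 + 1) * ((n : ℝ) + 1 + 1) ^ (n + 1 + 1) := by ring

/-- `n! ≤ e (n+1) e^(-n) n^n`. -/
lemma fac_le (n : ℕ) :
    (n.factorial : ℝ) ≤ Real.exp 1 * ((n : ℝ) + 1) * Real.exp (-(n : ℝ)) * (n : ℝ) ^ n := by
  have key : (n.factorial : ℝ) * Real.exp (n : ℝ) ≤ Real.exp 1 * ((n : ℝ) + 1) * (n : ℝ) ^ n := by
    cases n with
    | zero => simp
    | succ n =>
      have h := fac_aux n
      push_cast
      refine h.trans ?_
      have hp : (0 : ℝ) ≤ ((n : ℝ) + 1) ^ (n + 1) := by positivity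
      refine mul_le_mul_of_nonneg_right ?_ hp
      refine mul_le_mul_of_nonneg_left ?_ (Real.exp_pos _).le
      linarith
  have he : Real.exp (n : ℝ) * Real.exp (-(n : ℝ)) = 1 := by
    rw [← Real.exp_add]; simp
  calc (n.factorial : ℝ) = ((n.factorial : ℝ) * Real.exp (n : ℝ)) * Real.exp (-(n : ℝ)) := by
        rw [mul_assoc, he, mul_one]
    _ ≤ (Real.exp 1 * ((n : ℝ) + 1) * (n : ℝ) ^ n) * Real.exp (-(n : ℝ)) :=
        mul_le_mul_of_nonneg_right key (Real.exp_pos _).le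
    _ = _ := by ring

end Transf

theorem p_Transf (hE : S_Euler) (hC : S_Cnt) : S_Transf := by
  intro Q _ _ k n s ε z N hk hs hε hN
  classical
  have hJ : 0 < Fintype.card Q := Fintype.card_pos
  have hJ' : (0 : ℝ) < (Fintype.card Q : ℝ) := by exact_mod_cast hJ
  have hk' : (0 : ℝ) < (k : ℝ) := by exact_mod_cast hk
  set J := Fintype.card Q with hJdef
  have hpw : ∀ i, 0 ≤ pw s (N i) := by
    intro i
    unfold pw pois
    refine Finset.prod_nonneg fun a _ => ?_
    positivity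
  have hW : 0 ≤ Wf J s ε k n := by
    unfold Wf
    positivity
  rcases Nat.eq_zero_or_pos (Nat.card {w : Fin n → Fin k // cnt z w = N}) with h0 | h0
  · rw [h0]
    simp only [Nat.cast_zero]
    exact mul_nonneg (by positivity) (mul_nonneg hW (Finset.prod_nonneg fun i _ => hpw i))
  · have hne : Nonempty {w : Fin n → Fin k // cnt z w = N} := (Nat.card_pos_iff.mp h0).1
    obtain ⟨w, hw⟩ := hne
    obtain ⟨_, hc2, hc3⟩ := hC Q k n z w
    rw [hw] at hc2
    have hsum : ∑ a, ∑ i, N i a = n := by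
      rw [← hc3]
      exact Finset.sum_congr rfl fun a _ => hc2 a
    have hle : ∀ a, ∑ i, N i a ≤ n := by
      intro a
      rw [← hsum]
      exact Finset.single_le_sum (f := fun a => ∑ i, N i a) (fun _ _ => Nat.zero_le _)
        (Finset.mem_univ a)
    have hE' := hE Q k n z N
    have hE'' : (Nat.card {w : Fin n → Fin k // cnt z w = N} : ℝ) *
        (∏ i, ∏ a, ((N i a).factorial : ℝ)) ≤ ∏ a : Q, ((∑ i, N i a).factorial : ℝ) := by
      exact_mod_cast hE'
    set F : ℝ := ∏ i, ∏ a, ((N i a).factorial : ℝ) with hF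
    have hFpos : 0 < F := by
      refine Finset.prod_pos fun i _ => Finset.prod_pos fun a _ => ?_
      exact_mod_cast Nat.factorial_pos _
    -- the bound for the factorials
    have hb : ∏ a : Q, ((∑ i, N i a).factorial : ℝ) ≤
        (Real.exp 1 * ((n : ℝ) + 1)) ^ J * Real.exp (-(n : ℝ)) *
          ((n : ℝ) / (J : ℝ) + ε * (k : ℝ)) ^ n := by
      have h1 : ∀ a : Q, ((∑ i, N i a).factorial : ℝ) ≤
          (Real.exp 1 * ((n : ℝ) + 1)) * Real.exp (-((∑ i, N i a : ℕ) : ℝ)) *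
            ((n : ℝ) / (J : ℝ) + ε * (k : ℝ)) ^ (∑ i, N i a) := by
        intro a
        refine (Transf.fac_le _).trans ?_
        have ha : ((∑ i, N i a : ℕ) : ℝ) ≤ n := by exact_mod_cast hle a
        have hb : ((∑ i, N i a : ℕ) : ℝ) ≤ (n : ℝ) / (J : ℝ) + ε * (k : ℝ) := by
          push_cast
          exact hN a
        refine mul_le_mul ?_ (pow_le_pow_left₀ (Nat.cast_nonneg _) hb _) (by positivity)
          (by positivity)
        refine mul_le_mul_of_nonneg_right ?_ (Real.exp_pos _).le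
        refine mul_le_mul_of_nonneg_left ?_ (Real.exp_pos _).le
        linarith
      refine (Finset.prod_le_prod (fun a _ => by positivity) fun a _ => h1 a).trans_eq ?_
      rw [Finset.prod_mul_distrib, Finset.prod_mul_distrib, Finset.prod_const, Finset.card_univ,
        Finset.prod_pow_eq_pow_sum, hsum, ← Real.exp_sum]
      congr 3
      rw [Finset.sum_neg_distrib, ← Nat.cast_sum, hsum]
    have hprod : (∏ i, pw s (N i)) * F = Real.exp (-(s * (k : ℝ))) * (s / (J : ℝ)) ^ n := by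
      have h1 : (∏ i, pw s (N i)) * F =
          ∏ i, ∏ a, (Real.exp (-(s / (J : ℝ))) * (s / (J : ℝ)) ^ (N i a)) := by
        rw [hF, ← Finset.prod_mul_distrib]
        refine Finset.prod_congr rfl fun i _ => ?_
        unfold pw pois
        rw [← Finset.prod_mul_distrib]
        refine Finset.prod_congr rfl fun a _ => ?_
        have hf : ((N i a).factorial : ℝ) ≠ 0 := by exact_mod_cast Nat.factorial_ne_zero _
        rw [← hJdef]
        field_simp
      rw [h1]
      have h2 : ∀ i, ∏ a, (Real.exp (-(s / (J : ℝ))) * (s / (J : ℝ)) ^ (N i a)) =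
          Real.exp (-s) * (s / (J : ℝ)) ^ (∑ a, N i a) := by
        intro i
        rw [Finset.prod_mul_distrib, Finset.prod_const, Finset.card_univ,
          Finset.prod_pow_eq_pow_sum, ← Real.exp_nat_mul]
        congr 2
        rw [← hJdef]
        field_simp
      rw [Finset.prod_congr rfl fun i _ => h2 i, Finset.prod_mul_distrib, Finset.prod_const,
        Finset.prod_pow_eq_pow_sum, Finset.sum_comm, hsum, ← Real.exp_nat_mul]
      congr 2
      simp
      ring
    have hR : (k : ℝ) ^ n * (Wf J s ε k n * ∏ i, pw s (N i)) * F =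
        (Real.exp 1 * ((n : ℝ) + 1)) ^ J * Real.exp (-(n : ℝ)) *
          ((n : ℝ) / (J : ℝ) + ε * (k : ℝ)) ^ n := by
      have h1 : (k : ℝ) ^ n * (Wf J s ε k n * ∏ i, pw s (N i)) * F =
          (k : ℝ) ^ n * (Wf J s ε k n * ((∏ i, pw s (N i)) * F)) := by ring
      rw [h1, hprod]
      unfold Wf
      have h2 : ((n : ℝ) / (J : ℝ) + ε * (k : ℝ)) =
          (k : ℝ) * (((n : ℝ) + (J : ℝ) * ε * (k : ℝ)) / (s * (k : ℝ))) * (s / (J : ℝ)) := by
        field_simp
      have h3 : Real.exp (-(n : ℝ)) = Real.exp (s * (k : ℝ) - (n : ℝ)) *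
          Real.exp (-(s * (k : ℝ))) := by
        rw [← Real.exp_add]
        congr 1
        ring
      rw [h2, h3]
      generalize (((n : ℝ) + (J : ℝ) * ε * (k : ℝ)) / (s * (k : ℝ))) = X
      generalize Real.exp (s * (k : ℝ) - (n : ℝ)) = Y
      generalize Real.exp (-(s * (k : ℝ))) = Z
      ring
    have hfin : (Nat.card {w : Fin n → Fin k // cnt z w = N} : ℝ) * F ≤
        (k : ℝ) ^ n * (Wf J s ε k n * ∏ i, pw s (N i)) * F := by
      rw [hR]
      exact hE''.trans hb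
    exact le_of_mul_le_mul_right hfin hFpos

end NilCut
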