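import Pool.Agent.Lib.MP_4ddf81_pr.Stm2

/-!
# MP_4ddf81_pr, stage 2 : the number of the atypical pairs (piece TypP)
-/

namespace NilCut

open Filter Topology

namespace TypP

theorem card_BR (Q : Type) [Group Q] [Fintype Q] (R : ℕ) :
    (BR Q R).card = (2 * R + 1) ^ (Fintype.card Q) := by
  classical
  unfold BR
  rw [Fintype.card_piFinset]
  simp only [Int.card_Icc, Finset.prod_const, Finset.card_univ]
  congr 1
  omega

theorem prod_pw_nonneg {Q : Type} [Group Q] [Fintype Q] (hP : S_Pw) (k : ℕ) (s : ℝ) (hs : 0 < s)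
    (N : Fin k → Q → ℕ) : 0 ≤ ∏ i, pw s (N i) :=
  Finset.prod_nonneg fun i _ => ((hP Q s 0 0 hs).1 (N i)).le

open Classical in
theorem sumA {Q : Type} [Group Q] [Fintype Q] (h2 : S_LDT2) (h3 : S_LDT3) (h4 : S_LDT4)
    (hP : S_Pw) (hC : S_Cls) (k R L : ℕ) (s η R' a : ℝ) (hs : 0 < s) (hη : 0 < η) (hR : 0 < R) :
    ∑ N ∈ (Fintype.piFinset fun _ : Fin k => XL Q L).filter
        (fun N => N ∈ {N : Fin k → Q → ℕ | ¬ TypN s η R' a R L N}), ∏ i, pw s (N i) ≤
      2 ^ ((2 * R + 1) ^ (Fintype.card Q)) * Real.exp (-((k : ℝ) * η ^ 2 /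
          (16 * (2 ^ (Fintype.card Q) * Real.exp (2 * s))))) +
        Real.exp (-((k : ℝ) * (η / 2 -
          2 ^ (Fintype.card Q) * Real.exp (2 * s) * Real.exp (-(R' / 2))))) +
        Real.exp (-((k : ℝ) * (a - 2 * (s / (R : ℝ))))) := by
  set F : Finset (Fin k → Q → ℕ) := Fintype.piFinset fun _ : Fin k => XL Q L with hF
  set f : (Fin k → Q → ℕ) → ℝ := fun N => ∏ i, pw s (N i) with hf
  have hf0 : ∀ N, 0 ≤ f N := fun N => prod_pw_nonneg hP k s hs N
  obtain ⟨hp0, hp1, hp2, hp3⟩ := hP Q s L R hs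
  have hCpos : (0 : ℝ) < 2 ^ (Fintype.card Q) * Real.exp (2 * s) := by positivity
  -- the three kinds of exceptions
  have hS : ∀ S ∈ (BR Q R).powerset,
      ∑ N ∈ F, (if ∑ i, -Real.log (clsS S s L (N i)) ≤ (k : ℝ) * (HS S s L - η)
        then f N else 0) ≤ Real.exp (-((k : ℝ) * η ^ 2 /
          (16 * (2 ^ (Fintype.card Q) * Real.exp (2 * s))))) := by
    intro S _
    obtain ⟨hc1, hc2, -, -⟩ := hC Q S s L hs
    have h := h2 (Q → ℕ) (XL Q L) (pw s) (clsS S s L)
      (2 ^ (Fintype.card Q) * Real.exp (2 * s)) η k (fun x _ => hp0 x) hp1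
      (fun x hx => ⟨hc1 x hx, hc2 x⟩) hCpos hp2 hη
    rw [Finset.sum_filter] at h
    exact h
  have hT : ∑ N ∈ F, (if η * (k : ℝ) < ∑ i, max (-Real.log (pw s (N i)) - R') 0
        then f N else 0) ≤ Real.exp (-((k : ℝ) * (η / 2 -
          2 ^ (Fintype.card Q) * Real.exp (2 * s) * Real.exp (-(R' / 2))))) := by
    have h := h3 (Q → ℕ) (XL Q L) (pw s) (2 ^ (Fintype.card Q) * Real.exp (2 * s)) η R' k
      (fun x _ => hp0 x) hp1 hCpos hp2
    rw [Finset.sum_filter] at h
    exact h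
  have hB : ∑ N ∈ F, (if a * (k : ℝ) < (Nat.card {i : Fin k // ∃ b, R < N i b} : ℝ)
        then f N else 0) ≤ Real.exp (-((k : ℝ) * (a - 2 * (s / (R : ℝ))))) := by
    have h := h4 (Q → ℕ) (XL Q L) (pw s) (fun x => ∃ b, R < x b) a k (fun x _ => hp0 x) hp1
    rw [Finset.sum_filter] at h
    refine h.trans (Real.exp_le_exp.2 ?_)
    have h5 : ∀ inst : DecidablePred (fun x : Q → ℕ => ∃ b, R < x b),
        ∑ x ∈ @Finset.filter _ (fun x : Q → ℕ => ∃ b, R < x b) inst (XL Q L), pw s x ≤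
          s / (R : ℝ) := by
      intro inst
      rw [Finset.sum_filter]
      refine le_trans (le_of_eq ?_) (hp3.trans ?_)
      · exact Finset.sum_congr rfl fun x _ => by congr
      · apply div_le_div_of_nonneg_left hs.le (by exact_mod_cast hR)
        linarith
    have hk0 : (0 : ℝ) ≤ k := Nat.cast_nonneg _
    have h6 := mul_le_mul_of_nonneg_left (h5 fun x => Classical.propDecidable _) hk0
    linarith
  -- splitting
  have hpt : ∀ N ∈ F, (if ¬ TypN s η R' a R L N then f N else 0) ≤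
      (∑ S ∈ (BR Q R).powerset,
        (if ∑ i, -Real.log (clsS S s L (N i)) ≤ (k : ℝ) * (HS S s L - η) then f N else 0)) +
      (if η * (k : ℝ) < ∑ i, max (-Real.log (pw s (N i)) - R') 0 then f N else 0) +
      (if a * (k : ℝ) < (Nat.card {i : Fin k // ∃ b, R < N i b} : ℝ) then f N else 0) := by
    intro N _
    have hfN := hf0 N
    have n1 : 0 ≤ ∑ S ∈ (BR Q R).powerset,
        (if ∑ i, -Real.log (clsS S s L (N i)) ≤ (k : ℝ) * (HS S s L - η) then f N else 0) := by
      apply Finset.sum_nonneg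
      intro S _
      split_ifs <;> linarith
    have n2 : 0 ≤ (if η * (k : ℝ) < ∑ i, max (-Real.log (pw s (N i)) - R') 0 then f N else 0) := by
      split_ifs <;> linarith
    have n3 : 0 ≤ (if a * (k : ℝ) < (Nat.card {i : Fin k // ∃ b, R < N i b} : ℝ)
        then f N else 0) := by
      split_ifs <;> linarith
    by_cases hN : TypN s η R' a R L N
    · rw [if_neg (not_not.2 hN)]
      linarith
    · rw [if_pos hN]
      by_cases c3 : η * (k : ℝ) < ∑ i, max (-Real.log (pw s (N i)) - R') 0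
      · rw [if_pos c3]
        linarith
      · by_cases c4 : a * (k : ℝ) < (Nat.card {i : Fin k // ∃ b, R < N i b} : ℝ)
        · rw [if_pos c4]
          linarith
        · have hex : ∃ S ∈ (BR Q R).powerset,
              ∑ i, -Real.log (clsS S s L (N i)) ≤ (k : ℝ) * (HS S s L - η) := by
            by_contra hcon
            push Not at hcon
            apply hN
            refine ⟨fun S hS => (hcon S (Finset.mem_powerset.2 hS)).le, ?_, ?_⟩
            · exact not_lt.1 c3
            · exact not_lt.1 c4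
          obtain ⟨S, hSm, hSc⟩ := hex
          have n4 : f N ≤ ∑ S ∈ (BR Q R).powerset,
              (if ∑ i, -Real.log (clsS S s L (N i)) ≤ (k : ℝ) * (HS S s L - η)
                then f N else 0) := by
            refine le_trans (le_of_eq ?_) (Finset.single_le_sum (f := fun S =>
              (if ∑ i, -Real.log (clsS S s L (N i)) ≤ (k : ℝ) * (HS S s L - η)
                then f N else 0)) ?_ hSm)
            · show f N = if _ then f N else 0
              rw [if_pos hSc]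
            · intro S' _
              show 0 ≤ if _ then f N else 0
              split_ifs <;> linarith
          linarith
  rw [Finset.sum_filter]
  have hsum := Finset.sum_le_sum hpt
  rw [Finset.sum_add_distrib, Finset.sum_add_distrib, Finset.sum_comm] at hsum
  have hcardS : ∑ S ∈ (BR Q R).powerset, ∑ N ∈ F,
      (if ∑ i, -Real.log (clsS S s L (N i)) ≤ (k : ℝ) * (HS S s L - η) then f N else 0) ≤
      2 ^ ((2 * R + 1) ^ (Fintype.card Q)) * Real.exp (-((k : ℝ) * η ^ 2 /
          (16 * (2 ^ (Fintype.card Q) * Real.exp (2 * s))))) := by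
    refine (Finset.sum_le_sum hS).trans (le_of_eq ?_)
    rw [Finset.sum_const, Finset.card_powerset, card_BR, nsmul_eq_mul]
    push_cast
    rfl
  have hA : ∑ N ∈ F, (if N ∈ {N : Fin k → Q → ℕ | ¬ TypN s η R' a R L N} then f N else 0) =
      ∑ N ∈ F, (if ¬ TypN s η R' a R L N then f N else 0) := by
    apply Finset.sum_congr rfl
    intro N _
    by_cases hN : TypN s η R' a R L N
    · rw [if_neg (not_not.2 hN), if_neg]
      intro h
      exact h hN
    · rw [if_pos hN, if_pos]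
      exact hN
  linarith

theorem Wf_nonneg (J : ℕ) (s ε : ℝ) (k n : ℕ) (hs : 0 < s) (hε : 0 < ε) : 0 ≤ Wf J s ε k n := by
  unfold Wf
  positivity

end TypP

open TypP

theorem p_TypP (hO : S_Occ) (hT : S_TransS) (h2 : S_LDT2) (h3 : S_LDT3) (h4 : S_LDT4)
    (hP : S_Pw) (hC : S_Cls) : S_TypP := by
  intro Q _ _ k n R L s ε η R' a hs hε hk hnL hη ha hR
  classical
  have hk0 : 0 < k := by
    rcases Nat.eq_zero_or_pos k with h | h
    · rw [h] at hk
      norm_num at hk
    · exact h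
  set A : Set (Fin k → Q → ℕ) := {N | ¬ TypN s η R' a R L N} with hA
  set B : ℝ := 2 ^ ((2 * R + 1) ^ (Fintype.card Q)) * Real.exp (-((k : ℝ) * η ^ 2 /
          (16 * (2 ^ (Fintype.card Q) * Real.exp (2 * s))))) +
        Real.exp (-((k : ℝ) * (η / 2 -
          2 ^ (Fintype.card Q) * Real.exp (2 * s) * Real.exp (-(R' / 2))))) +
        Real.exp (-((k : ℝ) * (a - 2 * (s / (R : ℝ))))) with hB
  -- the two parts
  have hsplit : (Nat.card {p : (Fin k → Q) × (Fin n → Fin k) //
      p.2 ∉ GW s ε η R' a R L p.1} : ℝ) ≤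
      (Nat.card {p : (Fin k → Q) × (Fin n → Fin k) //
        ∃ b, (n : ℝ) / (Fintype.card Q : ℝ) + ε * (k : ℝ) < (occ p.1 p.2 b : ℝ)} : ℝ) +
      (Nat.card {p : (Fin k → Q) × (Fin n → Fin k) //
        (∀ b, (occ p.1 p.2 b : ℝ) ≤ (n : ℝ) / (Fintype.card Q : ℝ) + ε * (k : ℝ)) ∧
          cnt p.1 p.2 ∈ A} : ℝ) := by
    rw [Nat.card_eq_fintype_card, Nat.card_eq_fintype_card, Nat.card_eq_fintype_card,
      Fintype.card_subtype, Fintype.card_subtype, Fintype.card_subtype]
    have h1 : (Finset.univ.filter fun p : (Fin k → Q) × (Fin n → Fin k) =>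
        p.2 ∉ GW s ε η R' a R L p.1) ⊆
        (Finset.univ.filter fun p : (Fin k → Q) × (Fin n → Fin k) =>
          ∃ b, (n : ℝ) / (Fintype.card Q : ℝ) + ε * (k : ℝ) < (occ p.1 p.2 b : ℝ)) ∪
        (Finset.univ.filter fun p : (Fin k → Q) × (Fin n → Fin k) =>
          (∀ b, (occ p.1 p.2 b : ℝ) ≤ (n : ℝ) / (Fintype.card Q : ℝ) + ε * (k : ℝ)) ∧
            cnt p.1 p.2 ∈ A) := by
      intro p hp
      have hp' := (Finset.mem_filter.1 hp).2
      rw [Finset.mem_union, Finset.mem_filter, Finset.mem_filter]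
      by_cases hb : ∃ b, (n : ℝ) / (Fintype.card Q : ℝ) + ε * (k : ℝ) < (occ p.1 p.2 b : ℝ)
      · exact Or.inl ⟨Finset.mem_univ _, hb⟩
      · right
        push Not at hb
        refine ⟨Finset.mem_univ _, hb, ?_⟩
        intro hN
        exact hp' ⟨hb, hN⟩
    have h2' := (Finset.card_le_card h1).trans (Finset.card_union_le _ _)
    exact_mod_cast h2'
  have hfib : (Nat.card {p : (Fin k → Q) × (Fin n → Fin k) //
        (∀ b, (occ p.1 p.2 b : ℝ) ≤ (n : ℝ) / (Fintype.card Q : ℝ) + ε * (k : ℝ)) ∧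
          cnt p.1 p.2 ∈ A} : ℝ) =
      ∑ z : Fin k → Q, (Nat.card {w : Fin n → Fin k //
        (∀ b, (occ z w b : ℝ) ≤ (n : ℝ) / (Fintype.card Q : ℝ) + ε * (k : ℝ)) ∧
          cnt z w ∈ A} : ℝ) := by
    rw [← Nat.cast_sum]
    congr 1
    simp only [Nat.card_eq_fintype_card, Fintype.card_subtype]
    rw [Finset.card_filter, ← Finset.univ_product_univ, Finset.sum_product]
    apply Finset.sum_congr rfl
    intro z _
    rw [Finset.card_filter]
  have hz : ∀ z : Fin k → Q, (Nat.card {w : Fin n → Fin k //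
        (∀ b, (occ z w b : ℝ) ≤ (n : ℝ) / (Fintype.card Q : ℝ) + ε * (k : ℝ)) ∧
          cnt z w ∈ A} : ℝ) ≤ (k : ℝ) ^ n * (Wf (Fintype.card Q) s ε k n * B) := by
    intro z
    refine (hT Q k n L s ε z A hk0 hs hε.le hnL).trans ?_
    apply mul_le_mul_of_nonneg_left _ (by positivity)
    apply mul_le_mul_of_nonneg_left _ (Wf_nonneg _ s ε k n hs hε)
    refine le_trans (le_of_eq ?_) (sumA (Q := Q) h2 h3 h4 hP hC k R L s η R' a hs hη hR)
    refine Finset.sum_congr ?_ fun _ _ => rfl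
    ext N
    simp only [Finset.mem_filter, hA]
  have hO' := hO Q k n ε hε hk
  have hsum : ∑ z : Fin k → Q, (Nat.card {w : Fin n → Fin k //
        (∀ b, (occ z w b : ℝ) ≤ (n : ℝ) / (Fintype.card Q : ℝ) + ε * (k : ℝ)) ∧
          cnt z w ∈ A} : ℝ) ≤
      (Fintype.card Q : ℝ) ^ k * ((k : ℝ) ^ n * (Wf (Fintype.card Q) s ε k n * B)) := by
    refine (Finset.sum_le_sum fun z _ => hz z).trans (le_of_eq ?_)
    rw [Finset.sum_const, Finset.card_univ, Fintype.card_fun, Fintype.card_fin, nsmul_eq_mul]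
    push_cast
    rfl
  rw [hfib] at hsplit
  calc _ ≤ _ := hsplit
    _ ≤ (Fintype.card Q : ℝ) ^ k * (k : ℝ) ^ n *
        (9 * (Fintype.card Q : ℝ) * (n : ℝ) / (ε * (k : ℝ)) ^ 2 +
          9 * (n : ℝ) ^ 2 / (ε ^ 2 * (k : ℝ) ^ 3)) +
        (Fintype.card Q : ℝ) ^ k * ((k : ℝ) ^ n * (Wf (Fintype.card Q) s ε k n * B)) :=
          add_le_add hO' hsum
    _ = _ := by
      rw [hB]
      ring

end NilCut
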