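import Pool.Agent.Lib.MP_4ddf81_pr.Stm2

/-!
# MP_4ddf81_pr, stage 2 : the upper bound (choice of the parameters)
-/

namespace NilCut

open Filter Topology

namespace UBasy

/-- Eventually in `k : ℕ`, `A ≤ c * k`. -/
theorem ev_ge (A c : ℝ) (hc : 0 < c) : ∀ᶠ k : ℕ in atTop, A ≤ c * (k : ℝ) := by
  filter_upwards [eventually_ge_atTop ⌈A / c⌉₊] with k hk
  have h1 : A / c ≤ (k : ℝ) := le_trans (Nat.le_ceil _) (by exact_mod_cast hk)
  have h2 : A / c * c ≤ (k : ℝ) * c := mul_le_mul_of_nonneg_right h1 hc.le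
  rw [div_mul_cancel₀ _ hc.ne'] at h2
  linarith [mul_comm c (k : ℝ)]

/-- Eventually `A * exp (- c k) ≤ b`. -/
theorem ev_exp (A c b : ℝ) (hc : 0 < c) (hb : 0 < b) :
    ∀ᶠ k : ℕ in atTop, A * Real.exp (-(c * (k : ℝ))) ≤ b := by
  filter_upwards [ev_ge (A / b) c hc] with k hk
  have h1 : A / b ≤ Real.exp (c * (k : ℝ)) := by
    linarith [Real.add_one_le_exp (c * (k : ℝ))]
  rw [div_le_iff₀ hb] at h1
  rw [Real.exp_neg, ← div_eq_mul_inv, div_le_iff₀ (Real.exp_pos _)]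
  linarith

/-- Linear against exponential. -/
theorem ev_lin (A c : ℝ) (hc : 0 < c) :
    ∀ᶠ k : ℕ in atTop, A * (k : ℝ) + 1 ≤ Real.exp (c * (k : ℝ)) := by
  filter_upwards [ev_ge (2 * A / c) c hc] with k hk
  have hk0 : (0 : ℝ) ≤ (k : ℝ) := Nat.cast_nonneg k
  have h1 := Real.quadratic_le_exp_of_nonneg (x := c * (k : ℝ)) (by positivity)
  have h2 : 2 * A / c * c ≤ c * (k : ℝ) * c := mul_le_mul_of_nonneg_right hk hc.le
  rw [div_mul_cancel₀ _ hc.ne'] at h2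
  have h3 : 2 * A * (k : ℝ) ≤ c * (k : ℝ) * c * (k : ℝ) := mul_le_mul_of_nonneg_right h2 hk0
  have h4 : 0 ≤ c * (k : ℝ) := by positivity
  nlinarith

/-- The subexponential factor. -/
theorem ev_sub (C₀ x c : ℝ) (hC : 0 ≤ C₀) (_hx : 0 ≤ x) (hc : 0 < c) :
    ∀ᶠ k : ℕ in atTop,
      Real.exp (12 * (1 + Real.sqrt (C₀ * (k : ℝ))) * x) * (C₀ * (k : ℝ) + 1) + 1 ≤
        Real.exp (c * (k : ℝ)) := by
  filter_upwards [ev_ge (12 * x) (c / 8) (by positivity),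
    ev_ge ((12 * x) ^ 2 * C₀) ((c / 8) ^ 2) (by positivity),
    ev_lin C₀ (c / 4) (by positivity), ev_ge 1 (c / 2) (by positivity)] with k h1 h2 h3 h4
  have hk0 : (0 : ℝ) ≤ (k : ℝ) := Nat.cast_nonneg k
  have h5 : 12 * x * Real.sqrt (C₀ * (k : ℝ)) ≤ c / 8 * (k : ℝ) := by
    have h6 : (12 * x * Real.sqrt (C₀ * (k : ℝ))) ^ 2 ≤ (c / 8 * (k : ℝ)) ^ 2 := by
      rw [mul_pow, Real.sq_sqrt (by positivity)]
      have := mul_le_mul_of_nonneg_right h2 hk0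
      nlinarith
    exact le_of_pow_le_pow_left₀ two_ne_zero (by positivity) h6
  have h7 : 12 * (1 + Real.sqrt (C₀ * (k : ℝ))) * x ≤ c / 4 * (k : ℝ) := by nlinarith
  have h8 : Real.exp (12 * (1 + Real.sqrt (C₀ * (k : ℝ))) * x) ≤ Real.exp (c / 4 * (k : ℝ)) :=
    Real.exp_le_exp.2 h7
  have h9 : Real.exp (12 * (1 + Real.sqrt (C₀ * (k : ℝ))) * x) * (C₀ * (k : ℝ) + 1) ≤
      Real.exp (c / 4 * (k : ℝ)) * Real.exp (c / 4 * (k : ℝ)) :=
    mul_le_mul h8 h3 (by positivity) (Real.exp_pos _).le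
  rw [← Real.exp_add] at h9
  have h10 : c / 4 * (k : ℝ) + c / 4 * (k : ℝ) = c / 2 * (k : ℝ) := by ring
  rw [h10] at h9
  have h11 : Real.exp (c * (k : ℝ)) = Real.exp (c / 2 * (k : ℝ)) * Real.exp (c / 2 * (k : ℝ)) := by
    rw [← Real.exp_add]
    congr 1
    ring
  have h12 : (2 : ℝ) ≤ Real.exp (c / 2 * (k : ℝ)) := by
    linarith [Real.add_one_le_exp (c / 2 * (k : ℝ))]
  rw [h11]
  nlinarith

/-- The representations of large degree. -/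
theorem high (hD : S_SDb) (C₀ η₁ : ℝ) (hC : 0 < C₀) (h0 : 0 < η₁) (h1 : η₁ ≤ 1 / 4) :
    ∀ᶠ k : ℕ in atTop, ∀ (G : Type) [Group G] [Fintype G],
      Real.log (Nat.card G) ≤ C₀ * (k : ℝ) → ∀ (P : Planch G) (m : ℕ),
      ⌊η₁ * (k : ℝ)⌋₊ ≤ m + ⌊η₁ * (k : ℝ)⌋₊ / 2 → m ≤ ⌊η₁ * (k : ℝ)⌋₊ →
      P.SD ⌈Real.exp (4 * (C₀ + 1) / η₁)⌉₊ m ≤
        Real.exp (-(k : ℝ)) * ((k : ℝ) - (⌊η₁ * (k : ℝ)⌋₊ : ℝ)) ^ m := by
  set D : ℕ := ⌈Real.exp (4 * (C₀ + 1) / η₁)⌉₊ with hDdef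
  have hDge : Real.exp (4 * (C₀ + 1) / η₁) ≤ (D : ℝ) := Nat.le_ceil _
  have hD0 : (0 : ℝ) < (D : ℝ) := lt_of_lt_of_le (Real.exp_pos _) hDge
  have hD1 : 1 ≤ D := by
    rcases Nat.eq_zero_or_pos D with h | h
    · rw [h] at hD0; simp at hD0
    · exact h
  filter_upwards [ev_ge ((D : ℝ)) (2 * η₁) (by positivity), ev_ge 2 η₁ h0] with k hk1 hk2
  intro G _ _ hG P m hm1 hm2
  set n₁ : ℕ := ⌊η₁ * (k : ℝ)⌋₊ with hn₁
  have hk0 : (0 : ℝ) ≤ (k : ℝ) := Nat.cast_nonneg k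
  have hn1le : (n₁ : ℝ) ≤ η₁ * (k : ℝ) := Nat.floor_le (by positivity)
  have hn1ge : η₁ * (k : ℝ) - 1 < (n₁ : ℝ) := by
    have := Nat.lt_floor_add_one (η₁ * (k : ℝ))
    rw [← hn₁] at this
    linarith
  have hmle : (m : ℝ) ≤ η₁ * (k : ℝ) := le_trans (by exact_mod_cast hm2) hn1le
  have hmge : η₁ * (k : ℝ) / 4 ≤ (m : ℝ) := by
    have h3 : n₁ ≤ 2 * m := by omega
    have h4 : (n₁ : ℝ) ≤ 2 * (m : ℝ) := by exact_mod_cast h3
    linarith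
  have hb := hD G P D m hD1
  have hq0 : 0 < 4 * η₁ / (D : ℝ) := by positivity
  have hstep : 1 + (m : ℝ) / (D : ℝ) ≤ 4 * η₁ / (D : ℝ) * ((k : ℝ) - (n₁ : ℝ)) := by
    have e1 : 4 * η₁ / (D : ℝ) * ((k : ℝ) - (n₁ : ℝ)) =
        (4 * η₁ * ((k : ℝ) - (n₁ : ℝ))) / (D : ℝ) := by ring
    have e2 : 1 + (m : ℝ) / (D : ℝ) = ((D : ℝ) + (m : ℝ)) / (D : ℝ) := by field_simp
    rw [e1, e2]
    apply div_le_div_of_nonneg_right _ hD0.le
    nlinarith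
  have hcard : (Nat.card G : ℝ) ≤ Real.exp (C₀ * (k : ℝ)) := by
    have hpos : (0 : ℝ) < (Nat.card G : ℝ) := by exact_mod_cast Nat.card_pos
    rw [← Real.exp_log hpos]
    exact Real.exp_le_exp.2 hG
  have hq : 4 * η₁ / (D : ℝ) ≤ Real.exp (-(4 * (C₀ + 1) / η₁)) := by
    rw [Real.exp_neg, div_le_iff₀ hD0]
    have h5 : 1 ≤ (Real.exp (4 * (C₀ + 1) / η₁))⁻¹ * (D : ℝ) := by
      rw [inv_mul_eq_div, le_div_iff₀ (Real.exp_pos _)]
      linarith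
    linarith
  have hqm : (4 * η₁ / (D : ℝ)) ^ m ≤ Real.exp (-((C₀ + 1) * (k : ℝ))) := by
    calc (4 * η₁ / (D : ℝ)) ^ m ≤ (Real.exp (-(4 * (C₀ + 1) / η₁))) ^ m :=
          pow_le_pow_left₀ hq0.le hq m
      _ = Real.exp ((m : ℝ) * (-(4 * (C₀ + 1) / η₁))) := by rw [← Real.exp_nat_mul]
      _ ≤ Real.exp (-((C₀ + 1) * (k : ℝ))) := by
          apply Real.exp_le_exp.2
          have h6 : (C₀ + 1) * (k : ℝ) ≤ (m : ℝ) * (4 * (C₀ + 1) / η₁) := by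
            have h7 : (m : ℝ) * (4 * (C₀ + 1) / η₁) = (4 * (m : ℝ) / η₁) * (C₀ + 1) := by ring
            have h8 : (k : ℝ) ≤ 4 * (m : ℝ) / η₁ := by
              rw [le_div_iff₀ h0]
              linarith
            rw [h7, mul_comm (C₀ + 1) (k : ℝ)]
            exact mul_le_mul_of_nonneg_right h8 (by linarith)
          linarith
  have hkn : 0 ≤ (k : ℝ) - (n₁ : ℝ) := by nlinarith
  calc P.SD D m ≤ (Nat.card G : ℝ) * (1 + (m : ℝ) / (D : ℝ)) ^ m := hb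
    _ ≤ Real.exp (C₀ * (k : ℝ)) * (4 * η₁ / (D : ℝ) * ((k : ℝ) - (n₁ : ℝ))) ^ m := by
        apply mul_le_mul hcard _ (by positivity) (Real.exp_pos _).le
        exact pow_le_pow_left₀ (by positivity) hstep m
    _ = Real.exp (C₀ * (k : ℝ)) * (4 * η₁ / (D : ℝ)) ^ m * ((k : ℝ) - (n₁ : ℝ)) ^ m := by
        rw [mul_pow]; ring
    _ ≤ Real.exp (C₀ * (k : ℝ)) * Real.exp (-((C₀ + 1) * (k : ℝ))) *
          ((k : ℝ) - (n₁ : ℝ)) ^ m := by
        apply mul_le_mul_of_nonneg_right _ (pow_nonneg hkn m)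
        exact mul_le_mul_of_nonneg_left hqm (Real.exp_pos _).le
    _ = Real.exp (-(k : ℝ)) * ((k : ℝ) - (n₁ : ℝ)) ^ m := by
        rw [← Real.exp_add]
        congr 2
        ring

/-- Few repetitions. -/
theorem b1 (hW5 : S_W5) (η₁ : ℝ) (h0 : 0 < η₁) (k : ℕ) (hk : 0 < k) :
    1 - (Nat.card (fewRep k ⌊η₁ * (k : ℝ)⌋₊ (⌊η₁ * (k : ℝ)⌋₊ / 2)) : ℝ) /
      (k : ℝ) ^ ⌊η₁ * (k : ℝ)⌋₊ ≤ 2 * η₁ := by
  classical
  set n : ℕ := ⌊η₁ * (k : ℝ)⌋₊ with hn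
  have hk0 : (0 : ℝ) < (k : ℝ) := by exact_mod_cast hk
  have hnle : (n : ℝ) ≤ η₁ * (k : ℝ) := Nat.floor_le (by positivity)
  have h5 := hW5 k n (n / 2) hk
  have hcompl : (Nat.card (fewRep k n (n / 2)) : ℝ) +
      (Nat.card {w : Fin n → Fin k // n / 2 < n - (uq w).card} : ℝ) = (k : ℝ) ^ n := by
    have h6 : Nat.card (fewRep k n (n / 2)) +
        Nat.card {w : Fin n → Fin k // n / 2 < n - (uq w).card} = k ^ n := by
      have e1 : Nat.card {w : Fin n → Fin k // n / 2 < n - (uq w).card} =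
          Nat.card {w : Fin n → Fin k // ¬ (w ∈ fewRep k n (n / 2))} := by
        apply Nat.card_congr
        apply Equiv.subtypeEquivRight
        intro w
        simp only [fewRep, Set.mem_ofPred_eq]
        omega
      rw [e1]
      have e2 : Nat.card (fewRep k n (n / 2)) =
          Nat.card {w : Fin n → Fin k // w ∈ fewRep k n (n / 2)} := rfl
      rw [e2, Nat.card_eq_fintype_card, Nat.card_eq_fintype_card,
        Fintype.card_subtype_compl]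
      have e3 : Fintype.card {w : Fin n → Fin k // w ∈ fewRep k n (n / 2)} ≤
          Fintype.card (Fin n → Fin k) := Fintype.card_subtype_le _
      have e4 : Fintype.card (Fin n → Fin k) = k ^ n := by simp
      omega
    exact_mod_cast h6
  have hkn : (0 : ℝ) < (k : ℝ) ^ n := by positivity
  have e5 : 1 - (Nat.card (fewRep k n (n / 2)) : ℝ) / (k : ℝ) ^ n =
      (Nat.card {w : Fin n → Fin k // n / 2 < n - (uq w).card} : ℝ) / (k : ℝ) ^ n := by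
    rw [← hcompl] at hkn ⊢
    field_simp
    ring
  rw [e5, div_le_iff₀ hkn]
  have h7 : (n : ℝ) ≤ 2 * (((n / 2 : ℕ) : ℝ) + 1) := by
    have : n ≤ 2 * (n / 2 + 1) := by omega
    exact_mod_cast this
  set X : ℝ := (Nat.card {w : Fin n → Fin k // n / 2 < n - (uq w).card} : ℝ) with hX
  have hX0 : 0 ≤ X := Nat.cast_nonneg _
  rcases Nat.eq_zero_or_pos n with hn0 | hn0
  · have : X = 0 := by
      rw [hX]
      have : IsEmpty {w : Fin n → Fin k // n / 2 < n - (uq w).card} := by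
        constructor
        intro w
        have := w.2
        omega
      simp
    rw [this]
    positivity
  · have hn1 : (0 : ℝ) < (n : ℝ) := by exact_mod_cast hn0
    have h8 : X * (n : ℝ) ≤ 2 * ((k : ℝ) ^ n * ((n : ℝ) ^ 2 / (k : ℝ))) := by
      nlinarith
    have h9 : X ≤ 2 * ((k : ℝ) ^ n * ((n : ℝ) / (k : ℝ))) := by
      have e6 : 2 * ((k : ℝ) ^ n * ((n : ℝ) ^ 2 / (k : ℝ))) =
          2 * ((k : ℝ) ^ n * ((n : ℝ) / (k : ℝ))) * (n : ℝ) := by ring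
      rw [e6] at h8
      exact le_of_mul_le_mul_right h8 hn1
    have h10 : (n : ℝ) / (k : ℝ) ≤ η₁ := by
      rw [div_le_iff₀ hk0]
      exact hnle
    calc X ≤ 2 * ((k : ℝ) ^ n * ((n : ℝ) / (k : ℝ))) := h9
      _ ≤ 2 * ((k : ℝ) ^ n * η₁) := by
          apply mul_le_mul_of_nonneg_left _ (by norm_num)
          exact mul_le_mul_of_nonneg_left h10 hkn.le
      _ = 2 * η₁ * (k : ℝ) ^ n := by ring

/-- Summation over the first coordinate. -/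
theorem card_pairs {A B : Type} [Fintype A] [Fintype B] (P : A → B → Prop) :
    (Nat.card {p : A × B // P p.1 p.2} : ℝ) = ∑ a : A, (Nat.card {b : B // P a b} : ℝ) := by
  classical
  rw [Nat.card_congr (Equiv.subtypeProdEquivSigmaSubtype P), Nat.card_sigma]
  push_cast
  rfl

/-- The complement of a set of words. -/
theorem compl_words {k n : ℕ} (hk : 0 < k) (T : Set (Fin n → Fin k)) :
    1 - (Nat.card T : ℝ) / (k : ℝ) ^ n =
      (Nat.card {w : Fin n → Fin k // w ∉ T} : ℝ) / (k : ℝ) ^ n := by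
  classical
  have hk0 : (0 : ℝ) < (k : ℝ) := by exact_mod_cast hk
  have hkn : (0 : ℝ) < (k : ℝ) ^ n := by positivity
  have h6 : Nat.card T + Nat.card {w : Fin n → Fin k // w ∉ T} = k ^ n := by
    have e2 : Nat.card T = Nat.card {w : Fin n → Fin k // w ∈ T} := rfl
    rw [e2, Nat.card_eq_fintype_card, Nat.card_eq_fintype_card, Fintype.card_subtype_compl]
    have e3 : Fintype.card {w : Fin n → Fin k // w ∈ T} ≤
        Fintype.card (Fin n → Fin k) := Fintype.card_subtype_le _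
    have e4 : Fintype.card (Fin n → Fin k) = k ^ n := by simp
    omega
  have h7 : (Nat.card T : ℝ) + (Nat.card {w : Fin n → Fin k // w ∉ T} : ℝ) = (k : ℝ) ^ n := by
    exact_mod_cast h6
  rw [← h7] at hkn ⊢
  field_simp
  ring

/-- The atypical words. -/
theorem b2 (hPush : S_Push) (hT : S_TypP) (G : Type) [Group G] [Fintype G] (K : Subgroup G)
    [K.Normal] [Fintype (G ⧸ K)] (k n R L : ℕ) (s ε η R' a : ℝ) (hk : 0 < k) (h1 : 0 < s)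
    (h2 : 0 < ε) (h3 : 3 < ε * (k : ℝ)) (h4 : n ≤ L) (h5 : 0 < η) (h6 : 0 < a) (h7 : 0 < R) :
    ∑ Z : Fin k → G, (1 - (Nat.card (GW (n := n) s ε η R' a R L
        (fun i => (Z i : G ⧸ K))) : ℝ) / (k : ℝ) ^ n) ≤
      (Nat.card G : ℝ) ^ k *
      (9 * (K.index : ℝ) * (n : ℝ) / (ε * (k : ℝ)) ^ 2 +
        9 * (n : ℝ) ^ 2 / (ε ^ 2 * (k : ℝ) ^ 3) +
        Wf K.index s ε k n *
          (2 ^ ((2 * R + 1) ^ K.index) * Real.exp (-((k : ℝ) * η ^ 2 /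
              (16 * (2 ^ K.index * Real.exp (2 * s))))) +
            Real.exp (-((k : ℝ) * (η / 2 -
              2 ^ K.index * Real.exp (2 * s) * Real.exp (-(R' / 2))))) +
            Real.exp (-((k : ℝ) * (a - 2 * (s / (R : ℝ))))))) := by
  classical
  have hk0 : (0 : ℝ) < (k : ℝ) := by exact_mod_cast hk
  have hkn : (0 : ℝ) < (k : ℝ) ^ n := by positivity
  have hJ : Fintype.card (G ⧸ K) = K.index := by
    rw [Subgroup.index_eq_card, Nat.card_eq_fintype_card]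
  have ht := hT (G ⧸ K) k n R L s ε η R' a h1 h2 h3 h4 h5 h6 h7
  rw [hJ] at ht
  have hp := hPush G K k (Fin n → Fin k) (fun z w => w ∉ GW (n := n) s ε η R' a R L z)
  have hs := card_pairs (A := Fin k → G) (B := Fin n → Fin k)
    (fun Z w => w ∉ GW (n := n) s ε η R' a R L (fun i => (Z i : G ⧸ K)))
  have hGK : (Nat.card G : ℝ) = (Nat.card K : ℝ) * (K.index : ℝ) := by
    rw [← Subgroup.card_mul_index K]
    push_cast
    ring
  calc ∑ Z : Fin k → G, (1 - (Nat.card (GW (n := n) s ε η R' a R L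
        (fun i => (Z i : G ⧸ K))) : ℝ) / (k : ℝ) ^ n)
      = ∑ Z : Fin k → G, (Nat.card {w : Fin n → Fin k //
          w ∉ GW (n := n) s ε η R' a R L (fun i => (Z i : G ⧸ K))} : ℝ) / (k : ℝ) ^ n := by
        apply Finset.sum_congr rfl
        intro Z _
        exact compl_words hk _
    _ = (Nat.card {p : (Fin k → G) × (Fin n → Fin k) //
          p.2 ∉ GW (n := n) s ε η R' a R L (fun i => (p.1 i : G ⧸ K))} : ℝ) / (k : ℝ) ^ n := by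
        rw [← Finset.sum_div, hs]
    _ = (Nat.card K : ℝ) ^ k * (Nat.card {p : (Fin k → G ⧸ K) × (Fin n → Fin k) //
          p.2 ∉ GW (n := n) s ε η R' a R L p.1} : ℝ) / (k : ℝ) ^ n := by
        rw [hp]
        push_cast
        rfl
    _ ≤ _ := by
        rw [div_le_iff₀ hkn]
        refine le_trans (mul_le_mul_of_nonneg_left ht (by positivity)) (le_of_eq ?_)
        rw [hGK, mul_pow]
        ring

/-- Numerical part of the low degrees. -/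
theorem low_num (k D Jm J R : ℕ) (c c₇ cn : ℝ) (n₀ : ℕ) (Ek τ W X : ℝ) (_hc0 : 0 ≤ c)
    (hc1 : c ≤ 1) (hn : c₇ * (k : ℝ) - 1 ≤ c * (n₀ : ℝ)) (hJ : J ≤ Jm)
    (hEk0 : 0 ≤ Ek) (hEk : Ek ≤ Real.exp (c₇ / 8 * (k : ℝ))) (hτ0 : 0 ≤ τ)
    (hτ : τ ≤ Real.exp (c₇ / 8 * (k : ℝ))) (hW0 : 0 ≤ W) (hW : W ≤ Real.exp (c₇ / 8 * (k : ℝ)))
    (hX0 : 0 ≤ X) (hX : X ≤ Real.exp (c₇ / 4 * (k : ℝ)))
    (hcn : cn = Real.exp 1 * ((D : ℝ) * ((D : ℝ) * ((D : ℝ) ^ 2 * (Jm : ℝ) *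
      ((D.factorial : ℝ) ^ ((2 * R + 1) ^ Jm)) * 2 ^ ((2 * R + 1) ^ Jm))))) :
    (1 - c) ^ n₀ * ((D : ℝ) * ((D : ℝ) * Ek) *
      ((D : ℝ) ^ 2 * (J : ℝ) * τ * ((D.factorial : ℝ) ^ ((2 * R + 1) ^ J))) *
      (W * 2 ^ ((2 * R + 1) ^ J) * X)) ≤ cn * Real.exp (-(3 / 8 * c₇ * (k : ℝ))) := by
  have h1 : (1 - c) ^ n₀ ≤ Real.exp 1 * Real.exp (-(c₇ * (k : ℝ))) := by
    calc (1 - c) ^ n₀ ≤ (Real.exp (-c)) ^ n₀ :=
          pow_le_pow_left₀ (by linarith) (Real.one_sub_le_exp_neg c) n₀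
      _ = Real.exp ((n₀ : ℝ) * (-c)) := by rw [← Real.exp_nat_mul]
      _ ≤ Real.exp (1 + -(c₇ * (k : ℝ))) := by
          apply Real.exp_le_exp.2
          linarith
      _ = _ := by rw [Real.exp_add]
  have h1' : 0 ≤ (1 - c) ^ n₀ := pow_nonneg (by linarith) n₀
  have hR1 : (1 : ℕ) ≤ 2 * R + 1 := by omega
  have hpow : (2 * R + 1) ^ J ≤ (2 * R + 1) ^ Jm := Nat.pow_le_pow_right (by omega) hJ
  have hf1 : (1 : ℝ) ≤ (D.factorial : ℝ) := by exact_mod_cast Nat.factorial_pos D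
  have h2 : (D.factorial : ℝ) ^ ((2 * R + 1) ^ J) ≤ (D.factorial : ℝ) ^ ((2 * R + 1) ^ Jm) :=
    pow_le_pow_right₀ hf1 hpow
  have h3 : (2 : ℝ) ^ ((2 * R + 1) ^ J) ≤ (2 : ℝ) ^ ((2 * R + 1) ^ Jm) :=
    pow_le_pow_right₀ (by norm_num) hpow
  have hJ' : (J : ℝ) ≤ (Jm : ℝ) := by exact_mod_cast hJ
  have e1 : (D : ℝ) * ((D : ℝ) * Ek) *
      ((D : ℝ) ^ 2 * (J : ℝ) * τ * ((D.factorial : ℝ) ^ ((2 * R + 1) ^ J))) *
      (W * 2 ^ ((2 * R + 1) ^ J) * X) ≤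
      (D : ℝ) * ((D : ℝ) * Real.exp (c₇ / 8 * (k : ℝ))) *
      ((D : ℝ) ^ 2 * (Jm : ℝ) * Real.exp (c₇ / 8 * (k : ℝ)) *
        ((D.factorial : ℝ) ^ ((2 * R + 1) ^ Jm))) *
      (Real.exp (c₇ / 8 * (k : ℝ)) * 2 ^ ((2 * R + 1) ^ Jm) * Real.exp (c₇ / 4 * (k : ℝ))) := by
    gcongr
  calc (1 - c) ^ n₀ * ((D : ℝ) * ((D : ℝ) * Ek) *
      ((D : ℝ) ^ 2 * (J : ℝ) * τ * ((D.factorial : ℝ) ^ ((2 * R + 1) ^ J))) *
      (W * 2 ^ ((2 * R + 1) ^ J) * X))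
      ≤ (Real.exp 1 * Real.exp (-(c₇ * (k : ℝ)))) *
        ((D : ℝ) * ((D : ℝ) * Real.exp (c₇ / 8 * (k : ℝ))) *
      ((D : ℝ) ^ 2 * (Jm : ℝ) * Real.exp (c₇ / 8 * (k : ℝ)) *
        ((D.factorial : ℝ) ^ ((2 * R + 1) ^ Jm))) *
      (Real.exp (c₇ / 8 * (k : ℝ)) * 2 ^ ((2 * R + 1) ^ Jm) * Real.exp (c₇ / 4 * (k : ℝ)))) :=
        mul_le_mul h1 e1 (by positivity) (by positivity)
    _ = cn * (Real.exp (-(c₇ * (k : ℝ))) * Real.exp (c₇ / 8 * (k : ℝ)) *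
        Real.exp (c₇ / 8 * (k : ℝ)) * Real.exp (c₇ / 8 * (k : ℝ)) *
        Real.exp (c₇ / 4 * (k : ℝ))) := by
        rw [hcn]
        ring
    _ = cn * Real.exp (-(3 / 8 * c₇ * (k : ℝ))) := by
        rw [← Real.exp_add, ← Real.exp_add, ← Real.exp_add, ← Real.exp_add]
        congr 2
        ring

/-- Numerical part of the atypical words. -/
theorem typ_num (k n J Jm R : ℕ) (s s₁ ε η R' a C₁ cw W ηt : ℝ) (hk : 0 < k) (hJ : J ≤ Jm)
    (hε : 0 < ε) (hs : 0 < s) (hs1 : s ≤ s₁) (hn : (n : ℝ) ≤ s₁ * (k : ℝ)) (hR : 4 * s₁ / a ≤ (R : ℝ))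
    (hR0 : 0 < R) (ha : 0 < a) (hη : 0 < η) (hC1 : C₁ = 2 ^ Jm * Real.exp (2 * s₁))
    (hR' : C₁ * Real.exp (-(R' / 2)) ≤ η / 4)
    (hcw1 : 2 * cw ≤ η ^ 2 / (16 * C₁)) (hcw2 : 2 * cw ≤ η / 4) (hcw3 : 2 * cw ≤ a / 2)
    (_hW0 : 0 ≤ W) (hW : W ≤ Real.exp (cw * (k : ℝ)))
    (e1 : 9 * (Jm : ℝ) * s₁ / ε ^ 2 ≤ ηt * (k : ℝ)) (e2 : 9 * s₁ ^ 2 / ε ^ 2 ≤ ηt * (k : ℝ))
    (e3 : (2 ^ ((2 * R + 1) ^ Jm) + 2) * Real.exp (-(cw * (k : ℝ))) ≤ ηt) :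
    9 * (J : ℝ) * (n : ℝ) / (ε * (k : ℝ)) ^ 2 +
        9 * (n : ℝ) ^ 2 / (ε ^ 2 * (k : ℝ) ^ 3) +
        W *
          (2 ^ ((2 * R + 1) ^ J) * Real.exp (-((k : ℝ) * η ^ 2 /
              (16 * (2 ^ J * Real.exp (2 * s))))) +
            Real.exp (-((k : ℝ) * (η / 2 -
              2 ^ J * Real.exp (2 * s) * Real.exp (-(R' / 2))))) +
            Real.exp (-((k : ℝ) * (a - 2 * (s / (R : ℝ)))))) ≤ 3 * ηt := by
  have hk0 : (0 : ℝ) < (k : ℝ) := by exact_mod_cast hk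
  have hJ' : (J : ℝ) ≤ (Jm : ℝ) := by exact_mod_cast hJ
  have hs1' : 0 < s₁ := lt_of_lt_of_le hs hs1
  have hn0 : (0 : ℝ) ≤ (n : ℝ) := Nat.cast_nonneg n
  have hJ0 : (0 : ℝ) ≤ (J : ℝ) := Nat.cast_nonneg J
  have t1 : 9 * (J : ℝ) * (n : ℝ) / (ε * (k : ℝ)) ^ 2 ≤ ηt := by
    rw [div_le_iff₀ (by positivity)]
    rw [div_le_iff₀ (by positivity)] at e1
    calc 9 * (J : ℝ) * (n : ℝ) ≤ 9 * (Jm : ℝ) * (s₁ * (k : ℝ)) := by gcongr
      _ = (9 * (Jm : ℝ) * s₁) * (k : ℝ) := by ring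
      _ ≤ (ηt * (k : ℝ) * ε ^ 2) * (k : ℝ) := mul_le_mul_of_nonneg_right e1 hk0.le
      _ = ηt * (ε * (k : ℝ)) ^ 2 := by ring
  have t2 : 9 * (n : ℝ) ^ 2 / (ε ^ 2 * (k : ℝ) ^ 3) ≤ ηt := by
    rw [div_le_iff₀ (by positivity)]
    rw [div_le_iff₀ (by positivity)] at e2
    calc 9 * (n : ℝ) ^ 2 ≤ 9 * (s₁ * (k : ℝ)) ^ 2 := by gcongr
      _ = (9 * s₁ ^ 2) * (k : ℝ) ^ 2 := by ring
      _ ≤ (ηt * (k : ℝ) * ε ^ 2) * (k : ℝ) ^ 2 := mul_le_mul_of_nonneg_right e2 (by positivity)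
      _ = ηt * (ε ^ 2 * (k : ℝ) ^ 3) := by ring
  have hC1pos : 0 < C₁ := by rw [hC1]; positivity
  have hC1J : 2 ^ J * Real.exp (2 * s) ≤ C₁ := by
    rw [hC1]
    have : (2 : ℝ) ^ J ≤ 2 ^ Jm := pow_le_pow_right₀ (by norm_num) hJ
    have h2 : Real.exp (2 * s) ≤ Real.exp (2 * s₁) := Real.exp_le_exp.2 (by linarith)
    gcongr
  have hCJpos : 0 < 2 ^ J * Real.exp (2 * s) := by positivity
  have t3 : Real.exp (-((k : ℝ) * η ^ 2 / (16 * (2 ^ J * Real.exp (2 * s))))) ≤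
      Real.exp (-(2 * cw * (k : ℝ))) := by
    apply Real.exp_le_exp.2
    apply neg_le_neg
    have h4 : η ^ 2 / (16 * C₁) ≤ η ^ 2 / (16 * (2 ^ J * Real.exp (2 * s))) := by
      gcongr
    calc 2 * cw * (k : ℝ) ≤ η ^ 2 / (16 * (2 ^ J * Real.exp (2 * s))) * (k : ℝ) :=
          mul_le_mul_of_nonneg_right (le_trans hcw1 h4) hk0.le
      _ = _ := by ring
  have t4 : Real.exp (-((k : ℝ) * (η / 2 -
      2 ^ J * Real.exp (2 * s) * Real.exp (-(R' / 2))))) ≤ Real.exp (-(2 * cw * (k : ℝ))) := by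
    apply Real.exp_le_exp.2
    apply neg_le_neg
    have h4 : 2 ^ J * Real.exp (2 * s) * Real.exp (-(R' / 2)) ≤ C₁ * Real.exp (-(R' / 2)) :=
      mul_le_mul_of_nonneg_right hC1J (Real.exp_pos _).le
    calc 2 * cw * (k : ℝ) ≤ (η / 2 - 2 ^ J * Real.exp (2 * s) * Real.exp (-(R' / 2))) * (k : ℝ) :=
          mul_le_mul_of_nonneg_right (by linarith) hk0.le
      _ = _ := by ring
  have t5 : Real.exp (-((k : ℝ) * (a - 2 * (s / (R : ℝ))))) ≤ Real.exp (-(2 * cw * (k : ℝ))) := by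
    apply Real.exp_le_exp.2
    apply neg_le_neg
    have hRr : (0 : ℝ) < (R : ℝ) := by exact_mod_cast hR0
    have h4 : s / (R : ℝ) ≤ a / 4 := by
      rw [div_le_iff₀ hRr]
      rw [div_le_iff₀ ha] at hR
      linarith
    calc 2 * cw * (k : ℝ) ≤ (a - 2 * (s / (R : ℝ))) * (k : ℝ) :=
          mul_le_mul_of_nonneg_right (by linarith) hk0.le
      _ = _ := by ring
  have hpow : (2 * R + 1) ^ J ≤ (2 * R + 1) ^ Jm := Nat.pow_le_pow_right (by omega) hJ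
  have h3 : (2 : ℝ) ^ ((2 * R + 1) ^ J) ≤ (2 : ℝ) ^ ((2 * R + 1) ^ Jm) :=
    pow_le_pow_right₀ (by norm_num) hpow
  have t6 : W * (2 ^ ((2 * R + 1) ^ J) * Real.exp (-((k : ℝ) * η ^ 2 /
              (16 * (2 ^ J * Real.exp (2 * s))))) +
            Real.exp (-((k : ℝ) * (η / 2 -
              2 ^ J * Real.exp (2 * s) * Real.exp (-(R' / 2))))) +
            Real.exp (-((k : ℝ) * (a - 2 * (s / (R : ℝ)))))) ≤
      Real.exp (cw * (k : ℝ)) * (2 ^ ((2 * R + 1) ^ Jm) * Real.exp (-(2 * cw * (k : ℝ))) +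
        Real.exp (-(2 * cw * (k : ℝ))) + Real.exp (-(2 * cw * (k : ℝ)))) := by
    gcongr
  have t7 : Real.exp (cw * (k : ℝ)) * (2 ^ ((2 * R + 1) ^ Jm) * Real.exp (-(2 * cw * (k : ℝ))) +
        Real.exp (-(2 * cw * (k : ℝ))) + Real.exp (-(2 * cw * (k : ℝ)))) =
      (2 ^ ((2 * R + 1) ^ Jm) + 2) * Real.exp (-(cw * (k : ℝ))) := by
    have : Real.exp (-(cw * (k : ℝ))) = Real.exp (cw * (k : ℝ)) * Real.exp (-(2 * cw * (k : ℝ))) := by
      rw [← Real.exp_add]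
      congr 1
      ring
    rw [this]
    ring
  linarith

end UBasy

open UBasy in
/-- The upper bound. -/
theorem p_UBasy (hW : S_Wed) (hMo : S_Mono) (hU : S_UBk) (hH : S_High) (hD : S_SDb) (h5 : S_W5)
    (hG : S_Gap) (h1 : S_T1) (hTy : S_TypP) (hPu : S_Push) (hL : S_LowSum) (hWf : S_WfB) :
    S_UBasy := by
  classical
  intro C₀ δ s₀ s₁ ε ηt hC hδ hs0 hs01 hε hηt
  set η₁ : ℝ := min (ε / 8) (min (ηt / 64) (1 / 4)) with hη₁
  have hη₁0 : 0 < η₁ := by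
    rw [hη₁]
    exact lt_min (by positivity) (lt_min (by positivity) (by norm_num))
  have hη₁a : η₁ ≤ ε / 8 := min_le_left _ _
  have hη₁b : η₁ ≤ ηt / 64 := le_trans (min_le_right _ _) (min_le_left _ _)
  have hη₁c : η₁ ≤ 1 / 4 := le_trans (min_le_right _ _) (min_le_right _ _)
  have hhigh := high hD C₀ η₁ hC hη₁0 hη₁c
  set D : ℕ := ⌈Real.exp (4 * (C₀ + 1) / η₁)⌉₊ with hDdef
  have hD1 : 1 ≤ D := Nat.ceil_pos.2 (Real.exp_pos _)
  obtain ⟨c, hc0, hc1, kG, hGap⟩ := hG C₀ δ (ηt / 8) D hC hδ (by positivity) hD1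
  set c₇ : ℝ := c * η₁ with hc₇
  have hc₇0 : 0 < c₇ := by positivity
  have hc₇1 : c₇ ≤ 1 := by nlinarith
  refine ⟨D, c₇ / 8, c₇ / 8, hD1, by positivity, by positivity, ?_⟩
  intro Jm
  have hs1 : 0 < s₁ := lt_of_lt_of_le hs0 hs01
  set η : ℝ := c₇ / 32 with hηdef
  have hη0 : 0 < η := by positivity
  have hη1 : η ≤ 1 := by rw [hηdef]; linarith
  set C₁ : ℝ := 2 ^ Jm * Real.exp (2 * s₁) with hC₁
  have hC₁1 : 1 ≤ C₁ := by
    rw [hC₁]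
    have h2 : (1 : ℝ) ≤ 2 ^ Jm := one_le_pow₀ (by norm_num)
    have h3 : (1 : ℝ) ≤ Real.exp (2 * s₁) := Real.one_le_exp (by positivity)
    nlinarith
  have hC₁0 : 0 < C₁ := by linarith
  set R' : ℝ := 2 * Real.log (4 * C₁ / η) with hR'
  have hR'0 : 0 ≤ R' := by
    rw [hR']
    have : 1 ≤ 4 * C₁ / η := by
      rw [le_div_iff₀ hη0]
      linarith
    have := Real.log_nonneg this
    linarith
  have hR'1 : C₁ * Real.exp (-(R' / 2)) ≤ η / 4 := by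
    have e1 : -(R' / 2) = -Real.log (4 * C₁ / η) := by rw [hR']; ring
    rw [e1, Real.exp_neg, Real.exp_log (by positivity)]
    apply le_of_eq
    field_simp
  set θ : ℝ := η * Real.exp (-R') with hθ
  have hθ0 : 0 < θ := by positivity
  have hθ1 : θ ≤ 1 := by
    rw [hθ]
    have : Real.exp (-R') ≤ 1 := by
      rw [Real.exp_le_one_iff]
      linarith
    nlinarith [Real.exp_pos (-R')]
  have hθ2 : θ * Real.exp R' = η := by
    rw [hθ, mul_assoc, ← Real.exp_add]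
    simp
  have hlogθ : 0 ≤ Real.log (1 / θ) := Real.log_nonneg (by
    rw [le_div_iff₀ hθ0]
    linarith)
  set a : ℝ := η / (2 * (Real.log (1 / θ) + 1)) with ha
  have ha0 : 0 < a := by positivity
  have ha1 : 2 * a * Real.log (1 / θ) ≤ η := by
    have e1 : 2 * a * Real.log (1 / θ) = η * (Real.log (1 / θ) / (Real.log (1 / θ) + 1)) := by
      rw [ha]
      field_simp
    rw [e1]
    have : Real.log (1 / θ) / (Real.log (1 / θ) + 1) ≤ 1 := by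
      rw [div_le_one (by linarith)]
      linarith
    nlinarith
  set R : ℕ := ⌈4 * s₁ / a⌉₊ + 1 with hR
  have hR0 : 0 < R := by omega
  have hR1 : 4 * s₁ / a ≤ (R : ℝ) := by
    rw [hR]
    push_cast
    have := Nat.le_ceil (4 * s₁ / a)
    linarith
  set cw : ℝ := min (η ^ 2 / (16 * C₁)) (min (η / 4) (a / 2)) / 2 with hcw
  have hcw0 : 0 < cw := by
    rw [hcw]
    have : 0 < min (η ^ 2 / (16 * C₁)) (min (η / 4) (a / 2)) :=
      lt_min (by positivity) (lt_min (by positivity) (by positivity))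
    linarith
  have hcw1 : 2 * cw ≤ η ^ 2 / (16 * C₁) := by
    rw [hcw]
    have := min_le_left (η ^ 2 / (16 * C₁)) (min (η / 4) (a / 2))
    linarith
  have hcw2 : 2 * cw ≤ η / 4 := by
    rw [hcw]
    have := le_trans (min_le_right (η ^ 2 / (16 * C₁)) (min (η / 4) (a / 2))) (min_le_left _ _)
    linarith
  have hcw3 : 2 * cw ≤ a / 2 := by
    rw [hcw]
    have := le_trans (min_le_right (η ^ 2 / (16 * C₁)) (min (η / 4) (a / 2))) (min_le_right _ _)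
    linarith
  obtain ⟨ε', hε'0, hε'1, kW, hWfB⟩ := hWf Jm s₀ s₁ cw hs0 hs01 hcw0
  set cn : ℝ := Real.exp 1 * ((D : ℝ) * ((D : ℝ) * ((D : ℝ) ^ 2 * (Jm : ℝ) *
      ((D.factorial : ℝ) ^ ((2 * R + 1) ^ Jm)) * 2 ^ ((2 * R + 1) ^ Jm)))) with hcn
  refine ⟨R, eventually_atTop.1 ?_⟩
  filter_upwards [hhigh, eventually_ge_atTop kG, eventually_ge_atTop kW, eventually_gt_atTop 0,
    ev_ge (9 * (Jm : ℝ) * s₁ / ε' ^ 2) (ηt / 16) (by positivity),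
    ev_ge (9 * s₁ ^ 2 / ε' ^ 2) (ηt / 16) (by positivity),
    ev_exp (2 ^ ((2 * R + 1) ^ Jm) + 2) cw (ηt / 16) hcw0 (by positivity),
    ev_sub C₀ (Real.log D ^ 2) (c₇ / 8) hC.le (by positivity) (by positivity),
    ev_exp cn (3 / 8 * c₇) ((ηt / 8) ^ 2 / 2) (by positivity) (by positivity),
    ev_exp 1 1 ((ηt / 8) ^ 2 / 2) one_pos (by positivity),
    ev_ge 4 ε' hε'0] with k hk1 hkG hkW hkpos ek1 ek2 ek3 ek4 ek5 ek6 ek7
  intro G _ _ hnil hGlog hgen K _ _ hJ hTerm s hss hss' hS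
  have hk0 : (0 : ℝ) < (k : ℝ) := by exact_mod_cast hkpos
  obtain ⟨P⟩ := hW G
  obtain ⟨M⟩ := hMo G hnil P
  have hs : 0 < s := lt_of_lt_of_le hs0 hss
  set n₁ : ℕ := ⌊η₁ * (k : ℝ)⌋₊ with hn₁
  set n₂ : ℕ := ⌊s * (k : ℝ)⌋₊ with hn₂
  have hn₁le : (n₁ : ℝ) ≤ η₁ * (k : ℝ) := Nat.floor_le (by positivity)
  have hn₁ge : η₁ * (k : ℝ) - 1 < (n₁ : ℝ) := by
    have := Nat.lt_floor_add_one (η₁ * (k : ℝ))
    rw [← hn₁] at this
    linarith
  have hn₂le : (n₂ : ℝ) ≤ s * (k : ℝ) := Nat.floor_le (by positivity)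
  have hn₂ge : s * (k : ℝ) - 1 < (n₂ : ℝ) := by
    have := Nat.lt_floor_add_one (s * (k : ℝ))
    rw [← hn₂] at this
    linarith
  have hn₁k : n₁ < k := by
    have : (n₁ : ℝ) < (k : ℝ) := by nlinarith
    exact_mod_cast this
  have hJ1 : 1 ≤ K.index := Nat.one_le_iff_ne_zero.2 Subgroup.index_ne_zero_of_finite
  set L : ℕ := ⌈(s₁ + 1) * (k : ℝ)⌉₊ with hLdef
  have hn₂L : n₂ ≤ L := by
    have h2 : (n₂ : ℝ) ≤ (L : ℝ) := by
      have h3 := Nat.le_ceil ((s₁ + 1) * (k : ℝ))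
      rw [← hLdef] at h3
      nlinarith
    exact_mod_cast h2
  have hWb := hWfB k hkW K.index hJ1 hJ s hss hss' n₂ (by
    rw [abs_le]
    constructor <;> linarith)
  have hW0 : 0 ≤ Wf K.index s ε' k n₂ := by
    unfold Wf
    positivity
  -- the low part
  set A : ℝ := (D : ℝ) *
      ((D : ℝ) * (Real.exp (12 * (1 + Real.sqrt (Real.log (Nat.card G))) *
        Real.log D ^ 2) * (Real.log (Nat.card G) + 1) + 1)) *
      ((D : ℝ) ^ 2 * (K.index : ℝ) * Real.exp (c₇ / 8 * (k : ℝ)) *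
        ((D.factorial : ℝ) ^ ((2 * R + 1) ^ K.index))) *
      (Wf K.index s ε' k n₂ * 2 ^ ((2 * R + 1) ^ K.index) *
        Real.exp ((k : ℝ) * (c₇ / 8 + 2 * η + θ * Real.exp R' +
          2 * a * Real.log (1 / θ)))) with hA
  have hGpos : (1 : ℝ) ≤ (Nat.card G : ℝ) := by exact_mod_cast Nat.card_pos
  have hlog0 : 0 ≤ Real.log (Nat.card G) := Real.log_nonneg hGpos
  have hA0 : 0 ≤ A := by positivity
  have hlow := hL G hnil P K D k n₂ R L (Real.exp (c₇ / 8 * (k : ℝ))) s ε' η R' a θ (c₇ / 8)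
    hD1 (Real.exp_pos _).le hTerm hkpos hs hε'0.le hn₂L ha0.le hR'0 hθ0 hθ1 hS
  have hb := b2 hPu hTy G K k n₂ R L s ε' η R' a hkpos hs hε'0 (by linarith) hn₂L hη0 ha0 hR0
  have hbnum := typ_num k n₂ K.index Jm R s s₁ ε' η R' a C₁ cw (Wf K.index s ε' k n₂)
    (ηt / 16) hkpos hJ hε'0 hs hss' (le_trans hn₂le (by nlinarith)) hR1 hR0 ha0 hη0 hC₁ hR'1
    hcw1 hcw2 hcw3 hW0 hWb ek1 ek2 ek3
  have hAnum : (1 - c) ^ n₁ * A ≤ cn * Real.exp (-(3 / 8 * c₇ * (k : ℝ))) := by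
    apply low_num k D Jm K.index R c c₇ cn n₁ _ _ _ _ hc0.le hc1.le _ hJ _ _ _ le_rfl hW0 _
      (Real.exp_pos _).le _ hcn
    · rw [hc₇]
      nlinarith
    · positivity
    · refine le_trans ?_ ek4
      gcongr
    · exact (Real.exp_pos _).le
    · refine le_trans hWb (Real.exp_le_exp.2 ?_)
      have : cw ≤ c₇ / 8 := by
        rw [hηdef] at hcw2
        linarith
      exact mul_le_mul_of_nonneg_right this hk0.le
    · apply Real.exp_le_exp.2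
      rw [mul_comm]
      apply mul_le_mul_of_nonneg_right _ hk0.le
      rw [hθ2]
      have e9 : c₇ / 8 + 4 * η = c₇ / 4 := by rw [hηdef]; ring
      linarith
  have hfin := hU G P M k n₁ n₂ n₁ (n₁ / 2) D c (ηt / 8) A (Real.exp (-(k : ℝ)))
    (3 * (ηt / 16)) (2 * η₁) (fun Z => GW (n := n₂) s ε' η R' a R L (fun i => (Z i : G ⧸ K)))
    hkpos hc0.le hc1.le hD1 hA0 (Real.exp_pos _).le
    (hGap k hkG G hnil hGlog hgen P M) hlow
    (hH G P M k n₁ (n₁ / 2) D (Real.exp (-(k : ℝ))) hn₁k hD1 (Real.exp_pos _).le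
      (fun m hm1 hm2 => hk1 G hGlog P m hm1 hm2))
    (le_trans hb (mul_le_mul_of_nonneg_left hbnum (by positivity)))
    (b1 h5 η₁ hη₁0 k hkpos)
  have hmono : ∑ Z : Fin k → G, tvStep Z ⌈(s + ε) * (k : ℝ)⌉₊ ≤
      ∑ Z : Fin k → G, tvStep Z (n₁ + n₂ + n₁) := by
    apply Finset.sum_le_sum
    intro Z _
    apply h1 G k Z hkpos
    have h2 : ((n₁ + n₂ + n₁ : ℕ) : ℝ) ≤ (⌈(s + ε) * (k : ℝ)⌉₊ : ℝ) := by
      have h3 := Nat.le_ceil ((s + ε) * (k : ℝ))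
      push_cast
      nlinarith
    exact_mod_cast h2
  have hsq : Real.sqrt ((1 - c) ^ n₁ * A + Real.exp (-(k : ℝ))) ≤ ηt / 8 := by
    apply Real.sqrt_le_iff.2
    refine ⟨by positivity, ?_⟩
    have e10 : Real.exp (-(k : ℝ)) ≤ (ηt / 8) ^ 2 / 2 := by
      have := ek6
      rw [one_mul, one_mul] at this
      exact this
    linarith
  refine le_trans hmono (le_trans hfin ?_)
  rw [mul_comm ηt]
  apply mul_le_mul_of_nonneg_left _ (by positivity)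
  linarith

end NilCut
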