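import Pool.Agent.Lib.MP_4ddf81_pr.Stm2

namespace NilCut

namespace UBdet

variable {G : Type} [Group G]

theorem wprod_append {k n m : ℕ} (Z : Fin k → G) (w : Fin n → Fin k) (w' : Fin m → Fin k) :
    wprod Z (Fin.append w w') = wprod Z w * wprod Z w' := by
  unfold wprod
  have h : (fun i => Z (Fin.append w w' i)) =
      Fin.append (fun i => Z (w i)) (fun i => Z (w' i)) := by
    funext i
    refine Fin.addCases (fun j => ?_) (fun j => ?_) i
    · simp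
    · simp
  rw [h, List.ofFn_fin_append, List.prod_append]

open Classical in
theorem wlaw_eq {k n : ℕ} (Z : Fin k → G) (A : Set (Fin n → Fin k)) (g : G) :
    wlaw Z A g = (∑ w : Fin n → Fin k, if w ∈ A ∧ wprod Z w = g then (1 : ℝ) else 0) /
      (k : ℝ) ^ n := by
  rw [wlaw, Nat.card_eq_fintype_card, Fintype.card_subtype, Finset.sum_boole]

theorem stepLaw_eq {k n : ℕ} (Z : Fin k → G) : stepLaw Z n =
    wlaw Z (Set.univ : Set (Fin n → Fin k)) := by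
  funext g
  unfold stepLaw wlaw
  simp

theorem wlaw_nonneg {k n : ℕ} (Z : Fin k → G) (A : Set (Fin n → Fin k)) (g : G) :
    0 ≤ wlaw Z A g := by
  unfold wlaw
  positivity

theorem wlaw_mono {k n : ℕ} (Z : Fin k → G) (A B : Set (Fin n → Fin k)) (h : A ⊆ B) (g : G) :
    wlaw Z A g ≤ wlaw Z B g := by
  classical
  rw [wlaw_eq, wlaw_eq]
  apply div_le_div_of_nonneg_right _ (by positivity)
  apply Finset.sum_le_sum
  intro w _
  split_ifs with h1 h2
  · exact le_rfl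
  · exact absurd ⟨h h1.1, h1.2⟩ h2
  · norm_num
  · exact le_rfl

variable [Fintype G]

theorem wlaw_sum {k n : ℕ} (Z : Fin k → G) (A : Set (Fin n → Fin k)) :
    ∑ g, wlaw Z A g = (Nat.card A : ℝ) / (k : ℝ) ^ n := by
  classical
  simp_rw [wlaw_eq]
  rw [← Finset.sum_div, Finset.sum_comm]
  congr 1
  have h1 : ∀ w : Fin n → Fin k, (∑ g : G, if w ∈ A ∧ wprod Z w = g then (1 : ℝ) else 0) =
      if w ∈ A then 1 else 0 := by
    intro w
    by_cases hw : w ∈ A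
    · simp [hw]
    · simp [hw]
  simp_rw [h1]
  rw [Finset.sum_boole, Nat.card_eq_fintype_card, ← Set.toFinset_card]
  congr 2
  ext w
  simp

theorem wlaw_sum_le {k n : ℕ} (Z : Fin k → G) (A : Set (Fin n → Fin k)) :
    ∑ g, wlaw Z A g ≤ 1 := by
  rw [wlaw_sum]
  apply div_le_one_of_le₀ _ (by positivity)
  have h1 : Nat.card A ≤ Nat.card (Fin n → Fin k) :=
    Nat.card_le_card_of_injective (fun x : A => (x : Fin n → Fin k)) Subtype.val_injective
  have h2 : Nat.card (Fin n → Fin k) = k ^ n := by simp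
  rw [h2] at h1
  exact_mod_cast h1

theorem stepLaw_sum {k n : ℕ} (hk : 0 < k) (Z : Fin k → G) : ∑ g, stepLaw Z n g = 1 := by
  rw [stepLaw_eq, wlaw_sum]
  have h2 : Nat.card (Set.univ : Set (Fin n → Fin k)) = k ^ n := by
    rw [Nat.card_univ]; simp
  rw [h2]
  push_cast
  have : (k : ℝ) ≠ 0 := by exact_mod_cast hk.ne'
  exact div_self (pow_ne_zero _ this)

theorem conv_sum (a b : G → ℝ) : ∑ g, conv a b g = (∑ g, a g) * ∑ g, b g := by
  unfold conv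
  rw [Finset.sum_comm, Finset.sum_mul]
  refine Finset.sum_congr rfl fun h _ => ?_
  rw [← Finset.mul_sum]
  congr 1
  exact Fintype.sum_equiv (Equiv.mulLeft h⁻¹) _ _ (fun x => rfl)

theorem conv_assoc (a b c : G → ℝ) : conv (conv a b) c = conv a (conv b c) := by
  funext g
  unfold conv
  simp_rw [Finset.sum_mul, Finset.mul_sum]
  rw [Finset.sum_comm]
  refine Finset.sum_congr rfl fun x _ => ?_
  refine Fintype.sum_equiv (Equiv.mulLeft x⁻¹) _ _ (fun y => ?_)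
  simp only [Equiv.coe_mulLeft]
  rw [mul_assoc]
  congr 3
  group

theorem conv_nonneg (a b : G → ℝ) (ha : ∀ g, 0 ≤ a g) (hb : ∀ g, 0 ≤ b g) (g : G) :
    0 ≤ conv a b g :=
  Finset.sum_nonneg fun h _ => mul_nonneg (ha h) (hb _)

theorem conv_wlaw {k n m : ℕ} (Z : Fin k → G) (A : Set (Fin n → Fin k))
    (B : Set (Fin m → Fin k)) :
    conv (wlaw Z A) (wlaw Z B) = wlaw Z {w : Fin (n + m) → Fin k |
      (fun i => w (Fin.castAdd m i)) ∈ A ∧ (fun j => w (Fin.natAdd n j)) ∈ B} := by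
  classical
  funext g
  rw [wlaw_eq]
  unfold conv
  simp_rw [wlaw_eq]
  have h1 : ∀ h : G, (∑ w : Fin n → Fin k, if w ∈ A ∧ wprod Z w = h then (1 : ℝ) else 0) /
      (k : ℝ) ^ n * ((∑ w : Fin m → Fin k, if w ∈ B ∧ wprod Z w = h⁻¹ * g then (1 : ℝ) else 0) /
      (k : ℝ) ^ m) = (∑ w : Fin n → Fin k, ∑ w' : Fin m → Fin k,
        if (w ∈ A ∧ wprod Z w = h) ∧ (w' ∈ B ∧ wprod Z w' = h⁻¹ * g) then (1 : ℝ) else 0) /
        (k : ℝ) ^ (n + m) := by
    intro h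
    rw [div_mul_div_comm, Finset.sum_mul_sum, pow_add]
    congr 1
    refine Finset.sum_congr rfl fun w _ => Finset.sum_congr rfl fun w' _ => ?_
    by_cases a1 : w ∈ A ∧ wprod Z w = h
    · by_cases a2 : w' ∈ B ∧ wprod Z w' = h⁻¹ * g
      · rw [if_pos a1, if_pos a2, if_pos ⟨a1, a2⟩, mul_one]
      · rw [if_neg a2, mul_zero]
        exact (if_neg (fun hh => a2 hh.2)).symm
    · rw [if_neg a1, zero_mul]
      exact (if_neg (fun hh => a1 hh.1)).symm
  simp_rw [h1]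
  rw [← Finset.sum_div]
  congr 1
  rw [Finset.sum_comm]
  have h2 : ∀ w : Fin n → Fin k, (∑ h : G, ∑ w' : Fin m → Fin k,
        if (w ∈ A ∧ wprod Z w = h) ∧ (w' ∈ B ∧ wprod Z w' = h⁻¹ * g) then (1 : ℝ) else 0) =
      ∑ w' : Fin m → Fin k, if w ∈ A ∧ w' ∈ B ∧ wprod Z w * wprod Z w' = g then (1 : ℝ) else 0 := by
    intro w
    rw [Finset.sum_comm]
    refine Finset.sum_congr rfl fun w' _ => ?_
    rw [Finset.sum_eq_single (wprod Z w)]
    · congr 1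
      apply propext
      constructor
      · rintro ⟨⟨a1, _⟩, a2, a3⟩
        exact ⟨a1, a2, by rw [a3]; group⟩
      · rintro ⟨a1, a2, a3⟩
        exact ⟨⟨a1, rfl⟩, a2, by rw [← a3]; group⟩
    · intro h _ hne
      rw [if_neg]
      rintro ⟨⟨_, a2⟩, _⟩
      exact hne a2.symm
    · intro h
      exact absurd (Finset.mem_univ _) h
  simp_rw [h2]
  rw [← Fintype.sum_prod_type' (f := fun (w : Fin n → Fin k) (w' : Fin m → Fin k) =>
    if w ∈ A ∧ w' ∈ B ∧ wprod Z w * wprod Z w' = g then (1 : ℝ) else 0)]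
  refine Fintype.sum_equiv (Fin.appendEquiv n m) _ _ (fun p => ?_)
  obtain ⟨w, w'⟩ := p
  simp only [Fin.appendEquiv, Equiv.coe_fn_mk, Set.mem_ofPred_eq, Fin.append_left, Fin.append_right,
    wprod_append, and_assoc]

/-- the comparison of the total variation distance with the `ℓ²` distance -/
theorem tv_le {k n : ℕ} (hk : 0 < k) (Z : Fin k → G) (μ : G → ℝ) (hμ : ∀ g, μ g ≤ stepLaw Z n g)
    (hm : ∑ g, μ g ≤ 1) :
    2 * tvStep Z n ≤ Real.sqrt ((Nat.card G : ℝ) *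
      ∑ g : G, (μ g - (∑ h : G, μ h) / (Nat.card G : ℝ)) ^ 2) + 2 * (1 - ∑ g, μ g) := by
  set m := ∑ g, μ g with hmdef
  have hG : (0 : ℝ) < (Nat.card G : ℝ) := by
    have : 0 < Nat.card G := Nat.card_pos
    exact_mod_cast this
  have h1 : ∀ g, |stepLaw Z n g - 1 / (Nat.card G : ℝ)| ≤
      |μ g - m / (Nat.card G : ℝ)| + (stepLaw Z n g - μ g) + (1 - m) / (Nat.card G : ℝ) := by
    intro g
    have a1 : stepLaw Z n g - 1 / (Nat.card G : ℝ) =
        (μ g - m / (Nat.card G : ℝ)) + (stepLaw Z n g - μ g) - (1 - m) / (Nat.card G : ℝ) := by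
      ring
    have a2 : 0 ≤ stepLaw Z n g - μ g := sub_nonneg.mpr (hμ g)
    have a3 : 0 ≤ (1 - m) / (Nat.card G : ℝ) := div_nonneg (by linarith) hG.le
    rw [a1, abs_le]
    have a4 := abs_le.mp (le_refl |μ g - m / (Nat.card G : ℝ)|)
    constructor
    · linarith [a4.1]
    · linarith [a4.2]
  have h2 : 2 * tvStep Z n = ∑ g : G, |stepLaw Z n g - 1 / (Nat.card G : ℝ)| := by
    unfold tvStep; ring
  rw [h2]
  have h3 := Finset.sum_le_sum (fun g (_ : g ∈ (Finset.univ : Finset G)) => h1 g)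
  rw [Finset.sum_add_distrib, Finset.sum_add_distrib, Finset.sum_sub_distrib, stepLaw_sum hk Z,
    Finset.sum_const, Finset.card_univ, ← Nat.card_eq_fintype_card, nsmul_eq_mul,
    mul_div_cancel₀ _ hG.ne', ← hmdef] at h3
  have h4 : ∑ g : G, |μ g - m / (Nat.card G : ℝ)| ≤ Real.sqrt ((Nat.card G : ℝ) *
      ∑ g : G, (μ g - m / (Nat.card G : ℝ)) ^ 2) := by
    apply Real.le_sqrt_of_sq_le
    have h5 := sq_sum_le_card_mul_sum_sq (s := (Finset.univ : Finset G))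
      (f := fun g => |μ g - m / (Nat.card G : ℝ)|)
    simp only [sq_abs] at h5
    rw [Finset.card_univ, ← Nat.card_eq_fintype_card] at h5
    exact h5
  linarith

end UBdet

theorem p_UBdet (hP : S_Plan) (h2 : S_QF2) (h4 : S_QF4) : S_UBdet := by
  classical
  intro G _ _ P M k n₀ n₂ n₁ D Z A₂ A₁ c hk hc0 hc1 hD hgap
  set ν₀ := stepLaw Z n₀ with hν₀
  set ν₂ := wlaw Z A₂ with hν₂
  set ν₁ := wlaw Z A₁ with hν₁
  have p0 : ∀ g, 0 ≤ ν₀ g := fun g => by rw [hν₀, UBdet.stepLaw_eq]; exact UBdet.wlaw_nonneg _ _ _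
  have p2 : ∀ g, 0 ≤ ν₂ g := fun g => UBdet.wlaw_nonneg _ _ _
  have p1 : ∀ g, 0 ≤ ν₁ g := fun g => UBdet.wlaw_nonneg _ _ _
  have s0 : ∑ g, ν₀ g = 1 := UBdet.stepLaw_sum hk Z
  have s2 : ∑ g, ν₂ g = (Nat.card A₂ : ℝ) / (k : ℝ) ^ n₂ := UBdet.wlaw_sum Z A₂
  have s1 : ∑ g, ν₁ g = (Nat.card A₁ : ℝ) / (k : ℝ) ^ n₁ := UBdet.wlaw_sum Z A₁
  have t2 : ∑ g, ν₂ g ≤ 1 := UBdet.wlaw_sum_le Z A₂
  have t1 : ∑ g, ν₁ g ≤ 1 := UBdet.wlaw_sum_le Z A₁
  have s20 : 0 ≤ ∑ g, ν₂ g := Finset.sum_nonneg fun g _ => p2 g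
  have s10 : 0 ≤ ∑ g, ν₁ g := Finset.sum_nonneg fun g _ => p1 g
  set μ := conv (conv ν₀ ν₂) ν₁ with hμ
  have hμ' : μ = conv ν₀ (conv ν₂ ν₁) := UBdet.conv_assoc _ _ _
  have hsum : ∑ g, μ g =
      (Nat.card A₂ : ℝ) / (k : ℝ) ^ n₂ * ((Nat.card A₁ : ℝ) / (k : ℝ) ^ n₁) := by
    rw [hμ, UBdet.conv_sum, UBdet.conv_sum, s0, one_mul, s2, s1]
  have hsum1 : ∑ g, μ g ≤ 1 := by
    rw [hμ, UBdet.conv_sum, UBdet.conv_sum, s0, one_mul]
    exact mul_le_one₀ t2 s10 t1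
  have hle : ∀ g, μ g ≤ stepLaw Z (n₀ + n₂ + n₁) g := by
    intro g
    rw [hμ, hν₀, hν₂, hν₁, UBdet.stepLaw_eq, UBdet.stepLaw_eq, UBdet.conv_wlaw, UBdet.conv_wlaw]
    exact UBdet.wlaw_mono _ _ _ (Set.subset_univ _) g
  have htv := UBdet.tv_le hk Z μ hle hsum1
  rw [← hsum]
  refine htv.trans (add_le_add_left (Real.sqrt_le_sqrt ?_) _)
  rw [hP G P μ]
  have hχ : ∀ i, (fun g => (P.ρ i g).trace) = indL (M.H i) (M.lam i) := fun i =>
    funext (M.tr i)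
  rw [← Finset.sum_filter_add_sum_filter_not Finset.univ (fun i => P.d i ≤ D)]
  have hpow : 0 ≤ (1 - c) ^ n₀ := pow_nonneg (by linarith) _
  refine add_le_add ?_ ?_
  · rw [Finset.mul_sum]
    refine Finset.sum_le_sum fun i hi => ?_
    have hiD : P.d i ≤ D := (Finset.mem_filter.mp hi).2
    have hd : (0 : ℝ) ≤ (P.d i : ℝ) := Nat.cast_nonneg _
    rw [hχ i]
    have q0 := (h2 G (M.H i) (M.lam i) ν₂ ν₁ p1 t1).1
    have q1 := (h2 G (M.H i) (M.lam i) ν₂ ν₁ p1 t1).2.2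
    by_cases hnt : P.nt i
    · rw [if_pos hnt]
      have q2 := h4 G (M.H i) (M.lam i) k Z c n₀ (conv ν₂ ν₁) hk hc0 hc1 (hgap i hnt hiD)
      rw [hμ']
      calc (P.d i : ℝ) * QF (indL (M.H i) (M.lam i)) (conv ν₀ (conv ν₂ ν₁))
          ≤ (P.d i : ℝ) * ((1 - c) ^ n₀ * QF (indL (M.H i) (M.lam i)) ν₂) :=
            mul_le_mul_of_nonneg_left (q2.trans (mul_le_mul_of_nonneg_left q1 hpow)) hd
        _ = (1 - c) ^ n₀ * ((P.d i : ℝ) * QF (indL (M.H i) (M.lam i)) ν₂) := by ring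
    · rw [if_neg hnt]
      exact mul_nonneg hpow (mul_nonneg hd q0)
  · have hfil : (Finset.univ.filter fun i => ¬ P.d i ≤ D) =
        Finset.univ.filter fun i => D < P.d i := by
      ext i
      simp only [Finset.mem_filter, Finset.mem_univ, true_and, not_le]
    rw [hfil]
    refine Finset.sum_le_sum fun i _ => ?_
    have hd : (0 : ℝ) ≤ (P.d i : ℝ) := Nat.cast_nonneg _
    rw [hχ i]
    have hc2 : ∑ g, conv ν₀ ν₂ g ≤ 1 := by rw [UBdet.conv_sum, s0, one_mul]; exact t2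
    have q := h2 G (M.H i) (M.lam i) ν₁ (conv ν₀ ν₂) (UBdet.conv_nonneg _ _ p0 p2) hc2
    by_cases hnt : P.nt i
    · rw [if_pos hnt]
      exact mul_le_mul_of_nonneg_left q.2.1 hd
    · rw [if_neg hnt]
      exact mul_nonneg hd q.1

end NilCut
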