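import Pool.Agent.Lib.MP_4ddf81_pr.Stm2
import Pool.Agent.Lib.MP_4ddf81_pr.P.W2

/-! # MP_4ddf81_pr, stage 2, piece W2D (helper70): a unique letter of one word which is absent
from the other word. -/

namespace NilCut

namespace W2D

variable {G : Type} [Group G] [Fintype G]

theorem sum_zero {k : ℕ} (a : Fin k) (f : (Fin k → G) → ℂ)
    (h : ∀ Z, ∑ x : G, f (Function.update Z a x) = 0) : ∑ Z : Fin k → G, f Z = 0 := by
  classical
  rw [← Equiv.sum_comp (Equiv.funSplitAt a G).symm f, Fintype.sum_prod_type_right]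
  refine Finset.sum_eq_zero fun r _ => ?_
  rw [← h ((Equiv.funSplitAt a G).symm (1, r))]
  refine Finset.sum_congr rfl fun x _ => ?_
  congr 1
  funext j
  by_cases hj : j = a
  · subst hj
    simp [Equiv.funSplitAt, Equiv.piSplitAt]
  · rw [Function.update_of_ne hj]
    simp [Equiv.funSplitAt, Equiv.piSplitAt, hj]

theorem trace_sum {d : ℕ} (ρ : G →* Matrix (Fin d) (Fin d) ℂ) (h0 : ∑ g : G, ρ g = 0)
    (A B : G) : ∑ x : G, (ρ (A * x * B)).trace = 0 := by
  have h1 : ∑ x : G, (ρ (A * x * B)).trace = (ρ A * (∑ x : G, ρ x) * ρ B).trace := by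
    rw [Finset.mul_sum, Finset.sum_mul, Matrix.trace_sum]
    refine Finset.sum_congr rfl fun x _ => ?_
    rw [map_mul, map_mul]
  rw [h1, h0, mul_zero, zero_mul, Matrix.trace_zero]

end W2D

open W2D in
theorem p_W2D (hM : S_Mean) : S_W2D := by
  intro G _ _ d ρ hirr hnt k n n' w w' i hu hw'
  have h0 := hM G d ρ hirr hnt
  constructor
  · refine sum_zero (w i) _ fun Z => ?_
    obtain ⟨A, B, hAB⟩ := W2.wprod_update w i hu Z
    rw [← trace_sum ρ h0 A (B * (wprod Z w')⁻¹)]
    refine Finset.sum_congr rfl fun x _ => ?_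
    rw [hAB, W2.wprod_update_ne w' (w i) hw', mul_assoc]
  · refine sum_zero (w i) _ fun Z => ?_
    obtain ⟨A, B, hAB⟩ := W2.wprod_update w i hu Z
    rw [← trace_sum ρ h0 (wprod Z w' * B⁻¹) A⁻¹]
    refine Fintype.sum_equiv (Equiv.inv G) _ _ fun x => ?_
    rw [hAB, W2.wprod_update_ne w' (w i) hw', Equiv.inv_apply]
    congr 2
    group

end NilCut
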