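import Pool.Agent.Lib.MP_4ddf81_pr.Stm2

set_option autoImplicit false

namespace NilCut

open Filter Topology

theorem p_WfB : S_WfB := by
  intro Jm s₀ s₁ c hs0 hs01 hc
  have hs1 : 0 < s₁ := lt_of_lt_of_le hs0 hs01
  set M : ℝ := 1 + ((Jm : ℝ) + 1) * (s₁ + 1) / s₀ with hM
  have hM0 : 0 < M := by positivity
  set ε : ℝ := min 1 (c / 2 / M) with hε
  have hε0 : 0 < ε := lt_min one_pos (by positivity)
  have hε1 : ε ≤ 1 := min_le_left _ _
  have hεM : ε * M ≤ c / 2 := by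
    have : ε ≤ c / 2 / M := min_le_right _ _
    rwa [le_div_iff₀ hM0] at this
  refine ⟨ε, hε0, hε1, ?_⟩
  -- polynomial against exponential
  set D : ℝ := (Real.exp 1 * (s₁ + 2)) ^ Jm with hD
  have hD0 : 0 < D := by positivity
  have hlo : ∀ᶠ x : ℝ in atTop, D * x ^ Jm ≤ Real.exp (c / 2 * x) := by
    have h1 := (isLittleO_pow_exp_pos_mul_atTop (b := c / 2) Jm (by positivity)).bound
      (show (0:ℝ) < 1 / D by positivity)
    filter_upwards [h1] with x hx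
    rw [Real.norm_eq_abs, Real.norm_eq_abs, abs_of_pos (Real.exp_pos _)] at hx
    have h2 := (le_abs_self (x ^ Jm)).trans hx
    calc D * x ^ Jm ≤ D * (1 / D * Real.exp (c / 2 * x)) := mul_le_mul_of_nonneg_left h2 hD0.le
      _ = Real.exp (c / 2 * x) := by field_simp
  obtain ⟨X, hX⟩ := eventually_atTop.1 hlo
  refine ⟨max 1 ⌈X⌉₊, ?_⟩
  intro k hk J hJ1 hJm s hs hs' n hn
  have hk1 : 1 ≤ k := (le_max_left _ _).trans hk
  have hkX : X ≤ (k : ℝ) := (Nat.le_ceil X).trans (by exact_mod_cast (le_max_right _ _).trans hk)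
  have hkr : (1 : ℝ) ≤ k := by exact_mod_cast hk1
  have hk0 : (0 : ℝ) < k := by linarith
  have hsp : 0 < s := lt_of_lt_of_le hs0 hs
  have hJmr : (J : ℝ) ≤ Jm := by exact_mod_cast hJm
  have hn0 : (0 : ℝ) ≤ n := Nat.cast_nonneg n
  have hn1 := (abs_le.1 hn).1
  have hn2 := (abs_le.1 hn).2
  have hn3 : (n : ℝ) ≤ (s₁ + 1) * k := by
    have : s * k ≤ s₁ * k := mul_le_mul_of_nonneg_right hs' hk0.le
    have : ε * k ≤ 1 * k := mul_le_mul_of_nonneg_right hε1 hk0.le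
    linarith
  have a1 : (Real.exp 1 * ((n : ℝ) + 1)) ^ J ≤ Real.exp (c / 2 * k) := by
    have e1 : (1:ℝ) ≤ Real.exp 1 := Real.one_le_exp zero_le_one
    have b1 : (1 : ℝ) ≤ Real.exp 1 * ((n : ℝ) + 1) := by nlinarith
    have b2 : Real.exp 1 * ((n : ℝ) + 1) ≤ Real.exp 1 * (s₁ + 2) * k := by
      have : (n : ℝ) + 1 ≤ (s₁ + 2) * k := by linarith
      calc Real.exp 1 * ((n : ℝ) + 1) ≤ Real.exp 1 * ((s₁ + 2) * k) :=
            mul_le_mul_of_nonneg_left this (by positivity)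
        _ = _ := by ring
    calc (Real.exp 1 * ((n : ℝ) + 1)) ^ J ≤ (Real.exp 1 * ((n : ℝ) + 1)) ^ Jm :=
          pow_le_pow_right₀ b1 hJm
      _ ≤ (Real.exp 1 * (s₁ + 2) * k) ^ Jm := pow_le_pow_left₀ (by positivity) b2 _
      _ = D * (k : ℝ) ^ Jm := by rw [mul_pow]
      _ ≤ Real.exp (c / 2 * k) := hX k hkX
  have a2 : Real.exp (s * k - n) ≤ Real.exp (ε * k) := Real.exp_le_exp.2 (by linarith)
  have a3 : (((n : ℝ) + (J : ℝ) * ε * (k : ℝ)) / (s * (k : ℝ))) ^ n ≤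
      Real.exp (((Jm : ℝ) + 1) * (s₁ + 1) / s₀ * ε * k) := by
    have b0 : 0 ≤ ((n : ℝ) + (J : ℝ) * ε * (k : ℝ)) / (s * (k : ℝ)) := by positivity
    have b1 : ((n : ℝ) + (J : ℝ) * ε * (k : ℝ)) / (s * (k : ℝ)) ≤
        Real.exp (((Jm : ℝ) + 1) * ε / s₀) := by
      have c1 : ((n : ℝ) + (J : ℝ) * ε * (k : ℝ)) / (s * (k : ℝ)) ≤
          1 + ((Jm : ℝ) + 1) * ε / s₀ := by
        rw [div_le_iff₀ (by positivity)]
        have c2 : (J : ℝ) * ε * k ≤ Jm * ε * k := by gcongr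
        have c3 : ((Jm : ℝ) + 1) * ε * k ≤ ((Jm : ℝ) + 1) * ε / s₀ * (s * k) := by
          have : ((Jm : ℝ) + 1) * ε / s₀ * (s * k) = ((Jm : ℝ) + 1) * ε * k * (s / s₀) := by
            ring
          rw [this]
          have : 1 ≤ s / s₀ := by rw [le_div_iff₀ hs0]; linarith
          exact le_mul_of_one_le_right (by positivity) this
        nlinarith
      refine c1.trans ?_
      have := Real.add_one_le_exp (((Jm : ℝ) + 1) * ε / s₀)
      linarith
    calc (((n : ℝ) + (J : ℝ) * ε * (k : ℝ)) / (s * (k : ℝ))) ^ n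
        ≤ (Real.exp (((Jm : ℝ) + 1) * ε / s₀)) ^ n := pow_le_pow_left₀ b0 b1 _
      _ = Real.exp (n * (((Jm : ℝ) + 1) * ε / s₀)) := by rw [← Real.exp_nat_mul]
      _ ≤ Real.exp (((Jm : ℝ) + 1) * (s₁ + 1) / s₀ * ε * k) := by
          apply Real.exp_le_exp.2
          calc (n : ℝ) * (((Jm : ℝ) + 1) * ε / s₀) ≤ ((s₁ + 1) * k) * (((Jm : ℝ) + 1) * ε / s₀) :=
                mul_le_mul_of_nonneg_right hn3 (by positivity)
            _ = _ := by ring
  unfold Wf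
  calc (Real.exp 1 * ((n : ℝ) + 1)) ^ J * Real.exp (s * (k : ℝ) - (n : ℝ)) *
        (((n : ℝ) + (J : ℝ) * ε * (k : ℝ)) / (s * (k : ℝ))) ^ n
      ≤ Real.exp (c / 2 * k) * Real.exp (ε * k) *
        Real.exp (((Jm : ℝ) + 1) * (s₁ + 1) / s₀ * ε * k) := by gcongr
    _ = Real.exp (c / 2 * k + ε * M * k) := by
        rw [← Real.exp_add, ← Real.exp_add]; congr 1; rw [hM]; ring
    _ ≤ Real.exp (c * k) := by
        apply Real.exp_le_exp.2
        have : ε * M * k ≤ c / 2 * k := mul_le_mul_of_nonneg_right hεM hk0.le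
        linarith

end NilCut
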