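import Pool.Agent.Lib.MP_4ddf81_pr.Stm2
import Pool.Agent.Lib.MP_4ddf81_pr.P.T2

/-!
# MP_4ddf81_pr, stage 2 : piece UBk (upper bound averaged over the generators), helper44
-/

namespace NilCut

namespace UBk

lemma frac_le_one {k n : ℕ} (hk : 0 < k) (A : Set (Fin n → Fin k)) :
    (Nat.card A : ℝ) / (k : ℝ) ^ n ≤ 1 := by
  have hk' : (0 : ℝ) < (k : ℝ) ^ n := by positivity
  rw [div_le_one hk']
  have h1 : Nat.card A ≤ Nat.card (Fin n → Fin k) :=
    Nat.card_le_card_of_injective Subtype.val Subtype.val_injective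
  have h2 : Nat.card (Fin n → Fin k) = k ^ n := by simp
  rw [h2] at h1
  exact_mod_cast h1

lemma frac_nonneg {k n : ℕ} (A : Set (Fin n → Fin k)) :
    0 ≤ (Nat.card A : ℝ) / (k : ℝ) ^ n := by positivity

lemma sum_sqrt_le {α : Type} [Fintype α] (X : α → ℝ) (hX : ∀ a, 0 ≤ X a) (N Y : ℝ) (hN : 0 ≤ N)
    (hc : (Fintype.card α : ℝ) = N) (hY : ∑ a, X a ≤ N * Y) :
    ∑ a, Real.sqrt (X a) ≤ N * Real.sqrt Y := by
  have h1 : (∑ a, Real.sqrt (X a)) ^ 2 ≤ N * (N * Y) := by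
    calc (∑ a, Real.sqrt (X a)) ^ 2
        ≤ ((Finset.univ : Finset α).card : ℝ) * ∑ a, Real.sqrt (X a) ^ 2 := sq_sum_le_card_mul_sum_sq
      _ = N * ∑ a, X a := by
          rw [Finset.card_univ, hc]
          congr 1
          exact Finset.sum_congr rfl fun a _ => Real.sq_sqrt (hX a)
      _ ≤ N * (N * Y) := mul_le_mul_of_nonneg_left hY hN
  have h2 : ∑ a, Real.sqrt (X a) ≤ Real.sqrt (N * (N * Y)) :=
    Real.le_sqrt_of_sq_le h1
  refine h2.trans (le_of_eq ?_)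
  rw [← mul_assoc, Real.sqrt_mul (mul_self_nonneg N), Real.sqrt_mul_self hN]

end UBk

open UBk in
theorem p_UBk (hU : S_UBdet) (h2 : S_QF2) : S_UBk := by
  intro G _ _ P M k n₀ n₂ n₁ r D c ηg A B b₂ b₁ T hk hc0 hc1 hD hA hB hgap hlow hhigh hT hF
  classical
  set N : ℝ := (Nat.card G : ℝ) ^ k with hN
  have hN0 : 0 ≤ N := by positivity
  have hcard : (Fintype.card (Fin k → G) : ℝ) = N := by
    rw [hN, Fintype.card_fun, Fintype.card_fin, Nat.card_eq_fintype_card]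
    push_cast
    rfl
  -- positivity of the quadratic forms
  have hQ : ∀ (i : P.ι) (μ : G → ℝ), 0 ≤ QF (fun g => (P.ρ i g).trace) μ := by
    intro i μ
    have h3 : (fun g => (P.ρ i g).trace) = indL (M.H i) (M.lam i) := funext fun g => M.tr i g
    rw [h3]
    exact (h2 G (M.H i) (M.lam i) μ (fun _ => 0) (fun _ => le_rfl) (by simp)).1
  let aZ : (Fin k → G) → ℝ := fun Z => ∑ i ∈ Finset.univ.filter (fun i => P.d i ≤ D),
    (P.d i : ℝ) * QF (fun g => (P.ρ i g).trace) (wlaw Z (T Z))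
  let bZ : (Fin k → G) → ℝ := fun Z => ∑ i ∈ Finset.univ.filter (fun i => D < P.d i),
    (P.d i : ℝ) * QF (fun g => (P.ρ i g).trace) (wlaw Z (fewRep k n₁ r))
  have haZ : ∀ Z, 0 ≤ aZ Z := fun Z =>
    Finset.sum_nonneg fun i _ => mul_nonneg (Nat.cast_nonneg _) (hQ i _)
  have hbZ : ∀ Z, 0 ≤ bZ Z := fun Z =>
    Finset.sum_nonneg fun i _ => mul_nonneg (Nat.cast_nonneg _) (hQ i _)
  have haS : ∑ Z, aZ Z ≤ N * A := by
    refine le_trans (le_of_eq ?_) hlow
    apply Finset.sum_congr rfl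
    intro Z _
    simp only [aZ]
    rw [Finset.sum_filter]
  have hbS : ∑ Z, bZ Z ≤ N * B := by
    refine le_trans (le_of_eq ?_) hhigh
    apply Finset.sum_congr rfl
    intro Z _
    simp only [bZ]
    rw [Finset.sum_filter]
  have hc' : 0 ≤ (1 - c) ^ n₀ := pow_nonneg (by linarith) _
  let X : (Fin k → G) → ℝ := fun Z => (1 - c) ^ n₀ * aZ Z + bZ Z
  have hX0 : ∀ Z, 0 ≤ X Z := fun Z => add_nonneg (mul_nonneg hc' (haZ Z)) (hbZ Z)
  have hXS : ∑ Z, X Z ≤ N * ((1 - c) ^ n₀ * A + B) := by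
    simp only [X]
    rw [Finset.sum_add_distrib, ← Finset.mul_sum]
    have := mul_le_mul_of_nonneg_left haS hc'
    nlinarith
  have hsq := sum_sqrt_le X hX0 N _ hN0 hcard hXS
  -- the bad generators
  let bad : (Fin k → G) → Prop := fun Z => ∃ i, P.nt i ∧ P.d i ≤ D ∧ ¬ Gap Z (M.H i) (M.lam i) c
  have hbad : ∑ Z : Fin k → G, (if bad Z then (1 : ℝ) else 0) ≤ ηg * N := by
    refine le_trans (le_of_eq ?_) hgap
    rw [Nat.card_eq_fintype_card, Fintype.card_subtype, ← Finset.sum_filter, Finset.sum_const,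
      nsmul_eq_mul, mul_one]
  have hm1 := frac_le_one hk (fewRep k n₁ r)
  have key : ∀ Z : Fin k → G, tvStep Z (n₀ + n₂ + n₁) ≤ (if bad Z then (1 : ℝ) else 0) +
      Real.sqrt (X Z) / 2 + (1 - (Nat.card (T Z) : ℝ) / (k : ℝ) ^ n₂) + b₁ := by
    intro Z
    have hm2 := frac_le_one hk (T Z)
    have hs := Real.sqrt_nonneg (X Z)
    by_cases hZ : bad Z
    · rw [if_pos hZ]
      have := T2.tvStep_le_one hk Z (n₀ + n₂ + n₁)
      linarith
    · rw [if_neg hZ]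
      have h3 := hU G P M k n₀ n₂ n₁ D Z (T Z) (fewRep k n₁ r) c hk hc0 hc1 hD (by
        intro i hi hiD
        by_contra hg
        exact hZ ⟨i, hi, hiD, hg⟩)
      have h4 : 2 * tvStep Z (n₀ + n₂ + n₁) ≤ Real.sqrt (X Z) +
          2 * (1 - (Nat.card (T Z) : ℝ) / (k : ℝ) ^ n₂ *
            ((Nat.card (fewRep k n₁ r) : ℝ) / (k : ℝ) ^ n₁)) := h3
      have h5 : 0 ≤ (1 - (Nat.card (T Z) : ℝ) / (k : ℝ) ^ n₂) *
          (1 - (Nat.card (fewRep k n₁ r) : ℝ) / (k : ℝ) ^ n₁) :=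
        mul_nonneg (by linarith) (by linarith)
      nlinarith
  refine (Finset.sum_le_sum fun Z _ => key Z).trans ?_
  rw [Finset.sum_add_distrib, Finset.sum_add_distrib, Finset.sum_add_distrib, ← Finset.sum_div,
    Finset.sum_const, Finset.card_univ, nsmul_eq_mul, hcard]
  nlinarith

end NilCut
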