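import Pool.Agent.Lib.MP_4ddf81_pr.Stm2

namespace NilCut

theorem p_Clif3 (hC : S_Clif) (hC2 : S_Clif2) : S_Clif3 := by
  intro G _ _ D q hq hD l hl hlq χ hT
  obtain ⟨ρ, hρ, hχ, g, hg⟩ := hT
  obtain ⟨hqD, ρ', hρ', hind⟩ := hC G D q hq hD ρ hρ l hl hlq g hg
  refine ⟨(hC2 G D q hq hD l hl hlq).1, hqD, fun x => (ρ' x).trace, ⟨ρ', hρ', fun _ => rfl⟩, ?_⟩
  intro x
  rw [hχ x, hind x]

end NilCut
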