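import Pool.Agent.Lib.MP_4ddf81_pr.Stm2

/-!
# MP_4ddf81_pr, stage 2 : the differences of every large subfamily generate the group
-/

namespace NilCut

namespace GenP

open Finset

open Classical in
/-- Fibres of a nontrivial homomorphism to a group of prime order. -/
lemma fib_card {G : Type} [Group G] [Fintype G] {p : ℕ} (hp : p.Prime)
    (φ : G →* Multiplicative (ZMod p)) (hφ : φ ≠ 1) (a : Multiplicative (ZMod p)) :
    p * (univ.filter fun g : G => φ g = a).card = Fintype.card G := by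
  have : Fact p.Prime := ⟨hp⟩
  have : NeZero p := ⟨hp.ne_zero⟩
  have hcard : Nat.card (Multiplicative (ZMod p)) = p := by
    rw [Nat.card_congr Multiplicative.toAdd, Nat.card_zmod]
  have hcard' : Fintype.card (Multiplicative (ZMod p)) = p := by
    rw [← Nat.card_eq_fintype_card, hcard]
  have : Fact (Nat.card (Multiplicative (ZMod p))).Prime := ⟨by rw [hcard]; exact hp⟩
  have hsurj : Function.Surjective φ := by
    rw [← MonoidHom.range_eq_top]
    rcases Subgroup.eq_bot_or_eq_top_of_prime_card φ.range with h | h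
    · exfalso
      apply hφ
      ext g
      have : φ g ∈ φ.range := ⟨g, rfl⟩
      rw [h, Subgroup.mem_bot] at this
      rw [this]
      rfl
    · exact h
  have h1 : ∀ b : Multiplicative (ZMod p),
      (univ.filter fun g : G => φ g = b).card = (univ.filter fun g : G => φ g = a).card := by
    intro b
    exact MonoidHom.card_fiber_eq_of_mem_range φ (hsurj b) (hsurj a)
  have h2 : (univ : Finset G).card =
      ∑ b ∈ (univ : Finset (Multiplicative (ZMod p))), (univ.filter fun g : G => φ g = b).card :=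
    Finset.card_eq_sum_card_fiberwise (fun _ _ => Finset.mem_coe.2 (mem_univ _))
  rw [Finset.card_univ] at h2
  rw [h2, Finset.sum_congr rfl (fun b _ => h1 b), Finset.sum_const, Finset.card_univ, hcard',
    smul_eq_mul]

open Classical in
/-- The number of families which are almost constant for one homomorphism. -/
lemma cnt_single {G : Type} [Group G] [Fintype G] {p : ℕ} (hp : p.Prime)
    (φ : G →* Multiplicative (ZMod p)) (hφ : φ ≠ 1) (a : Multiplicative (ZMod p)) (k : ℕ)
    (κ γ : ℝ) (h0 : 0 < κ) (h1 : κ ≤ 1) :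
    ((univ.filter fun Z : Fin k → G =>
      ((univ.filter fun i => φ (Z i) ≠ a).card : ℝ) ≤ γ * k).card : ℝ) ≤
      (κ / p) ^ (-(γ * k)) * ((Fintype.card G : ℝ) * ((1 + κ) / p)) ^ k := by
  have hp0 : (0 : ℝ) < p := by exact_mod_cast hp.pos
  have hp1 : (1 : ℝ) ≤ p := by exact_mod_cast hp.one_le
  have hθ0 : 0 < κ / p := div_pos h0 hp0
  have hθ1 : κ / p ≤ 1 := by
    rw [div_le_one hp0]; linarith
  set θ : ℝ := κ / p with hθ
  have hsum : ∑ g : G, (if φ g ≠ a then θ else 1) ≤ (Fintype.card G : ℝ) * ((1 + κ) / p) := by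
    have hf := fib_card hp φ hφ a
    have hf' : (p : ℝ) * ((univ.filter fun g : G => φ g = a).card : ℝ) = Fintype.card G := by
      exact_mod_cast hf
    have e1 : ∀ g : G, (if φ g ≠ a then θ else (1 : ℝ)) ≤ θ + if φ g = a then 1 else 0 := by
      intro g
      by_cases h : φ g = a
      · simp [h, hθ0.le]
      · simp [h]
    calc ∑ g : G, (if φ g ≠ a then θ else (1 : ℝ)) ≤ ∑ g : G, (θ + if φ g = a then 1 else 0) :=
          Finset.sum_le_sum fun g _ => e1 g
      _ = (Fintype.card G : ℝ) * θ + ((univ.filter fun g : G => φ g = a).card : ℝ) := by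
          rw [Finset.sum_add_distrib, Finset.sum_const, Finset.card_univ, nsmul_eq_mul,
            Finset.sum_boole]
      _ = (Fintype.card G : ℝ) * ((1 + κ) / p) := by
          rw [← hf', hθ]
          field_simp
          ring
  have hsum0 : 0 ≤ ∑ g : G, (if φ g ≠ a then θ else (1 : ℝ)) :=
    Finset.sum_nonneg fun g _ => by split_ifs <;> linarith
  have hprod : ∀ Z : Fin k → G, ∏ i, (if φ (Z i) ≠ a then θ else (1 : ℝ)) =
      θ ^ (univ.filter fun i => φ (Z i) ≠ a).card := by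
    intro Z
    rw [Finset.prod_ite, Finset.prod_const, Finset.prod_const_one, mul_one]
  have hexp : ∑ Z : Fin k → G, ∏ i, (if φ (Z i) ≠ a then θ else (1 : ℝ)) =
      (∑ g : G, (if φ g ≠ a then θ else (1 : ℝ))) ^ k := by
    have := Finset.prod_univ_sum (fun _ : Fin k => (univ : Finset G))
      (fun (_ : Fin k) (g : G) => (if φ g ≠ a then θ else (1 : ℝ)))
    rw [Fintype.piFinset_univ] at this
    rw [← this, Finset.prod_const, Finset.card_univ, Fintype.card_fin]
  have hlow : ((univ.filter fun Z : Fin k → G =>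
      ((univ.filter fun i => φ (Z i) ≠ a).card : ℝ) ≤ γ * k).card : ℝ) * θ ^ (γ * k) ≤
      ∑ Z : Fin k → G, ∏ i, (if φ (Z i) ≠ a then θ else (1 : ℝ)) := by
    calc _ = ∑ Z ∈ (univ.filter fun Z : Fin k → G =>
          ((univ.filter fun i => φ (Z i) ≠ a).card : ℝ) ≤ γ * k), θ ^ (γ * k) := by
          rw [Finset.sum_const, nsmul_eq_mul]
      _ ≤ ∑ Z ∈ (univ.filter fun Z : Fin k → G =>
          ((univ.filter fun i => φ (Z i) ≠ a).card : ℝ) ≤ γ * k),
            ∏ i, (if φ (Z i) ≠ a then θ else (1 : ℝ)) := by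
          refine Finset.sum_le_sum fun Z hZ => ?_
          rw [hprod, ← Real.rpow_natCast]
          exact Real.rpow_le_rpow_of_exponent_ge hθ0 hθ1 (Finset.mem_filter.1 hZ).2
      _ ≤ _ := by
          refine Finset.sum_le_sum_of_subset_of_nonneg (Finset.filter_subset _ _) fun Z _ _ => ?_
          exact Finset.prod_nonneg fun i _ => by split_ifs <;> linarith
  have hpos : 0 < θ ^ (γ * k) := Real.rpow_pos_of_pos hθ0 _
  rw [Real.rpow_neg hθ0.le, inv_mul_eq_div, le_div_iff₀ hpos]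
  refine hlow.trans ?_
  rw [hexp]
  exact pow_le_pow_left₀ hsum0 hsum k

open Classical in
/-- The number of families which are almost constant for some homomorphism to a group of
order `p`. -/
lemma cnt_prime (hH : S_HomP) {G : Type} [Group G] [Fintype G] {p : ℕ} (hp : p.Prime)
    (S : Finset G) (hS : Subgroup.closure (S : Set G) = ⊤) (k : ℕ)
    (κ γ : ℝ) (h0 : 0 < κ) (h1 : κ ≤ 1) :
    ((univ.filter fun Z : Fin k → G => ∃ φ : G →* Multiplicative (ZMod p), φ ≠ 1 ∧
      ∃ a : Multiplicative (ZMod p),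
      ((univ.filter fun i => φ (Z i) ≠ a).card : ℝ) ≤ γ * k).card : ℝ) ≤
      ((p : ℝ) ^ S.card * p) *
      ((κ / p) ^ (-(γ * k)) * ((Fintype.card G : ℝ) * ((1 + κ) / p)) ^ k) := by
  have : Fact p.Prime := ⟨hp⟩
  have : NeZero p := ⟨hp.ne_zero⟩
  obtain ⟨hfin, hcard⟩ := hH G p S hp hS
  have : Fintype (G →* Multiplicative (ZMod p)) := Fintype.ofFinite _
  have hcard' : Fintype.card (Multiplicative (ZMod p)) = p := by
    rw [← Nat.card_eq_fintype_card, Nat.card_congr Multiplicative.toAdd, Nat.card_zmod]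
  have hp0 : (0 : ℝ) < p := by exact_mod_cast hp.pos
  set B : ℝ := (κ / p) ^ (-(γ * k)) * ((Fintype.card G : ℝ) * ((1 + κ) / p)) ^ k with hB
  have hB0 : 0 ≤ B := by positivity
  set F : (G →* Multiplicative (ZMod p)) → Multiplicative (ZMod p) → Finset (Fin k → G) :=
    fun φ a => univ.filter fun Z : Fin k → G =>
      ((univ.filter fun i => φ (Z i) ≠ a).card : ℝ) ≤ γ * k with hF
  have hsub : (univ.filter fun Z : Fin k → G => ∃ φ : G →* Multiplicative (ZMod p), φ ≠ 1 ∧
      ∃ a : Multiplicative (ZMod p),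
      ((univ.filter fun i => φ (Z i) ≠ a).card : ℝ) ≤ γ * k) ⊆
      (univ.filter fun φ : G →* Multiplicative (ZMod p) => φ ≠ 1).biUnion fun φ =>
        (univ : Finset (Multiplicative (ZMod p))).biUnion fun a => F φ a := by
    intro Z hZ
    obtain ⟨φ, hφ, a, ha⟩ := (Finset.mem_filter.1 hZ).2
    simp only [Finset.mem_biUnion]
    exact ⟨φ, Finset.mem_filter.2 ⟨mem_univ _, hφ⟩, a, mem_univ _,
      Finset.mem_filter.2 ⟨mem_univ _, ha⟩⟩
  have hc1 : ((univ.filter fun Z : Fin k → G => ∃ φ : G →* Multiplicative (ZMod p), φ ≠ 1 ∧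
      ∃ a : Multiplicative (ZMod p),
      ((univ.filter fun i => φ (Z i) ≠ a).card : ℝ) ≤ γ * k).card : ℝ) ≤
      ∑ φ ∈ univ.filter (fun φ : G →* Multiplicative (ZMod p) => φ ≠ 1),
        ∑ a : Multiplicative (ZMod p), ((F φ a).card : ℝ) := by
    have e := (Finset.card_le_card hsub).trans Finset.card_biUnion_le
    have e2 : ∑ φ ∈ univ.filter (fun φ : G →* Multiplicative (ZMod p) => φ ≠ 1),
        ((univ : Finset (Multiplicative (ZMod p))).biUnion fun a => F φ a).card ≤
        ∑ φ ∈ univ.filter (fun φ : G →* Multiplicative (ZMod p) => φ ≠ 1),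
          ∑ a : Multiplicative (ZMod p), (F φ a).card :=
      Finset.sum_le_sum fun φ _ => Finset.card_biUnion_le
    exact_mod_cast e.trans e2
  refine le_trans (le_of_eq (by congr!)) (hc1.trans ?_)
  have hc2 : ∑ φ ∈ univ.filter (fun φ : G →* Multiplicative (ZMod p) => φ ≠ 1),
        ∑ a : Multiplicative (ZMod p), ((F φ a).card : ℝ) ≤
      ∑ φ ∈ univ.filter (fun φ : G →* Multiplicative (ZMod p) => φ ≠ 1),
        ∑ _a : Multiplicative (ZMod p), B := by
    refine Finset.sum_le_sum fun φ hφ => Finset.sum_le_sum fun a _ => ?_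
    exact cnt_single hp φ (Finset.mem_filter.1 hφ).2 a k κ γ h0 h1
  refine hc2.trans ?_
  rw [Finset.sum_const, Finset.sum_const, Finset.card_univ, hcard', nsmul_eq_mul, nsmul_eq_mul,
    mul_assoc]
  refine mul_le_mul_of_nonneg_right ?_ (by positivity)
  have e3 : (univ.filter (fun φ : G →* Multiplicative (ZMod p) => φ ≠ 1)).card ≤ p ^ S.card := by
    refine (Finset.card_filter_le _ _).trans ?_
    rw [Finset.card_univ, ← Nat.card_eq_fintype_card]
    exact hcard
  exact_mod_cast e3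

/-- The numerical estimate for one prime. -/
lemma num_prime {p : ℕ} (hp : p.Prime) (s k : ℕ) (κ γ δ g : ℝ) (hg : 0 ≤ g) (h0 : 0 < κ)
    (hs : (s : ℝ) ≤ (1 - δ) * k) (hγ : γ ≤ δ / 4)
    (hκ : Real.log (1 + κ) ≤ δ / 8 * Real.log 2) (hγκ : γ * (-Real.log κ) ≤ δ / 8 * Real.log 2)
    (hδk : 2 ≤ δ * k) :
    ((p : ℝ) ^ s * p) * ((κ / p) ^ (-(γ * k)) * (g * ((1 + κ) / p)) ^ k) ≤
      g ^ k * (2 : ℝ) ^ (1 - δ * k / 2) := by
  have hp0 : (0 : ℝ) < p := by exact_mod_cast hp.pos
  have hp2 : (2 : ℝ) ≤ p := by exact_mod_cast hp.two_le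
  have hκ1 : 0 < 1 + κ := by linarith
  have hP : Real.log 2 ≤ Real.log p := Real.log_le_log (by norm_num) hp2
  have hl2 : 0 < Real.log 2 := Real.log_pos (by norm_num)
  have hk0 : (0 : ℝ) ≤ k := Nat.cast_nonneg k
  have e1 : (p : ℝ) ^ s = Real.exp (s * Real.log p) := by
    rw [mul_comm, Real.exp_mul, Real.exp_log hp0, Real.rpow_natCast]
  have e2 : (p : ℝ) = Real.exp (Real.log p) := (Real.exp_log hp0).symm
  have e3 : (κ / p) ^ (-(γ * k)) = Real.exp ((γ * k) * (Real.log p - Real.log κ)) := by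
    rw [Real.rpow_def_of_pos (div_pos h0 hp0), Real.log_div h0.ne' hp0.ne']
    congr 1
    ring
  have e4 : (g * ((1 + κ) / p)) ^ k =
      g ^ k * Real.exp (k * (Real.log (1 + κ) - Real.log p)) := by
    rw [mul_pow]
    congr 1
    rw [mul_comm (k : ℝ), Real.exp_mul, Real.exp_sub, Real.exp_log hκ1, Real.exp_log hp0,
      Real.rpow_natCast]
  have e5 : (2 : ℝ) ^ (1 - δ * k / 2) = Real.exp (Real.log 2 * (1 - δ * k / 2)) := by
    rw [Real.rpow_def_of_pos (by norm_num)]
  have key : s * Real.log p + Real.log p + (γ * k) * (Real.log p - Real.log κ) +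
      k * (Real.log (1 + κ) - Real.log p) ≤ Real.log 2 * (1 - δ * k / 2) := by
    have hlp : 0 ≤ Real.log p := hl2.le.trans hP
    have f1 : s * Real.log p ≤ (1 - δ) * k * Real.log p := mul_le_mul_of_nonneg_right hs hlp
    have f2 : γ * k * Real.log p ≤ δ / 4 * k * Real.log p :=
      mul_le_mul_of_nonneg_right (mul_le_mul_of_nonneg_right hγ hk0) hlp
    have f3 : (k : ℝ) * (γ * (-Real.log κ)) ≤ k * (δ / 8 * Real.log 2) :=
      mul_le_mul_of_nonneg_left hγκ hk0
    have f4 : (k : ℝ) * Real.log (1 + κ) ≤ k * (δ / 8 * Real.log 2) :=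
      mul_le_mul_of_nonneg_left hκ hk0
    have hδ0 : 0 ≤ δ * k := by linarith
    have f5 : (δ * k / 4) * Real.log 2 ≤ (δ * k / 4) * Real.log p :=
      mul_le_mul_of_nonneg_left hP (by linarith)
    have f6 : Real.log p * (1 - δ * k / 2) ≤ Real.log 2 * (1 - δ * k / 2) :=
      mul_le_mul_of_nonpos_right hP (by linarith)
    have f7 : s * Real.log p + Real.log p + (γ * k) * (Real.log p - Real.log κ) +
      k * (Real.log (1 + κ) - Real.log p) = s * Real.log p + Real.log p + γ * k * Real.log p +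
        k * (γ * (-Real.log κ)) + k * Real.log (1 + κ) - k * Real.log p := by ring
    rw [f7]
    have f8 : (1 - δ) * k * Real.log p + Real.log p + δ / 4 * k * Real.log p +
        2 * (δ * k / 4 * Real.log p / 2) * 2 / 2 + δ * k / 4 * Real.log p * 0
          - k * Real.log p ≤ Real.log p * (1 - δ * k / 2) := by
      apply le_of_eq
      ring
    have f9 : (k : ℝ) * (δ / 8 * Real.log 2) + k * (δ / 8 * Real.log 2) =
      (δ * k / 4) * Real.log 2 := by ring
    linarith
  calc ((p : ℝ) ^ s * p) * ((κ / p) ^ (-(γ * k)) * (g * ((1 + κ) / p)) ^ k)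
      = g ^ k * (Real.exp (s * Real.log p) * Real.exp (Real.log p) *
        Real.exp ((γ * k) * (Real.log p - Real.log κ)) *
        Real.exp (k * (Real.log (1 + κ) - Real.log p))) := by
        rw [e3, e4, e1, ← e2]
        ring
    _ = g ^ k * Real.exp (s * Real.log p + Real.log p + (γ * k) * (Real.log p - Real.log κ) +
      k * (Real.log (1 + κ) - Real.log p)) := by
        rw [Real.exp_add, Real.exp_add, Real.exp_add]
    _ ≤ g ^ k * Real.exp (Real.log 2 * (1 - δ * k / 2)) := by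
        refine mul_le_mul_of_nonneg_left (Real.exp_le_exp.2 key) (pow_nonneg hg k)
    _ = _ := by rw [e5]

/-- The number of the prime divisors. -/
lemma card_pf (n : ℕ) (hn : 0 < n) : (n.primeFactors.card : ℝ) ≤ 2 * Real.log n := by
  have h1 : 2 ^ n.primeFactors.card ≤ n := by
    calc 2 ^ n.primeFactors.card ≤ ∏ p ∈ n.primeFactors, p := by
          rw [← Finset.prod_const]
          exact Finset.prod_le_prod' fun p hp => (Nat.prime_of_mem_primeFactors hp).two_le
      _ ≤ n := Nat.le_of_dvd hn (Nat.prod_primeFactors_dvd n)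
  have h2 : (2 : ℝ) ^ n.primeFactors.card ≤ n := by exact_mod_cast h1
  have h3 := Real.log_le_log (by positivity) h2
  rw [Real.log_pow] at h3
  have h4 : (1 / 2 : ℝ) ≤ Real.log 2 := by
    have := Real.log_two_gt_d9
    linarith
  have h5 : (n.primeFactors.card : ℝ) * (1 / 2) ≤ (n.primeFactors.card : ℝ) * Real.log 2 :=
    mul_le_mul_of_nonneg_left h4 (Nat.cast_nonneg _)
  linarith

end GenP

open Finset GenP in
theorem p_GenP (hH : S_HomP) (hM : S_MaxH) : S_GenP := by
  classical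
  intro δ hδ
  have hl2 : 0 < Real.log 2 := Real.log_pos (by norm_num)
  -- the constants
  have h2δ : 1 < (2 : ℝ) ^ (δ / 8) := Real.one_lt_rpow (by norm_num) (by linarith)
  obtain ⟨κ, hκ0, hκ1, hκ2⟩ : ∃ κ : ℝ, 0 < κ ∧ κ ≤ 1 ∧ 1 + κ ≤ (2 : ℝ) ^ (δ / 8) :=
    ⟨min 1 ((2 : ℝ) ^ (δ / 8) - 1), lt_min one_pos (by linarith), min_le_left _ _, by
      have := min_le_right 1 ((2 : ℝ) ^ (δ / 8) - 1)
      linarith⟩
  have hκ3 : Real.log (1 + κ) ≤ δ / 8 * Real.log 2 := by
    have := Real.log_le_log (by linarith) hκ2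
    rwa [Real.log_rpow (by norm_num)] at this
  have hL : 0 ≤ -Real.log κ := by
    have := Real.log_nonpos hκ0.le hκ1
    linarith
  set L : ℝ := -Real.log κ with hLdef
  refine ⟨min (δ / 4) (δ / 8 * Real.log 2 / (L + 1)), lt_min (by linarith) (by positivity), ?_⟩
  intro γ hγ0 hγ C₀ η hC₀ hη
  have hγ1 : γ ≤ δ / 4 := hγ.trans (min_le_left _ _)
  have hγ2 : γ * L ≤ δ / 8 * Real.log 2 := by
    have h1 : γ ≤ δ / 8 * Real.log 2 / (L + 1) := hγ.trans (min_le_right _ _)
    rw [le_div_iff₀ (by linarith)] at h1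
    nlinarith
  -- the choice of `k₀`
  have hr1 : (2 : ℝ) ^ (-(δ / 2)) < 1 := Real.rpow_lt_one_of_one_lt_of_neg (by norm_num) (by linarith)
  have hr0 : 0 < (2 : ℝ) ^ (-(δ / 2)) := Real.rpow_pos_of_pos (by norm_num) _
  have hlim : Filter.Tendsto (fun k : ℕ => 4 * C₀ * ((k : ℝ) * ((2 : ℝ) ^ (-(δ / 2))) ^ k))
      Filter.atTop (nhds (4 * C₀ * 0)) :=
    (tendsto_self_mul_const_pow_of_lt_one hr0.le hr1).const_mul _
  rw [mul_zero] at hlim
  have hev := hlim.eventually (gt_mem_nhds hη)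
  obtain ⟨k₁, hk₁⟩ := Filter.eventually_atTop.1 hev
  refine ⟨max k₁ (⌈2 / δ⌉₊), ?_⟩
  intro k hk G _ _ hnil hlog hS
  obtain ⟨S, hS, hScard⟩ := hS
  have hk1 : k₁ ≤ k := (le_max_left _ _).trans hk
  have hk2 : 2 ≤ δ * k := by
    have h1 : (2 / δ : ℝ) ≤ k := (Nat.le_ceil _).trans (by exact_mod_cast (le_max_right _ _).trans hk)
    rw [div_le_iff₀ hδ] at h1
    linarith
  have hGc : Nat.card G = Fintype.card G := Nat.card_eq_fintype_card
  -- the union bound
  set Bp : ℕ → Finset (Fin k → G) := fun p => univ.filter fun Z : Fin k → G =>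
      ∃ φ : G →* Multiplicative (ZMod p), φ ≠ 1 ∧ ∃ a : Multiplicative (ZMod p),
      ((univ.filter fun i => φ (Z i) ≠ a).card : ℝ) ≤ γ * k with hBp
  have hsub : (univ.filter fun Z : Fin k → G => ∃ I : Finset (Fin k),
      (1 - γ) * (k : ℝ) ≤ (I.card : ℝ) ∧
      Subgroup.closure {g | ∃ i ∈ I, ∃ j ∈ I, g = (Z i)⁻¹ * Z j} ≠ ⊤) ⊆
      (Nat.card G).primeFactors.biUnion Bp := by
    intro Z hZ
    obtain ⟨I, hI, hne⟩ := (Finset.mem_filter.1 hZ).2
    obtain ⟨p, hp, hpd, φ, hφ, hφH⟩ := hM G hnil _ hne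
    refine Finset.mem_biUnion.2 ⟨p, Nat.mem_primeFactors.2 ⟨hp, hpd, Nat.card_pos.ne'⟩, ?_⟩
    refine Finset.mem_filter.2 ⟨mem_univ _, φ, hφ, ?_⟩
    have hconst : ∃ a, ∀ i ∈ I, φ (Z i) = a := by
      rcases I.eq_empty_or_nonempty with h | ⟨i₀, hi₀⟩
      · exact ⟨1, fun i hi => by simp [h] at hi⟩
      · refine ⟨φ (Z i₀), fun i hi => ?_⟩
        have := hφH _ (Subgroup.subset_closure ⟨i₀, hi₀, i, hi, rfl⟩)
        rw [map_mul, map_inv, inv_mul_eq_one] at this
        exact this.symm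
    obtain ⟨a, ha⟩ := hconst
    refine ⟨a, ?_⟩
    have h1 : (univ.filter fun i => φ (Z i) ≠ a) ⊆ Iᶜ := by
      intro i hi
      rw [Finset.mem_compl]
      exact fun hi' => (Finset.mem_filter.1 hi).2 (ha i hi')
    have h2 := Finset.card_le_card h1
    rw [Finset.card_compl, Fintype.card_fin] at h2
    have h3 : I.card ≤ k := by
      simpa using Finset.card_le_univ I
    have h4 : ((univ.filter fun i => φ (Z i) ≠ a).card : ℝ) ≤ (k : ℝ) - I.card := by
      have : (univ.filter fun i => φ (Z i) ≠ a).card + I.card ≤ k := by omega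
      have : ((univ.filter fun i => φ (Z i) ≠ a).card : ℝ) + I.card ≤ k := by exact_mod_cast this
      linarith
    linarith
  have hcard : (Nat.card {Z : Fin k → G // ∃ I : Finset (Fin k),
      (1 - γ) * (k : ℝ) ≤ (I.card : ℝ) ∧
      Subgroup.closure {g | ∃ i ∈ I, ∃ j ∈ I, g = (Z i)⁻¹ * Z j} ≠ ⊤} : ℝ) ≤
      ∑ p ∈ (Nat.card G).primeFactors, ((Bp p).card : ℝ) := by
    rw [Nat.card_eq_fintype_card, Fintype.card_subtype]
    have := (Finset.card_le_card hsub).trans Finset.card_biUnion_le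
    exact_mod_cast this
  refine hcard.trans ?_
  have hg0 : (0 : ℝ) ≤ (Fintype.card G : ℝ) := Nat.cast_nonneg _
  have hper : ∀ p ∈ (Nat.card G).primeFactors, ((Bp p).card : ℝ) ≤
      (Fintype.card G : ℝ) ^ k * (2 : ℝ) ^ (1 - δ * k / 2) := by
    intro p hp
    have hpp := Nat.prime_of_mem_primeFactors hp
    exact (cnt_prime hH hpp S hS k κ γ hκ0 hκ1).trans
      (num_prime hpp S.card k κ γ δ _ hg0 hκ0 hScard hγ1 hκ3 hγ2 hk2)
  refine (Finset.sum_le_sum hper).trans ?_
  rw [Finset.sum_const, nsmul_eq_mul]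
  have hpf : ((Nat.card G).primeFactors.card : ℝ) ≤ 2 * (C₀ * k) := by
    refine (card_pf _ Nat.card_pos).trans ?_
    linarith
  have hkk := hk₁ k hk1
  have e1 : (2 : ℝ) ^ (1 - δ * k / 2) = 2 * ((2 : ℝ) ^ (-(δ / 2))) ^ k := by
    rw [← Real.rpow_natCast, ← Real.rpow_mul (by norm_num), Real.rpow_sub (by norm_num),
      Real.rpow_one, div_eq_mul_inv, ← Real.rpow_neg (by norm_num)]
    congr 2
    ring
  have hgk : 0 ≤ (Fintype.card G : ℝ) ^ k := pow_nonneg hg0 k
  calc ((Nat.card G).primeFactors.card : ℝ) *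
        ((Fintype.card G : ℝ) ^ k * (2 : ℝ) ^ (1 - δ * k / 2)) ≤
        (2 * (C₀ * k)) * ((Fintype.card G : ℝ) ^ k * (2 : ℝ) ^ (1 - δ * k / 2)) :=
        mul_le_mul_of_nonneg_right hpf (by positivity)
    _ = (4 * C₀ * ((k : ℝ) * ((2 : ℝ) ^ (-(δ / 2))) ^ k)) * (Fintype.card G : ℝ) ^ k := by
        rw [e1]; ring
    _ ≤ η * (Nat.card G : ℝ) ^ k := by
        rw [hGc]
        exact mul_le_mul_of_nonneg_right hkk.le hgk

end NilCut
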