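import Pool.Agent.Lib.MP_4ddf81_pr.Stm2

/-!
# MP_4ddf81_pr, stage 2 : LDT2 (lower deviations of the information content)
-/

namespace NilCut

namespace LDT2

open Classical in
/-- The exponential Markov inequality for a product law on `piFinset`. -/
theorem chernoff {α : Type} (X : Finset α) (p g : α → ℝ) (k : ℕ) (a : ℝ)
    (P : (Fin k → α) → Prop) (hp : ∀ x ∈ X, 0 ≤ p x)
    (hP : ∀ N : Fin k → α, P N → a ≤ ∑ i, g (N i)) :
    ∑ N ∈ (Fintype.piFinset fun _ : Fin k => X).filter P, ∏ i, p (N i) ≤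
      Real.exp (-a) * (∑ x ∈ X, p x * Real.exp (g x)) ^ k := by
  have h1 : (∑ x ∈ X, p x * Real.exp (g x)) ^ k =
      ∑ N ∈ (Fintype.piFinset fun _ : Fin k => X), ∏ i, (p (N i) * Real.exp (g (N i))) := by
    have h := Finset.prod_univ_sum (fun _ : Fin k => X)
      (fun (_ : Fin k) (x : α) => p x * Real.exp (g x))
    rw [← h, Finset.prod_const, Finset.card_univ, Fintype.card_fin]
  rw [h1, Finset.mul_sum]
  have hnn : ∀ N ∈ (Fintype.piFinset fun _ : Fin k => X), 0 ≤ ∏ i, p (N i) := by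
    intro N hN
    refine Finset.prod_nonneg fun i _ => hp _ ?_
    exact Fintype.mem_piFinset.1 hN i
  calc ∑ N ∈ (Fintype.piFinset fun _ : Fin k => X).filter P, ∏ i, p (N i)
      ≤ ∑ N ∈ (Fintype.piFinset fun _ : Fin k => X).filter P,
          Real.exp (-a) * ∏ i, (p (N i) * Real.exp (g (N i))) := by
        refine Finset.sum_le_sum fun N hN => ?_
        obtain ⟨hN1, hN2⟩ := Finset.mem_filter.1 hN
        rw [Finset.prod_mul_distrib, ← Real.exp_sum]
        have h2 : Real.exp (-a) * ((∏ i, p (N i)) * Real.exp (∑ i, g (N i))) =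
            (∏ i, p (N i)) * Real.exp (∑ i, g (N i) - a) := by
          rw [sub_eq_add_neg, Real.exp_add]
          ring
        rw [h2]
        refine le_mul_of_one_le_right (hnn N hN1) ?_
        rw [← Real.exp_zero]
        exact Real.exp_le_exp.2 (by linarith [hP N hN2])
    _ ≤ _ := by
        refine Finset.sum_le_sum_of_subset_of_nonneg (Finset.filter_subset _ _) ?_
        intro N hN _
        refine mul_nonneg (Real.exp_pos _).le (Finset.prod_nonneg fun i _ => ?_)
        exact mul_nonneg (hp _ (Fintype.mem_piFinset.1 hN i)) (Real.exp_pos _).le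

/-- `exp (-t) ≤ 1 - t + t² / 2`. -/
theorem exp_neg_le (t : ℝ) (ht : 0 ≤ t) : Real.exp (-t) ≤ 1 - t + t ^ 2 / 2 := by
  have h1 := Real.quadratic_le_exp_of_nonneg ht
  have h2 : (0 : ℝ) ≤ 1 - t + t ^ 2 / 2 := by nlinarith [sq_nonneg (t - 1)]
  have h3 : 1 ≤ Real.exp t * (1 - t + t ^ 2 / 2) := by
    have h4 : (1 + t + t ^ 2 / 2) * (1 - t + t ^ 2 / 2) ≤
        Real.exp t * (1 - t + t ^ 2 / 2) := mul_le_mul_of_nonneg_right h1 h2
    nlinarith [sq_nonneg (t ^ 2)]
  rw [Real.exp_neg]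
  rw [inv_le_iff_one_le_mul₀ (Real.exp_pos t)]
  linarith [mul_comm (Real.exp t) (1 - t + t ^ 2 / 2)]

/-- `p = exp (-y)` with `y = -log p`. -/
theorem eq_exp (p : ℝ) (hp : 0 < p) : p = Real.exp (-(-Real.log p)) := by
  rw [neg_neg, Real.exp_log hp]

theorem sqrt_exp (p : ℝ) (hp : 0 < p) : Real.sqrt p = Real.exp (-((-Real.log p) / 2)) := by
  have h : p = Real.exp (-((-Real.log p) / 2)) * Real.exp (-((-Real.log p) / 2)) := by
    rw [← Real.exp_add]
    have h2 : -((-Real.log p) / 2) + -((-Real.log p) / 2) = Real.log p := by ring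
    rw [h2, Real.exp_log hp]
  conv_lhs => rw [h]
  exact Real.sqrt_mul_self (Real.exp_pos _).le

/-- `p (log p)² ≤ 8 √p`. -/
theorem p_log_sq (p : ℝ) (hp : 0 < p) (hp1 : p ≤ 1) :
    p * (-Real.log p) ^ 2 ≤ 8 * Real.sqrt p := by
  set y := -Real.log p with hy
  have hy0 : 0 ≤ y := by
    have := Real.log_nonpos hp.le hp1
    linarith
  rw [sqrt_exp p hp, ← hy]
  have h1 := Real.quadratic_le_exp_of_nonneg (x := y / 2) (by linarith)
  have h2 : y ^ 2 ≤ 8 * Real.exp (y / 2) := by nlinarith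
  have h3 : p = Real.exp (-y) := by rw [hy]; exact eq_exp p hp
  calc p * y ^ 2 ≤ p * (8 * Real.exp (y / 2)) := mul_le_mul_of_nonneg_left h2 hp.le
    _ = 8 * (Real.exp (-y) * Real.exp (y / 2)) := by rw [h3]; ring
    _ = 8 * Real.exp (-(y / 2)) := by
        rw [← Real.exp_add]
        congr 2
        ring

end LDT2

open LDT2 in
theorem p_LDT2 : S_LDT2 := by
  classical
  intro α X p c C η k hp0 hp1 hc hC hsq hη
  set H : ℝ := ∑ x ∈ X, p x * (-Real.log (c x)) with hH
  set θ : ℝ := η / (8 * C) with hθ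
  have hθ0 : 0 < θ := by positivity
  have hple : ∀ x ∈ X, p x ≤ 1 := fun x hx => (hc x hx).1.trans (hc x hx).2
  have h1 := chernoff X p (fun x => -(θ * (-Real.log (c x)))) k (-(θ * (k * (H - η))))
    (fun N => ∑ i, -Real.log (c (N i)) ≤ (k : ℝ) * (H - η)) (fun x hx => (hp0 x hx).le)
    (by
      intro N hN
      rw [Finset.sum_neg_distrib, ← Finset.mul_sum]
      have := mul_le_mul_of_nonneg_left hN hθ0.le
      linarith)
  refine le_trans (le_of_eq ?_) (h1.trans ?_)
  · rfl
  have h2 : ∑ x ∈ X, p x * Real.exp (-(θ * (-Real.log (c x)))) ≤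
      Real.exp (-(θ * H) + 4 * θ ^ 2 * C) := by
    have h3 : ∀ x ∈ X, p x * Real.exp (-(θ * (-Real.log (c x)))) ≤
        p x - θ * (p x * (-Real.log (c x))) + 4 * θ ^ 2 * Real.sqrt (p x) := by
      intro x hx
      have hcx : 0 < c x := (hp0 x hx).trans_le (hc x hx).1
      have hY0 : 0 ≤ -Real.log (c x) := by
        have := Real.log_nonpos hcx.le (hc x hx).2
        linarith
      have hYy : -Real.log (c x) ≤ -Real.log (p x) := by
        have := Real.log_le_log (hp0 x hx) (hc x hx).1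
        linarith
      have h4 := exp_neg_le (θ * (-Real.log (c x))) (by positivity)
      have h5 := p_log_sq (p x) (hp0 x hx) (hple x hx)
      have h6 : p x * (-Real.log (c x)) ^ 2 ≤ p x * (-Real.log (p x)) ^ 2 := by
        refine mul_le_mul_of_nonneg_left ?_ (hp0 x hx).le
        exact pow_le_pow_left₀ hY0 hYy 2
      have h7 := mul_le_mul_of_nonneg_left h4 (hp0 x hx).le
      have h8 : θ ^ 2 * (p x * (-Real.log (c x)) ^ 2) ≤ θ ^ 2 * (8 * Real.sqrt (p x)) :=
        mul_le_mul_of_nonneg_left (h6.trans h5) (by positivity)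
      refine h7.trans ?_
      have h9 : p x * (1 - θ * (-Real.log (c x)) + (θ * (-Real.log (c x))) ^ 2 / 2) =
          p x - θ * (p x * (-Real.log (c x))) +
            θ ^ 2 * (p x * (-Real.log (c x)) ^ 2) / 2 := by ring
      rw [h9]
      linarith
    have h4 := Finset.sum_le_sum h3
    rw [Finset.sum_add_distrib, Finset.sum_sub_distrib, ← Finset.mul_sum, ← Finset.mul_sum]
      at h4
    have h5 : 4 * θ ^ 2 * ∑ x ∈ X, Real.sqrt (p x) ≤ 4 * θ ^ 2 * C :=
      mul_le_mul_of_nonneg_left hsq (by positivity)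
    have h6 := Real.add_one_le_exp (-(θ * H) + 4 * θ ^ 2 * C)
    rw [← hH] at h4
    linarith
  have h3 : 0 ≤ ∑ x ∈ X, p x * Real.exp (-(θ * (-Real.log (c x)))) :=
    Finset.sum_nonneg fun x hx => mul_nonneg (hp0 x hx).le (Real.exp_pos _).le
  calc Real.exp (-(-(θ * (k * (H - η))))) *
        (∑ x ∈ X, p x * Real.exp (-(θ * (-Real.log (c x))))) ^ k
      ≤ Real.exp (-(-(θ * (k * (H - η))))) * (Real.exp (-(θ * H) + 4 * θ ^ 2 * C)) ^ k :=
        mul_le_mul_of_nonneg_left (pow_le_pow_left₀ h3 h2 k) (Real.exp_pos _).le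
    _ = Real.exp (-((k : ℝ) * η ^ 2 / (16 * C))) := by
        rw [← Real.exp_nat_mul, ← Real.exp_add]
        congr 1
        rw [hθ]
        field_simp
        ring

end NilCut
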