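import Pool.Agent.Lib.MP_4ddf81_pr.Stm2

/-! [NC2 Phi2] the conjugates of `u` in the Abelianisation of `K`. -/

namespace NilCut

namespace Phi2

variable {G : Type} [Group G] (K : Subgroup G) [K.Normal]

/-- the class of the conjugate of `u` by `g` -/
noncomputable def cj (u : K) (g : G) : Abelianization K := Abelianization.of (MulAut.conjNormal g u)

theorem cj_mul_mem (u : K) (g : G) (κ : K) : cj K u (g * κ) = cj K u g := by
  unfold cj
  have h1 : MulAut.conjNormal (g * (κ : G)) u =
      MulAut.conjNormal g κ * MulAut.conjNormal g u * (MulAut.conjNormal g κ)⁻¹ := by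
    apply Subtype.ext
    simp only [MulAut.conjNormal_apply, Subgroup.coe_mul, Subgroup.coe_inv]
    group
  rw [h1, map_mul, map_mul, map_inv, mul_comm (Abelianization.of (MulAut.conjNormal g κ)),
    mul_inv_cancel_right]

theorem cj_out (u : K) (g : G) : cj K u g = cj K u (Quotient.out (g : G ⧸ K)) := by
  have h1 : (Quotient.out (g : G ⧸ K))⁻¹ * g ∈ K := by
    rw [← QuotientGroup.eq]
    exact Quotient.out_eq' _
  have h2 := cj_mul_mem K u (Quotient.out (g : G ⧸ K)) ⟨_, h1⟩
  rw [← h2]
  congr 1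
  simp

theorem st_eq {k n : ℕ} (Z : Fin k → G) (w : Fin n → Fin k) (j : ℕ) :
    st (fun i => (Z i : G ⧸ K)) w j =
      ((((List.ofFn fun l => Z (w l)).take j).prod : G) : G ⧸ K) := by
  unfold st
  have h1 : ((((List.ofFn fun l => Z (w l)).take j).prod : G) : G ⧸ K) =
      QuotientGroup.mk' K ((List.ofFn fun l => Z (w l)).take j).prod := rfl
  rw [h1, map_list_prod, List.map_take, List.map_ofFn]
  rfl

variable [Fintype (G ⧸ K)]

open Classical in
theorem bW_of {k n : ℕ} (Z : Fin k → G) (w : Fin n → Fin k) (i : Fin k) (u : K) :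
    ∃ h : bW Z w i u ∈ K, Abelianization.of (⟨bW Z w i u, h⟩ : K) =
      ∏ a : G ⧸ K, cj K u (Quotient.out a) ^ (cnt (fun i => (Z i : G ⧸ K)) w i a) := by
  let P : ℕ → G := fun j => ((List.ofFn fun l => Z (w l)).take j).prod
  let f : Fin n → K := fun j => if w j = i then MulAut.conjNormal (P j) u else 1
  have h1 : bW Z w i u = (((List.ofFn f).prod : K) : G) := by
    have h2 : (((List.ofFn f).prod : K) : G) = K.subtype (List.ofFn f).prod := rfl
    rw [h2, map_list_prod, List.map_ofFn]
    unfold bW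
    congr 2
    funext j
    change _ = ((f j : K) : G)
    by_cases hj : w j = i
    · simp only [f, if_pos hj, MulAut.conjNormal_apply, P]
    · simp only [f, if_neg hj, Subgroup.coe_one]
  refine ⟨h1 ▸ ((List.ofFn f).prod : K).2, ?_⟩
  have h3 : (⟨bW Z w i u, h1 ▸ ((List.ofFn f).prod : K).2⟩ : K) = (List.ofFn f).prod :=
    Subtype.ext h1
  rw [h3, map_list_prod, List.map_ofFn, List.prod_ofFn]
  let q : Fin n → G ⧸ K := fun j => st (fun i => (Z i : G ⧸ K)) w j
  have h4 : ∀ j : Fin n, (⇑Abelianization.of ∘ f) j =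
      if w j = i then cj K u (Quotient.out (q j)) else 1 := by
    intro j
    by_cases hj : w j = i
    · simp only [Function.comp_apply, f, if_pos hj]
      have hq : q j = ((P j : G) : G ⧸ K) := st_eq K Z w j
      rw [hq]
      exact cj_out K u (P j)
    · simp only [Function.comp_apply, f, if_neg hj, map_one]
  rw [Finset.prod_congr rfl fun j _ => h4 j, ← Finset.prod_filter,
    ← Finset.prod_fiberwise (Finset.univ.filter fun j => w j = i) q]
  refine Finset.prod_congr rfl fun a _ => ?_
  have h5 : ∀ j ∈ (Finset.univ.filter fun j => w j = i).filter (fun j => q j = a),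
      cj K u (Quotient.out (q j)) = cj K u (Quotient.out a) := by
    intro j hj
    rw [(Finset.mem_filter.1 hj).2]
  rw [Finset.prod_congr rfl h5, Finset.prod_const, Finset.filter_filter]
  congr 1
  unfold cnt
  congr 1
  ext j
  simp only [Finset.mem_filter, Finset.mem_univ, true_and, q]

theorem phiH_apply (δ : G ⧸ K → ℤ) (u : K) :
    phiH K δ u = ∏ a : G ⧸ K, cj K u (Quotient.out a) ^ (δ a) := by
  unfold phiH
  rw [MonoidHom.finsetProd_apply]
  refine Finset.prod_congr rfl fun a _ => ?_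
  rfl

end Phi2

theorem p_Phi2 : S_Phi2 := by
  intro G _ K _ _ k n n' Z w w' i u
  obtain ⟨h1, e1⟩ := Phi2.bW_of K Z w i u
  obtain ⟨h2, e2⟩ := Phi2.bW_of K Z w' i u
  refine ⟨K.mul_mem h1 (K.inv_mem h2), ?_⟩
  have h3 : (⟨bW Z w i u * (bW Z w' i u)⁻¹, K.mul_mem h1 (K.inv_mem h2)⟩ : K) =
      ⟨bW Z w i u, h1⟩ * (⟨bW Z w' i u, h2⟩ : K)⁻¹ := rfl
  rw [h3, map_mul, map_inv, e1, e2, Phi2.phiH_apply, ← Finset.prod_inv_distrib,
    ← Finset.prod_mul_distrib]
  refine Finset.prod_congr rfl fun a _ => ?_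
  rw [zpow_sub, zpow_natCast, zpow_natCast]

end NilCut
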