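import Pool.Agent.Lib.MP_4ddf81_pr.Stm2

/-!
# MP_4ddf81_pr, stage 2 : the second moment (helper42)
-/

namespace NilCut

open Filter Topology

namespace SMP

variable {Q : Type} [Group Q] [Fintype Q]

omit [Group Q] in
private lemma card_BR (R : ℕ) : (BR Q R).card = (2 * R + 1) ^ Fintype.card Q := by
  classical
  unfold BR
  rw [Fintype.card_piFinset]
  simp only [Int.card_Icc, Finset.prod_const, Finset.card_univ]
  congr 1
  have : (R : ℤ) + 1 - -(R : ℤ) = ((2 * R + 1 : ℕ) : ℤ) := by push_cast; ring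
  rw [this, Int.toNat_natCast]

private lemma Sset_sub {k n n' : ℕ} (R : ℕ) (z : Fin k → Q) (w : Fin n → Fin k)
    (w' : Fin n' → Fin k) : Sset R z w w' ⊆ BR Q R := by
  intro δ hδ
  simp only [Sset, Finset.mem_filter] at hδ
  simp only [BR, Fintype.mem_piFinset]
  intro a
  rw [Finset.mem_Icc]
  exact abs_le.1 (hδ.2 a)

omit [Fintype Q] in
private lemma mem_Sset {k n n' : ℕ} (R : ℕ) (z : Fin k → Q) (w : Fin n → Fin k)
    (w' : Fin n' → Fin k) (i : Fin k) (h : ∀ a, cnt z w i a ≤ R) (h' : ∀ a, cnt z w' i a ≤ R) :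
    (fun a : Q => (cnt z w i a : ℤ) - (cnt z w' i a : ℤ)) ∈ Sset R z w w' := by
  simp only [Sset, Finset.mem_filter, Finset.mem_image, Finset.mem_univ, true_and]
  refine ⟨⟨i, rfl⟩, fun a => ?_⟩
  have h1 := h a
  have h2 := h' a
  rw [abs_le]
  constructor <;> omega

omit [Fintype Q] in
private lemma rS_mem {S : Finset (Q → ℤ)} {δ : Q → ℤ} (h : δ ∈ S) : δ ∈ rS S := by
  unfold rS
  apply AddSubgroup.subset_closure
  exact ⟨δ, h, 1, fun b => by simp⟩

private lemma Wf_nonneg (J k n : ℕ) (s ε : ℝ) (hs : 0 < s) (hε : 0 ≤ ε) : 0 ≤ Wf J s ε k n := by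
  unfold Wf
  have : 0 ≤ ((n : ℝ) + (J : ℝ) * ε * (k : ℝ)) / (s * (k : ℝ)) :=
    div_nonneg (by positivity) (by positivity)
  positivity

private lemma card_bad {k n : ℕ} (s ε η R' a : ℝ) (R L : ℕ) (z : Fin k → Q)
    (w w' : Fin n → Fin k) (hw : w ∈ GW s ε η R' a R L z) (hw' : w' ∈ GW s ε η R' a R L z) :
    (Nat.card {i : Fin k // ¬ ((fun b : Q => (cnt z w' i b : ℤ) - (cnt z w i b : ℤ)) ∈
      rS (Sset R z w w'))} : ℝ) ≤ 2 * a * k := by
  classical
  have h1 := hw.2.big
  have h2 := hw'.2.big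
  have h3 : Nat.card {i : Fin k // ¬ ((fun b : Q => (cnt z w' i b : ℤ) - (cnt z w i b : ℤ)) ∈
      rS (Sset R z w w'))} ≤ Nat.card {i : Fin k // ∃ b, R < cnt z w i b} +
      Nat.card {i : Fin k // ∃ b, R < cnt z w' i b} := by
    rw [Nat.card_eq_fintype_card, Nat.card_eq_fintype_card, Nat.card_eq_fintype_card,
      Fintype.card_subtype, Fintype.card_subtype, Fintype.card_subtype]
    refine le_trans (Finset.card_le_card ?_) (Finset.card_union_le _ _)
    intro i hi
    rw [Finset.mem_filter] at hi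
    rw [Finset.mem_union, Finset.mem_filter, Finset.mem_filter]
    by_contra hcon
    push Not at hcon
    apply hi.2
    have h4 := mem_Sset R z w w' i (hcon.1 (Finset.mem_univ _)) (hcon.2 (Finset.mem_univ _))
    have h5 := neg_mem (rS_mem h4)
    convert h5 using 1
    funext b
    simp
  have h4 : ((Nat.card {i : Fin k // ¬ ((fun b : Q => (cnt z w' i b : ℤ) - (cnt z w i b : ℤ)) ∈
      rS (Sset R z w w'))} : ℕ) : ℝ) ≤ (Nat.card {i : Fin k // ∃ b, R < cnt z w i b} : ℝ) +
      (Nat.card {i : Fin k // ∃ b, R < cnt z w' i b} : ℝ) := by exact_mod_cast h3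
  linarith

end SMP

open SMP in
theorem p_SM (hT : S_TransS) (hL : S_LDPair) (hP : S_Pw) (hC : S_Cls) (hN : S_Cnt) : S_SM := by
  classical
  intro Q _ _ k n R L s ε η R' a θ η₂ z idx hk hs hε hnL ha hR' hθ hθ1 hidx0 hidx
  have hW := Wf_nonneg (Fintype.card Q) k n s ε hs hε
  have hk0 : (0 : ℝ) < k := by exact_mod_cast hk
  set E : ℝ := Real.exp ((k : ℝ) * (η₂ + 2 * η + θ * Real.exp R' + 2 * a * Real.log (1 / θ)))
    with hE
  set W : ℝ := Wf (Fintype.card Q) s ε k n with hWdef
  obtain ⟨hp0, hp1, -, -⟩ := hP Q s L R hs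
  -- the count for one set S
  have hcount : ∀ w ∈ GW (n := n) s ε η R' a R L z, ∀ S ⊆ BR Q R,
      idx S * (Nat.card {w' : Fin n → Fin k // w' ∈ GW s ε η R' a R L z ∧
        Sset R z w w' = S} : ℝ) ≤ (k : ℝ) ^ n * (W * E) := by
    intro w hw S hS
    obtain ⟨hc1, hc2, hc3, hc4⟩ := hC Q S s L hs
    obtain ⟨hn1, hn2, hn3⟩ := hN Q k n z w
    set A : Set (Fin k → Q → ℕ) := {N' | (Nat.card {i : Fin k //
      ¬ ((fun b : Q => (N' i b : ℤ) - (cnt z w i b : ℤ)) ∈ rS S)} : ℝ) ≤ 2 * a * k} with hA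
    have h1 : (Nat.card {w' : Fin n → Fin k // w' ∈ GW s ε η R' a R L z ∧
        Sset R z w w' = S} : ℝ) ≤ (Nat.card {w' : Fin n → Fin k //
        (∀ b, (occ z w' b : ℝ) ≤ (n : ℝ) / (Fintype.card Q : ℝ) + ε * (k : ℝ)) ∧
          cnt z w' ∈ A} : ℝ) := by
      have : Nat.card {w' : Fin n → Fin k // w' ∈ GW s ε η R' a R L z ∧
        Sset R z w w' = S} ≤ Nat.card {w' : Fin n → Fin k //
        (∀ b, (occ z w' b : ℝ) ≤ (n : ℝ) / (Fintype.card Q : ℝ) + ε * (k : ℝ)) ∧
          cnt z w' ∈ A} := by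
        rw [Nat.card_eq_fintype_card, Nat.card_eq_fintype_card]
        apply Fintype.card_subtype_mono
        rintro w' ⟨hw', hSS⟩
        refine ⟨hw'.1, ?_⟩
        have h2 := card_bad s ε η R' a R L z w w' hw hw'
        rw [hSS] at h2
        exact h2
      exact_mod_cast this
    have h2 := hT Q k n L s ε z A hk hs hε hnL
    -- the weight
    have hy : ∀ i, cnt z w i ∈ XL Q L := by
      intro i
      unfold XL
      rw [Fintype.mem_piFinset]
      intro b
      rw [Finset.mem_range]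
      have := hn1 i b
      omega
    have h3 := hL (Q → ℕ) (XL Q L) (pw s) (clsS S s L)
      (fun x' x => (fun b : Q => (x' b : ℤ) - (x b : ℤ)) ∈ rS S) k (fun i => cnt z w i) R' θ
      (2 * a) (fun x _ => hp0 x) hp1 hy (fun i => by
        unfold clsS
        rfl) (fun i => lt_of_lt_of_le (hp0 _) (hc1 _ (hy i))) hθ hθ1 (by linarith) hR'
    have h4 : ∑ i, Real.log (clsS S s L (cnt z w i)) +
        ∑ i, max (-Real.log (clsS S s L (cnt z w i)) - R') 0 +
        (k : ℝ) * θ * Real.exp R' + 2 * a * (k : ℝ) * Real.log (1 / θ) ≤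
        (k : ℝ) * (-(HS S s L) + 2 * η + θ * Real.exp R' + 2 * a * Real.log (1 / θ)) := by
      have h5 := hw.2.ent S hS
      have h6 := hw.2.tail
      have h7 : ∑ i, max (-Real.log (clsS S s L (cnt z w i)) - R') 0 ≤
          ∑ i, max (-Real.log (pw s (cnt z w i)) - R') 0 := by
        apply Finset.sum_le_sum
        intro i _
        apply max_le_max _ le_rfl
        have h8 := Real.log_le_log (hp0 _) (hc1 _ (hy i))
        linarith
      rw [Finset.sum_neg_distrib] at h5
      linarith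
    have hSum : (∑ N ∈ (Fintype.piFinset fun _ : Fin k => XL Q L).filter (fun N => N ∈ A),
        ∏ i, pw s (N i)) ≤
        Real.exp ((k : ℝ) * (-(HS S s L) + 2 * η + θ * Real.exp R' +
          2 * a * Real.log (1 / θ))) := by
      refine le_trans (le_of_eq ?_) (h3.trans (Real.exp_le_exp.2 h4))
      apply Finset.sum_congr _ (fun _ _ => rfl)
      apply Finset.filter_congr
      intro N _
      exact Iff.rfl
    have h9 : (Nat.card {w' : Fin n → Fin k // w' ∈ GW s ε η R' a R L z ∧
        Sset R z w w' = S} : ℝ) ≤ (k : ℝ) ^ n * (W *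
        Real.exp ((k : ℝ) * (-(HS S s L) + 2 * η + θ * Real.exp R' +
          2 * a * Real.log (1 / θ)))) := by
      refine h1.trans (h2.trans ?_)
      apply mul_le_mul_of_nonneg_left _ (by positivity)
      apply mul_le_mul_of_nonneg_left _ hW
      refine le_trans (le_of_eq ?_) hSum
      apply Finset.sum_congr _ (fun _ _ => rfl)
      apply Finset.filter_congr
      intro N _
      exact Iff.rfl
    calc idx S * (Nat.card {w' : Fin n → Fin k // w' ∈ GW s ε η R' a R L z ∧
          Sset R z w w' = S} : ℝ) ≤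
          Real.exp ((k : ℝ) * (HS S s L + η₂)) * ((k : ℝ) ^ n * (W *
            Real.exp ((k : ℝ) * (-(HS S s L) + 2 * η + θ * Real.exp R' +
              2 * a * Real.log (1 / θ))))) :=
          mul_le_mul (hidx S hS) h9 (Nat.cast_nonneg _) (Real.exp_nonneg _)
      _ = (k : ℝ) ^ n * (W * (Real.exp ((k : ℝ) * (HS S s L + η₂)) *
            Real.exp ((k : ℝ) * (-(HS S s L) + 2 * η + θ * Real.exp R' +
              2 * a * Real.log (1 / θ))))) := by ring
      _ = (k : ℝ) ^ n * (W * E) := by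
          rw [← Real.exp_add, hE]
          congr 3
          ring
  -- sum over w'
  have hinner : ∀ w : Fin n → Fin k, (∑ w' : Fin n → Fin k,
      if w ∈ GW s ε η R' a R L z ∧ w' ∈ GW s ε η R' a R L z then idx (Sset R z w w') else 0) ≤
      (k : ℝ) ^ n * (W * 2 ^ ((2 * R + 1) ^ (Fintype.card Q)) * E) := by
    intro w
    by_cases hw : w ∈ GW s ε η R' a R L z
    · have h1 : (∑ w' : Fin n → Fin k,
          if w ∈ GW s ε η R' a R L z ∧ w' ∈ GW s ε η R' a R L z then idx (Sset R z w w')
            else 0) = ∑ w' ∈ Finset.univ.filter (fun w' : Fin n → Fin k =>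
              w' ∈ GW s ε η R' a R L z), idx (Sset R z w w') := by
        rw [Finset.sum_filter]
        apply Finset.sum_congr rfl
        intro w' _
        by_cases hw' : w' ∈ GW s ε η R' a R L z
        · rw [if_pos ⟨hw, hw'⟩, if_pos hw']
        · rw [if_neg (fun h => hw' h.2), if_neg hw']
      rw [h1, ← Finset.sum_fiberwise_of_maps_to (t := (BR Q R).powerset)
        (g := fun w' => Sset R z w w')
        (fun w' _ => Finset.mem_powerset.2 (Sset_sub R z w w'))]
      have h2 : ∀ S ∈ (BR Q R).powerset, (∑ w' ∈ (Finset.univ.filter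
          (fun w' : Fin n → Fin k => w' ∈ GW s ε η R' a R L z)).filter
            (fun w' => Sset R z w w' = S), idx (Sset R z w w')) ≤ (k : ℝ) ^ n * (W * E) := by
        intro S hS
        refine le_trans (le_of_eq ?_) (hcount w hw S (Finset.mem_powerset.1 hS))
        rw [Nat.card_eq_fintype_card, Fintype.card_subtype, Finset.filter_filter]
        rw [Finset.sum_congr rfl (fun w' hw' => by rw [(Finset.mem_filter.1 hw').2.2]),
          Finset.sum_const, nsmul_eq_mul, mul_comm]
      refine (Finset.sum_le_sum h2).trans (le_of_eq ?_)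
      rw [Finset.sum_const, Finset.card_powerset, card_BR, nsmul_eq_mul]
      push_cast
      ring
    · have h1 : (∑ w' : Fin n → Fin k,
          if w ∈ GW s ε η R' a R L z ∧ w' ∈ GW s ε η R' a R L z then idx (Sset R z w w')
            else 0) = 0 := by
        apply Finset.sum_eq_zero
        intro w' _
        rw [if_neg (fun h => hw h.1)]
      rw [h1]
      have hE0 : 0 < E := Real.exp_pos _
      positivity
  refine le_trans (Finset.sum_le_sum fun w _ => ?_) (?_ : ∑ _w : Fin n → Fin k, (k : ℝ) ^ n *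
    (W * 2 ^ ((2 * R + 1) ^ (Fintype.card Q)) * E) ≤ _)
  · refine le_trans (le_of_eq ?_) (hinner w)
    apply Finset.sum_congr rfl
    intro w' _
    congr
  · rw [Finset.sum_const, Finset.card_univ, nsmul_eq_mul]
    simp only [Fintype.card_fun, Fintype.card_fin, Nat.cast_pow]
    rw [two_mul n, pow_add]
    exact le_of_eq (by ring)

end NilCut
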